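import Pool.Agent.H44.RR.AL2

/-!
# Module ALI: the phases along inverse branches

PROOF. STEP 1. For almost every `y`: `b.eval y ≠ 0 → ∃ ρ ≥ 0, qq p B y = ρ * dg a b y ^ 2 * qq p B (gg a b y)`: by `al_fib` (H44/RR/AL1) and `pre_null` (H44/RR/AL2), as `al_pt` there: the set `N` of the exceptional `x` of `al_fib` is null, `{y | b.eval y ≠ 0 ∧ gg a b y ∈ N}` is null
(`pre a b N`), `y ∈ fs a b (gg a b y)` (`mem_fs`); if `dg a b y ≠ 0` multiply by `dg ^ 2`; `dg a b y = 0` only for finitely many `y` with `b.eval y ≠ 0` (`dg_ne`, `ww_ne`), a null set.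
STEP 2 (`al_n`). As `al_it` in AL2 (iterate `pre_null`): for almost every `y`, for all `n`: if `b.eval ((gg a b)^[j] y) ≠ 0` for `j < n`, then STEP 1 holds at all `(gg a b)^[j] y`, `j < n`; multiply: `ρ = ∏ ρ j`.
STEP 3 (`al_g`). `U` open, `g` differentiable on `U`, `G^[n] (g z) = z`. The set `N` of the exceptional `y` of STEP 2 is null. `{z ∈ U | g z ∈ N}` is null: it is contained in `(G^[n]) '' (N ∩ g '' U)`, and `G^[n]` is differentiable at the points of `g '' U`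
(chain rule, `hasDerivAt_gg`), so it maps null sets to null sets (`MeasureTheory.addHaar_image_eq_zero_of_differentiableOn_of_addHaar_eq_zero`, over `ℝ`; restrict scalars; the set `N ∩ g '' U`). At `z ∈ U` with `g z ∉ N`:
`qq (g z) = ρ D ^ 2 qq z`, `D = ∏ j < n, dg ((gg a b)^[j] (g z))`, and `D * deriv g z = 1` (derivative of `G^[n] (g z) = z` at `z`, chain rule), so `qq (g z) * deriv g z ^ 2 = ρ qq z`.
-/

set_option autoImplicit false

open MeasureTheory Metric Set Polynomial Filter Topology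

namespace Pool.Agent.H79.MZ

open Pool.Agent.H61.TT Pool.Agent.H35.EX Pool.Agent.H91.CE Pool.Agent.H44.RR

variable {d : ℕ} {a b : Polynomial ℂ} {p B : ℕ → ℂ}

theorem al_pt2 (h : RatD d a b) (hs : Ser d a b p B) :
    ∀ᵐ y : ℂ, b.eval y ≠ 0 → ∃ ρ : ℝ, 0 ≤ ρ ∧
      qq p B y = (ρ : ℂ) * dg a b y ^ 2 * qq p B (gg a b y) := by
  obtain ⟨N, hN⟩ : ∃ N : Set ℂ, N = {x | ¬ ∀ y ∈ fs a b x, ∃ ρ : ℝ, 0 ≤ ρ ∧ ρ ≤ 1 ∧
      qq p B y / dg a b y ^ 2 = (ρ : ℂ) * qq p B x} := ⟨_, rfl⟩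
  have hN0 : volume N = 0 := by
    rw [hN]
    exact al_fib h hs
  have h1 : ∀ᵐ y : ℂ, y ∉ pre a b N := by
    rw [ae_iff]
    simp only [not_not, Set.ofPred_mem_eq]
    exact pre_null h hN0
  filter_upwards [h1, ae_ww h] with y hy hw hb
  have h2 : ¬ (gg a b y ∈ N) := fun h3 => hy ⟨hb, h3⟩
  rw [hN] at h2
  have h4 : ∀ y' ∈ fs a b (gg a b y), ∃ ρ : ℝ, 0 ≤ ρ ∧ ρ ≤ 1 ∧
      qq p B y' / dg a b y' ^ 2 = (ρ : ℂ) * qq p B (gg a b y) := by
    by_contra h5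
    exact h2 h5
  obtain ⟨ρ, h5, -, h6⟩ := h4 y ((mem_fs h _ _).2 ⟨hb, rfl⟩)
  have hdg : dg a b y ≠ 0 := (dg_ne hb).2 hw
  refine ⟨ρ, h5, ?_⟩
  rw [div_eq_iff (pow_ne_zero 2 hdg)] at h6
  rw [h6]
  ring

theorem al_n (h : RatD d a b) (hs : Ser d a b p B) :
    ∀ᵐ y : ℂ, ∀ n : ℕ, (∀ j < n, b.eval ((gg a b)^[j] y) ≠ 0) → ∃ ρ : ℝ, 0 ≤ ρ ∧
      qq p B y = (ρ : ℂ) * (∏ j ∈ Finset.range n, dg a b ((gg a b)^[j] y)) ^ 2 *
        qq p B ((gg a b)^[n] y) := by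
  have h0 := al_pt2 h hs
  obtain ⟨G, hG⟩ : ∃ G : Set ℂ, G = {y | ¬ (b.eval y ≠ 0 → ∃ ρ : ℝ, 0 ≤ ρ ∧
      qq p B y = (ρ : ℂ) * dg a b y ^ 2 * qq p B (gg a b y))} := ⟨_, rfl⟩
  have hG0 : volume G = 0 := by
    rw [hG]
    exact h0
  have h1 : ∀ n : ℕ, volume {y : ℂ | ¬ ((∀ j < n, b.eval ((gg a b)^[j] y) ≠ 0) →
      (gg a b)^[n] y ∉ G)} = 0 := by
    intro n
    induction n with
    | zero =>
      refine measure_mono_null ?_ hG0
      intro y hy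
      by_contra h2
      exact hy fun _ => h2
    | succ n ih =>
      refine measure_mono_null ?_ (pre_null h ih)
      intro y hy
      rw [Set.mem_ofPred_eq] at hy
      push Not at hy
      obtain ⟨hy1, hy2⟩ := hy
      refine ⟨hy1 0 (Nat.succ_pos n), ?_⟩
      rw [Set.mem_ofPred_eq]
      push Not
      refine ⟨fun j hj => ?_, ?_⟩
      · have h3 := hy1 (j + 1) (by omega)
        rwa [Function.iterate_succ_apply] at h3
      · rwa [Function.iterate_succ_apply] at hy2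
  have h2 : ∀ᵐ y : ℂ, ∀ n : ℕ, (∀ j < n, b.eval ((gg a b)^[j] y) ≠ 0) →
      (gg a b)^[n] y ∉ G := by
    rw [ae_all_iff]
    exact h1
  filter_upwards [h2] with y hy n
  induction n with
  | zero =>
    intro _
    exact ⟨1, zero_le_one, by simp⟩
  | succ n ih =>
    intro hb
    obtain ⟨ρ, h3, h4⟩ := ih (fun j hj => hb j (by omega))
    have h5 := hy n (fun j hj => hb j (by omega))
    rw [hG, Set.mem_ofPred_eq, not_not] at h5
    obtain ⟨ρ', h6, h7⟩ := h5 (hb n (Nat.lt_succ_self n))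
    refine ⟨ρ * ρ', mul_nonneg h3 h6, ?_⟩
    rw [Finset.prod_range_succ, Function.iterate_succ_apply']
    push_cast
    linear_combination h4 + ((ρ : ℂ) *
      (∏ j ∈ Finset.range n, dg a b ((gg a b)^[j] y)) ^ 2) * h7

theorem it_deriv (n : ℕ) (y : ℂ) (hb : ∀ j < n, b.eval ((gg a b)^[j] y) ≠ 0) :
    HasDerivAt ((gg a b)^[n]) (∏ j ∈ Finset.range n, dg a b ((gg a b)^[j] y)) y := by
  induction n with
  | zero =>
    rw [Function.iterate_zero, Finset.range_zero, Finset.prod_empty]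
    exact hasDerivAt_id y
  | succ n ih =>
    have h1 := ih fun j hj => hb j (by omega)
    have h2 := (hasDerivAt_gg (a := a) (hb n (Nat.lt_succ_self n))).comp y h1
    rw [Function.iterate_succ', Finset.prod_range_succ, mul_comm]
    exact h2

theorem al_g (h : RatD d a b) (hs : Ser d a b p B) {U : Set ℂ} (hU : IsOpen U) {g : ℂ → ℂ}
    (hg : DifferentiableOn ℂ g U) {n : ℕ} (hb : ∀ z ∈ U, ∀ j < n, b.eval ((gg a b)^[j] (g z)) ≠ 0)
    (hi : ∀ z ∈ U, (gg a b)^[n] (g z) = z) :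
    ∀ᵐ z : ℂ, z ∈ U → ∃ ρ : ℝ, 0 ≤ ρ ∧ qq p B (g z) * deriv g z ^ 2 = (ρ : ℂ) * qq p B z := by
  obtain ⟨N, hN⟩ : ∃ N : Set ℂ, N = {y | ¬ ∀ n : ℕ, (∀ j < n, b.eval ((gg a b)^[j] y) ≠ 0) →
      ∃ ρ : ℝ, 0 ≤ ρ ∧ qq p B y = (ρ : ℂ) *
        (∏ j ∈ Finset.range n, dg a b ((gg a b)^[j] y)) ^ 2 * qq p B ((gg a b)^[n] y)} := ⟨_, rfl⟩
  have hN0 : volume N = 0 := by
    rw [hN]
    exact al_n h hs
  have hnull : volume ((gg a b)^[n] '' (N ∩ g '' U)) = 0 := by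
    apply addHaar_image_eq_zero_of_differentiableOn_of_addHaar_eq_zero
    · rintro y ⟨-, z, hz, rfl⟩
      exact ((it_deriv n (g z) (hb z hz)).differentiableAt.restrictScalars ℝ).differentiableWithinAt
    · exact measure_mono_null Set.inter_subset_left hN0
  have hae : ∀ᵐ z : ℂ, z ∉ (gg a b)^[n] '' (N ∩ g '' U) := by
    rw [ae_iff]
    simp only [not_not]
    exact hnull
  filter_upwards [hae] with z hz hzU
  have h1 : g z ∉ N := fun h2 => hz ⟨g z, ⟨h2, z, hzU, rfl⟩, hi z hzU⟩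
  rw [hN] at h1
  have h2 : ∀ n : ℕ, (∀ j < n, b.eval ((gg a b)^[j] (g z)) ≠ 0) →
      ∃ ρ : ℝ, 0 ≤ ρ ∧ qq p B (g z) = (ρ : ℂ) *
        (∏ j ∈ Finset.range n, dg a b ((gg a b)^[j] (g z))) ^ 2 *
          qq p B ((gg a b)^[n] (g z)) := by
    by_contra h5
    exact h1 h5
  obtain ⟨ρ, h3, h4⟩ := h2 n (hb z hzU)
  rw [hi z hzU] at h4
  refine ⟨ρ, h3, ?_⟩
  have h5 := it_deriv (a := a) n (g z) (hb z hzU)
  have h6 : HasDerivAt g (deriv g z) z := ((hg z hzU).differentiableAt (hU.mem_nhds hzU)).hasDerivAt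
  have h7 := h5.comp z h6
  have h8 : HasDerivAt ((gg a b)^[n] ∘ g) 1 z := by
    refine (hasDerivAt_id z).congr_of_eventuallyEq ?_
    filter_upwards [hU.mem_nhds hzU] with w hw
    exact hi w hw
  have h9 := h7.unique h8
  rw [h4]
  linear_combination ((ρ : ℂ) * qq p B z *
    ((∏ j ∈ Finset.range n, dg a b ((gg a b)^[j] (g z))) * deriv g z + 1)) * h9

end Pool.Agent.H79.MZ
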