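import Mathlib

/-!
# Module APX: a simple pole is not aligned with a nearly constant function

PROOF. Let `e z = q z - R / (z - x)`, `σ z = 2 x - z` (an isometry of `ball x η` preserving the measure), `V = volume (ball x η) = π η ^ 2`. Since `‖e z‖ ‖z - x‖ ≤ η ‖e z‖` on the ball, `hatm` gives: for `η` small the set
`A1 = {z ∈ ball x η | ‖R‖ < 4 ‖e z‖ ‖z - x‖}` has measure at most `(4 / ‖R‖) η ∫ ‖e‖ ≤ V / 8` (Markov: `mul_meas_ge_le_lintegral₀` or `meas_ge_le_lintegral_div`; `q` is measurable). Let `ε0 = 1 / 32` (for example; `π > 3`). If `∫⁻ z in ball x η, ‖E z - 1‖ₑ ≤ ofReal (ε0 * η ^ 2)`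
then `A2 = {z ∈ ball x η | 1 / 4 < ‖E z - 1‖}` has measure at most `4 ε0 η ^ 2 = η ^ 2 / 8 < V / 8`. Let `N` be the null set where `hal` fails. The sets `A1, A2, N, σ A1, σ A2, σ N, {x}` have total measure `< V`, so there is
`z ∈ ball x η` outside all of them. Put `u = R / (z - x) ≠ 0`, `e1 = e z`, `e2 = e (σ z)`: `q z = u + e1`, `q (σ z) = - u + e2` (`σ z - x = - (z - x)`), `‖e1‖, ‖e2‖ ≤ ‖u‖ / 4`. `E z = ρ1 ω q z`, `E (σ z) = ρ2 ω q (σ z)`, `ρ1, ρ2 ≥ 0`, `‖ω‖ = 1`.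
`Re (E z * conj (E (σ z))) = ρ1 ρ2 Re ((u + e1) conj (- u + e2)) ≤ ρ1 ρ2 (- ‖u‖² + ‖u‖ ‖e2‖ + ‖u‖ ‖e1‖ + ‖e1‖ ‖e2‖) ≤ 0`. But `E z = 1 + s1`, `E (σ z) = 1 + s2`, `‖s1‖, ‖s2‖ ≤ 1 / 4`: `Re (..) ≥ 1 - 1/4 - 1/4 - 1/16 > 0`. Contradiction.
-/

set_option autoImplicit false

open MeasureTheory Metric Set Filter Topology

namespace Pool.Agent.H79.MZ

private theorem apx_alg {a b ω u e1 e2 : ℂ} {ρ1 ρ2 : ℝ} (hω : ‖ω‖ = 1) (h1 : 0 ≤ ρ1) (h2 : 0 ≤ ρ2)
    (ha : a = (ρ1 : ℂ) * (ω * (u + e1))) (hb : b = (ρ2 : ℂ) * (ω * (-u + e2)))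
    (he1 : 4 * ‖e1‖ ≤ ‖u‖) (he2 : 4 * ‖e2‖ ≤ ‖u‖) (ha1 : ‖a - 1‖ < 1 / 4) (hb1 : ‖b - 1‖ < 1 / 4) :
    False := by
  have hre : 0 < (a * (starRingEnd ℂ) b).re := by
    have h1 := (Complex.abs_re_le_norm (a - 1)).trans_lt ha1
    have h2 := (Complex.abs_im_le_norm (a - 1)).trans_lt ha1
    have h3 := (Complex.abs_re_le_norm (b - 1)).trans_lt hb1
    have h4 := (Complex.abs_im_le_norm (b - 1)).trans_lt hb1
    simp only [Complex.sub_re, Complex.sub_im, Complex.one_re, Complex.one_im, sub_zero] at h1 h2 h3 h4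
    rw [abs_lt] at h1 h2 h3 h4
    simp only [Complex.mul_re, Complex.conj_re, Complex.conj_im]
    nlinarith [h1.1, h1.2, h2.1, h2.2, h3.1, h3.2, h4.1, h4.2, mul_pos (show 0 < a.re - 3/4 by linarith [h1.1]) (show 0 < b.re - 3/4 by linarith [h3.1]),
      mul_pos (show 0 < 1/4 - a.im by linarith [h2.2]) (show 0 < 1/4 + b.im by linarith [h4.1]),
      mul_pos (show 0 < 1/4 + a.im by linarith [h2.1]) (show 0 < 1/4 - b.im by linarith [h4.2]),
      mul_pos (show 0 < 1/4 + a.im by linarith [h2.1]) (show 0 < 1/4 + b.im by linarith [h4.1]),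
      mul_pos (show 0 < 1/4 - a.im by linarith [h2.2]) (show 0 < 1/4 - b.im by linarith [h4.2])]
  have hkey : (a * (starRingEnd ℂ) b).re = ρ1 * ρ2 * ((u + e1) * (starRingEnd ℂ) (-u + e2)).re := by
    have h3 : a * (starRingEnd ℂ) b = ((ρ1 * ρ2 : ℝ) : ℂ) * (ω * (starRingEnd ℂ) ω) * ((u + e1) * (starRingEnd ℂ) (-u + e2)) := by
      rw [ha, hb]
      simp only [map_mul, Complex.conj_ofReal]
      push_cast
      ring
    have h4 : ω * (starRingEnd ℂ) ω = 1 := by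
      rw [Complex.mul_conj, Complex.normSq_eq_norm_sq, hω]
      norm_num
    rw [h3, h4, mul_one, Complex.re_ofReal_mul]
  have hle : ((u + e1) * (starRingEnd ℂ) (-u + e2)).re ≤ 0 := by
    have h5 : ((u + e1) * (starRingEnd ℂ) (-u + e2)).re = - ‖u‖ ^ 2 + (u * (starRingEnd ℂ) e2).re - (e1 * (starRingEnd ℂ) u).re + (e1 * (starRingEnd ℂ) e2).re := by
      have h6 : (u + e1) * (starRingEnd ℂ) (-u + e2) = - (u * (starRingEnd ℂ) u) + u * (starRingEnd ℂ) e2 - e1 * (starRingEnd ℂ) u + e1 * (starRingEnd ℂ) e2 := by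
        simp only [map_add, map_neg]
        ring
      rw [h6, Complex.mul_conj, Complex.normSq_eq_norm_sq]
      simp only [Complex.add_re, Complex.sub_re, Complex.neg_re, Complex.ofReal_re]
    have h7 : (u * (starRingEnd ℂ) e2).re ≤ ‖u‖ * ‖e2‖ := by
      refine (Complex.re_le_norm _).trans ?_
      rw [norm_mul, RCLike.norm_conj]
    have h8 : - (e1 * (starRingEnd ℂ) u).re ≤ ‖e1‖ * ‖u‖ := by
      refine (neg_le_abs _).trans ((Complex.abs_re_le_norm _).trans ?_)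
      rw [norm_mul, RCLike.norm_conj]
    have h9 : (e1 * (starRingEnd ℂ) e2).re ≤ ‖e1‖ * ‖e2‖ := by
      refine (Complex.re_le_norm _).trans ?_
      rw [norm_mul, RCLike.norm_conj]
    rw [h5]
    have hu := norm_nonneg u
    have hv1 := norm_nonneg e1
    have hv2 := norm_nonneg e2
    nlinarith [mul_nonneg hu hv1, mul_nonneg hu hv2, mul_le_mul_of_nonneg_left he1 hu, mul_le_mul_of_nonneg_left he2 hu,
      mul_le_mul_of_nonneg_right he1 hv2, mul_nonneg hu hu]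
  rw [hkey] at hre
  have := mul_nonpos_of_nonneg_of_nonpos (mul_nonneg h1 h2) hle
  linarith

theorem apx {q : ℂ → ℂ} {x R : ℂ} (hR : R ≠ 0) (hq : Measurable q)
    (hatm : Tendsto (fun η : ℝ => (∫⁻ z in ball x η, ‖q z - R / (z - x)‖ₑ) / ENNReal.ofReal η)
      (𝓝[>] 0) (𝓝 0)) :
    ∃ ε0 : ℝ, 0 < ε0 ∧ ∀ᶠ η : ℝ in 𝓝[>] 0, ∀ (E : ℂ → ℂ) (ω : ℂ), ‖ω‖ = 1 →
      AEMeasurable E (volume.restrict (ball x η)) →
      (∀ᵐ z : ℂ, z ∈ ball x η → ∃ ρ : ℝ, 0 ≤ ρ ∧ E z = (ρ : ℂ) * (ω * q z)) →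
      ENNReal.ofReal (ε0 * η ^ 2) < ∫⁻ z in ball x η, ‖E z - 1‖ₑ := by
  have hRn : 0 < ‖R‖ := norm_pos_iff.2 hR
  refine ⟨1 / 16, by norm_num, ?_⟩
  have hc : (0 : ENNReal) < ENNReal.ofReal (‖R‖ / 8) := by
    rw [ENNReal.ofReal_pos]; positivity
  have hev := hatm.eventually (gt_mem_nhds hc)
  filter_upwards [hev, self_mem_nhdsWithin] with η hη hη0
  have hη0 : 0 < η := hη0
  intro E ω hω hE hal
  by_contra hcon
  rw [not_lt] at hcon
  have hηE : ENNReal.ofReal η ≠ 0 := by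
    rw [Ne, ENNReal.ofReal_eq_zero, not_le]; exact hη0
  have hI : (∫⁻ z in ball x η, ‖q z - R / (z - x)‖ₑ) ≤ ENNReal.ofReal (‖R‖ / 8 * η) := by
    rw [ENNReal.ofReal_mul (by positivity)]
    exact (ENNReal.div_le_iff hηE ENNReal.ofReal_ne_top).1 hη.le
  -- the three bad sets
  set A1 : Set ℂ := {z | ENNReal.ofReal (‖R‖ / (4 * η)) ≤ ‖q z - R / (z - x)‖ₑ} with hA1
  set A2 : Set ℂ := {z | ENNReal.ofReal (1 / 4) ≤ ‖E z - 1‖ₑ} with hA2
  set N : Set ℂ := {z | ¬ (z ∈ ball x η → ∃ ρ : ℝ, 0 ≤ ρ ∧ E z = (ρ : ℂ) * (ω * q z))} with hN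
  have hN0 : volume N = 0 := hal
  have hm1 : volume (A1 ∩ ball x η) ≤ ENNReal.ofReal (η ^ 2 / 2) := by
    refine (Measure.le_restrict_apply (ball x η) A1).trans ?_
    have hmeas : AEMeasurable (fun z => ‖q z - R / (z - x)‖ₑ) (volume.restrict (ball x η)) := by
      have : Measurable (fun z => ‖q z - R / (z - x)‖ₑ) := by fun_prop
      exact this.aemeasurable
    refine (meas_ge_le_lintegral_div hmeas (by
      rw [Ne, ENNReal.ofReal_eq_zero, not_le]; positivity) ENNReal.ofReal_ne_top).trans ?_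
    refine (ENNReal.div_le_div_right hI _).trans ?_
    rw [← ENNReal.ofReal_div_of_pos (by positivity)]
    refine ENNReal.ofReal_le_ofReal (le_of_eq ?_)
    field_simp
    ring
  have hm2 : volume (A2 ∩ ball x η) ≤ ENNReal.ofReal (η ^ 2 / 4) := by
    refine (Measure.le_restrict_apply (ball x η) A2).trans ?_
    have hmeas : AEMeasurable (fun z => ‖E z - 1‖ₑ) (volume.restrict (ball x η)) := by
      fun_prop
    refine (meas_ge_le_lintegral_div hmeas (by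
      rw [Ne, ENNReal.ofReal_eq_zero, not_le]; norm_num) ENNReal.ofReal_ne_top).trans ?_
    refine (ENNReal.div_le_div_right hcon _).trans ?_
    rw [← ENNReal.ofReal_div_of_pos (by positivity)]
    refine ENNReal.ofReal_le_ofReal (le_of_eq ?_)
    ring
  set B : Set ℂ := (A1 ∩ ball x η) ∪ (A2 ∩ ball x η) ∪ N ∪ {x} with hB
  have hmB : volume B ≤ ENNReal.ofReal (3 / 4 * η ^ 2) := by
    calc volume B ≤ volume ((A1 ∩ ball x η) ∪ (A2 ∩ ball x η) ∪ N) + volume {x} := measure_union_le _ _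
      _ ≤ volume ((A1 ∩ ball x η) ∪ (A2 ∩ ball x η)) + volume N + volume {x} := by
          gcongr; exact measure_union_le _ _
      _ ≤ volume (A1 ∩ ball x η) + volume (A2 ∩ ball x η) + volume N + volume {x} := by
          gcongr; exact measure_union_le _ _
      _ ≤ ENNReal.ofReal (η ^ 2 / 2) + ENNReal.ofReal (η ^ 2 / 4) + 0 + 0 := by
          gcongr
          · exact hN0.le
          · exact (measure_singleton x).le
      _ = ENNReal.ofReal (3 / 4 * η ^ 2) := by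
          rw [add_zero, add_zero, ← ENNReal.ofReal_add (by positivity) (by positivity)]
          congr 1; ring
  have hσ : volume ((fun z : ℂ => 2 * x - z) ⁻¹' B) ≤ ENNReal.ofReal (3 / 4 * η ^ 2) := by
    have hmp : MeasurePreserving (fun z : ℂ => 2 * x - z) volume volume :=
      Measure.measurePreserving_sub_left volume (2 * x)
    have hemb : MeasurableEmbedding (fun z : ℂ => 2 * x - z) :=
      (MeasurableEquiv.subLeft (2 * x)).measurableEmbedding
    rw [hmp.measure_preimage_emb hemb]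
    exact hmB
  have hlt : volume (B ∪ (fun z : ℂ => 2 * x - z) ⁻¹' B) < volume (ball x η) := by
    refine (measure_union_le _ _).trans_lt ?_
    refine (add_le_add hmB hσ).trans_lt ?_
    rw [← ENNReal.ofReal_add (by positivity) (by positivity), Complex.volume_ball,
      ← ENNReal.ofReal_pow hη0.le, show ((NNReal.pi : NNReal) : ENNReal) = ENNReal.ofReal Real.pi by
        rw [ENNReal.ofReal]
        congr 1
        ext
        simp [Real.coe_toNNReal _ Real.pi_pos.le],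
      ← ENNReal.ofReal_mul (by positivity)]
    rw [ENNReal.ofReal_lt_ofReal_iff (by positivity)]
    have := Real.pi_gt_three
    nlinarith [sq_nonneg η, pow_pos hη0 2]
  obtain ⟨z, hzb, hz⟩ : ∃ z ∈ ball x η, z ∉ B ∪ (fun z : ℂ => 2 * x - z) ⁻¹' B := by
    by_contra hno
    push Not at hno
    exact absurd (measure_mono (μ := volume) hno) (not_le.2 hlt)
  rw [mem_union, not_or] at hz
  obtain ⟨hz1, hz2⟩ := hz
  have hz2 : (2 * x - z) ∉ B := hz2
  have hzσ : (2 * x - z) ∈ ball x η := by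
    rw [mem_ball, dist_eq_norm] at hzb ⊢
    rw [show 2 * x - z - x = -(z - x) by ring, norm_neg]
    exact hzb
  have hzx : z ≠ x := fun h => hz1 (Or.inr h)
  have hzx' : z - x ≠ 0 := sub_ne_zero.2 hzx
  have hzxn : 0 < ‖z - x‖ := norm_pos_iff.2 hzx'
  have hzη : ‖z - x‖ < η := by rwa [mem_ball, dist_eq_norm] at hzb
  have good : ∀ w ∈ ball x η, w ∉ B → ‖q w - R / (w - x)‖ < ‖R‖ / (4 * η) ∧ ‖E w - 1‖ < 1 / 4 ∧
      ∃ ρ : ℝ, 0 ≤ ρ ∧ E w = (ρ : ℂ) * (ω * q w) := by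
    intro w hw hwB
    refine ⟨?_, ?_, ?_⟩
    · by_contra h
      rw [not_lt] at h
      refine hwB (Or.inl (Or.inl (Or.inl ⟨?_, hw⟩)))
      show ENNReal.ofReal (‖R‖ / (4 * η)) ≤ ‖q w - R / (w - x)‖ₑ
      rw [← ofReal_norm]
      exact ENNReal.ofReal_le_ofReal h
    · by_contra h
      rw [not_lt] at h
      refine hwB (Or.inl (Or.inl (Or.inr ⟨?_, hw⟩)))
      show ENNReal.ofReal (1 / 4) ≤ ‖E w - 1‖ₑ
      rw [← ofReal_norm]
      exact ENNReal.ofReal_le_ofReal h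
    · by_contra h
      refine hwB (Or.inl (Or.inr ?_))
      intro h'
      exact h (h' hw)
  obtain ⟨g1, g2, ρ1, hρ1, g3⟩ := good z hzb hz1
  obtain ⟨k1, k2, ρ2, hρ2, k3⟩ := good (2 * x - z) hzσ hz2
  have hun : ‖R / (z - x)‖ = ‖R‖ / ‖z - x‖ := norm_div _ _
  have hub : ‖R‖ / η ≤ ‖R / (z - x)‖ := by
    rw [hun]
    exact div_le_div_of_nonneg_left hRn.le hzxn hzη.le
  have h4η : ‖R‖ / (4 * η) = ‖R‖ / η / 4 := by
    field_simp
  have hσx : R / (2 * x - z - x) = - (R / (z - x)) := by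
    rw [show 2 * x - z - x = -(z - x) by ring, div_neg]
  rw [hσx] at k1
  refine apx_alg (a := E z) (b := E (2 * x - z)) (u := R / (z - x)) (e1 := q z - R / (z - x))
    (e2 := q (2 * x - z) + R / (z - x)) hω hρ1 hρ2 ?_ ?_ ?_ ?_ g2 k2
  · rw [g3]; ring
  · rw [k3]; ring
  · rw [h4η] at g1
    linarith
  · rw [h4η, sub_neg_eq_add] at k1
    linarith

end Pool.Agent.H79.MZ
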