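import Pool.Agent.H44.DN.KOE

/-!
# Module BKG: the kernel `g' ^ 2 / (g' x (g - v))` is nearly constant near `x`

PROOF. Let `β = deriv g x`, `k z = deriv g z ^ 2 / (β * (g z - v))`, `k x = β / (g x - v)`, so `1 / A ≤ ‖k x‖ ≤ A`. `koe` (H44/DN/KOE; constants `C, N`) on `ball x η` with radius `η / 2`: `‖deriv g z‖ ≤ C 2 ^ N ‖β‖ =: A' ‖β‖`, `‖g z - g x‖ ≤ A' ‖β‖ ‖z - x‖`. With `s0 = min (η / 4) (1 / (2 A A'))`: for
`z ∈ ball x s0`: `‖g z - v‖ ≥ ‖g x - v‖ - A' ‖β‖ s0 ≥ ‖β‖ / A - ‖β‖ / (2 A) = ‖β‖ / (2 A)`. So `k` is holomorphic on `ball x s0` and bounded by `2 A A' ^ 2`; Cauchy: `‖deriv k‖ ≤ 2 A A' ^ 2 / (s0 / 2)` on `ball x (s0 / 2)`, so `‖k z - k x‖ ≤ (4 A A' ^ 2 / s0) ‖z - x‖` there;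
divide by `‖k x‖ ≥ 1 / A`: `C1 = 4 A ^ 2 A' ^ 2 / s0`, `s1 = s0 / 2`.
-/

set_option autoImplicit false

open MeasureTheory Metric Set Filter Topology

namespace Pool.Agent.H79.MZ

theorem bkg {η A : ℝ} (hη : 0 < η) (hA : 1 ≤ A) : ∃ s1 C1 : ℝ, 0 < s1 ∧ s1 ≤ η / 2 ∧ 1 ≤ C1 ∧
    ∀ (g : ℂ → ℂ) (x v : ℂ), DifferentiableOn ℂ g (ball x η) → InjOn g (ball x η) →
      deriv g x ≠ 0 → ‖g x - v‖ ≤ A * ‖deriv g x‖ → ‖deriv g x‖ ≤ A * ‖g x - v‖ →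
        ∀ s : ℝ, 0 < s → s ≤ s1 → ∀ z ∈ ball x s,
          ‖(deriv g z ^ 2 / (deriv g x * (g z - v))) / (deriv g x / (g x - v)) - 1‖ ≤ C1 * s := by
  obtain ⟨C, N, hC, hkoe⟩ := Pool.Agent.H44.DN.koe
  obtain ⟨A', hA'⟩ : ∃ A' : ℝ, A' = C * 2 ^ N := ⟨_, rfl⟩
  have h2N : (0 : ℝ) < 2 ^ N := by positivity
  have hA'1 : 1 ≤ A' := by
    have : (1 : ℝ) ≤ 2 ^ N := one_le_pow₀ (by norm_num)
    rw [hA']
    nlinarith
  have hA0 : 0 < A := by linarith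
  have hA'0 : 0 < A' := by linarith
  obtain ⟨s0, hs0⟩ : ∃ s0 : ℝ, s0 = min (η / 4) (1 / (2 * A * A')) := ⟨_, rfl⟩
  have hs0p : 0 < s0 := by
    rw [hs0]
    exact lt_min (by positivity) (by positivity)
  have hs0η : s0 ≤ η / 4 := by
    rw [hs0]
    exact min_le_left _ _
  have hs0A : s0 * (2 * A * A') ≤ 1 := by
    have h1 : s0 ≤ 1 / (2 * A * A') := by
      rw [hs0]
      exact min_le_right _ _
    rwa [le_div_iff₀ (by positivity)] at h1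
  obtain ⟨M, hM⟩ : ∃ M : ℝ, M = 2 * A * A' ^ 2 := ⟨_, rfl⟩
  have hM0 : 0 < M := by
    rw [hM]
    positivity
  refine ⟨s0, max 1 (A * (2 * M / s0)), hs0p, by linarith, le_max_left _ _, ?_⟩
  intro g x v hg hi hβ0 hu hl s hs hs1 z hz
  obtain ⟨β, hβ⟩ : ∃ β : ℂ, β = deriv g x := ⟨_, rfl⟩
  rw [← hβ] at hβ0 hu hl ⊢
  have hβp : 0 < ‖β‖ := norm_pos_iff.mpr hβ0
  have hb : ∀ w ∈ ball x s0, ‖deriv g w‖ ≤ A' * ‖β‖ ∧ ‖g w - g x‖ ≤ A' * ‖β‖ * s0 := by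
    intro w hw
    rw [mem_ball, dist_eq_norm] at hw
    have hw' : w ∈ closedBall x (η / 2) := by
      rw [mem_closedBall, dist_eq_norm]
      linarith
    obtain ⟨h1, -, h3, -⟩ := hkoe g x η hη hg hi (η / 2) (by positivity) (by linarith) w hw'
    have e : (1 - η / 2 / η : ℝ) = 1 / 2 := by
      field_simp
      norm_num
    rw [e, one_div, inv_pow, ← div_eq_mul_inv, div_le_iff₀ h2N, ← hβ] at h1 h3
    constructor
    · calc ‖deriv g w‖ ≤ C * ‖β‖ * 2 ^ N := h1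
        _ = A' * ‖β‖ := by rw [hA']; ring
    · calc ‖g w - g x‖ ≤ C * (‖β‖ * ‖w - x‖) * 2 ^ N := h3
        _ = A' * ‖β‖ * ‖w - x‖ := by rw [hA']; ring
        _ ≤ A' * ‖β‖ * s0 := mul_le_mul_of_nonneg_left hw.le (by positivity)
  have hlow : ∀ w ∈ ball x s0, ‖β‖ ≤ 2 * A * ‖g w - v‖ := by
    intro w hw
    have h1 := (hb w hw).2
    have h2 : ‖g x - v‖ ≤ ‖g w - v‖ + ‖g w - g x‖ := by
      have h3 : g x - v = (g w - v) - (g w - g x) := by ring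
      rw [h3]
      exact norm_sub_le _ _
    have h4 : A * ‖g x - v‖ ≤ A * (‖g w - v‖ + A' * ‖β‖ * s0) :=
      mul_le_mul_of_nonneg_left (h2.trans (by linarith)) hA0.le
    have h5 : A * (A' * ‖β‖ * s0) ≤ ‖β‖ / 2 := by
      have h6 : s0 * (2 * A * A') * ‖β‖ ≤ 1 * ‖β‖ := mul_le_mul_of_nonneg_right hs0A hβp.le
      linarith
    linarith
  have hne : ∀ w ∈ ball x s0, g w - v ≠ 0 := by
    intro w hw h0
    have h1 := hlow w hw
    rw [h0, norm_zero, mul_zero] at h1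
    linarith
  have hx : x ∈ ball x s0 := mem_ball_self hs0p
  obtain ⟨k, hk⟩ : ∃ k : ℂ → ℂ, k = fun w => deriv g w ^ 2 / (β * (g w - v)) := ⟨_, rfl⟩
  have hkb : ∀ w ∈ ball x s0, ‖k w‖ ≤ M := by
    intro w hw
    have h0 : 0 < ‖g w - v‖ := norm_pos_iff.mpr (hne w hw)
    rw [hk]
    show ‖deriv g w ^ 2 / (β * (g w - v))‖ ≤ M
    rw [norm_div, norm_mul, norm_pow, div_le_iff₀ (by positivity)]
    calc ‖deriv g w‖ ^ 2 ≤ (A' * ‖β‖) ^ 2 := pow_le_pow_left₀ (norm_nonneg _) (hb w hw).1 2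
      _ = A' ^ 2 * ‖β‖ * ‖β‖ := by ring
      _ ≤ A' ^ 2 * ‖β‖ * (2 * A * ‖g w - v‖) :=
        mul_le_mul_of_nonneg_left (hlow w hw) (by positivity)
      _ = M * (‖β‖ * ‖g w - v‖) := by rw [hM]; ring
  have hsub : ball x s0 ⊆ ball x η := ball_subset_ball (by linarith)
  have hkd : DifferentiableOn ℂ k (ball x s0) := by
    rw [hk]
    refine DifferentiableOn.div ?_ ?_ ?_
    · exact ((hg.deriv isOpen_ball).mono hsub).pow 2
    · exact ((hg.mono hsub).sub_const v).const_mul β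
    · intro w hw
      exact mul_ne_zero hβ0 (hne w hw)
  have hmaps : MapsTo k (ball x s0) (closedBall (k x) (2 * M)) := by
    intro w hw
    rw [mem_closedBall, dist_eq_norm]
    calc ‖k w - k x‖ ≤ ‖k w‖ + ‖k x‖ := norm_sub_le _ _
      _ ≤ M + M := add_le_add (hkb w hw) (hkb x hx)
      _ = 2 * M := by ring
  have hz0 : z ∈ ball x s0 := ball_subset_ball hs1 hz
  have h1 := Complex.dist_le_div_mul_dist_of_mapsTo_ball hkd hmaps hz0
  have hzs : dist z x ≤ s := (mem_ball.mp hz).le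
  have h2 : ‖k z - k x‖ ≤ 2 * M / s0 * s := by
    rw [← dist_eq_norm]
    exact h1.trans (mul_le_mul_of_nonneg_left hzs (by positivity))
  have hvx := hne x hx
  have hkx : k x = β / (g x - v) := by
    rw [hk]
    show deriv g x ^ 2 / (β * (g x - v)) = β / (g x - v)
    rw [← hβ]
    field_simp
  have hκ0 : β / (g x - v) ≠ 0 := div_ne_zero hβ0 hvx
  have hκ : 1 ≤ A * ‖β / (g x - v)‖ := by
    have h3 : 0 < ‖g x - v‖ := norm_pos_iff.mpr hvx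
    rw [norm_div, ← mul_div_assoc, one_le_div h3]
    exact hu
  have h4 : deriv g z ^ 2 / (β * (g z - v)) / (β / (g x - v)) - 1 =
      (k z - k x) / (β / (g x - v)) := by
    rw [sub_div, hkx, div_self hκ0, hk]
  rw [h4, norm_div]
  have h5 : 0 < ‖β / (g x - v)‖ := norm_pos_iff.mpr hκ0
  rw [div_le_iff₀ h5]
  have h6 : 0 ≤ 2 * M / s0 * s := by positivity
  calc ‖k z - k x‖ ≤ 2 * M / s0 * s := h2
    _ = 2 * M / s0 * s * 1 := by ring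
    _ ≤ 2 * M / s0 * s * (A * ‖β / (g x - v)‖) := mul_le_mul_of_nonneg_left hκ h6
    _ = A * (2 * M / s0) * s * ‖β / (g x - v)‖ := by ring
    _ ≤ max 1 (A * (2 * M / s0)) * s * ‖β / (g x - v)‖ := by
      refine mul_le_mul_of_nonneg_right ?_ h5.le
      exact mul_le_mul_of_nonneg_right (le_max_right _ _) hs.le

end Pool.Agent.H79.MZ
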