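import Pool.Agent.H79.MZ.EXP1

/-!
# Module TFB: the transversality functional is linear and bounded

PROOF. `‖xi v0 v (p k)‖ ≤ M ‖v‖` for all `k`: `‖p k‖ ≤ R`, `‖ev v.1 (p k)‖ ≤ (∑ i, R ^ i) ‖v‖` (sup norms of `E d`), `‖ev v0.1 (p k)‖`, `‖ev v0.2 (p k)‖` bounded, `‖ev v0.2 (p k)‖ ≥ δ`. So the series converges absolutely (`cr.sm`), it is linear (`xi_lin`), and
`‖TF v0 p B v‖ ≤ (M ∑ ‖B k‖) ‖v‖`; the tails: `‖TF v0 p B v - ∑ k < n, ..‖ ≤ M (∑' k, ‖B (k + n)‖) ‖v‖`.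
-/

set_option autoImplicit false

open Filter Topology Polynomial Metric Set

namespace Pool.Agent.H79.MZ

open Pool.Agent.H44.Fatou Pool.Agent.H32.BT Pool.Agent.H79.Eul Pool.Agent.H79.Par Pool.Agent.H61.TT

variable {d : ℕ} {v0 : E d} {p B : ℕ → ℂ}

private theorem ev_bd (a : Fin (d + 1) → ℂ) {z : ℂ} {R : ℝ} (hz : ‖z‖ ≤ R) :
    ‖ev a z‖ ≤ (∑ i : Fin (d + 1), R ^ (i : ℕ)) * ‖a‖ := by
  unfold ev
  rw [Finset.sum_mul]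
  refine norm_sum_le_of_le _ fun i _ => ?_
  rw [norm_mul, norm_pow, mul_comm]
  have h1 : ‖z‖ ^ (i : ℕ) ≤ R ^ (i : ℕ) := pow_le_pow_left₀ (norm_nonneg _) hz _
  exact mul_le_mul h1 (norm_le_pi_norm a i) (norm_nonneg _) ((pow_nonneg (norm_nonneg _) _).trans h1)

theorem xi_bd (hc : Cr v0 p B) : ∃ M : ℝ, 0 < M ∧ ∀ (v : E d) (k : ℕ), ‖xi v0 v (p k)‖ ≤ M * ‖v‖ := by
  obtain ⟨R, hR⟩ := hc.pb
  obtain ⟨δ, hδ, hb⟩ := hc.bb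
  have hR0 : 0 ≤ R := (norm_nonneg _).trans (hR 0)
  set S : ℝ := ∑ i : Fin (d + 1), R ^ (i : ℕ) with hS
  have hS0 : 0 ≤ S := Finset.sum_nonneg fun i _ => pow_nonneg hR0 _
  refine ⟨S * S * (‖v0.1‖ + ‖v0.2‖) / δ ^ 2 + 1, by positivity, fun v k => ?_⟩
  have h1 := ev_bd v.1 (hR k)
  have h2 := ev_bd v.2 (hR k)
  have h3 := ev_bd v0.1 (hR k)
  have h4 := ev_bd v0.2 (hR k)
  rw [← hS] at h1 h2 h3 h4
  have h5 : ‖v.1‖ ≤ ‖v‖ := norm_fst_le v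
  have h6 : ‖v.2‖ ≤ ‖v‖ := norm_snd_le v
  have h7 : ‖ev v.1 (p k) * ev v0.2 (p k) - ev v0.1 (p k) * ev v.2 (p k)‖ ≤
      S * S * (‖v0.1‖ + ‖v0.2‖) * ‖v‖ := by
    refine (norm_sub_le _ _).trans ?_
    rw [norm_mul, norm_mul]
    have h8 : ‖ev v.1 (p k)‖ * ‖ev v0.2 (p k)‖ ≤ (S * ‖v‖) * (S * ‖v0.2‖) :=
      mul_le_mul (h1.trans (mul_le_mul_of_nonneg_left h5 hS0)) h4 (norm_nonneg _) (by positivity)
    have h9 : ‖ev v0.1 (p k)‖ * ‖ev v.2 (p k)‖ ≤ (S * ‖v0.1‖) * (S * ‖v‖) :=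
      mul_le_mul h3 (h2.trans (mul_le_mul_of_nonneg_left h6 hS0)) (norm_nonneg _) (by positivity)
    calc ‖ev v.1 (p k)‖ * ‖ev v0.2 (p k)‖ + ‖ev v0.1 (p k)‖ * ‖ev v.2 (p k)‖
        ≤ (S * ‖v‖) * (S * ‖v0.2‖) + (S * ‖v0.1‖) * (S * ‖v‖) := add_le_add h8 h9
      _ = S * S * (‖v0.1‖ + ‖v0.2‖) * ‖v‖ := by ring
  unfold xi
  rw [norm_div, norm_pow]
  have h10 : δ ^ 2 ≤ ‖ev v0.2 (p k)‖ ^ 2 := pow_le_pow_left₀ hδ.le (hb k) 2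
  calc ‖ev v.1 (p k) * ev v0.2 (p k) - ev v0.1 (p k) * ev v.2 (p k)‖ / ‖ev v0.2 (p k)‖ ^ 2
      ≤ S * S * (‖v0.1‖ + ‖v0.2‖) * ‖v‖ / δ ^ 2 :=
        div_le_div₀ (by positivity) h7 (by positivity) h10
    _ = S * S * (‖v0.1‖ + ‖v0.2‖) / δ ^ 2 * ‖v‖ := by ring
    _ ≤ (S * S * (‖v0.1‖ + ‖v0.2‖) / δ ^ 2 + 1) * ‖v‖ :=
        mul_le_mul_of_nonneg_right (by linarith) (norm_nonneg _)

private theorem tf_term {M : ℝ} (hM : ∀ (v : E d) (k : ℕ), ‖xi v0 v (p k)‖ ≤ M * ‖v‖) (v : E d)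
    (k : ℕ) : ‖B k * xi v0 v (p k)‖ ≤ ‖B k‖ * (M * ‖v‖) := by
  rw [norm_mul]
  exact mul_le_mul_of_nonneg_left (hM v k) (norm_nonneg _)

theorem tf_sum (hc : Cr v0 p B) (v : E d) : Summable fun k => B k * xi v0 v (p k) := by
  obtain ⟨M, _, hM⟩ := xi_bd hc
  exact Summable.of_norm_bounded (hc.sm.mul_right (M * ‖v‖)) fun k => tf_term hM v k

theorem tf_add (hc : Cr v0 p B) (u w : E d) : TF v0 p B (u + w) = TF v0 p B u + TF v0 p B w := by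
  unfold TF
  rw [← (tf_sum hc u).tsum_add (tf_sum hc w)]
  refine tsum_congr fun k => ?_
  rw [(xi_lin v0 (p k) u w 0).1, mul_add]

theorem tf_smul (hc : Cr v0 p B) (s : ℂ) (u : E d) : TF v0 p B (s • u) = s * TF v0 p B u := by
  unfold TF
  rw [← (tf_sum hc u).tsum_mul_left]
  refine tsum_congr fun k => ?_
  rw [(xi_lin v0 (p k) u 0 s).2]
  ring

theorem tf_bd (hc : Cr v0 p B) : ∃ M : ℝ, 0 < M ∧ ∀ v : E d, ‖TF v0 p B v‖ ≤ M * ‖v‖ := by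
  obtain ⟨M, hM0, hM⟩ := xi_bd hc
  have hT : 0 ≤ ∑' k, ‖B k‖ := tsum_nonneg fun k => norm_nonneg _
  refine ⟨(∑' k, ‖B k‖) * M + 1, by positivity, fun v => ?_⟩
  have h1 : ‖TF v0 p B v‖ ≤ ∑' k, ‖B k‖ * (M * ‖v‖) :=
    tsum_of_norm_bounded (hc.sm.mul_right (M * ‖v‖)).hasSum fun k => tf_term hM v k
  rw [hc.sm.tsum_mul_right] at h1
  calc ‖TF v0 p B v‖ ≤ (∑' k, ‖B k‖) * (M * ‖v‖) := h1
    _ = (∑' k, ‖B k‖) * M * ‖v‖ := by ring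
    _ ≤ ((∑' k, ‖B k‖) * M + 1) * ‖v‖ := mul_le_mul_of_nonneg_right (by linarith) (norm_nonneg _)

theorem tf_tail (hc : Cr v0 p B) {ε : ℝ} (hε : 0 < ε) : ∃ J : ℕ, ∀ n ≥ J, ∀ v : E d,
    ‖TF v0 p B v - ∑ k ∈ Finset.range n, B k * xi v0 v (p k)‖ ≤ ε * ‖v‖ := by
  obtain ⟨M, hM0, hM⟩ := xi_bd hc
  have h1 : Tendsto (fun n => ∑' k, ‖B (k + n)‖) atTop (𝓝 0) :=
    tendsto_sum_nat_add fun k => ‖B k‖
  have h2 : ∀ᶠ n in atTop, ∑' k, ‖B (k + n)‖ < ε / M :=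
    h1.eventually (gt_mem_nhds (div_pos hε hM0))
  obtain ⟨J, hJ⟩ := eventually_atTop.1 h2
  refine ⟨J, fun n hn v => ?_⟩
  have h3 := (tf_sum hc v).sum_add_tsum_nat_add n
  have h4 : TF v0 p B v - ∑ k ∈ Finset.range n, B k * xi v0 v (p k) =
      ∑' k, B (k + n) * xi v0 v (p (k + n)) := by
    unfold TF
    rw [← h3]
    ring
  rw [h4]
  have h5 : Summable fun k => ‖B (k + n)‖ := (summable_nat_add_iff n).2 hc.sm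
  have h6 : ‖∑' k, B (k + n) * xi v0 v (p (k + n))‖ ≤ ∑' k, ‖B (k + n)‖ * (M * ‖v‖) :=
    tsum_of_norm_bounded (h5.mul_right (M * ‖v‖)).hasSum fun k => tf_term hM v (k + n)
  rw [h5.tsum_mul_right] at h6
  refine h6.trans ?_
  have h7 := (hJ n hn).le
  calc (∑' k, ‖B (k + n)‖) * (M * ‖v‖) ≤ ε / M * (M * ‖v‖) :=
        mul_le_mul_of_nonneg_right h7 (by positivity)
    _ = ε * ‖v‖ := by
      rw [← mul_assoc, div_mul_cancel₀ _ hM0.ne']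

end Pool.Agent.H79.MZ
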