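import Pool.Agent.H79.MZ.INF
import Pool.Agent.H79.MZ.TFB
import Pool.Agent.H44.RR.SFE
import Pool.Agent.H61.TT.Surj

/-!
# Module TFN: transversality

PROOF. Suppose `TF v0 p B v = 0` for all `v`. `Ser d (pol v0.1) (pol v0.2) p B`: `pb`, `bb` (`ev_pol`), `orb` (`gg`), `hB` (`dg_eq`, `wv_pol`: `dg (pol v0.1) (pol v0.2) z = wv v0 z / ev v0.2 z ^ 2`), `crit`, `B0`, `sm` from `h.cr`; `van`: for `η` of degree `≤ 2 d` `xi_surj` (H61/TT/Surj) gives `v` with
`xi v0 v z = η.eval z / (pol v0.2).eval z ^ 2` (see the proof of `kapE_ne1`, H35/EX/KapNe, which ends in the same way). If the orbit is infinite: `inf_false`. If it is finite: `ser_falseE` (H44/RR/SFE) with `hinf := h.reg`: the closure `Xc p` is the finite set `range (fun k => p (k + 1))` (`Set.Finite.isClosed`);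
no `p (k + 1)` is critical: `cr.hB` with `B k ≠ 0` (`cr_ne`), `ww` at `p (k + 1)` is `wv v0 (p (k+1)) ≠ 0`; `p 0 ∉ Xc p`: `p 0 = p (k + 1)` is impossible as `wv v0 (p 0) = 0`.
-/

set_option autoImplicit false

open MeasureTheory Metric Set Polynomial Filter Topology

namespace Pool.Agent.H79.MZ

open Pool.Agent.H44.Fatou Pool.Agent.H32.BT Pool.Agent.H79.Eul Pool.Agent.H79.Par Pool.Agent.H61.TT
open Pool.Agent.H35.EX Pool.Agent.H44.RR

theorem tf_ne {d : ℕ} {v0 : E d} {p B : ℕ → ℂ} {K : Set ℂ} {δ : ℝ} (h : Good v0 p B K δ) :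
    ∃ v : E d, TF v0 p B v ≠ 0 := by
  by_contra hcon
  push Not at hcon
  have hR : RatD d (pol v0.1) (pol v0.2) := ⟨h.hd, h.cop, h.deg⟩
  have hc := h.cr
  have hB0 : ∀ k, B k ≠ 0 := by
    intro k
    induction k with
    | zero => rw [hc.B0]; exact one_ne_zero
    | succ k ih =>
      intro h0
      apply ih
      rw [← hc.hB k, h0, zero_mul]
  have hser : Ser d (pol v0.1) (pol v0.2) p B := by
    refine ⟨hc.pb, ?_, ?_, ?_, ?_, hc.B0, hc.sm, ?_⟩
    · obtain ⟨δ, h1, h2⟩ := hc.bb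
      exact ⟨δ, h1, fun k => by rw [← ev_pol]; exact h2 k⟩
    · intro k
      unfold gg
      rw [← ev_pol, ← ev_pol]
      exact hc.orb k
    · intro k
      rw [← dg_eq]
      exact hc.hB k
    · rw [← dg_eq, hc.crit, zero_div]
    · intro η hη
      obtain ⟨v, hv⟩ := xi_surj hR hη
      rw [← hcon v]
      unfold TF
      exact tsum_congr fun k => by rw [hv]
  rcases (Set.range fun k => p (k + 1)).finite_or_infinite with hf | hi
  · have hX : Xc p = Set.range fun k => p (k + 1) := hf.isClosed.closure_eq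
    have hw : ∀ k, (ww (pol v0.1) (pol v0.2)).eval (p (k + 1)) ≠ 0 := by
      intro k h0
      have h1 := hc.hB k
      rw [wv_pol, h0, zero_div, mul_zero] at h1
      exact hB0 k h1.symm
    refine ser_falseE hR hser ?_ ?_ h.reg
    · rw [hX]
      rintro ⟨k, hk⟩
      apply hw k
      have h2 : p (k + 1) = p 0 := hk
      rw [h2, ← wv_pol, hc.crit]
    · rw [hX]
      rintro x ⟨k, rfl⟩
      exact hw k
  · exact inf_false h hser hi

end Pool.Agent.H79.MZ
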