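import Mathlib

/-!
# Module PLI: hyperbolic times with few captures (real sequences)

PROOF. We may replace `A'` by a larger number with `A' > α`. Let `S n = ∑ j < n, (a j - α)`, `S 0 = 0`, `S N ≥ (β - α) N` for the infinitely many `N` of `hs`. Call `n` a record if `S i ≤ S n` for all `i ≤ n`: this is the first condition (`∑ j ∈ Ico i n, a j - α (n - i) = S n - S i`). COUNT: let `mx N = max over i ≤ N of S i`; `mx` increases from `N` to `N + 1` only if `N + 1` is a record, and then by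
at most `A' - α` (`S (N+1) ≤ S N + (A' - α)`), so `#{records in [1, N]} * (A' - α) ≥ mx N - mx 0 ≥ S N ≥ (β - α) N` for these `N`: at least `θ N` records up to `N`, `θ = (β - α) / (A' - α) > 0`. (Induction on `N`: `mx N ≤ (A' - α) * #records`; `mx N` as `Finset.sup'` or prove: for all `i ≤ N`, `S i ≤ (A' - α) * #{records ≤ N}`.)
CAPTURES: let `c n = card (filter (fun i => γ (n - i) ≤ b i) (range n))`. `∑ n ≤ N, c n = #{(i, n) | i < n ≤ N, γ (n - i) ≤ b i} ≤ ∑ i < N, #{k ≥ 1 | γ k ≤ b i} ≤ ∑ i < N, max (b i) 0 / γ ≤ (Q N + C) / γ`. Choose `M` with `(M : ℝ) * θ > 2 Q / γ + 1` or so (`Q ≥ 0` may be assumed). If the set of the records `n` with `c n ≤ M` were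
finite, all of them `≤ N0`, then for these `N > N0` the at least `θ N - N0 - 1` records in `(N0, N]` have `c n ≥ M`, so `M (θ N - N0 - 1) ≤ (Q N + C) / γ`: false for `N` large. `T` = that set.
-/

set_option autoImplicit false

open Filter Topology Finset

namespace Pool.Agent.H79.MZ

private theorem pli_col {γ b : ℝ} (hγ : 0 < γ) (i N : ℕ) :
    (((Ioc i N).filter (fun n : ℕ => γ * ((n : ℝ) - i) ≤ b)).card : ℝ) ≤ max b 0 / γ := by
  have h0 : (0 : ℝ) ≤ max b 0 / γ := div_nonneg (le_max_right _ _) hγ.le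
  have hsub : (Ioc i N).filter (fun n : ℕ => γ * ((n : ℝ) - i) ≤ b) ⊆
      Ioc i (i + ⌊max b 0 / γ⌋₊) := by
    intro n hn
    rw [mem_filter, mem_Ioc] at hn
    obtain ⟨⟨h1, -⟩, h2⟩ := hn
    rw [mem_Ioc]
    refine ⟨h1, ?_⟩
    have h3 : ((n - i : ℕ) : ℝ) ≤ max b 0 / γ := by
      rw [Nat.cast_sub h1.le, le_div_iff₀ hγ]
      calc ((n : ℝ) - i) * γ = γ * ((n : ℝ) - i) := mul_comm _ _
        _ ≤ b := h2
        _ ≤ max b 0 := le_max_left _ _
    have h4 := Nat.le_floor h3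
    omega
  have h5 := card_le_card hsub
  rw [Nat.card_Ioc, Nat.add_sub_cancel_left] at h5
  calc (((Ioc i N).filter (fun n : ℕ => γ * ((n : ℝ) - i) ≤ b)).card : ℝ) ≤
        (⌊max b 0 / γ⌋₊ : ℝ) := by exact_mod_cast h5
    _ ≤ max b 0 / γ := Nat.floor_le h0

private theorem pli_sum {b : ℕ → ℝ} {C Q γ : ℝ} (hγ : 0 < γ)
    (hb : ∀ n : ℕ, ∑ j ∈ range n, max (b j) 0 ≤ Q * n + C) (N : ℕ) :
    ((∑ n ∈ Icc 1 N, ((range n).filter (fun i => γ * ((n : ℝ) - i) ≤ b i)).card : ℕ) : ℝ) ≤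
      (Q * N + C) / γ := by
  have h1 : ∑ n ∈ Icc 1 N, ((range n).filter (fun i => γ * ((n : ℝ) - i) ≤ b i)).card =
      ∑ i ∈ range N, ((Ioc i N).filter (fun n : ℕ => γ * ((n : ℝ) - i) ≤ b i)).card := by
    simp only [card_filter]
    rw [sum_sigma', sum_sigma']
    refine sum_bij' (fun x _ => ⟨x.2, x.1⟩) (fun x _ => ⟨x.2, x.1⟩) ?_ ?_ ?_ ?_ ?_
    · rintro ⟨n, i⟩ h
      simp only [mem_sigma, mem_Icc, mem_range, mem_Ioc] at h ⊢
      omega
    · rintro ⟨n, i⟩ h
      simp only [mem_sigma, mem_Icc, mem_range, mem_Ioc] at h ⊢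
      omega
    · rintro ⟨n, i⟩ h
      rfl
    · rintro ⟨n, i⟩ h
      rfl
    · rintro ⟨n, i⟩ h
      rfl
  rw [h1]
  push_cast
  calc ∑ i ∈ range N, (((Ioc i N).filter (fun n : ℕ => γ * ((n : ℝ) - i) ≤ b i)).card : ℝ) ≤
        ∑ i ∈ range N, max (b i) 0 / γ := sum_le_sum fun i _ => pli_col hγ i N
    _ = (∑ i ∈ range N, max (b i) 0) / γ := (sum_div _ _ _).symm
    _ ≤ (Q * N + C) / γ := by
        exact div_le_div_of_nonneg_right (hb N) hγ.le

private theorem pli_rec {s : ℕ → ℝ} {D : ℝ} (hD : 0 ≤ D) (h0 : s 0 = 0)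
    (hs : ∀ n, s (n + 1) ≤ s n + D) [DecidablePred fun n : ℕ => ∀ i ≤ n, s i ≤ s n] (N : ℕ) :
    ∀ i ≤ N, s i ≤ D * (((Icc 1 N).filter (fun n : ℕ => ∀ i ≤ n, s i ≤ s n)).card : ℝ) := by
  induction N with
  | zero =>
    intro i hi
    rw [Nat.le_zero.1 hi, h0]
    positivity
  | succ N ih =>
    have hmono : (((Icc 1 N).filter (fun n : ℕ => ∀ i ≤ n, s i ≤ s n)).card : ℝ) ≤
        (((Icc 1 (N + 1)).filter (fun n : ℕ => ∀ i ≤ n, s i ≤ s n)).card : ℝ) := by
      have := card_le_card (filter_subset_filter (fun n : ℕ => ∀ i ≤ n, s i ≤ s n)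
        (Icc_subset_Icc (le_refl 1) (Nat.le_succ N)))
      exact_mod_cast this
    have hm := mul_le_mul_of_nonneg_left hmono hD
    intro i hi
    rcases Nat.lt_or_ge i (N + 1) with h1 | h1
    · exact (ih i (by omega)).trans hm
    · have h2 : i = N + 1 := by omega
      subst h2
      by_cases hr : ∀ i ≤ N + 1, s i ≤ s (N + 1)
      · have h3 : (Icc 1 (N + 1)).filter (fun n : ℕ => ∀ i ≤ n, s i ≤ s n) =
            insert (N + 1) ((Icc 1 N).filter (fun n : ℕ => ∀ i ≤ n, s i ≤ s n)) := by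
          ext n
          simp only [mem_filter, mem_Icc, mem_insert]
          constructor
          · rintro ⟨⟨h4, h5⟩, h6⟩
            rcases Nat.lt_or_ge n (N + 1) with h7 | h7
            · exact Or.inr ⟨⟨h4, by omega⟩, h6⟩
            · exact Or.inl (by omega)
          · rintro (rfl | ⟨⟨h4, h5⟩, h6⟩)
            · exact ⟨⟨by omega, le_refl _⟩, hr⟩
            · exact ⟨⟨h4, by omega⟩, h6⟩
        rw [h3, card_insert_of_notMem (by simp)]
        push_cast
        have h8 := ih N le_rfl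
        have h9 := hs N
        linarith
      · push Not at hr
        obtain ⟨j, hj, hj2⟩ := hr
        have h3 : j ≤ N := by
          rcases Nat.lt_or_ge j (N + 1) with h7 | h7
          · omega
          · have : j = N + 1 := by omega
            rw [this] at hj2
            exact absurd hj2 (lt_irrefl _)
        exact hj2.le.trans ((ih j h3).trans hm)

theorem pli {a b : ℕ → ℝ} {A' α β C Q γ : ℝ} (hαβ : α < β) (hγ : 0 < γ) (ha : ∀ j, a j ≤ A')
    (hs : ∃ᶠ n : ℕ in atTop, β * n ≤ ∑ j ∈ range n, a j)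
    (hb : ∀ n : ℕ, ∑ j ∈ range n, max (b j) 0 ≤ Q * n + C) :
    ∃ (M : ℕ) (T : Set ℕ), T.Infinite ∧ ∀ n ∈ T,
      (∀ i ≤ n, α * ((n : ℝ) - i) ≤ ∑ j ∈ Ico i n, a j) ∧
      ((range n).filter (fun i => γ * ((n : ℝ) - i) ≤ b i)).card ≤ M := by
  classical
  obtain ⟨B, hB⟩ : ∃ B, B = max A' (α + 1) := ⟨_, rfl⟩
  have hBA : A' ≤ B := hB ▸ le_max_left _ _
  have hBα : α + 1 ≤ B := hB ▸ le_max_right _ _
  obtain ⟨s, hsdef⟩ : ∃ s : ℕ → ℝ, s = fun n => ∑ j ∈ range n, (a j - α) := ⟨_, rfl⟩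
  have hs0 : s 0 = 0 := by rw [hsdef]; simp
  have hs1 : ∀ n, s (n + 1) ≤ s n + (B - α) := by
    intro n
    rw [hsdef]
    simp only [sum_range_succ]
    linarith [ha n]
  have hsn : ∀ n, s n = ∑ j ∈ range n, a j - α * n := by
    intro n
    rw [hsdef]
    simp only [sum_sub_distrib, sum_const, card_range, nsmul_eq_mul]
    ring
  have hrec : ∀ n, (∀ i ≤ n, s i ≤ s n) →
      ∀ i ≤ n, α * ((n : ℝ) - i) ≤ ∑ j ∈ Ico i n, a j := by
    intro n hn i hi
    have h1 := hn i hi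
    rw [hsn, hsn] at h1
    have h2 := sum_range_add_sum_Ico a hi
    linarith
  obtain ⟨θ, hθ⟩ : ∃ θ, θ = (β - α) / (B - α) := ⟨_, rfl⟩
  have hBα' : 0 < B - α := by linarith
  have hθ0 : 0 < θ := by rw [hθ]; exact div_pos (by linarith) hBα'
  obtain ⟨M, hM⟩ := exists_nat_ge ((Q / γ + 1) / θ)
  have hMθ : Q / γ + 1 ≤ M * θ := by
    rwa [div_le_iff₀ hθ0] at hM
  refine ⟨M, {n | (∀ i ≤ n, s i ≤ s n) ∧
    ((range n).filter (fun i => γ * ((n : ℝ) - i) ≤ b i)).card ≤ M}, ?_, ?_⟩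
  swap
  · intro n hn
    exact ⟨hrec n hn.1, hn.2⟩
  intro hfin
  obtain ⟨N0, hN0⟩ := hfin.bddAbove
  obtain ⟨N1, hN1⟩ := exists_nat_gt (C / γ + M * N0)
  obtain ⟨N, hN, hNs⟩ := (frequently_atTop.1 hs) N1
  have hNN : (N1 : ℝ) ≤ N := by exact_mod_cast hN
  -- the number of records
  obtain ⟨Rc, hRc⟩ : ∃ Rc, Rc = (Icc 1 N).filter (fun n : ℕ => ∀ i ≤ n, s i ≤ s n) := ⟨_, rfl⟩
  have h1 : θ * N ≤ (Rc.card : ℝ) := by
    have h2 := pli_rec hBα'.le hs0 hs1 N N le_rfl
    rw [← hRc, hsn] at h2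
    have h3 : (β - α) * N ≤ (B - α) * (Rc.card : ℝ) := by nlinarith
    rw [hθ, div_mul_eq_mul_div, div_le_iff₀ hBα']
    linarith
  -- records with few captures are at most N0
  have h2 : Rc.card ≤ N0 + (Rc.filter (fun n => N0 < n)).card := by
    rw [← card_filter_add_card_filter_not (s := Rc) (fun n => N0 < n), add_comm]
    refine Nat.add_le_add_right ?_ _
    have h3 : Rc.filter (fun n => ¬ N0 < n) ⊆ Icc 1 N0 := by
      intro n hn
      rw [mem_filter, hRc, mem_filter, mem_Icc] at hn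
      rw [mem_Icc]
      omega
    have h4 := card_le_card h3
    rwa [Nat.card_Icc, Nat.add_sub_cancel] at h4
  have h3 : M * (Rc.filter (fun n => N0 < n)).card ≤
      ∑ n ∈ Icc 1 N, ((range n).filter (fun i => γ * ((n : ℝ) - i) ≤ b i)).card := by
    calc M * (Rc.filter (fun n => N0 < n)).card = ∑ n ∈ Rc.filter (fun n => N0 < n), M := by
          rw [sum_const, smul_eq_mul, mul_comm]
      _ ≤ ∑ n ∈ Rc.filter (fun n => N0 < n),
            ((range n).filter (fun i => γ * ((n : ℝ) - i) ≤ b i)).card := by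
          refine sum_le_sum fun n hn => ?_
          rw [mem_filter, hRc, mem_filter] at hn
          by_contra hc
          push Not at hc
          have h5 := hN0 (a := n) ⟨hn.1.2, hc.le⟩
          omega
      _ ≤ _ := by
          refine sum_le_sum_of_subset ?_
          intro n hn
          rw [mem_filter, hRc, mem_filter] at hn
          exact hn.1.1
  have h4 := pli_sum hγ hb N
  have h5 : (M : ℝ) * ((Rc.filter (fun n => N0 < n)).card : ℝ) ≤ (Q * N + C) / γ := by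
    refine le_trans ?_ h4
    exact_mod_cast h3
  have h6 : (Rc.card : ℝ) ≤ N0 + ((Rc.filter (fun n => N0 < n)).card : ℝ) := by exact_mod_cast h2
  have h7 : (M : ℝ) * (θ * N - N0) ≤ (Q * N + C) / γ := by
    refine le_trans (mul_le_mul_of_nonneg_left ?_ (Nat.cast_nonneg M)) h5
    linarith
  have h8 : (Q * N + C) / γ = Q / γ * N + C / γ := by ring
  rw [h8] at h7
  have hN00 : (0 : ℝ) ≤ (N : ℝ) := Nat.cast_nonneg N
  have h9 : (Q / γ + 1) * N ≤ M * θ * N := mul_le_mul_of_nonneg_right hMθ hN00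
  nlinarith

end Pool.Agent.H79.MZ
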