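import Mathlib

/-!
# Module ROT: the root next to a given number

PROOF. Let `k = m + 1`, `T = ζ ^ k ≠ 0`. SECOND inequality, for any root `u` of `u ^ k = Y`: `‖ζ‖ = ‖T‖ ^ (1/k)`, `‖u‖ = ‖Y‖ ^ (1/k)`; with `s = ‖Y‖ + ‖Y - T‖` we have `‖T‖ ≤ s`, `‖Y‖ ≤ s`, and `‖ζ‖ ^ m * ‖Y‖ = ‖u‖ ^ m * (‖ζ‖ ^ m * ‖u‖)` with `(‖ζ‖ ^ m * ‖u‖) ^ k = ‖T‖ ^ m * ‖Y‖ ≤ s ^ k`, so `‖ζ‖ ^ m * ‖u‖ ≤ s`.
FIRST inequality. Case 1: `‖Y - T‖ ≤ ‖T‖ / 2`. Let `t = (Y - T) / T`, `‖t‖ ≤ 1/2`, `u = ζ * exp (log (1 + t) / k)`: `u ^ k = T (1 + t) = Y`. `‖log (1 + t)‖ ≤ 2 ‖t‖` (`Complex.norm_log_one_add_half_le_self` or similar: `≤ 3/2 ‖t‖`), so `‖exp (..) - 1‖ ≤ 4 ‖t‖ / k`-like `≤ 6 ‖t‖`, `‖u‖ ≤ 4 ‖ζ‖` (crude). So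
`‖u - ζ‖ * ‖u‖ ^ m ≤ 6 ‖t‖ ‖ζ‖ 4 ^ m ‖ζ‖ ^ m = 6 * 4 ^ m * ‖Y - T‖`. Case 2: `‖T‖ < 2 ‖Y - T‖`; then `‖Y‖ ≤ 3 ‖Y - T‖`; any root `u` (`Complex.exists_pow_eq`-like: `IsAlgClosed.exists_pow_nat_eq`): `‖u - ζ‖ * ‖u‖ ^ m ≤ (‖u‖ + ‖ζ‖) ‖u‖ ^ m`, `‖u‖ ^ k = ‖Y‖ ≤ 3 ‖Y - T‖`, `(‖ζ‖ * ‖u‖ ^ m) ^ k = ‖T‖ ‖Y‖ ^ m ≤ (3 ‖Y - T‖) ^ k`,
so it is at most `6 ‖Y - T‖`. `C = 6 * 4 ^ m`.
-/

set_option autoImplicit false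

namespace Pool.Agent.H79.MZ

theorem rot_second (m : ℕ) (ζ u : ℂ) :
    ‖ζ‖ ^ m * ‖u ^ (m + 1)‖ ≤ ‖u‖ ^ m * (‖u ^ (m + 1)‖ + ‖u ^ (m + 1) - ζ ^ (m + 1)‖) := by
  obtain ⟨s, hs⟩ : ∃ s : ℝ, s = ‖u ^ (m + 1)‖ + ‖u ^ (m + 1) - ζ ^ (m + 1)‖ := ⟨_, rfl⟩
  rw [← hs]
  have hs0 : 0 ≤ s := by rw [hs]; positivity
  have h1 : ‖u‖ ^ (m + 1) ≤ s := by
    rw [hs, norm_pow]
    linarith [norm_nonneg (u ^ (m + 1) - ζ ^ (m + 1))]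
  have h2 : ‖ζ‖ ^ (m + 1) ≤ s := by
    rw [← norm_pow, hs]
    have h3 : ζ ^ (m + 1) = u ^ (m + 1) - (u ^ (m + 1) - ζ ^ (m + 1)) := by ring
    calc ‖ζ ^ (m + 1)‖ = ‖u ^ (m + 1) - (u ^ (m + 1) - ζ ^ (m + 1))‖ := by rw [← h3]
      _ ≤ _ := norm_sub_le _ _
  have h3 : ‖ζ‖ ^ m * ‖u‖ ≤ s := by
    refine le_of_pow_le_pow_left₀ (Nat.succ_ne_zero m) hs0 ?_
    calc (‖ζ‖ ^ m * ‖u‖) ^ (m + 1) = (‖ζ‖ ^ (m + 1)) ^ m * ‖u‖ ^ (m + 1) := by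
          rw [mul_pow, ← pow_mul, ← pow_mul, mul_comm m (m + 1)]
      _ ≤ s ^ m * s :=
          mul_le_mul (pow_le_pow_left₀ (by positivity) h2 m) h1 (by positivity) (by positivity)
      _ = s ^ (m + 1) := (pow_succ s m).symm
  calc ‖ζ‖ ^ m * ‖u ^ (m + 1)‖ = ‖u‖ ^ m * (‖ζ‖ ^ m * ‖u‖) := by
        rw [norm_pow, pow_succ]
        ring
    _ ≤ ‖u‖ ^ m * s := mul_le_mul_of_nonneg_left h3 (by positivity)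

theorem rot_far (m : ℕ) (ζ u : ℂ) (h : ‖ζ ^ (m + 1)‖ < 2 * ‖u ^ (m + 1) - ζ ^ (m + 1)‖) :
    ‖u - ζ‖ * ‖u‖ ^ m ≤ 6 * ‖u ^ (m + 1) - ζ ^ (m + 1)‖ := by
  obtain ⟨E, hE⟩ : ∃ E : ℝ, E = ‖u ^ (m + 1) - ζ ^ (m + 1)‖ := ⟨_, rfl⟩
  rw [← hE] at h ⊢
  have hE0 : 0 ≤ E := by rw [hE]; positivity
  have h1 : ‖u‖ ^ (m + 1) ≤ 3 * E := by
    have h3 : u ^ (m + 1) = (u ^ (m + 1) - ζ ^ (m + 1)) + ζ ^ (m + 1) := by ring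
    rw [← norm_pow]
    calc ‖u ^ (m + 1)‖ = ‖(u ^ (m + 1) - ζ ^ (m + 1)) + ζ ^ (m + 1)‖ := by rw [← h3]
      _ ≤ ‖u ^ (m + 1) - ζ ^ (m + 1)‖ + ‖ζ ^ (m + 1)‖ := norm_add_le _ _
      _ ≤ 3 * E := by rw [← hE]; linarith
  have h2 : ‖ζ‖ ^ (m + 1) ≤ 3 * E := by
    rw [← norm_pow]
    linarith
  have h3 : ‖ζ‖ * ‖u‖ ^ m ≤ 3 * E := by
    refine le_of_pow_le_pow_left₀ (Nat.succ_ne_zero m) (by linarith) ?_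
    calc (‖ζ‖ * ‖u‖ ^ m) ^ (m + 1) = ‖ζ‖ ^ (m + 1) * (‖u‖ ^ (m + 1)) ^ m := by
          rw [mul_pow, ← pow_mul, ← pow_mul, mul_comm m (m + 1)]
      _ ≤ (3 * E) * (3 * E) ^ m :=
          mul_le_mul h2 (pow_le_pow_left₀ (by positivity) h1 m) (by positivity) (by linarith)
      _ = (3 * E) ^ (m + 1) := (pow_succ' (3 * E) m).symm
  calc ‖u - ζ‖ * ‖u‖ ^ m ≤ (‖u‖ + ‖ζ‖) * ‖u‖ ^ m :=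
        mul_le_mul_of_nonneg_right (norm_sub_le _ _) (by positivity)
    _ = ‖u‖ ^ (m + 1) + ‖ζ‖ * ‖u‖ ^ m := by ring
    _ ≤ 6 * E := by linarith

theorem rot_near (m : ℕ) (ζ Y : ℂ) (hζ : ζ ≠ 0) (h : 2 * ‖Y - ζ ^ (m + 1)‖ ≤ ‖ζ ^ (m + 1)‖) :
    ∃ u : ℂ, u ^ (m + 1) = Y ∧ ‖u - ζ‖ * ‖u‖ ^ m ≤ 3 * 4 ^ m * ‖Y - ζ ^ (m + 1)‖ := by
  have hT : ζ ^ (m + 1) ≠ 0 := pow_ne_zero _ hζ
  have hTn : 0 < ‖ζ ^ (m + 1)‖ := norm_pos_iff.mpr hT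
  obtain ⟨t, ht⟩ : ∃ t : ℂ, t = (Y - ζ ^ (m + 1)) / ζ ^ (m + 1) := ⟨_, rfl⟩
  have htT : t * ζ ^ (m + 1) = Y - ζ ^ (m + 1) := by rw [ht, div_mul_cancel₀ _ hT]
  have htn : ‖t‖ * ‖ζ ^ (m + 1)‖ = ‖Y - ζ ^ (m + 1)‖ := by rw [← norm_mul, htT]
  have ht2 : ‖t‖ ≤ 1 / 2 := by
    rw [ht, norm_div, div_le_iff₀ hTn]
    linarith
  have h1t : 1 + t ≠ 0 := by
    intro h0
    have h1 : t = -1 := by linear_combination h0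
    rw [h1, norm_neg, norm_one] at ht2
    norm_num at ht2
  obtain ⟨w, hw⟩ : ∃ w : ℂ, w = Complex.log (1 + t) / ((m + 1 : ℕ) : ℂ) := ⟨_, rfl⟩
  have hk : ((m + 1 : ℕ) : ℂ) ≠ 0 := by exact_mod_cast Nat.succ_ne_zero m
  have hkw : ((m + 1 : ℕ) : ℂ) * w = Complex.log (1 + t) := by
    rw [hw, mul_div_cancel₀ _ hk]
  have hlog := Complex.norm_log_one_add_half_le_self ht2
  have hwn : ‖w‖ ≤ 3 / 2 * ‖t‖ := by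
    rw [hw, norm_div, Complex.norm_natCast]
    have hk1 : (1 : ℝ) ≤ ((m + 1 : ℕ) : ℝ) := by exact_mod_cast Nat.succ_pos m
    refine (div_le_self (norm_nonneg _) hk1).trans hlog
  have hw1 : ‖w‖ ≤ 1 := by linarith
  have hexp := Complex.norm_exp_sub_one_le hw1
  have hexp4 : ‖Complex.exp w‖ ≤ 4 := by
    have h3 : Complex.exp w = (Complex.exp w - 1) + 1 := by ring
    calc ‖Complex.exp w‖ = ‖(Complex.exp w - 1) + 1‖ := by rw [← h3]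
      _ ≤ ‖Complex.exp w - 1‖ + ‖(1 : ℂ)‖ := norm_add_le _ _
      _ ≤ 4 := by rw [norm_one]; linarith
  refine ⟨ζ * Complex.exp w, ?_, ?_⟩
  · rw [mul_pow, ← Complex.exp_nat_mul, hkw, Complex.exp_log h1t]
    linear_combination htT
  · have h4 : ζ * Complex.exp w - ζ = ζ * (Complex.exp w - 1) := by ring
    rw [h4, norm_mul, norm_mul, mul_pow]
    have h5 : ‖Complex.exp w - 1‖ ≤ 3 * ‖t‖ := by linarith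
    calc ‖ζ‖ * ‖Complex.exp w - 1‖ * (‖ζ‖ ^ m * ‖Complex.exp w‖ ^ m)
        ≤ ‖ζ‖ * (3 * ‖t‖) * (‖ζ‖ ^ m * 4 ^ m) := by
          refine mul_le_mul (mul_le_mul_of_nonneg_left h5 (norm_nonneg _)) ?_ (by positivity)
            (by positivity)
          exact mul_le_mul_of_nonneg_left (pow_le_pow_left₀ (norm_nonneg _) hexp4 m) (by positivity)
      _ = 3 * 4 ^ m * (‖t‖ * ‖ζ ^ (m + 1)‖) := by rw [norm_pow]; ring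
      _ = 3 * 4 ^ m * ‖Y - ζ ^ (m + 1)‖ := by rw [htn]

theorem rot (m : ℕ) : ∃ C : ℝ, 1 ≤ C ∧ ∀ ζ Y : ℂ, ζ ≠ 0 → Y ≠ 0 → ∃ u : ℂ, u ^ (m + 1) = Y ∧
    ‖u - ζ‖ * ‖u‖ ^ m ≤ C * ‖Y - ζ ^ (m + 1)‖ ∧
    ‖ζ‖ ^ m * ‖Y‖ ≤ C * ‖u‖ ^ m * (‖Y‖ + ‖Y - ζ ^ (m + 1)‖) := by
  have h4 : (1 : ℝ) ≤ 4 ^ m := one_le_pow₀ (by norm_num)
  refine ⟨6 * 4 ^ m, by linarith, ?_⟩
  intro ζ Y hζ _
  have key : ∃ u : ℂ, u ^ (m + 1) = Y ∧ ‖u - ζ‖ * ‖u‖ ^ m ≤ 6 * 4 ^ m * ‖Y - ζ ^ (m + 1)‖ := by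
    by_cases h : 2 * ‖Y - ζ ^ (m + 1)‖ ≤ ‖ζ ^ (m + 1)‖
    · obtain ⟨u, hu, hu2⟩ := rot_near m ζ Y hζ h
      refine ⟨u, hu, hu2.trans ?_⟩
      refine mul_le_mul_of_nonneg_right ?_ (norm_nonneg _)
      linarith
    · obtain ⟨u, hu⟩ := IsAlgClosed.exists_pow_nat_eq Y (Nat.succ_pos m)
      push Not at h
      rw [← hu] at h ⊢
      refine ⟨u, rfl, (rot_far m ζ u h).trans ?_⟩
      refine mul_le_mul_of_nonneg_right ?_ (norm_nonneg _)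
      linarith
  obtain ⟨u, hu, hu2⟩ := key
  refine ⟨u, hu, hu2, ?_⟩
  have h5 := rot_second m ζ u
  rw [hu] at h5
  refine h5.trans ?_
  refine mul_le_mul_of_nonneg_right ?_ (by positivity)
  have h6 : 0 ≤ ‖u‖ ^ m := by positivity
  nlinarith

end Pool.Agent.H79.MZ
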