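import Mathlib
import Pool.Agent.H46.Oka.Domain

/-!
# Module RTB: roots of nonvanishing holomorphic functions on a disc, with a prescribed value

PROOF. `h` has a holomorphic logarithm on the ball: `h' / h` has a primitive `L` on the ball (`DifferentiableOn.isExactOn_ball` / `Complex.IsExactOn..`, or search the library for `exp` / `log` of nonvanishing functions on a ball, e.g. in H46/Oka or H80/AJ; Mathlib has `DifferentiableOn.exists_...` for discs), `h = exp (L + const)`; `u z = exp ((L z + const) / k)`.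
`(u x / u0) ^ k = 1`, so replace `u` by `(u0 / u x) * u`.
-/

set_option autoImplicit false

open Metric Set

namespace Pool.Agent.H79.MZ

theorem rtb {h : ℂ → ℂ} {x : ℂ} {ρ : ℝ} (hρ : 0 < ρ) (hh : DifferentiableOn ℂ h (ball x ρ))
    (hne : ∀ z ∈ ball x ρ, h z ≠ 0) (m : ℕ) {u0 : ℂ} (hu : u0 ^ (m + 1) = h x) :
    ∃ u : ℂ → ℂ, DifferentiableOn ℂ u (ball x ρ) ∧ u x = u0 ∧
      ∀ z ∈ ball x ρ, u z ^ (m + 1) = h z := by
  obtain ⟨L, hL, hexp⟩ := Pool.Agent.H46.Oka.exists_log_ball hρ hh hne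
  have hk : ((m + 1 : ℕ) : ℂ) ≠ 0 := by exact_mod_cast Nat.succ_ne_zero m
  have hpow : ∀ z, Complex.exp (L z / (m + 1 : ℕ)) ^ (m + 1) = Complex.exp (L z) := by
    intro z
    rw [← Complex.exp_nat_mul]
    congr 1
    field_simp
  set w : ℂ := Complex.exp (L x / (m + 1 : ℕ)) with hw
  have hw0 : w ≠ 0 := Complex.exp_ne_zero _
  refine ⟨fun z => u0 / w * Complex.exp (L z / (m + 1 : ℕ)), ?_, ?_, ?_⟩
  · exact ((hL.div_const _).cexp).const_mul _
  · show u0 / w * Complex.exp (L x / (m + 1 : ℕ)) = u0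
    rw [← hw]
    exact div_mul_cancel₀ u0 hw0
  · intro z hz
    show (u0 / w * Complex.exp (L z / (m + 1 : ℕ))) ^ (m + 1) = h z
    rw [mul_pow, div_pow, hpow, hu, hpow]
    have h1 := hexp x (mem_ball_self hρ)
    have h2 := hexp z hz
    rw [h1, h2, div_self (hne x (mem_ball_self hρ)), one_mul]

end Pool.Agent.H79.MZ
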