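import Mathlib

/-!
# Module STB: normal form at a critical point

PROOF. `f - f c` vanishes at `c` and is not identically zero near `c`: `f z - f c = (z - c) ^ k * s z` near `c`, `s` analytic, `s c ≠ 0`, `k ≥ 1` (`AnalyticAt.exists_eventuallyEq_pow_smul_nonzero_iff`), and `k ≥ 2` as `deriv f c = 0`; `k = m + 1`. Near `c` choose a holomorphic `k`-th root: `s z = s c * (s z / s c)`, `s z / s c` in the disc `ball 1 (1/2)`
for `z` near `c`, `ρ z = σ * exp (log (s z / s c) / k)` with `σ ^ k = s c`. `ψ z = (z - c) * ρ z`: `ψ c = 0`, `deriv ψ c = σ ≠ 0`, `f z = f c + ψ z ^ k`. Bi-Lipschitz bounds on a small ball: `ψ` has the strict derivative `σ` at `c` (`‖ψ z - ψ z' - σ (z - z')‖ ≤ (‖σ‖ / 2) ‖z - z'‖` near `c`), and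
`‖deriv ψ z‖ ∈ [‖σ‖ / 2, 2 ‖σ‖]` near `c`. The inverse `χ` on `ball 0 r2`: `ψ` is injective on `ball c r1` and its image contains a ball (`HasStrictDerivAt.localInverse`, or `HasStrictDerivAt.toOpenPartialHomeomorph`; analytic inverse); `r2` small so that `χ (ball 0 r2) ⊆ ball c r1`; `χ (ψ z) = z` for `z ∈ ball c r1` with `ψ z ∈ ball 0 r2`: from injectivity.
-/

set_option autoImplicit false

open Filter Topology Metric Set

namespace Pool.Agent.H79.MZ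

theorem stb {f : ℂ → ℂ} {c : ℂ} (hf : AnalyticAt ℂ f c) (h0 : deriv f c = 0)
    (hne : ¬ ∀ᶠ z in 𝓝 c, f z = f c) :
    ∃ (m : ℕ) (ψ χ : ℂ → ℂ) (A r1 r2 : ℝ), 1 ≤ m ∧ 1 ≤ A ∧ 0 < r1 ∧ 0 < r2 ∧ ψ c = 0 ∧
      DifferentiableOn ℂ ψ (ball c r1) ∧ DifferentiableOn ℂ χ (ball 0 r2) ∧
      (∀ z ∈ ball c r1, f z = f c + ψ z ^ (m + 1)) ∧
      (∀ z ∈ ball c r1, ∀ w ∈ ball c r1, ‖z - w‖ ≤ A * ‖ψ z - ψ w‖ ∧ ‖ψ z - ψ w‖ ≤ A * ‖z - w‖) ∧
      (∀ z ∈ ball c r1, HasDerivAt f ((m + 1) * ψ z ^ m * deriv ψ z) z ∧ 1 ≤ A * ‖deriv ψ z‖ ∧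
        ‖deriv ψ z‖ ≤ A) ∧
      ∀ u ∈ ball (0 : ℂ) r2, χ u ∈ ball c r1 ∧ ψ (χ u) = u := by
  have hg : AnalyticAt ℂ (fun z => f z - f c) c := hf.sub analyticAt_const
  have hgne : ¬ ∀ᶠ z in 𝓝 c, f z - f c = 0 := fun h => hne (h.mono fun z hz => sub_eq_zero.1 hz)
  obtain ⟨k, s, hs, hsc, hgs⟩ := hg.exists_eventuallyEq_pow_smul_nonzero_iff.2 hgne
  -- the order is at least two
  have hk0 : k ≠ 0 := by
    rintro rfl
    have h1 := hgs.self_of_nhds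
    rw [sub_self, pow_zero, one_smul] at h1
    exact hsc h1.symm
  have hk1 : k ≠ 1 := by
    rintro rfl
    have h1 : HasDerivAt (fun z => (z - c) ^ 1 • s z) (s c) c := by
      have h2 : HasDerivAt (fun z : ℂ => (z - c) * s z) (1 * s c + (c - c) * deriv s c) c :=
        ((hasDerivAt_id c).sub_const c).mul hs.differentiableAt.hasDerivAt
      rw [sub_self, zero_mul, add_zero, one_mul] at h2
      refine h2.congr_of_eventuallyEq (Eventually.of_forall fun z => ?_)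
      show (z - c) ^ 1 • s z = (z - c) * s z
      rw [pow_one, smul_eq_mul]
    have h3 : HasDerivAt (fun z => f z - f c) (s c) c := h1.congr_of_eventuallyEq hgs
    have h4 : HasDerivAt (fun z => f z - f c) (deriv f c) c :=
      hf.differentiableAt.hasDerivAt.sub_const _
    have h5 := h3.unique h4
    rw [h0] at h5
    exact hsc h5
  obtain ⟨m, rfl⟩ : ∃ m, k = m + 1 := ⟨k - 1, by omega⟩
  have hm : 1 ≤ m := by omega
  obtain ⟨σ, hσ⟩ := IsAlgClosed.exists_pow_nat_eq (s c) (Nat.succ_pos m)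
  have hσ' : σ ^ (m + 1) = s c := hσ
  have hσ0 : σ ≠ 0 := by
    rintro rfl
    rw [zero_pow (by omega)] at hσ'
    exact hsc hσ'.symm
  -- the root
  obtain ⟨ρ, hρ⟩ : ∃ ρ : ℂ → ℂ, ρ = fun z => σ * Complex.exp (Complex.log (s z / s c) / (m + 1)) :=
    ⟨_, rfl⟩
  have hdiv : AnalyticAt ℂ (fun z => s z / s c) c := hs.div analyticAt_const hsc
  have hρa : AnalyticAt ℂ ρ c := by
    rw [hρ]
    refine analyticAt_const.mul (AnalyticAt.cexp' (AnalyticAt.div (AnalyticAt.clog hdiv ?_)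
      analyticAt_const ?_))
    · rw [div_self hsc]
      exact Complex.one_mem_slitPlane
    · exact Nat.cast_add_one_ne_zero m
  have hρc : ρ c = σ := by
    rw [hρ]
    simp only
    rw [div_self hsc, Complex.log_one, zero_div, Complex.exp_zero, mul_one]
  have hρk : ∀ᶠ z in 𝓝 c, ρ z ^ (m + 1) = s z := by
    have h1 : ∀ᶠ z in 𝓝 c, s z ≠ 0 := hs.continuousAt.eventually_ne hsc
    refine h1.mono fun z hz => ?_
    rw [hρ]
    simp only
    rw [mul_pow, hσ', ← Complex.exp_nat_mul]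
    have h2 : ((m + 1 : ℕ) : ℂ) * (Complex.log (s z / s c) / (m + 1)) = Complex.log (s z / s c) := by
      push_cast
      exact mul_div_cancel₀ _ (Nat.cast_add_one_ne_zero m)
    rw [h2, Complex.exp_log (div_ne_zero hz hsc)]
    field_simp
  -- the coordinate
  obtain ⟨ψ, hψ⟩ : ∃ ψ : ℂ → ℂ, ψ = fun z => (z - c) * ρ z := ⟨_, rfl⟩
  have hψa : AnalyticAt ℂ ψ c := by
    rw [hψ]
    exact (analyticAt_id.sub analyticAt_const).mul hρa
  have hψc : ψ c = 0 := by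
    rw [hψ]
    simp
  have hψd : HasDerivAt ψ σ c := by
    have h2 : HasDerivAt (fun z : ℂ => (z - c) * ρ z) (1 * ρ c + (c - c) * deriv ρ c) c :=
      ((hasDerivAt_id c).sub_const c).mul hρa.differentiableAt.hasDerivAt
    rw [sub_self, zero_mul, add_zero, one_mul, hρc] at h2
    rw [hψ]
    exact h2
  have hψd' : deriv ψ c = σ := hψd.deriv
  have hfψ : ∀ᶠ z in 𝓝 c, f z = f c + ψ z ^ (m + 1) := by
    filter_upwards [hgs, hρk] with z h1 h2
    rw [hψ]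
    simp only
    rw [mul_pow, h2]
    rw [smul_eq_mul] at h1
    rw [← h1]
    ring
  have hstr : HasStrictDerivAt ψ σ c := by
    have := hψa.hasStrictDerivAt
    rwa [hψd'] at this
  have hσn : 0 < ‖σ‖ := norm_pos_iff.2 hσ0
  have hbil : ∀ᶠ p : ℂ × ℂ in 𝓝 (c, c), ‖ψ p.1 - ψ p.2 - (p.1 - p.2) * σ‖ ≤
      ‖σ‖ / 2 * ‖p.1 - p.2‖ := by
    have h1 := hstr.isLittleO.def (half_pos hσn)
    refine h1.mono fun p hp => ?_
    simpa [mul_comm] using hp
  have hder : ∀ᶠ z in 𝓝 c, ‖σ‖ / 2 ≤ ‖deriv ψ z‖ ∧ ‖deriv ψ z‖ ≤ 2 * ‖σ‖ := by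
    have h1 : ContinuousAt (fun z => ‖deriv ψ z‖) c := hψa.deriv.continuousAt.norm
    have h3 : ∀ᶠ z in 𝓝 c, ‖deriv ψ z‖ ∈ Set.Icc (‖σ‖ / 2) (2 * ‖σ‖) := by
      refine h1.eventually_mem ?_
      rw [hψd']
      exact Icc_mem_nhds (by linarith) (by linarith)
    exact h3
  -- the radii
  have hdif : ∀ᶠ z in 𝓝 c, DifferentiableAt ℂ ψ z :=
    hψa.eventually_analyticAt.mono fun z hz => hz.differentiableAt
  obtain ⟨ε1, hε1, h1⟩ := Metric.eventually_nhds_iff_ball.1 (hfψ.and (hder.and hdif))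
  obtain ⟨ε2, hε2, h2⟩ := Metric.eventually_nhds_iff_ball.1 hbil
  obtain ⟨r1, hr1d⟩ : ∃ r1, r1 = min ε1 ε2 := ⟨_, rfl⟩
  have hr1 : 0 < r1 := by
    rw [hr1d]
    exact lt_min hε1 hε2
  have hr11 : ball c r1 ⊆ ball c ε1 := ball_subset_ball (by rw [hr1d]; exact min_le_left _ _)
  have hr12 : ball c r1 ⊆ ball c ε2 := ball_subset_ball (by rw [hr1d]; exact min_le_right _ _)
  have hne0 : deriv ψ c ≠ 0 := by rw [hψd']; exact hσ0
  obtain ⟨χ, hχ⟩ : ∃ χ, χ = hψa.hasStrictDerivAt.localInverse _ _ _ hne0 := ⟨_, rfl⟩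
  have hχa : AnalyticAt ℂ χ 0 := by
    have := hψa.analyticAt_localInverse hne0
    rw [hψc] at this
    rw [hχ]
    exact this
  have hχ0 : χ 0 = c := by
    rw [hχ, ← hψc]
    exact HasStrictFDerivAt.localInverse_apply_image ..
  have hχr : ∀ᶠ u in 𝓝 (0 : ℂ), ψ (χ u) = u := by
    have h3 := HasStrictDerivAt.eventually_right_inverse hψa.hasStrictDerivAt hne0
    rw [hψc] at h3
    rw [hχ]
    exact h3
  have hχb : ∀ᶠ u in 𝓝 (0 : ℂ), χ u ∈ ball c r1 := by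
    refine hχa.continuousAt.eventually_mem ?_
    rw [hχ0]
    exact ball_mem_nhds c hr1
  have hχd : ∀ᶠ u in 𝓝 (0 : ℂ), DifferentiableAt ℂ χ u :=
    hχa.eventually_analyticAt.mono fun z hz => hz.differentiableAt
  obtain ⟨r2, hr2, h3⟩ := Metric.eventually_nhds_iff_ball.1 (hχr.and (hχb.and hχd))
  obtain ⟨A, hA⟩ : ∃ A, A = max 1 (max (2 / ‖σ‖) (2 * ‖σ‖)) := ⟨_, rfl⟩
  have hA1 : 1 ≤ A := by
    rw [hA]
    exact le_max_left _ _
  have hA2 : 2 / ‖σ‖ ≤ A := by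
    rw [hA]
    exact (le_max_left _ _).trans (le_max_right _ _)
  have hA3 : 2 * ‖σ‖ ≤ A := by
    rw [hA]
    exact (le_max_right _ _).trans (le_max_right _ _)
  have hA4 : 1 ≤ A * (‖σ‖ / 2) := by
    have h4 := mul_le_mul_of_nonneg_right hA2 (half_pos hσn).le
    have h5 : 2 / ‖σ‖ * (‖σ‖ / 2) = 1 := by field_simp
    rw [h5] at h4
    exact h4
  refine ⟨m, ψ, χ, A, r1, r2, hm, hA1, hr1, hr2, hψc, ?_, ?_, ?_, ?_, ?_, ?_⟩
  · intro z hz
    exact (h1 z (hr11 hz)).2.2.differentiableWithinAt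
  · intro u hu
    exact (h3 u hu).2.2.differentiableWithinAt
  · intro z hz
    exact (h1 z (hr11 hz)).1
  · intro z hz w hw
    have h4 := h2 (z, w) (by
      rw [← ball_prod_same]
      exact ⟨hr12 hz, hr12 hw⟩)
    simp only at h4
    have h5 : ‖(z - w) * σ‖ = ‖z - w‖ * ‖σ‖ := norm_mul _ _
    have h6 : ‖(z - w) * σ‖ ≤ ‖ψ z - ψ w‖ + ‖ψ z - ψ w - (z - w) * σ‖ := by
      have h7 := norm_sub_le (ψ z - ψ w) (ψ z - ψ w - (z - w) * σ)
      rwa [sub_sub_cancel] at h7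
    have h8 : ‖ψ z - ψ w‖ ≤ ‖(z - w) * σ‖ + ‖ψ z - ψ w - (z - w) * σ‖ := by
      have h7 := norm_add_le ((z - w) * σ) (ψ z - ψ w - (z - w) * σ)
      rwa [add_sub_cancel] at h7
    have hzw : 0 ≤ ‖z - w‖ := norm_nonneg _
    rw [h5] at h6 h8
    constructor
    · have h9 : ‖σ‖ / 2 * ‖z - w‖ ≤ ‖ψ z - ψ w‖ := by linarith
      calc ‖z - w‖ = 1 * ‖z - w‖ := (one_mul _).symm
        _ ≤ A * (‖σ‖ / 2) * ‖z - w‖ := mul_le_mul_of_nonneg_right hA4 hzw
        _ = A * (‖σ‖ / 2 * ‖z - w‖) := by ring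
        _ ≤ A * ‖ψ z - ψ w‖ := mul_le_mul_of_nonneg_left h9 (by linarith)
    · have h9 : ‖ψ z - ψ w‖ ≤ 2 * ‖σ‖ * ‖z - w‖ := by nlinarith
      exact h9.trans (mul_le_mul_of_nonneg_right hA3 hzw)
  · intro z hz
    obtain ⟨-, ⟨h4, h5⟩, h6⟩ := h1 z (hr11 hz)
    refine ⟨?_, ?_, h5.trans hA3⟩
    · have h7 : HasDerivAt (fun z => f c + ψ z ^ (m + 1)) ((m + 1) * ψ z ^ m * deriv ψ z) z := by
        have h8 := (h6.hasDerivAt.pow (m + 1)).const_add (f c)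
        rw [Nat.add_sub_cancel] at h8
        push_cast at h8
        exact h8
      refine h7.congr_of_eventuallyEq ?_
      filter_upwards [isOpen_ball.mem_nhds (hr11 hz)] with w hw
      exact (h1 w hw).1
    · exact hA4.trans (mul_le_mul_of_nonneg_left h4 (by linarith))
  · intro u hu
    exact ⟨(h3 u hu).2.1, (h3 u hu).1⟩

end Pool.Agent.H79.MZ
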