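import Pool.Agent.H79.MZ.CDF
import Pool.Agent.H79.MZ.STB
import Pool.Agent.H79.MZ.RTB
import Pool.Agent.H79.MZ.ROT

/-!
# Module STC: the nonlinear step near one critical point

PROOF. `f = fm v0`, analytic near `c1`, `deriv f z = fd v0 z` where `ev v0.2 z ≠ 0` (`tr_hasDerivAt_ev`, H32/BT/Trap), `deriv f c1 = 0`, `f` is not constant near `c1` (`fd v0` has finitely many zeros: `wv_pol`, `ww_ne`). `stb`: `m, ψ, χ, A, r1, r2`. `V = f c1`. Choose `r3 > 0` with: `r3 ≤ r1`, `2 r3 ≤` the distance of `c1` to the other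
zeros of `wv v0` (so `infDist q (Zc v0) = ‖q - c1‖` for `q ∈ ball c1 r3`), `ev v0.2 ≠ 0` on `ball c1 r1` (shrink `r1`), `(A r3) ^ (m + 1) ≤ (r2 / 2) ^ (m+1) / 2`; `R0` with `R0 ≤ (r2 / 2) ^ (m + 1) / 2`. Let `q ∈ ball c1 r3`, `q ≠ c1` (if `q = c1` then `h x ≠ V`.. the statement needs `fd v0 q ≠ 0`, assumed), `ζ = ψ q ≠ 0`, `T = ζ ^ (m + 1) = f q - V`,
`‖ζ‖ ≤ A ‖q - c1‖`, `‖q - c1‖ ≤ A ‖ζ‖`, `‖fd v0 q‖ = (m + 1) ‖ζ‖ ^ m ‖deriv ψ q‖ ∈ [(m+1) ‖ζ‖ ^ m / A, (m+1) A ‖ζ‖ ^ m]`, so `sz v0 q ≥ ‖ζ‖ ^ (m + 1) / A ^ 2`. Let `h` be given, `Y = h x - V ≠ 0`. `rot m` (constant `C0`): `u0` with `u0 ^ (m+1) = Y`, the two inequalities. `rtb` for `h - V`: `u` on `ball x ρ`, `u x = u0`.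
`‖u z‖ ^ (m+1) = ‖h z - V‖ ≤ R + ‖T‖ ≤ (r2 / 2) ^ (m+1)`, so `u z ∈ ball 0 r2`; `h' z = χ (u z)`, `ψ (h' z) = u z`, `f (h' z) = V + u z ^ (m + 1) = h z`, `h'` holomorphic, `h' z ∈ ball c1 r1` so `ev v0.2 (h' z) ≠ 0`.
BOUND: `‖T‖ = ‖ζ‖ ^ (m+1) ≤ A ^ 2 sz v0 q < A ^ 2 C R`. `‖h' z - q‖ ≤ A ‖u z - ζ‖ ≤ A (‖u z‖ + ‖ζ‖)`, `‖u z‖ ^ (m+1) ≤ R + ‖T‖ ≤ (1 + A ^ 2 C) R`, and `(‖u z‖ * ‖fd v0 q‖) ^ (m+1) ≤ (1 + A^2 C) R * ((m+1) A) ^ (m+1) * ‖T‖ ^ m ≤ (const * R) ^ (m+1)`, in the same way `‖ζ‖ ‖fd v0 q‖ ≤ const * R`; so `‖h' z - q‖ ≤ C'' R / ‖fd v0 q‖`. Here the constant `C` of the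
hypothesis `sz < C R` enters `C''`, so the statement has two constants `C` (given) and `C'`. (b1) `‖h' x - q‖ * ‖fd v0 (h' x)‖ ≤ A ‖u0 - ζ‖ * (m+1) A ‖u0‖ ^ m ≤ (m+1) A ^ 2 C0 ‖Y - T‖`, `Y - T = h x - f q`. (b2) `‖fd v0 q‖ ‖Y‖ ≤ (m+1) A ‖ζ‖ ^ m ‖Y‖ ≤ (m+1) A C0 ‖u0‖ ^ m (‖Y‖ + ‖Y - T‖) ≤ A ^ 2 C0 ‖fd v0 (h' x)‖ (..)`.
-/

set_option autoImplicit false

open Filter Topology Polynomial Metric Set

namespace Pool.Agent.H79.MZ

open Pool.Agent.H44.Fatou Pool.Agent.H32.BT Pool.Agent.H79.Eul Pool.Agent.H79.Par Pool.Agent.H61.TT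

private theorem stc_fin {d : ℕ} {v0 : E d} (hd : 2 ≤ d) (hcop : IsCoprime (pol v0.1) (pol v0.2))
    (hdeg : max (pol v0.1).natDegree (pol v0.2).natDegree = d) : (Zc v0).Finite := by
  have h1 : ww (pol v0.1) (pol v0.2) ≠ 0 := ww_ne ⟨hd, hcop, hdeg⟩
  refine (Polynomial.finite_setOf_isRoot h1).subset ?_
  intro z hz
  have h2 : wv v0 z = 0 := hz
  rw [wv_pol] at h2
  exact h2

/-- `a ^ m * b ≤ S` if `a ^ (m+1), b ^ (m+1) ≤ S` -/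
private theorem stc_mix (m : ℕ) (a b S : ℝ) (ha : 0 ≤ a) (hb : 0 ≤ b) (hS : 0 ≤ S)
    (h1 : a ^ (m + 1) ≤ S) (h2 : b ^ (m + 1) ≤ S) : b * a ^ m ≤ S := by
  have h3 : (b * a ^ m) ^ (m + 1) ≤ S ^ (m + 1) := by
    calc (b * a ^ m) ^ (m + 1) = b ^ (m + 1) * (a ^ (m + 1)) ^ m := by
          rw [mul_pow, ← pow_mul, ← pow_mul, mul_comm m]
      _ ≤ S * S ^ m := mul_le_mul h2 (pow_le_pow_left₀ (by positivity) h1 m) (by positivity) hS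
      _ = S ^ (m + 1) := by ring
  exact (pow_le_pow_iff_left₀ (by positivity) hS (Nat.succ_ne_zero m)).1 h3

theorem stc {d : ℕ} {v0 : E d} (hd : 2 ≤ d) (hcop : IsCoprime (pol v0.1) (pol v0.2))
    (hdeg : max (pol v0.1).natDegree (pol v0.2).natDegree = d) {c1 : ℂ} (hc1 : wv v0 c1 = 0)
    (hb : ev v0.2 c1 ≠ 0) {C : ℝ} (hC : 1 ≤ C) :
    ∃ C' r3 R0 : ℝ, C ≤ C' ∧ 0 < r3 ∧ 0 < R0 ∧ ∀ q ∈ ball c1 r3, fd v0 q ≠ 0 →
      StepN v0 C C' R0 q c1 := by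
  have hZ := stc_fin hd hcop hdeg
  have hevc : Continuous (ev v0.2) := by
    unfold ev
    fun_prop
  have hdf : ∀ z, ev v0.2 z ≠ 0 → HasDerivAt (fm v0) (fd v0 z) z := fun z hz =>
    tr_hasDerivAt_ev v0 z hz
  have hop : IsOpen {z | ev v0.2 z ≠ 0} := isOpen_ne_fun hevc continuous_const
  have hfd0 : fd v0 c1 = 0 := by
    unfold fd
    rw [hc1, zero_div]
  have han : AnalyticAt ℂ (fm v0) c1 := by
    have h1 : DifferentiableOn ℂ (fm v0) {z | ev v0.2 z ≠ 0} := fun z hz =>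
      (hdf z hz).differentiableAt.differentiableWithinAt
    exact h1.analyticAt (hop.mem_nhds hb)
  have hder : deriv (fm v0) c1 = 0 := by rw [(hdf c1 hb).deriv, hfd0]
  have hne : ¬ ∀ᶠ z in 𝓝 c1, fm v0 z = fm v0 c1 := by
    intro hev
    have h1 : ∀ᶠ z in 𝓝 c1, z ∈ Zc v0 := by
      filter_upwards [hev.eventually_nhds, hop.mem_nhds hb] with z hz hz2
      have h2 : (fm v0) =ᶠ[𝓝 z] fun _ => fm v0 c1 := hz
      have h3 : deriv (fm v0) z = 0 := by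
        rw [h2.deriv_eq, deriv_const]
      rw [(hdf z hz2).deriv] at h3
      have h4 : wv v0 z / ev v0.2 z ^ 2 = 0 := h3
      rcases div_eq_zero_iff.1 h4 with h5 | h5
      · exact h5
      · exact absurd (pow_eq_zero_iff (by norm_num) |>.1 h5) hz2
    exact infinite_of_mem_nhds c1 h1 hZ
  obtain ⟨m, ψ, χ, A, r1, r2, hm, hA, hr1, hr2, hψ0, hψd, hχd, hnf, hbl, hdψ, hinv⟩ :=
    stb han hder hne
  obtain ⟨C0, hC0, hrot⟩ := rot m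
  -- the ball where the denominator does not vanish
  obtain ⟨r0, hr0, hball0⟩ := Metric.mem_nhds_iff.1 (hop.mem_nhds hb)
  -- the other critical points
  have hF : (Zc v0 \ {c1}).Finite := hZ.subset diff_subset
  obtain ⟨r4, hr4, hball4⟩ := Metric.mem_nhds_iff.1
    (hF.isClosed.isOpen_compl.mem_nhds (show c1 ∈ (Zc v0 \ {c1})ᶜ from fun h => h.2 rfl))
  have hA0 : 0 < A := by linarith
  obtain ⟨s, hs⟩ : ∃ s, s = min r2 (r0 / A) := ⟨_, rfl⟩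
  have hs0 : 0 < s := by rw [hs]; exact lt_min hr2 (by positivity)
  have hs2 : s ≤ r2 := by rw [hs]; exact min_le_left _ _
  have hs1 : A * s ≤ r0 := by
    have h1 : s ≤ r0 / A := by rw [hs]; exact min_le_right _ _
    rw [le_div_iff₀ hA0] at h1
    linarith
  obtain ⟨B, hB⟩ : ∃ B, B = 1 + A ^ 2 * C := ⟨_, rfl⟩
  have hB1 : 1 ≤ B := by
    rw [hB]
    have : 0 ≤ A ^ 2 * C := by positivity
    linarith
  obtain ⟨C', hC'⟩ : ∃ C', C' = C + 2 * (m + 1) * A ^ 2 * B + (m + 1) * A ^ 2 * C0 := ⟨_, rfl⟩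
  have hmr : (0 : ℝ) ≤ m := Nat.cast_nonneg m
  have hk1 : 0 ≤ 2 * (m + 1) * A ^ 2 * B := by positivity
  have hk2 : 0 ≤ (m + 1) * A ^ 2 * C0 := by positivity
  have hk3 : A ^ 2 * C0 ≤ (m + 1) * A ^ 2 * C0 := by
    have : 0 ≤ m * (A ^ 2 * C0) := by positivity
    linarith
  refine ⟨C', min (min r1 r0) (r4 / 2), s ^ (m + 1) / (2 * B), by rw [hC']; linarith,
    lt_min (lt_min hr1 hr0) (by positivity), by positivity, ?_⟩
  intro q hq hfq R hR hRR hsz x ρ h hρ hhd hhb hhV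
  have hq1 : ‖q - c1‖ < r1 := by
    rw [mem_ball, dist_eq_norm] at hq
    exact hq.trans_le ((min_le_left _ _).trans (min_le_left _ _))
  have hq0 : ‖q - c1‖ < r0 := by
    rw [mem_ball, dist_eq_norm] at hq
    exact hq.trans_le ((min_le_left _ _).trans (min_le_right _ _))
  have hq4 : ‖q - c1‖ < r4 / 2 := by
    rw [mem_ball, dist_eq_norm] at hq
    exact hq.trans_le (min_le_right _ _)
  have hqb : q ∈ ball c1 r1 := by rwa [mem_ball, dist_eq_norm]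
  have hcb : c1 ∈ ball c1 r1 := mem_ball_self hr1
  have hevq : ev v0.2 q ≠ 0 := hball0 (by rwa [mem_ball, dist_eq_norm])
  -- the formula for the derivative
  have hfdz : ∀ z ∈ ball c1 r1, ev v0.2 z ≠ 0 → fd v0 z = (m + 1) * ψ z ^ m * deriv ψ z :=
    fun z hz hz2 => (hdf z hz2).unique (hdψ z hz).1
  have hfdn : ∀ z ∈ ball c1 r1, ev v0.2 z ≠ 0 →
      ‖fd v0 z‖ = (m + 1) * ‖ψ z‖ ^ m * ‖deriv ψ z‖ := by
    intro z hz hz2
    rw [hfdz z hz hz2, norm_mul, norm_mul, norm_pow]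
    congr 2
    have h1 : ((m : ℂ) + 1) = ((m + 1 : ℕ) : ℂ) := by push_cast; ring
    rw [h1, Complex.norm_natCast]
    push_cast
    ring
  have hup : ∀ z ∈ ball c1 r1, ev v0.2 z ≠ 0 → ‖fd v0 z‖ ≤ (m + 1) * A * ‖ψ z‖ ^ m := by
    intro z hz hz2
    rw [hfdn z hz hz2]
    have h1 := (hdψ z hz).2.2
    have h2 : 0 ≤ (m + 1) * ‖ψ z‖ ^ m := by positivity
    have h3 := mul_le_mul_of_nonneg_left h1 h2
    linarith
  have hlo : ∀ z ∈ ball c1 r1, ev v0.2 z ≠ 0 → (m + 1) * ‖ψ z‖ ^ m ≤ A * ‖fd v0 z‖ := by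
    intro z hz hz2
    rw [hfdn z hz hz2]
    have h1 := (hdψ z hz).2.1
    have h2 : 0 ≤ (m + 1) * ‖ψ z‖ ^ m := by positivity
    have h3 := mul_le_mul_of_nonneg_left h1 h2
    linarith
  obtain ⟨ζ, hζ⟩ : ∃ ζ, ζ = ψ q := ⟨_, rfl⟩
  have hqc : q ≠ c1 := by
    rintro rfl
    exact hfq hfd0
  have hζle : ‖ζ‖ ≤ A * ‖q - c1‖ := by
    have h1 := (hbl q hqb c1 hcb).2
    rwa [hψ0, sub_zero, ← hζ] at h1
  have hζge : ‖q - c1‖ ≤ A * ‖ζ‖ := by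
    have h1 := (hbl q hqb c1 hcb).1
    rwa [hψ0, sub_zero, ← hζ] at h1
  have hζ0 : ζ ≠ 0 := by
    intro h0
    rw [h0, norm_zero, mul_zero] at hζge
    exact hqc (sub_eq_zero.1 (norm_le_zero_iff.1 hζge))
  have hT : fm v0 q = fm v0 c1 + ζ ^ (m + 1) := by rw [hζ]; exact hnf q hqb
  -- the size of `ζ`
  have hinf : ‖q - c1‖ ≤ infDist q (Zc v0) := by
    rw [Metric.le_infDist ⟨c1, hc1⟩]
    intro y hy
    by_cases hyc : y = c1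
    · rw [hyc, dist_eq_norm]
    · have h1 : y ∉ ball c1 r4 := fun h => hball4 h ⟨hy, hyc⟩
      rw [mem_ball, not_lt] at h1
      have h2 := dist_triangle y q c1
      rw [dist_eq_norm q c1, dist_comm y q] at h2
      linarith
  have hζS : ‖ζ‖ ^ (m + 1) ≤ A ^ 2 * sz v0 q := by
    have h1 : ‖ζ‖ ≤ A * infDist q (Zc v0) :=
      hζle.trans (mul_le_mul_of_nonneg_left hinf hA0.le)
    have h2 : ‖ζ‖ ^ m ≤ A * ‖fd v0 q‖ := by
      have h3 := hlo q hqb hevq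
      rw [← hζ] at h3
      have h4 : 0 ≤ m * ‖ζ‖ ^ m := by positivity
      linarith
    calc ‖ζ‖ ^ (m + 1) = ‖ζ‖ * ‖ζ‖ ^ m := by ring
      _ ≤ (A * infDist q (Zc v0)) * (A * ‖fd v0 q‖) :=
          mul_le_mul h1 h2 (by positivity) (by
            have := Metric.infDist_nonneg (x := q) (s := Zc v0)
            positivity)
      _ = A ^ 2 * sz v0 q := by
          unfold sz
          ring
  have hζR : ‖ζ‖ ^ (m + 1) ≤ A ^ 2 * C * R := by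
    have h1 := mul_le_mul_of_nonneg_left hsz.le (sq_nonneg A)
    linarith
  have hζB : ‖ζ‖ ^ (m + 1) ≤ B * R := by
    rw [hB]
    linarith
  have hBR : 0 ≤ B * R := by positivity
  have hxb : x ∈ ball x ρ := mem_ball_self hρ
  -- the root
  have hYne : h x - fm v0 c1 ≠ 0 := sub_ne_zero.2 (hhV x hxb)
  obtain ⟨u0, hu0, hr1', hr2'⟩ := hrot ζ (h x - fm v0 c1) hζ0 hYne
  have hYT : h x - fm v0 c1 - ζ ^ (m + 1) = h x - fm v0 q := by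
    rw [hT]
    ring
  rw [hYT] at hr1' hr2'
  obtain ⟨u, hud, hux, hup'⟩ := rtb (h := fun z => h z - fm v0 c1) hρ
    (hhd.sub_const _) (fun z hz => sub_ne_zero.2 (hhV z hz)) m hu0
  have hupow : ∀ z ∈ ball x ρ, ‖u z‖ ^ (m + 1) ≤ B * R := by
    intro z hz
    rw [← norm_pow, hup' z hz]
    have h1 : h z - fm v0 c1 = (h z - fm v0 q) + ζ ^ (m + 1) := by
      rw [hT]
      ring
    rw [h1]
    refine (norm_add_le _ _).trans ?_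
    rw [norm_pow, hB]
    have := hhb z hz
    linarith
  have husm : ∀ z ∈ ball x ρ, ‖u z‖ < s := by
    intro z hz
    have h1 : B * R ≤ s ^ (m + 1) / 2 := by
      have h2 := mul_le_mul_of_nonneg_left hRR (by linarith : 0 ≤ B)
      have h3 : B * (s ^ (m + 1) / (2 * B)) = s ^ (m + 1) / 2 := by
        field_simp
      linarith
    have h2 : 0 < s ^ (m + 1) := by positivity
    refine lt_of_pow_lt_pow_left₀ (m + 1) hs0.le ?_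
    have := hupow z hz
    linarith
  have hub : ∀ z ∈ ball x ρ, u z ∈ ball (0 : ℂ) r2 := by
    intro z hz
    rw [mem_ball_zero_iff]
    exact (husm z hz).trans_le hs2
  have hχ0 : ∀ z ∈ ball x ρ, χ (u z) ∈ ball c1 r1 ∧ ψ (χ (u z)) = u z := fun z hz =>
    hinv (u z) (hub z hz)
  have hevχ : ∀ z ∈ ball x ρ, ev v0.2 (χ (u z)) ≠ 0 := by
    intro z hz
    apply hball0
    rw [mem_ball, dist_eq_norm]
    have h1 := (hbl (χ (u z)) (hχ0 z hz).1 c1 hcb).1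
    rw [hψ0, sub_zero, (hχ0 z hz).2] at h1
    have h2 : A * ‖u z‖ < A * s := mul_lt_mul_of_pos_left (husm z hz) hA0
    linarith
  have hfdq : ‖fd v0 q‖ ≤ (m + 1) * A * ‖ζ‖ ^ m := by
    rw [hζ]
    exact hup q hqb hevq
  have hfdq0 : 0 < ‖fd v0 q‖ := norm_pos_iff.2 hfq
  refine ⟨fun z => χ (u z), ?_, ?_, ?_, ?_⟩
  · exact hχd.comp hud fun z hz => hub z hz
  · intro z hz
    refine ⟨?_, hevχ z hz, ?_⟩
    · rw [hnf _ (hχ0 z hz).1, (hχ0 z hz).2, hup' z hz]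
      ring
    · rw [le_div_iff₀ hfdq0]
      have h1 := (hbl (χ (u z)) (hχ0 z hz).1 q hqb).1
      rw [(hχ0 z hz).2, ← hζ] at h1
      have h2 : ‖χ (u z) - q‖ ≤ A * (‖u z‖ + ‖ζ‖) :=
        h1.trans (mul_le_mul_of_nonneg_left (norm_sub_le _ _) hA0.le)
      have h3 : ‖u z‖ * ‖ζ‖ ^ m ≤ B * R :=
        stc_mix m ‖ζ‖ ‖u z‖ (B * R) (norm_nonneg _) (norm_nonneg _) hBR hζB (hupow z hz)
      have h4 : (‖u z‖ + ‖ζ‖) * ‖ζ‖ ^ m ≤ 2 * (B * R) := by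
        have : ‖ζ‖ * ‖ζ‖ ^ m = ‖ζ‖ ^ (m + 1) := by ring
        rw [add_mul, this]
        linarith
      calc ‖χ (u z) - q‖ * ‖fd v0 q‖
          ≤ (A * (‖u z‖ + ‖ζ‖)) * ((m + 1) * A * ‖ζ‖ ^ m) :=
            mul_le_mul h2 hfdq (norm_nonneg _) (by positivity)
        _ = ((m + 1) * A ^ 2) * ((‖u z‖ + ‖ζ‖) * ‖ζ‖ ^ m) := by ring
        _ ≤ ((m + 1) * A ^ 2) * (2 * (B * R)) := mul_le_mul_of_nonneg_left h4 (by positivity)
        _ = (2 * (m + 1) * A ^ 2 * B) * R := by ring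
        _ ≤ C' * R := mul_le_mul_of_nonneg_right (by rw [hC']; linarith) hR.le
  · have h1 := (hbl (χ (u x)) (hχ0 x hxb).1 q hqb).1
    rw [(hχ0 x hxb).2, ← hζ, hux] at h1
    have h2 := hup (χ (u x)) (hχ0 x hxb).1 (hevχ x hxb)
    rw [(hχ0 x hxb).2, hux] at h2
    change ‖χ (u x) - q‖ * ‖fd v0 (χ (u x))‖ ≤ C' * ‖h x - fm v0 q‖
    rw [hux]
    calc ‖χ u0 - q‖ * ‖fd v0 (χ u0)‖ ≤ (A * ‖u0 - ζ‖) * ((m + 1) * A * ‖u0‖ ^ m) :=
          mul_le_mul h1 h2 (norm_nonneg _) (by positivity)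
      _ = ((m + 1) * A ^ 2) * (‖u0 - ζ‖ * ‖u0‖ ^ m) := by ring
      _ ≤ ((m + 1) * A ^ 2) * (C0 * ‖h x - fm v0 q‖) :=
          mul_le_mul_of_nonneg_left hr1' (by positivity)
      _ = ((m + 1) * A ^ 2 * C0) * ‖h x - fm v0 q‖ := by ring
      _ ≤ C' * ‖h x - fm v0 q‖ :=
          mul_le_mul_of_nonneg_right (by rw [hC']; linarith) (norm_nonneg _)
  · have h2 := hlo (χ (u x)) (hχ0 x hxb).1 (hevχ x hxb)
    rw [(hχ0 x hxb).2, hux] at h2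
    change ‖fd v0 q‖ * ‖h x - fm v0 c1‖ ≤
      C' * ‖fd v0 (χ (u x))‖ * (‖h x - fm v0 c1‖ + ‖h x - fm v0 q‖)
    rw [hux]
    obtain ⟨W, hW⟩ : ∃ W, W = ‖h x - fm v0 c1‖ + ‖h x - fm v0 q‖ := ⟨_, rfl⟩
    have hW0 : 0 ≤ W := by rw [hW]; positivity
    rw [← hW] at hr2' ⊢
    calc ‖fd v0 q‖ * ‖h x - fm v0 c1‖ ≤ ((m + 1) * A * ‖ζ‖ ^ m) * ‖h x - fm v0 c1‖ :=
          mul_le_mul_of_nonneg_right hfdq (norm_nonneg _)
      _ = ((m + 1) * A) * (‖ζ‖ ^ m * ‖h x - fm v0 c1‖) := by ring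
      _ ≤ ((m + 1) * A) * (C0 * ‖u0‖ ^ m * W) := mul_le_mul_of_nonneg_left hr2' (by positivity)
      _ = (A * C0 * W) * ((m + 1) * ‖u0‖ ^ m) := by ring
      _ ≤ (A * C0 * W) * (A * ‖fd v0 (χ u0)‖) := mul_le_mul_of_nonneg_left h2 (by positivity)
      _ = (A ^ 2 * C0) * ‖fd v0 (χ u0)‖ * W := by ring
      _ ≤ C' * ‖fd v0 (χ u0)‖ * W := by
          apply mul_le_mul_of_nonneg_right _ hW0
          exact mul_le_mul_of_nonneg_right (by rw [hC']; linarith) (norm_nonneg _)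

end Pool.Agent.H79.MZ
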