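import Pool.Agent.H79.MZ.STA
import Pool.Agent.H79.MZ.STC

/-!
# Module STP: the steps, uniformly on a compact set

PROOF. `C` from `sta` for `K0`. `Z = Zc v0` is finite (`wv_pol`, `ww_ne`). For each `c1 ∈ Z` with `ev v0.2 c1 ≠ 0`: `stc` with this `C`: `C'(c1), r3(c1), R0(c1)`. `C' = max` over these and `3`, `C`; `R1` = the minimum of the `R0(c1)` and `1`. (StepN is monotone: larger `C'`, smaller `R0`; the constants `C'` in the three inequalities multiply nonnegative quantities.)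
The set `K1 = K0 \ ⋃ ball c1 (r3 c1)` is compact; on it `sz v0 q > 0`: `infDist q Z > 0` (`q ∉ Z` since a `q ∈ Z ∩ K0` has `ev v0.2 q ≠ 0`, so `q ∈ ball q (r3 q)`; `Z` finite, closed, nonempty by `hc0`) and `fd v0 q ≠ 0`; `sz v0` is continuous on `K0` (`ev v0.2 ≠ 0`). So `sz v0 q ≥ m1 > 0` on `K1`; `R0 = min R1 (m1 / (2 C))`.
`cc q` = some `c1 ∈ Z` with `ev v0.2 c1 ≠ 0`, `q ∈ ball c1 (r3 c1)` if there is one, else `c0`. In the second case the hypothesis `sz v0 q < C * R`, `R ≤ R0` of `StepN` is false. `sz_lip`: `‖fd v0 q‖ ≤ L infDist q Z` on `K0`: `fd v0` is Lipschitz near `K0` and vanishes on `Z`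
(for `q` close to `Z`: nearest point `c1 ∈ Z` within the region `ev v0.2 ≠ 0`; for `infDist q Z ≥ r` use that `‖fd v0‖` is bounded on `K0`).
-/

set_option autoImplicit false

open Filter Topology Polynomial Metric Set

namespace Pool.Agent.H79.MZ

open Pool.Agent.H44.Fatou Pool.Agent.H32.BT Pool.Agent.H79.Eul Pool.Agent.H79.Par Pool.Agent.H61.TT

/-- a common lower bound of finitely many positive numbers -/
private theorem min_pos (s : Finset ℂ) (r : ℂ → ℝ) (h : ∀ c ∈ s, 0 < r c) :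
    ∃ r0 : ℝ, 0 < r0 ∧ r0 ≤ 1 ∧ ∀ c ∈ s, r0 ≤ r c := by
  classical
  induction s using Finset.induction_on with
  | empty => exact ⟨1, one_pos, le_rfl, fun c hc => absurd hc (Finset.notMem_empty c)⟩
  | insert a s _ ih =>
    obtain ⟨r0, h1, h2, h3⟩ := ih fun c hc => h c (Finset.mem_insert_of_mem hc)
    refine ⟨min r0 (r a), lt_min h1 (h a (Finset.mem_insert_self _ _)),
      (min_le_left _ _).trans h2, fun c hc => ?_⟩
    rcases Finset.mem_insert.1 hc with rfl | hc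
    · exact min_le_right _ _
    · exact (min_le_left _ _).trans (h3 c hc)

private theorem wv_cont {d : ℕ} (v0 : E d) : Continuous (wv v0) := by
  have h1 : wv v0 = fun z => (ww (pol v0.1) (pol v0.2)).eval z := funext fun z => wv_pol v0 z
  rw [h1]
  exact Polynomial.continuous _

private theorem Zc_closed {d : ℕ} (v0 : E d) : IsClosed (Zc v0) :=
  isClosed_eq (wv_cont v0) continuous_const

private theorem ev_cont' {d : ℕ} (p : Fin (d + 1) → ℂ) : Continuous (ev p) := by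
  have h1 := ev_cont (d := d)
  exact h1.comp (continuous_const.prodMk continuous_id)

private theorem StepL_mono {d : ℕ} {v0 : E d} {C R0 R0' : ℝ} {q : ℂ} (h : StepL v0 C R0 q)
    (hR : R0' ≤ R0) : StepL v0 C R0' q :=
  fun R hR0 hRR => h R hR0 (hRR.trans hR)

private theorem StepN_mono {d : ℕ} {v0 : E d} {C C' C'' R0 R0' : ℝ} {q c1 : ℂ}
    (h : StepN v0 C C' R0 q c1) (hC : C' ≤ C'') (hR : R0' ≤ R0) : StepN v0 C C'' R0' q c1 := by
  intro R hR0 hRR hsz x ρ f hρ hf1 hf2 hf3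
  obtain ⟨h', h1, h2, h3, h4⟩ := h R hR0 (hRR.trans hR) hsz x ρ f hρ hf1 hf2 hf3
  refine ⟨h', h1, fun z hz => ?_, ?_, ?_⟩
  · obtain ⟨h5, h6, h7⟩ := h2 z hz
    refine ⟨h5, h6, h7.trans ?_⟩
    gcongr
  · exact h3.trans (mul_le_mul_of_nonneg_right hC (norm_nonneg _))
  · refine h4.trans ?_
    have h5 : 0 ≤ ‖f x - fm v0 c1‖ + ‖f x - fm v0 q‖ := by positivity
    exact mul_le_mul_of_nonneg_right (mul_le_mul_of_nonneg_right hC (norm_nonneg _)) h5

theorem stp {d : ℕ} {v0 : E d} (hd : 2 ≤ d) (hcop : IsCoprime (pol v0.1) (pol v0.2))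
    (hdeg : max (pol v0.1).natDegree (pol v0.2).natDegree = d) {c0 : ℂ} (hc0 : wv v0 c0 = 0)
    {K0 : Set ℂ} (hK0 : IsCompact K0) (hden : ∀ z ∈ K0, ev v0.2 z ≠ 0) :
    ∃ (C C' R0 : ℝ) (cc : ℂ → ℂ), 1 ≤ C ∧ C ≤ C' ∧ 3 ≤ C' ∧ 0 < R0 ∧ R0 ≤ 1 ∧
      ∀ q ∈ K0, StepL v0 C R0 q ∧ (fd v0 q ≠ 0 → StepN v0 C C' R0 q (cc q)) := by
  classical
  obtain ⟨C, hC, hL⟩ := sta hd hcop hdeg hc0 hK0 hden
  -- the critical points form a finite set
  have hW : ww (pol v0.1) (pol v0.2) ≠ 0 := ww_ne ⟨hd, hcop, hdeg⟩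
  obtain ⟨Zg, hZg⟩ : ∃ Zg : Finset ℂ, ∀ c, c ∈ Zg ↔ wv v0 c = 0 ∧ ev v0.2 c ≠ 0 := by
    refine ⟨(ww (pol v0.1) (pol v0.2)).roots.toFinset.filter fun c => ev v0.2 c ≠ 0, fun c => ?_⟩
    rw [Finset.mem_filter, Multiset.mem_toFinset, mem_roots hW, IsRoot, ← wv_pol]
  have key : ∀ c : ℂ, ∃ C' r3 R0 : ℝ, 0 ≤ C' ∧ (c ∈ Zg → 0 < r3 ∧ 0 < R0 ∧
      ∀ q ∈ ball c r3, fd v0 q ≠ 0 → StepN v0 C C' R0 q c) := by
    intro c
    by_cases hc : c ∈ Zg
    · obtain ⟨h1, h2⟩ := (hZg c).1 hc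
      obtain ⟨C', r3, R0, h3, h4, h5, h6⟩ := stc hd hcop hdeg h1 h2 hC
      exact ⟨C', r3, R0, by linarith, fun _ => ⟨h4, h5, h6⟩⟩
    · exact ⟨0, 0, 0, le_rfl, fun h => absurd h hc⟩
  choose Cc r3 Rc hCc hstc using key
  obtain ⟨R1, hR1, hR11, hR1c⟩ := min_pos Zg Rc fun c hc => (hstc c hc).2.1
  obtain ⟨C', hC'⟩ : ∃ C', C' = 3 + C + ∑ c ∈ Zg, Cc c := ⟨_, rfl⟩
  have hsum : 0 ≤ ∑ c ∈ Zg, Cc c := Finset.sum_nonneg fun c _ => hCc c
  have hCle : ∀ c ∈ Zg, Cc c ≤ C' := by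
    intro c hc
    have h1 := Finset.single_le_sum (f := Cc) (fun c _ => hCc c) hc
    rw [hC']
    linarith
  -- away from the critical points
  obtain ⟨K1, hK1⟩ : ∃ K1 : Set ℂ, K1 = K0 \ ⋃ c ∈ Zg, ball c (r3 c) := ⟨_, rfl⟩
  have hK1c : IsCompact K1 := by
    rw [hK1]
    exact hK0.diff (isOpen_biUnion fun c _ => isOpen_ball)
  have hZne : (Zc v0).Nonempty := ⟨c0, hc0⟩
  have hpos : ∀ q ∈ K1, 0 < sz v0 q := by
    intro q hq
    rw [hK1] at hq
    obtain ⟨h1, h2⟩ := hq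
    have hev := hden q h1
    have hq : wv v0 q ≠ 0 := by
      intro h3
      have h4 : q ∈ Zg := (hZg q).2 ⟨h3, hev⟩
      exact h2 (mem_biUnion (Finset.mem_coe.2 h4 : q ∈ (Zg : Set ℂ)) (mem_ball_self (hstc q h4).1))
    have h5 : 0 < infDist q (Zc v0) := by
      refine lt_of_le_of_ne infDist_nonneg ?_
      intro h6
      exact hq (((Zc_closed v0).mem_iff_infDist_zero hZne).2 h6.symm)
    have h6 : fd v0 q ≠ 0 := div_ne_zero hq (pow_ne_zero _ hev)
    exact mul_pos h5 (norm_pos_iff.2 h6)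
  have hfdc : ContinuousOn (fd v0) K0 := by
    unfold fd
    exact (wv_cont v0).continuousOn.div ((ev_cont' v0.2).continuousOn.pow 2)
      fun z hz => pow_ne_zero _ (hden z hz)
  have hszc : ContinuousOn (sz v0) K1 := by
    unfold sz
    refine (continuous_infDist_pt (Zc v0)).continuousOn.mul (ContinuousOn.norm (hfdc.mono ?_))
    rw [hK1]
    exact sdiff_subset
  obtain ⟨m1, hm1, hm⟩ : ∃ m1 : ℝ, 0 < m1 ∧ ∀ q ∈ K1, m1 ≤ sz v0 q := by
    rcases K1.eq_empty_or_nonempty with h | h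
    · exact ⟨1, one_pos, fun q hq => by rw [h] at hq; exact absurd hq (notMem_empty q)⟩
    · obtain ⟨q0, hq0, hq1⟩ := hK1c.exists_isMinOn h hszc
      exact ⟨sz v0 q0, hpos q0 hq0, fun q hq => hq1 hq⟩
  obtain ⟨R0, hR0⟩ : ∃ R0, R0 = min R1 (m1 / (2 * C)) := ⟨_, rfl⟩
  have hR0p : 0 < R0 := by
    rw [hR0]
    exact lt_min hR1 (by positivity)
  have hR01 : R0 ≤ R1 := by
    rw [hR0]
    exact min_le_left _ _
  have hR0m : R0 ≤ m1 / (2 * C) := by
    rw [hR0]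
    exact min_le_right _ _
  refine ⟨C, C', R0, fun q => if h : ∃ c ∈ Zg, q ∈ ball c (r3 c) then h.choose else c0, hC,
    by rw [hC']; linarith, by rw [hC']; linarith, hR0p, hR01.trans hR11, fun q hq => ⟨?_, fun hfd => ?_⟩⟩
  · exact StepL_mono (hL C le_rfl q hq) (hR01.trans hR11)
  · by_cases h : ∃ c ∈ Zg, q ∈ ball c (r3 c)
    · simp only [dif_pos h]
      obtain ⟨h1, h2⟩ := h.choose_spec
      exact StepN_mono ((hstc _ h1).2.2 q h2 hfd) (hCle _ h1) (hR01.trans (hR1c _ h1))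
    · simp only [dif_neg h]
      intro R hRp hRR hsz
      exfalso
      have hqK : q ∈ K1 := by
        rw [hK1]
        refine ⟨hq, fun h1 => h ?_⟩
        rw [mem_iUnion₂] at h1
        obtain ⟨c, hc, h2⟩ := h1
        exact ⟨c, hc, h2⟩
      have h1 := hm q hqK
      have h2 : C * R ≤ m1 / 2 := by
        calc C * R ≤ C * (m1 / (2 * C)) :=
              mul_le_mul_of_nonneg_left (hRR.trans hR0m) (by linarith)
          _ = m1 / 2 := by field_simp
      linarith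

theorem sz_lip {d : ℕ} {v0 : E d} {c0 : ℂ} (hc0 : wv v0 c0 = 0)
    {K0 : Set ℂ} (hK0 : IsCompact K0) (hden : ∀ z ∈ K0, ev v0.2 z ≠ 0) :
    ∃ L : ℝ, 1 ≤ L ∧ ∀ q ∈ K0, ‖fd v0 q‖ ≤ L ∧ infDist q (Zc v0) ≤ L ∧
      ‖fd v0 q‖ ≤ L * infDist q (Zc v0) := by
  have hZne : (Zc v0).Nonempty := ⟨c0, hc0⟩
  -- a ball which contains everything
  obtain ⟨R, hR⟩ := hK0.isBounded.subset_closedBall 0
  obtain ⟨R', hR'⟩ : ∃ R', R' = |R| + ‖c0‖ + 1 := ⟨_, rfl⟩
  have hq0 : ∀ q ∈ K0, ‖q‖ ≤ |R| := fun q hq => by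
    have h1 := hR hq
    rw [mem_closedBall, dist_zero_right] at h1
    exact h1.trans (le_abs_self R)
  have hinf : ∀ q ∈ K0, infDist q (Zc v0) ≤ R' := by
    intro q hq
    refine (infDist_le_dist_of_mem (show c0 ∈ Zc v0 from hc0)).trans ?_
    rw [dist_eq_norm]
    have h1 := norm_sub_le q c0
    have h2 := hq0 q hq
    rw [hR']
    linarith
  -- the polynomial is Lipschitz there
  obtain ⟨M, hM⟩ : ∃ M : ℝ, ∀ z ∈ closedBall (0 : ℂ) (2 * R'),
      ‖(derivative (ww (pol v0.1) (pol v0.2))).eval z‖ ≤ M :=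
    (isCompact_closedBall (0 : ℂ) (2 * R')).exists_bound_of_continuousOn
      (Polynomial.continuous _).continuousOn
  have hlip : ∀ z ∈ closedBall (0 : ℂ) (2 * R'), ∀ z' ∈ closedBall (0 : ℂ) (2 * R'),
      ‖wv v0 z' - wv v0 z‖ ≤ M * ‖z' - z‖ := by
    intro z hz z' hz'
    rw [wv_pol, wv_pol]
    refine Convex.norm_image_sub_le_of_norm_hasDerivWithin_le (𝕜 := ℂ)
      (f := fun z => (ww (pol v0.1) (pol v0.2)).eval z) (f' := fun z => (derivative (ww (pol v0.1) (pol v0.2))).eval z)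
      (s := closedBall (0 : ℂ) (2 * R')) (fun w _ => ?_) (fun w hw => hM w hw)
      (convex_closedBall _ _) hz hz'
    exact (Polynomial.hasDerivAt _ w).hasDerivWithinAt
  have hR'1 : 1 ≤ R' := by
    rw [hR']
    have h1 := abs_nonneg R
    have h2 := norm_nonneg c0
    linarith
  have hM0 : 0 ≤ M := (norm_nonneg _).trans (hM 0 (by rw [mem_closedBall, dist_self]; linarith))
  have hwq : ∀ q ∈ K0, ‖wv v0 q‖ ≤ M * infDist q (Zc v0) := by
    intro q hq
    obtain ⟨c1, hc1, h1⟩ := (Zc_closed v0).exists_infDist_eq_dist hZne q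
    have h2 := hinf q hq
    have h3 : ‖q‖ ≤ R' := (hq0 q hq).trans (by rw [hR']; linarith [norm_nonneg c0])
    have h4 : c1 ∈ closedBall (0 : ℂ) (2 * R') := by
      rw [mem_closedBall, dist_zero_right]
      have h5 : ‖c1‖ ≤ ‖q‖ + ‖q - c1‖ := by
        have := norm_sub_norm_le c1 q
        rw [norm_sub_rev] at this
        linarith
      rw [← dist_eq_norm, ← h1] at h5
      linarith
    have h5 : q ∈ closedBall (0 : ℂ) (2 * R') := by
      rw [mem_closedBall, dist_zero_right]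
      linarith
    have h6 := hlip c1 h4 q h5
    have h7 : wv v0 c1 = 0 := hc1
    rw [h7, sub_zero, ← dist_eq_norm, ← h1] at h6
    exact h6
  -- the denominator
  obtain ⟨b0, hb0, hb⟩ : ∃ b0 : ℝ, 0 < b0 ∧ ∀ q ∈ K0, b0 ≤ ‖ev v0.2 q ^ 2‖ := by
    rcases K0.eq_empty_or_nonempty with h | h
    · exact ⟨1, one_pos, fun q hq => by rw [h] at hq; exact absurd hq (notMem_empty q)⟩
    · obtain ⟨q0, hq0, hq1⟩ := hK0.exists_isMinOn h
        (((ev_cont' v0.2).pow 2).norm.continuousOn (s := K0))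
      exact ⟨‖ev v0.2 q0 ^ 2‖, norm_pos_iff.2 (pow_ne_zero _ (hden q0 hq0)), fun q hq => hq1 hq⟩
  have hfd : ∀ q ∈ K0, ‖fd v0 q‖ ≤ M / b0 * infDist q (Zc v0) := by
    intro q hq
    unfold fd
    rw [norm_div, div_mul_eq_mul_div]
    exact div_le_div₀ (mul_nonneg hM0 infDist_nonneg) (hwq q hq) hb0 (hb q hq)
  have hMb : 0 ≤ M / b0 := by positivity
  refine ⟨1 + R' + M / b0 * (1 + R'), ?_, fun q hq => ⟨?_, ?_, ?_⟩⟩
  · have h1 : 0 ≤ M / b0 * (1 + R') := by positivity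
    linarith
  · refine (hfd q hq).trans ?_
    have h1 : M / b0 * infDist q (Zc v0) ≤ M / b0 * R' :=
      mul_le_mul_of_nonneg_left (hinf q hq) hMb
    nlinarith
  · refine (hinf q hq).trans ?_
    have h1 : 0 ≤ M / b0 * (1 + R') := by positivity
    linarith
  · refine (hfd q hq).trans ?_
    refine mul_le_mul_of_nonneg_right ?_ infDist_nonneg
    nlinarith

end Pool.Agent.H79.MZ
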