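import Pool.Agent.H79.MZ.CH3
import Pool.Agent.H79.MZ.STP
import Pool.Agent.H79.MZ.PLI

/-!
# Module CEB: summable values with positive upper Lyapunov exponent (in particular Collet-Eckmann values) have branches beside them

PROOF. `K0 = closure (range (fun k => p (k + 1)))`, compact (`cr.pb`), `ev v0.2 ≠ 0` on it (`cr.bb`, continuity). `rK > 0` with `ev v0.2 ≠ 0` on `K = cthickening rK K0` (compact). `stp` for `K0` (`c0 = p 0`), `L` from `sz_lip`. All `fd v0 (p (j + 1)) ≠ 0` (`cr.hB` and `cr_ne`); `a j = log ‖fd v0 (p (j + 1))‖ ≤ log L`, `∑ j < n, a j = log ‖trD v0 n (p 1)‖`, which is at least `n log q` for infinitely many `n` (`hgr`) and, for all `n`, equal to `- log ‖B n‖ ≥ - log Bm` with `Bm ≥ 1` a bound of the `‖B n‖` (`cr_trD`, `cr.sm`).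
`b j = - log (sz v0 (p (j + 1)))` (`sz > 0`: `infDist > 0` because `‖fd‖ ≤ L infDist`). `‖fd‖ ≤ L infDist` gives `- log infDist ≤ log L - a j`, so `b j = - log infDist - a j ≤ log L - 2 a j`, and `b j ≥ - 2 log L`; so `max (b j) 0 ≤ b j + 2 log L ≤ 3 log L - 2 a j` (all with `L ≥ 1`), `∑ j < n, max (b j) 0 ≤ 3 n log L + 2 log Bm ≤ Q n + C1`.
`pli` with `β = log q`, `α = log q / 2`, `γ = α / 2`: `M, T`. For `n ∈ T`, `P k = p (n + 1 - k)`: `∏ j ∈ Ioc 0 k, ‖fd v0 (P j)‖ = exp (∑ i ∈ Ico (n - k) n, a i) ≥ exp (α k)`; captured `k`: `sz v0 (P k) < exp (- α k / 2)`, i.e. with `i = n - k`: `b i > γ (n - i)`: at most `M` indices. So `Dat v0 K0 α M n P`. `ch2`: `δ0`; `δ = δ0`. For `η ≤ δ`: `As`.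
`S = {p (n + 1)} ∪ {it v0 k (cc (P k)) | k captured}`, `card ≤ M + 1`. For `x` avoiding `S`: `ch2`, `ch3`. `GoodB v0 p B K δ0 (M + 1) T`.
-/

set_option autoImplicit false

open Filter Topology Polynomial Metric Set

namespace Pool.Agent.H79.MZ

open Pool.Agent.H44.Fatou Pool.Agent.H32.BT Pool.Agent.H79.Eul Pool.Agent.H79.Par Pool.Agent.H61.TT

private theorem ceb_fd {d : ℕ} {v0 : E d} {p B : ℕ → ℂ} (hc : Cr v0 p B) (k : ℕ) :
    fd v0 (p (k + 1)) ≠ 0 := by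
  intro h
  have h1 := hc.hB k
  unfold fd at h
  rw [h, mul_zero] at h1
  exact cr_ne hc k h1.symm

private theorem ceb_trD {d : ℕ} {v0 : E d} {p B : ℕ → ℂ} (hc : Cr v0 p B) (n : ℕ) :
    ‖trD v0 n (p 1)‖ = ∏ i ∈ Finset.range n, ‖fd v0 (p (i + 1))‖ := by
  induction n with
  | zero => simp [trD]
  | succ n ih =>
    have h1 : trD v0 (n + 1) (p 1) = trD v0 n (p 1) *
        (wv v0 (p (n + 1)) / ev v0.2 (p (n + 1)) ^ 2) := by
      unfold trD
      rw [Finset.prod_range_succ, cr_it hc, Nat.add_comm 1 n]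
    rw [h1, norm_mul, ih, Finset.prod_range_succ]
    rfl

/-- the compact sets -/
private theorem ceb_K {d : ℕ} {v0 : E d} {p B : ℕ → ℂ} (hc : Cr v0 p B) :
    ∃ (K0 K : Set ℂ) (rK : ℝ), IsCompact K0 ∧ (∀ z ∈ K0, ev v0.2 z ≠ 0) ∧ (∀ k, p (k + 1) ∈ K0) ∧
      0 < rK ∧ IsCompact K ∧ (∀ z ∈ K, ev v0.2 z ≠ 0) ∧ ∀ k, closedBall (p (k + 1)) rK ⊆ K := by
  obtain ⟨R, hR⟩ := hc.pb
  obtain ⟨δb, hδb, hb⟩ := hc.bb
  have hcont : Continuous fun z : ℂ => ev v0.2 z :=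
    ev_cont.comp (continuous_const.prodMk continuous_id)
  set K0 : Set ℂ := closure (Set.range fun k => p (k + 1)) with hK0
  have hsub : K0 ⊆ closedBall 0 R := by
    refine closure_minimal ?_ isClosed_closedBall
    rintro _ ⟨k, rfl⟩
    simpa using hR (k + 1)
  have hcK0 : IsCompact K0 := (isCompact_closedBall (0 : ℂ) R).of_isClosed_subset isClosed_closure hsub
  have hden : ∀ z ∈ K0, ev v0.2 z ≠ 0 := by
    have h1 : K0 ⊆ {z : ℂ | δb ≤ ‖ev v0.2 z‖} := by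
      refine closure_minimal ?_ (isClosed_le continuous_const hcont.norm)
      rintro _ ⟨k, rfl⟩
      exact hb (k + 1)
    intro z hz h0
    have h2 : δb ≤ ‖ev v0.2 z‖ := h1 hz
    rw [h0, norm_zero] at h2
    linarith
  have hop : IsOpen {z : ℂ | ev v0.2 z ≠ 0} := isOpen_ne_fun hcont continuous_const
  obtain ⟨rK, hrK, hr2⟩ := hcK0.exists_cthickening_subset_open hop (fun z hz => hden z hz)
  have hmem : ∀ k, p (k + 1) ∈ K0 := fun k => subset_closure ⟨k, rfl⟩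
  exact ⟨K0, cthickening rK K0, rK, hcK0, hden, hmem, hrK, hcK0.cthickening, fun z hz => hr2 hz,
    fun k => closedBall_subset_cthickening (hmem k) rK⟩

/-- the size is positive and the real estimates for its logarithm -/
private theorem ceb_sz {d : ℕ} {v0 : E d} {p B : ℕ → ℂ} (hc : Cr v0 p B) {L : ℝ} (hL : 1 ≤ L)
    {k : ℕ} (h1 : ‖fd v0 (p (k + 1))‖ ≤ L) (h2 : infDist (p (k + 1)) (Zc v0) ≤ L)
    (h3 : ‖fd v0 (p (k + 1))‖ ≤ L * infDist (p (k + 1)) (Zc v0)) :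
    0 < sz v0 (p (k + 1)) ∧ Real.log ‖fd v0 (p (k + 1))‖ ≤ Real.log L ∧
      max (-Real.log (sz v0 (p (k + 1)))) 0 ≤
        3 * Real.log L - 2 * Real.log ‖fd v0 (p (k + 1))‖ := by
  have hf : 0 < ‖fd v0 (p (k + 1))‖ := norm_pos_iff.2 (ceb_fd hc k)
  have hL0 : 0 < L := by linarith
  have hi : 0 < infDist (p (k + 1)) (Zc v0) := by
    by_contra hcon
    have h4 : L * infDist (p (k + 1)) (Zc v0) ≤ 0 :=
      mul_nonpos_of_nonneg_of_nonpos hL0.le (not_lt.1 hcon)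
    linarith
  have hs : 0 < sz v0 (p (k + 1)) := mul_pos hi hf
  have hlL : 0 ≤ Real.log L := Real.log_nonneg hL
  have e1 : Real.log (sz v0 (p (k + 1))) =
      Real.log (infDist (p (k + 1)) (Zc v0)) + Real.log ‖fd v0 (p (k + 1))‖ :=
    Real.log_mul hi.ne' hf.ne'
  have e2 : Real.log ‖fd v0 (p (k + 1))‖ ≤
      Real.log L + Real.log (infDist (p (k + 1)) (Zc v0)) := by
    rw [← Real.log_mul hL0.ne' hi.ne']
    exact Real.log_le_log hf h3
  have e3 : Real.log ‖fd v0 (p (k + 1))‖ ≤ Real.log L := Real.log_le_log hf h1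
  have e4 : Real.log (infDist (p (k + 1)) (Zc v0)) ≤ Real.log L := Real.log_le_log hi h2
  refine ⟨hs, e3, ?_⟩
  rw [e1]
  refine max_le ?_ ?_
  · linarith
  · linarith

private theorem ceb_prod {a w : ℕ → ℝ} (ha : ∀ j, Real.exp (a j) = w j) (n : ℕ) :
    ∀ k ≤ n, ∏ j ∈ Finset.Ioc 0 k, w (n - j) = Real.exp (∑ i ∈ Finset.Ico (n - k) n, a i) := by
  intro k
  induction k with
  | zero => intro _; simp
  | succ k ih =>
    intro hk
    have h1 : n - (k + 1) < n := by omega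
    have h2 : n - (k + 1) + 1 = n - k := by omega
    rw [Finset.prod_Ioc_succ_top (Nat.zero_le k), ih (by omega),
      Finset.sum_eq_sum_Ico_succ_bot h1, h2, Real.exp_add, ha, mul_comm]

private theorem ceb_dat {d : ℕ} {v0 : E d} {p B : ℕ → ℂ} (hc : Cr v0 p B) {K0 : Set ℂ}
    (hmem : ∀ k, p (k + 1) ∈ K0) (hsz : ∀ k, 0 < sz v0 (p (k + 1))) {α : ℝ} {M n : ℕ}
    (h1 : ∀ i ≤ n, α * ((n : ℝ) - i) ≤
      ∑ j ∈ Finset.Ico i n, Real.log ‖fd v0 (p (j + 1))‖)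
    (h2 : ((Finset.range n).filter (fun i => (α / 2) * ((n : ℝ) - i) ≤
      -Real.log (sz v0 (p (i + 1))))).card ≤ M) :
    ∃ S : Finset ℕ, S.card ≤ M ∧ (∀ k, 0 < k → k ≤ n →
      sz v0 (p (n + 1 - k)) < Real.exp (-(α * k / 2)) → k ∈ S) ∧
      Dat v0 K0 α M n (fun k => p (n + 1 - k)) := by
  have hS : ∃ S : Finset ℕ, S.card ≤ M ∧ (∀ k, 0 < k → k ≤ n →
      sz v0 (p (n + 1 - k)) < Real.exp (-(α * k / 2)) → k ∈ S) := by
    classical
    refine ⟨((Finset.range n).filter (fun i => (α / 2) * ((n : ℝ) - i) ≤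
      -Real.log (sz v0 (p (i + 1))))).image (fun i => n - i), Finset.card_image_le.trans h2, ?_⟩
    intro k hk hkn hlt
    have e1 : n + 1 - k = (n - k) + 1 := by omega
    rw [e1] at hlt
    refine Finset.mem_image.2 ⟨n - k, ?_, by omega⟩
    rw [Finset.mem_filter, Finset.mem_range]
    refine ⟨by omega, ?_⟩
    have e2 : ((n - k : ℕ) : ℝ) = (n : ℝ) - k := Nat.cast_sub hkn
    rw [e2]
    have e3 : Real.log (sz v0 (p (n - k + 1))) ≤ -(α * k / 2) := by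
      have := Real.log_le_log (hsz (n - k)) hlt.le
      rwa [Real.log_exp] at this
    have e4 : α / 2 * ((n : ℝ) - ((n : ℝ) - k)) = α * k / 2 := by ring
    rw [e4]
    linarith
  obtain ⟨S, hS1, hS2⟩ := hS
  refine ⟨S, hS1, hS2, ?_⟩
  refine ⟨?_, ?_, ?_, ?_, ⟨S, hS1, hS2⟩⟩
  · intro k hk
    have e1 : n + 1 - k = (n - k) + 1 := by omega
    show p (n + 1 - k) ∈ K0
    rw [e1]
    exact hmem _
  · intro k hk
    have e1 : n + 1 - k = (n - k) + 1 := by omega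
    have e2 : n + 1 - (k + 1) = n - k := by omega
    show fm v0 (p (n + 1 - (k + 1))) = p (n + 1 - k)
    rw [e1, e2]
    exact hc.orb (n - k)
  · intro k hk hkn
    have e1 : n + 1 - k = (n - k) + 1 := by omega
    show fd v0 (p (n + 1 - k)) ≠ 0
    rw [e1]
    exact ceb_fd hc _
  · intro k hk
    have e5 : ∏ j ∈ Finset.Ioc 0 k, ‖fd v0 (p (n + 1 - j))‖ =
        ∏ j ∈ Finset.Ioc 0 k, (fun i => ‖fd v0 (p (i + 1))‖) (n - j) := by
      refine Finset.prod_congr rfl ?_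
      intro j hj
      rw [Finset.mem_Ioc] at hj
      have e1 : n + 1 - j = (n - j) + 1 := by omega
      rw [e1]
    show Real.exp (α * k) ≤ ∏ j ∈ Finset.Ioc 0 k, ‖fd v0 (p (n + 1 - j))‖
    rw [e5, ceb_prod (a := fun j => Real.log ‖fd v0 (p (j + 1))‖)
      (w := fun i => ‖fd v0 (p (i + 1))‖)
      (fun j => Real.exp_log (norm_pos_iff.2 (ceb_fd hc j))) n k hk]
    refine Real.exp_le_exp.2 ?_
    have e6 := h1 (n - k) (by omega)
    have e2 : ((n - k : ℕ) : ℝ) = (n : ℝ) - k := Nat.cast_sub hk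
    rw [e2] at e6
    have e4 : α * ((n : ℝ) - ((n : ℝ) - k)) = α * k := by ring
    rw [e4] at e6
    exact e6

/-- the times -/
private theorem ceb_T {d : ℕ} {v0 : E d} {p B : ℕ → ℂ} (hc : Cr v0 p B) {q L : ℝ}
    (hq : 1 < q) (hgr : ∃ᶠ n : ℕ in atTop, q ^ n ≤ ‖trD v0 n (p 1)‖) (hL : 1 ≤ L)
    (h1 : ∀ k, ‖fd v0 (p (k + 1))‖ ≤ L) (h2 : ∀ k, infDist (p (k + 1)) (Zc v0) ≤ L)
    (h3 : ∀ k, ‖fd v0 (p (k + 1))‖ ≤ L * infDist (p (k + 1)) (Zc v0)) :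
    ∃ (α : ℝ) (M : ℕ) (T : Set ℕ), 0 < α ∧ T.Infinite ∧ ∀ n ∈ T,
      (∀ i ≤ n, α * ((n : ℝ) - i) ≤ ∑ j ∈ Finset.Ico i n, Real.log ‖fd v0 (p (j + 1))‖) ∧
      ((Finset.range n).filter (fun i => (α / 2) * ((n : ℝ) - i) ≤
        -Real.log (sz v0 (p (i + 1))))).card ≤ M := by
  have hlq : 0 < Real.log q := Real.log_pos hq
  have hlog : ∀ n : ℕ, Real.log ‖trD v0 n (p 1)‖ =
      ∑ j ∈ Finset.range n, Real.log ‖fd v0 (p (j + 1))‖ := by
    intro n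
    rw [ceb_trD hc, Real.log_prod]
    intro i _
    exact (norm_pos_iff.2 (ceb_fd hc i)).ne'
  have hfr : ∃ᶠ n : ℕ in atTop, Real.log q * n ≤
      ∑ j ∈ Finset.range n, Real.log ‖fd v0 (p (j + 1))‖ := by
    refine hgr.mono fun n hn => ?_
    rw [← hlog]
    have e2 : Real.log (q ^ n) = Real.log q * n := by
      rw [Real.log_pow, mul_comm]
    rw [← e2]
    exact Real.log_le_log (pow_pos (by linarith) n) hn
  -- the lower bound from summability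
  obtain ⟨Bm, hBm1, hBm⟩ : ∃ Bm : ℝ, 1 ≤ Bm ∧ ∀ n, ‖B n‖ ≤ Bm := by
    refine ⟨∑' k, ‖B k‖, ?_, fun n => hc.sm.le_tsum n fun j _ => norm_nonneg _⟩
    have := hc.sm.le_tsum 0 fun j _ => norm_nonneg _
    rwa [hc.B0, norm_one] at this
  have hlow : ∀ n : ℕ, -Real.log Bm ≤ ∑ j ∈ Finset.range n, Real.log ‖fd v0 (p (j + 1))‖ := by
    intro n
    rw [← hlog]
    have hB0 : 0 < ‖B n‖ := norm_pos_iff.2 (cr_ne hc n)
    have e1 : ‖B n‖ * ‖trD v0 n (p 1)‖ = 1 := by rw [← norm_mul, cr_trD hc, norm_one]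
    have e2 : ‖trD v0 n (p 1)‖ = ‖B n‖⁻¹ := eq_inv_of_mul_eq_one_right e1
    rw [e2, Real.log_inv]
    exact neg_le_neg (Real.log_le_log hB0 (hBm n))
  have hE := fun k => ceb_sz hc hL (h1 k) (h2 k) (h3 k)
  obtain ⟨M, T, hT, hT2⟩ := pli (a := fun j => Real.log ‖fd v0 (p (j + 1))‖)
    (b := fun j => -Real.log (sz v0 (p (j + 1)))) (A' := Real.log L) (α := Real.log q / 2)
    (β := Real.log q) (C := 2 * Real.log Bm) (Q := 3 * Real.log L)
    (γ := Real.log q / 2 / 2) (by linarith) (by linarith) (fun j => (hE j).2.1) hfr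
    (by
      intro n
      have e1 : ∑ j ∈ Finset.range n, max (-Real.log (sz v0 (p (j + 1)))) 0 ≤
          ∑ j ∈ Finset.range n, (3 * Real.log L - 2 * Real.log ‖fd v0 (p (j + 1))‖) :=
        Finset.sum_le_sum fun j _ => (hE j).2.2
      have e2 : ∑ j ∈ Finset.range n, (3 * Real.log L - 2 * Real.log ‖fd v0 (p (j + 1))‖) =
          n * (3 * Real.log L) - 2 * ∑ j ∈ Finset.range n, Real.log ‖fd v0 (p (j + 1))‖ := by
        rw [Finset.sum_sub_distrib, Finset.sum_const, Finset.card_range, nsmul_eq_mul,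
          Finset.mul_sum]
      have e3 := hlow n
      show ∑ j ∈ Finset.range n, max (-Real.log (sz v0 (p (j + 1)))) 0 ≤ _
      rw [e2] at e1
      linarith)
  exact ⟨Real.log q / 2, M, T, by linarith, hT, hT2⟩

theorem ceb {d : ℕ} {v0 : E d} {p B : ℕ → ℂ} (hd : 2 ≤ d) (hcop : IsCoprime (pol v0.1) (pol v0.2))
    (hdeg : max (pol v0.1).natDegree (pol v0.2).natDegree = d) (hc : Cr v0 p B)
    (hreg : ∀ k, (fib (pol v0.1) (pol v0.2) (p (k + 1))).natDegree = d) {q : ℝ} (hq : 1 < q)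
    (hgr : ∃ᶠ n : ℕ in atTop, q ^ n ≤ ‖trD v0 n (p 1)‖) :
    ∃ (K : Set ℂ) (δ : ℝ) (M : ℕ) (T : Set ℕ), GoodB v0 p B K δ M T := by
  obtain ⟨K0, K, rK, hcK0, hden0, hmem, hrK, hcK, hdenK, hball⟩ := ceb_K hc
  obtain ⟨C, C', R0, cc, hC, hCC, hC', hR0, _, hst⟩ := stp hd hcop hdeg hc.crit hcK0 hden0
  obtain ⟨L, hL, hLip⟩ := sz_lip hc.crit hcK0 hden0
  have h1 : ∀ k, ‖fd v0 (p (k + 1))‖ ≤ L := fun k => (hLip _ (hmem k)).1
  have h2 : ∀ k, infDist (p (k + 1)) (Zc v0) ≤ L := fun k => (hLip _ (hmem k)).2.1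
  have h3 : ∀ k, ‖fd v0 (p (k + 1))‖ ≤ L * infDist (p (k + 1)) (Zc v0) :=
    fun k => (hLip _ (hmem k)).2.2
  obtain ⟨α, M, T, hα, hTi, hT⟩ := ceb_T hc hq hgr hL h1 h2 h3
  have hsz : ∀ k, 0 < sz v0 (p (k + 1)) := fun k => (ceb_sz hc hL (h1 k) (h2 k) (h3 k)).1
  obtain ⟨δ0, hδ0, hch⟩ := ch2 hC hCC hC' hR0 hst hα M hrK
  refine ⟨K, δ0, M + 1, T, ?_⟩
  refine ⟨hd, hcop, hdeg, hc, hcK, hdenK, hδ0, hreg, hTi, ?_⟩
  intro η hη hηδ
  obtain ⟨As, hAs, hch2⟩ := hch δ0 hδ0 le_rfl η hη hηδ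
  refine ⟨max As (16 / η), le_max_of_le_left hAs, ?_⟩
  intro n hn
  obtain ⟨S, hS1, hS2, hD⟩ := ceb_dat (M := M) hc hmem hsz (hT n hn).1 (hT n hn).2
  classical
  refine ⟨insert (p (n + 1)) (S.image fun k => it v0 k (cc (p (n + 1 - k)))), ?_, ?_⟩
  · refine (Finset.card_insert_le _ _).trans ?_
    have := (Finset.card_image_le (s := S) (f := fun k => it v0 k (cc (p (n + 1 - k))))).trans hS1
    omega
  · intro x hx hav
    obtain ⟨H, R, A, θ, hchn, hR, hA, hθ, hθp⟩ := hch2 n (fun k => p (n + 1 - k)) hD x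
      (by simpa using hx) (by
        intro k hk hkn hlt
        exact hav _ (Finset.mem_insert_of_mem (Finset.mem_image.2 ⟨k, hS2 k hk hkn hlt, rfl⟩)))
    exact ⟨H n, ch3 hc hball hη hAs hchn hR hA hθ hθp
      (hav _ (Finset.mem_insert_self _ _))⟩

end Pool.Agent.H79.MZ
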