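import Pool.Agent.H79.MZ.MDefs
import Pool.Agent.H44.RG.PLX

/-!
# Module RED: from the sphere to the chart (owner: helper44)

The work is in the chapter H44/RG: PLX (`pl_ex`), from PLA, PLT, PLH, PLC, PLE.
-/

set_option autoImplicit false

open Filter Topology Polynomial Metric Set

namespace Pool.Agent.H79.MZ

open Pool.Agent.H44.Fatou Pool.Agent.H32.BT Pool.Agent.H79.Eul Pool.Agent.H79.Par Pool.Agent.H61.TT
open Pool.Agent.H35.EX Pool.Agent.H44.RR

theorem red_B {d : ℕ} {v0 : E d} {p : ℕ → ℂ} (ho : ∀ j, Orb v0 p j) (k : ℕ)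
    (h : trD v0 (k + 1) (p 1) ≠ 0) :
    1 / trD v0 (k + 1) (p 1) * (wv v0 (p (k + 1)) / ev v0.2 (p (k + 1)) ^ 2) =
      1 / trD v0 k (p 1) := by
  have h1 := kn_T ho k
  rw [← dg_eq] at h1
  rw [h1] at h ⊢
  have h2 := left_ne_zero_of_mul h
  have h3 := right_ne_zero_of_mul h
  obtain ⟨D, hD⟩ : ∃ D : ℂ, D = wv v0 (p (k + 1)) / ev v0.2 (p (k + 1)) ^ 2 := ⟨_, rfl⟩
  rw [← hD] at h2 ⊢
  field_simp

theorem red {d : ℕ} (hd : 2 ≤ d) {v0 : E d} (h : Chart1 v0) {c : ℂ} (hw : wv v0 c = 0)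
    (hS : Pool.Agent.H44.RG.Summ (Rf v0) (Rf v0 (c : OnePoint ℂ)))
    (hC : Pool.Agent.H44.RG.Con (Rf v0) (Rf v0 (c : OnePoint ℂ)))
    (hX : OnePoint.infty ∉ closure (Set.range fun k : ℕ => (Rf v0)^[k] (c : OnePoint ℂ))) :
    ∃ (B : ℕ → ℂ) (K : Set ℂ) (δ : ℝ), Good v0 (fun k => it v0 k c) B K δ := by
  obtain ⟨ε1, hε1, hpl⟩ := Pool.Agent.H44.RG.pl_ex hd h hw hS hC hX
  obtain ⟨δ, S, P⟩ := hpl ε1 hε1 le_rfl
  obtain ⟨R, hR⟩ := P.bdd
  obtain ⟨β, hβ, hden⟩ := P.den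
  obtain ⟨K, hK⟩ : ∃ K : Set ℂ, K = closure (⋃ k, ball (it v0 k c) ε1) := ⟨_, rfl⟩
  have hKb : K ⊆ closedBall 0 (R + ε1) := by
    rw [hK]
    refine closure_minimal ?_ isClosed_closedBall
    intro z hz
    obtain ⟨k, hk⟩ := mem_iUnion.1 hz
    rw [mem_closedBall_zero_iff]
    rw [mem_ball_iff_norm] at hk
    have h1 := hR k
    have h2 := norm_add_le (z - it v0 k c) (it v0 k c)
    rw [sub_add_cancel] at h2
    linarith
  have hKd : K ⊆ {z | β ≤ ‖ev v0.2 z‖} := by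
    have hcl : IsClosed {z : ℂ | β ≤ ‖ev v0.2 z‖} := by
      have h1 : Continuous (fun z : ℂ => ev v0.2 z) := by
        unfold ev
        fun_prop
      exact isClosed_le continuous_const h1.norm
    rw [hK]
    refine closure_minimal ?_ hcl
    intro z hz
    obtain ⟨k, hk⟩ := mem_iUnion.1 hz
    exact hden k z hk
  have hmem : ∀ k, ∀ z ∈ ball (it v0 k c) ε1, z ∈ K := by
    intro k z hz
    rw [hK]
    exact subset_closure (mem_iUnion.2 ⟨k, hz⟩)
  refine ⟨fun k => 1 / trD v0 k (it v0 1 c), K, δ, hd, P.cop, P.deg,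
    ⟨⟨R, hR⟩, ⟨β, hβ, fun k => hden k _ (mem_ball_self hε1)⟩,
      fun k => (P.orb (k + 1) k (Nat.lt_succ_self k)).2,
      fun k => red_B P.orb k (P.tr (k + 1)), P.crit, ?_, ?_⟩,
    (isCompact_closedBall _ _).of_isClosed_subset (by rw [hK]; exact isClosed_closure) hKb,
    ?_, P.hδ, ?_, P.fdeg⟩
  · show 1 / trD v0 0 (it v0 1 c) = 1
    have h1 : trD v0 0 (it v0 1 c) = 1 := by simp [trD]
    rw [h1, div_one]
  · refine P.sm.congr fun k => ?_
    rw [norm_div, norm_one, one_div]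
  · intro z hz h1
    have h2 : β ≤ ‖ev v0.2 z‖ := hKd hz
    rw [h1, norm_zero] at h2
    linarith
  · refine (Nat.frequently_atTop_iff_infinite.2 P.inf).mono ?_
    intro n hn
    obtain ⟨g, hgn, hgj, hgr⟩ := P.con n hn
    have hit : ∀ z ∈ ball (it v0 (n + 1) c) δ, ∀ j ≤ n, it v0 j (g 0 z) = g j z := by
      intro z hz j
      induction j with
      | zero =>
        intro _
        rfl
      | succ j ih =>
        intro hj
        have h1 := hgr j (by omega) z hz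
        rw [← h1, ← ih (by omega)]
        show ev v0.1 (it v0 j (g 0 z)) / ev v0.2 (it v0 j (g 0 z)) = _
        unfold gg
        rw [ev_pol, ev_pol]
    refine ⟨g 0, (hgj 0 (Nat.zero_le n)).2.1, (hgj 0 (Nat.zero_le n)).1, ?_, ?_⟩
    · intro z hz j hj
      rw [hit z hz j hj]
      exact hmem (j + 1) _ ((hgj j hj).2.2 hz)
    · intro z hz
      rw [hit z hz n le_rfl, hgn z hz]

end Pool.Agent.H79.MZ
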