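import Pool.Agent.H79.MZ.BIN
import Pool.Agent.H79.MZ.TFB
import Pool.Agent.H44.RR.SFE
import Pool.Agent.H61.TT.Surj

/-!
# Module BTN: transversality (branches beside the critical value)

PROOF. As TFN (H79/MZ/TFN): copy, with `bin_false` instead of `inf_false`.
-/

set_option autoImplicit false

open MeasureTheory Metric Set Polynomial Filter Topology

namespace Pool.Agent.H79.MZ

open Pool.Agent.H44.Fatou Pool.Agent.H32.BT Pool.Agent.H79.Eul Pool.Agent.H79.Par Pool.Agent.H61.TT
open Pool.Agent.H35.EX Pool.Agent.H44.RR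

theorem tf_ne_b {d : ℕ} {v0 : E d} {p B : ℕ → ℂ} {K : Set ℂ} {δ : ℝ} {M : ℕ} {T : Set ℕ}
    (h : GoodB v0 p B K δ M T) : ∃ v : E d, TF v0 p B v ≠ 0 := by
  by_contra hcon
  push Not at hcon
  have hR : RatD d (pol v0.1) (pol v0.2) := ⟨h.hd, h.cop, h.deg⟩
  have hc := h.cr
  have hser : Ser d (pol v0.1) (pol v0.2) p B := by
    refine ⟨hc.pb, ?_, ?_, ?_, ?_, hc.B0, hc.sm, ?_⟩
    · obtain ⟨δ', hδ', hb⟩ := hc.bb
      exact ⟨δ', hδ', fun k => by rw [← ev_pol]; exact hb k⟩
    · intro k
      unfold gg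
      rw [← ev_pol, ← ev_pol]
      exact hc.orb k
    · intro k
      rw [← dg_eq]
      exact hc.hB k
    · rw [← dg_eq, hc.crit, zero_div]
    · intro η hη
      obtain ⟨v, hv⟩ := xi_surj hR hη
      have h1 := hcon v
      unfold TF at h1
      rw [← h1]
      refine tsum_congr fun k => ?_
      rw [hv]
  rcases (Set.range fun k => p (k + 1)).finite_or_infinite with hf | hi
  · have hXc : Xc p = Set.range fun k => p (k + 1) := hf.isClosed.closure_eq
    have hw : ∀ k, wv v0 (p (k + 1)) ≠ 0 := by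
      intro k h0
      have h1 := hc.hB k
      rw [h0, zero_div, mul_zero] at h1
      exact cr_ne hc k h1.symm
    refine ser_falseE hR hser ?_ ?_ h.reg
    · rw [hXc]
      rintro ⟨k, hk⟩
      apply hw k
      have hk' : p (k + 1) = p 0 := hk
      rw [hk', hc.crit]
    · rw [hXc]
      rintro _ ⟨k, rfl⟩
      rw [← wv_pol]
      exact hw k
  · exact bin_false h hser hi

end Pool.Agent.H79.MZ
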