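import Pool.Agent.H79.MZ.BHO
import Pool.Agent.H79.MZ.BTN
import Pool.Agent.H79.MZ.CEB
import Pool.Agent.H44.RG.GDf
import Pool.Agent.H79.MZ.RED

/-!
# Module HLC: the dynamical statement for summable values with positive upper Lyapunov exponent

PROOF. `p k = it v0 k c`, `B k = 1 / trD v0 k (p 1)`; `Cr v0 p B` and `reg` as in RED (H79/MZ/RED, H44/RG/PLX: from `hS`, `hX`, `Chart1`). The chordal and the euclidean distance are comparable along the orbit (bounded), so `hU` gives `c' * q ^ n ≤ ‖trD v0 n (p 1)‖` for infinitely many `n`, with `c' > 0`, hence `q' ^ n ≤ ‖trD v0 n (p 1)‖` for infinitely many `n`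
with `q' = (1 + q) / 2 > 1` (`c' * q ^ n ≥ q' ^ n` for large `n`). `ceb`: `GoodB`. `tf_ne_b`, `hole_b`; the end as in HLD (H79/MZ/HLD).
-/

set_option autoImplicit false

open Filter Topology Polynomial Metric Set MeasureTheory

namespace Pool.Agent.H79.MZ

open Pool.Agent.H44.Fatou Pool.Agent.H32.BT Pool.Agent.H79.Eul Pool.Agent.H79.Par Pool.Agent.H61.TT
open Pool.Agent.H35.EX Pool.Agent.H44.RR

private theorem hlc_pow {c q q' : ℝ} (hc : 0 < c) (hq' : 0 < q') (h : q' < q) :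
    ∀ᶠ n : ℕ in atTop, q' ^ n ≤ c * q ^ n := by
  have hq0 : 0 < q := by linarith
  have h1 : Tendsto (fun n : ℕ => (q' / q) ^ n) atTop (𝓝 0) :=
    tendsto_pow_atTop_nhds_zero_of_lt_one (by positivity) ((div_lt_one hq0).2 h)
  filter_upwards [h1.eventually (gt_mem_nhds hc)] with n hn
  rw [div_pow, div_lt_iff₀ (pow_pos hq0 n)] at hn
  exact hn.le

private theorem hlc_gr {d : ℕ} {v0 : E d} {p1 : ℂ} (hden : ∀ j, ev v0.2 (it v0 j p1) ≠ 0)
    {a : ℝ} {n : ℕ} (hCE : ∀ᶠ y in 𝓝 (p1 : OnePoint ℂ),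
      a * chord (p1 : OnePoint ℂ) y ≤
        chord ((Rf v0)^[n] (p1 : OnePoint ℂ)) ((Rf v0)^[n] y)) :
    a / (1 + ‖p1‖ ^ 2) ≤ ‖trD v0 n p1‖ := by
  have hder := tr_hasDerivAt v0 p1 n (fun i _ => hden i)
  have hs := (hasDerivAt_iff_tendsto_slope.1 hder).norm
  have hl : Tendsto (fun w : ℂ => a / (√(1 + ‖p1‖ ^ 2) * √(1 + ‖w‖ ^ 2))) (𝓝[≠] p1)
      (𝓝 (a / (√(1 + ‖p1‖ ^ 2) * √(1 + ‖p1‖ ^ 2)))) := by
    have hc : Continuous (fun w : ℂ => a / (√(1 + ‖p1‖ ^ 2) * √(1 + ‖w‖ ^ 2))) := by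
      refine Continuous.div continuous_const (by fun_prop) fun w => ?_
      positivity
    exact (hc.tendsto p1).mono_left nhdsWithin_le_nhds
  have h1 : ∀ᶠ w : ℂ in 𝓝 p1, a * chord (p1 : OnePoint ℂ) (w : OnePoint ℂ) ≤
      chord ((Rf v0)^[n] (p1 : OnePoint ℂ)) ((Rf v0)^[n] (w : OnePoint ℂ)) :=
    OnePoint.continuous_coe.continuousAt.eventually hCE
  have h2 : ∀ᶠ w : ℂ in 𝓝 p1, ∀ i ∈ Finset.range n, ev v0.2 (it v0 i w) ≠ 0 := by
    rw [Filter.eventually_all_finset]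
    intro i _
    have h3 : ContinuousAt (fun w => ev v0.2 (it v0 i w)) p1 := by
      have h4 : Continuous (fun z : ℂ => ev v0.2 z) := by
        unfold ev
        fun_prop
      exact h4.continuousAt.comp (tr_hasDerivAt v0 p1 i (fun j _ => hden j)).continuousAt
    exact h3.eventually_ne (hden i)
  have hev : ∀ᶠ w : ℂ in 𝓝[≠] p1, a / (√(1 + ‖p1‖ ^ 2) * √(1 + ‖w‖ ^ 2)) ≤
      ‖slope (fun z => it v0 n z) p1 w‖ := by
    filter_upwards [nhdsWithin_le_nhds h1, nhdsWithin_le_nhds h2, self_mem_nhdsWithin] with w hw1 hw2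
      hw3
    have hne : w - p1 ≠ 0 := sub_ne_zero.2 hw3
    have hnp : 0 < ‖w - p1‖ := norm_pos_iff.2 hne
    have e1 : (Rf v0)^[n] (p1 : OnePoint ℂ) = ((it v0 n p1 : ℂ) : OnePoint ℂ) :=
      rat_it fun i _ => hden i
    have e2 : (Rf v0)^[n] (w : OnePoint ℂ) = ((it v0 n w : ℂ) : OnePoint ℂ) :=
      rat_it fun i hi => hw2 i (Finset.mem_range.2 hi)
    rw [e1, e2] at hw1
    have e3 : chord (p1 : OnePoint ℂ) (w : OnePoint ℂ) =
        ‖p1 - w‖ / (√(1 + ‖p1‖ ^ 2) * √(1 + ‖w‖ ^ 2)) := rfl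
    have e4 : chord ((it v0 n p1 : ℂ) : OnePoint ℂ) ((it v0 n w : ℂ) : OnePoint ℂ) ≤
        ‖it v0 n p1 - it v0 n w‖ := by
      have e5 : chord ((it v0 n p1 : ℂ) : OnePoint ℂ) ((it v0 n w : ℂ) : OnePoint ℂ) =
        ‖it v0 n p1 - it v0 n w‖ / (√(1 + ‖it v0 n p1‖ ^ 2) * √(1 + ‖it v0 n w‖ ^ 2)) := rfl
      rw [e5]
      refine div_le_self (norm_nonneg _) ?_
      refine one_le_mul_of_one_le_of_one_le ?_ ?_
      · rw [Real.one_le_sqrt]
        have := sq_nonneg ‖it v0 n p1‖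
        linarith
      · rw [Real.one_le_sqrt]
        have := sq_nonneg ‖it v0 n w‖
        linarith
    rw [e3] at hw1
    have e6 := hw1.trans e4
    rw [slope_def_module, norm_smul, norm_inv, inv_mul_eq_div, le_div_iff₀ hnp]
    rw [norm_sub_rev p1 w, norm_sub_rev (it v0 n p1)] at e6
    refine le_trans (le_of_eq ?_) e6
    ring
  have h3 := le_of_tendsto_of_tendsto hl hs hev
  rw [Real.mul_self_sqrt (by positivity)] at h3
  refine le_trans (le_of_eq ?_) h3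
  ring

/-- the dynamical statement for summable critical values with positive upper Lyapunov exponent -/
theorem hole_ul {d : ℕ} (hd : 2 ≤ d) {v0 : E d} (h : Chart1 v0) {c : ℂ} (hw : wv v0 c = 0)
    (hS : Pool.Agent.H44.RG.Summ (Rf v0) (Rf v0 (c : OnePoint ℂ))) {q : ℝ} (hq : 1 < q)
    (hU : ∃ᶠ n : ℕ in atTop, ∀ᶠ y in 𝓝 (Rf v0 (c : OnePoint ℂ)),
      q ^ n * chord (Rf v0 (c : OnePoint ℂ)) y ≤
        chord ((Rf v0)^[n] (Rf v0 (c : OnePoint ℂ))) ((Rf v0)^[n] y))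
    (hX : OnePoint.infty ∉ closure (Set.range fun k : ℕ => (Rf v0)^[k] (c : OnePoint ℂ)))
    {V : Set (OnePoint ℂ)} (hV : IsOpen V) (hVn : V.Nonempty) :
    Pool.Agent.H44.RG.Hol v0 c V := by
  have hd1 : 1 ≤ max (pol v0.1).natDegree (pol v0.2).natDegree := by rw [h.deg]; omega
  have hcr : IsCrit (Rf v0) (c : OnePoint ℂ) := by
    apply crit_of_wr h.cop hd1
    rw [← wv_cf (pol_deg _) (pol_deg _), cf_pol, cf_pol]
    exact hw
  have hfin := h.fin _ hcr
  obtain ⟨ho, hx⟩ := orb_all hfin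
  obtain ⟨R, hR⟩ := Pool.Agent.H44.RG.pl_bdd hfin hX
  obtain ⟨ε1, β, hε1, hβ, hden⟩ := Pool.Agent.H44.RG.pl_den h.cop hfin hX
  obtain ⟨htr', hsm'⟩ := Pool.Agent.H44.RG.pl_sum hfin hS
  have hq0 : 0 < q := by linarith
  have hdne : ∀ k, ev v0.2 (it v0 k c) ≠ 0 := fun k => (ho (k + 1) k (Nat.lt_succ_self k)).1
  set p1 : ℂ := it v0 1 c with hp1
  have hRf : Rf v0 (c : OnePoint ℂ) = (p1 : OnePoint ℂ) := hx 1
  rw [hRf] at hU
  have hdn1 : ∀ j, ev v0.2 (it v0 j p1) ≠ 0 := fun j => by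
    rw [hp1, ← it_comp]; exact hdne _
  have hgr : ∃ᶠ n : ℕ in atTop, ((1 + q) / 2) ^ n ≤ ‖trD v0 n p1‖ := by
    refine (hU.and_eventually (hlc_pow (c := 1 / (1 + ‖p1‖ ^ 2)) (q := q) (q' := (1 + q) / 2)
      (by positivity) (by linarith) (by linarith))).mono ?_
    rintro n ⟨hn, hn2⟩
    refine hn2.trans ?_
    have h1 := hlc_gr hdn1 hn
    rwa [div_eq_inv_mul, ← one_div] at h1
  have htr : ∀ n, trD v0 n p1 ≠ 0 := htr'
  have hcR : Cr v0 (fun k => it v0 k c) (fun k => 1 / trD v0 k p1) := by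
    refine ⟨⟨R, hR⟩, ⟨β, hβ, fun k => hden k _ (mem_ball_self hε1)⟩,
      fun k => (ho (k + 1) k (Nat.lt_succ_self k)).2, fun k => red_B ho k (htr (k + 1)), hw, ?_, ?_⟩
    · show 1 / trD v0 0 p1 = 1
      have h1 : trD v0 0 p1 = 1 := by simp [trD]
      rw [h1, div_one]
    · refine hsm'.congr fun k => ?_
      rw [norm_div, norm_one, one_div]
  have hreg : ∀ k, (fib (pol v0.1) (pol v0.2) (it v0 (k + 1) c)).natDegree = d := by
    intro k
    apply fib_deg h.cop h.deg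
    have h1 := h.pinf _ hcr (k + 1)
    rw [hx (k + 1)] at h1
    exact h1
  obtain ⟨K, δ, M, T, hG⟩ := ceb hd h.cop h.deg hcR hreg (by linarith : 1 < (1 + q) / 2) hgr
  obtain ⟨v1, hv1⟩ := tf_ne_b hG
  -- the open set in the plane
  set D : Set ℂ := {z | (z : OnePoint ℂ) ∈ V} with hD
  have hDo : IsOpen D := hV.preimage OnePoint.continuous_coe
  have hDn : D.Nonempty := by
    obtain ⟨z, hz⟩ := OnePoint.denseRange_coe.exists_mem_open hV hVn
    exact ⟨z, hz⟩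
  obtain ⟨c0, hc0, ρ2, hρ2, hh⟩ := hole_b hG hv1 hDo hDn
  refine ⟨volume (ball (0 : E d) (c0 / 2)), measure_ball_pos volume _ (by positivity), ρ2, hρ2, ?_⟩
  rw [Filter.frequently_iff]
  intro U hU
  obtain ⟨u, hu, hUu⟩ := mem_nhdsGT_iff_exists_Ioo_subset.1 hU
  have hu0 : 0 < u := hu
  obtain ⟨r, hr, hru, v2, hv2, hz⟩ := hh (u / 2) (by positivity)
  refine ⟨2 * r, hUu ⟨by positivity, by linarith⟩, ball ((2 * r)⁻¹ • (v2 - v0)) (c0 / 2),
    measurableSet_ball, ?_, ?_, ?_⟩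
  · intro w hwm
    have h1 : pv v0 (w, 2 * r) ∈ closedBall v2 (c0 * r) := by
      rw [mem_ball, dist_eq_norm] at hwm
      rw [mem_closedBall, dist_eq_norm]
      unfold pv
      have h2 : v0 + (2 * r) • w - v2 = (2 * r) • (w - (2 * r)⁻¹ • (v2 - v0)) := by
        rw [smul_sub, smul_inv_smul₀ (by positivity)]
        abel
      show ‖v0 + (2 * r) • w - v2‖ ≤ c0 * r
      rw [h2, norm_smul, Real.norm_of_nonneg (by positivity)]
      nlinarith
    have h2 := hv2 h1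
    rw [mem_closedBall, dist_eq_norm] at h2
    unfold pv at h2
    have h3 : ‖(2 * r) • w‖ ≤ r := by
      have h4 : v0 + (2 * r) • w - v0 = (2 * r) • w := add_sub_cancel_left _ _
      rw [← h4]
      exact h2
    rw [norm_smul, Real.norm_of_nonneg (by positivity)] at h3
    rw [mem_ball_zero_iff]
    nlinarith
  · have hH : (volume : Measure (E d)).IsAddHaarMeasure :=
      Measure.prod.instIsAddHaarMeasure (volume : Measure (Fin (d + 1) → ℂ))
        (volume : Measure (Fin (d + 1) → ℂ))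
    exact (Measure.addHaar_ball_center volume _ _).ge
  · intro w hwm z hzm hzw
    have h1 : pv v0 (w, 2 * r) ∈ closedBall v2 (c0 * r) := by
      rw [mem_ball, dist_eq_norm] at hwm
      rw [mem_closedBall, dist_eq_norm]
      unfold pv
      have h2 : v0 + (2 * r) • w - v2 = (2 * r) • (w - (2 * r)⁻¹ • (v2 - v0)) := by
        rw [smul_sub, smul_inv_smul₀ (by positivity)]
        abel
      show ‖v0 + (2 * r) • w - v2‖ ≤ c0 * r
      rw [h2, norm_smul, Real.norm_of_nonneg (by positivity)]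
      nlinarith
    obtain ⟨n, w', hw', hreach⟩ := hz _ h1 z hzm hzw
    refine ⟨n, ?_⟩
    have h3 : (Rf (pv v0 (w, 2 * r)))^[n] (z : OnePoint ℂ) = (w' : OnePoint ℂ) := by
      refine reach_rat (pol_deg _) (pol_deg _) n z w' ?_
      rw [cf_pol, cf_pol]
      exact hreach
    rw [h3]
    exact hw'

end Pool.Agent.H79.MZ
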