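import Pool.Agent.H79.MZ.HOL
import Pool.Agent.H79.MZ.TFN
import Pool.Agent.H79.MZ.RED

/-!
# Module HLD: the dynamical statement `Hole d`

PROOF. `red`: `Good v0 p B K δ` with `p k = it v0 k c`, `p 0 = c`. `tf_ne`: `v1`. The preimage `D` of `V` in the plane is open, nonempty (`OnePoint.denseRange_coe`: a nonempty open set of the sphere contains a finite point). `hole`: `c0, ρ2`. In the conclusion take `c0' = volume (ball (0 : E d) (c0 / 2))` (positive,
independent of `r`), `ρ1 = ρ2`. For every `R > 0` there is `r < R` as in `hole`, `v2`: take the size `r' = 2 r` (so `r' → 0`: `∃ᶠ r' in 𝓝[>] 0` by `frequently`: for every `R'` there is such an `r' ∈ (0, R')`), `H = ball ((2 r)⁻¹ • (v2 - v0)) (c0 / 2)`: if `w ∈ H` then `pv v0 (w, 2 r) = v0 + (2 r) • w ∈ closedBall v2 (c0 * r)`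
and this is in `closedBall v0 r`, so `‖w‖ ≤ 1 / 2 < 1`; `volume H = volume (ball 0 (c0 / 2))` (translation). For `z ∈ ball c ρ2` with `wv (pv v0 (w, 2 r)) z = 0`: `Reach v n z w'`, `w' ∈ D`, so `(Rf v)^[n] z = w' ∈ V` (`reach_rat` with `cf d (pol v.1) = v.1`, `cf_pol`).
-/

set_option autoImplicit false

open Filter Topology Polynomial Metric Set MeasureTheory

namespace Pool.Agent.H79.MZ

open Pool.Agent.H44.Fatou Pool.Agent.H32.BT Pool.Agent.H79.Eul Pool.Agent.H79.Par Pool.Agent.H61.TT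

theorem hole_d {d : ℕ} (hd : 2 ≤ d) : Pool.Agent.H44.RG.Hole d := by
  intro v0 h0 c hc hS hC hX V hV hVn _
  obtain ⟨B, K, δ, hG⟩ := red hd h0 hc hS hC hX
  obtain ⟨v1, hv1⟩ := tf_ne hG
  have hD : IsOpen ((fun z : ℂ => (z : OnePoint ℂ)) ⁻¹' V) := hV.preimage OnePoint.continuous_coe
  have hDn : ((fun z : ℂ => (z : OnePoint ℂ)) ⁻¹' V).Nonempty := by
    obtain ⟨x, hx⟩ := OnePoint.denseRange_coe.exists_mem_open hV hVn
    exact ⟨x, hx⟩
  obtain ⟨c0, hc0, ρ2, hρ2, hh⟩ := hole hG hv1 hD hDn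
  have hHaar : Measure.IsAddHaarMeasure (volume : Measure (E d)) :=
    Measure.prod.instIsAddHaarMeasure (volume : Measure (Fin (d + 1) → ℂ))
      (volume : Measure (Fin (d + 1) → ℂ))
  refine ⟨volume (ball (0 : E d) (c0 / 2)), measure_ball_pos volume _ (half_pos hc0), ρ2, hρ2, ?_⟩
  rw [Filter.frequently_iff]
  intro U hU
  obtain ⟨u, hu, hUu⟩ := mem_nhdsGT_iff_exists_Ioo_subset.1 hU
  rw [mem_Ioi] at hu
  obtain ⟨r, hr, hru, v2, hsub, hv2⟩ := hh (u / 2) (half_pos hu)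
  have hkey : ∀ w ∈ ball ((2 * r)⁻¹ • (v2 - v0)) (c0 / 2),
      pv v0 (w, 2 * r) ∈ closedBall v2 (c0 * r) := by
    intro w hw
    rw [mem_ball_iff_norm] at hw
    rw [mem_closedBall_iff_norm]
    have h1 : pv v0 (w, 2 * r) - v2 = (2 * r) • (w - (2 * r)⁻¹ • (v2 - v0)) := by
      unfold pv
      rw [smul_sub, smul_smul, mul_inv_cancel₀ (by positivity), one_smul]
      abel
    rw [h1, norm_smul, Real.norm_eq_abs, abs_of_pos (by positivity)]
    nlinarith
  refine ⟨2 * r, hUu ⟨by linarith, by linarith⟩, ball ((2 * r)⁻¹ • (v2 - v0)) (c0 / 2),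
    measurableSet_ball, ?_, ?_, ?_⟩
  · intro w hw
    have h1 := hsub (hkey w hw)
    rw [mem_closedBall_iff_norm] at h1
    unfold pv at h1
    rw [add_sub_cancel_left, norm_smul, Real.norm_eq_abs, abs_of_pos (by positivity)] at h1
    rw [mem_ball_zero_iff]
    nlinarith
  · exact (Measure.addHaar_ball_center volume _ _).ge
  · intro w hw z hz hwz
    obtain ⟨n, w', hw', hR⟩ := hv2 _ (hkey w hw) z hz hwz
    refine ⟨n, ?_⟩
    obtain ⟨v, hv⟩ : ∃ v : E d, v = pv v0 (w, 2 * r) := ⟨_, rfl⟩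
    rw [← hv] at hR ⊢
    have e1 : (cf d (pol v.1), cf d (pol v.2)) = v := by
      rw [cf_pol, cf_pol]
    have e2 : (Rf v)^[n] (z : OnePoint ℂ) = (w' : OnePoint ℂ) :=
      reach_rat (pol_deg v.1) (pol_deg v.2) n z w' (by rw [e1]; exact hR)
    rw [e2]
    exact hw'

end Pool.Agent.H79.MZ
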