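import Pool.Agent.H79.MZ.MDefs

/-!
# Module EXP1: first order expansions in the coefficients

PROOFS. Write `f v z = ev v.1 z / ev v.2 z`. Exact identity if `ev v0.2 z ≠ 0`, `ev v.2 z ≠ 0` (`ev` linear in the coefficients, `u = v - v0`): `f v z - f v0 z = (ev u.1 z * ev v0.2 z - ev v0.1 z * ev u.2 z) / (ev v.2 z * ev v0.2 z)
= xi v0 u z * (ev v0.2 z / ev v.2 z)`. `lip_K`: `K` compact, `ev v0.2 ≠ 0` on `K`, so `‖ev v0.2 z‖ ≥ m > 0` on `K`; for `‖v - v0‖ ≤ η` small `‖ev v.2 z‖ ≥ m / 2` on `K` (`‖ev u.2 z‖ ≤ (∑ i, ‖z‖ ^ i) ‖u‖`, bounded on `K`), and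
`‖xi v0 u z‖ ≤ C ‖u‖` on `K`.
`exp_j`: at `(v, z) → (v0, z0)`: `ev v0.2 z / ev v.2 z → 1` and `xi v0 u z - xi v0 u z0` is `ε ‖u‖` for `z` near `z0` (write `xi v0 u z = ∑ i, (u.1 i * z^i * ev v0.2 z - ev v0.1 z * u.2 i * z^i) / ev v0.2 z ^ 2`, coefficientwise continuous in `z`).
`xi_lin`: `ev` is linear in the coefficients.
-/

set_option autoImplicit false

open Filter Topology Polynomial Metric Set

namespace Pool.Agent.H79.MZ

open Pool.Agent.H44.Fatou Pool.Agent.H32.BT Pool.Agent.H79.Eul Pool.Agent.H79.Par Pool.Agent.H61.TT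

private noncomputable def SE (d : ℕ) (z : ℂ) : ℝ := ∑ i : Fin (d + 1), ‖z‖ ^ (i : ℕ)

private theorem SE_nonneg (d : ℕ) (z : ℂ) : 0 ≤ SE d z :=
  Finset.sum_nonneg fun _ _ => pow_nonneg (norm_nonneg _) _

private theorem SE_cont (d : ℕ) : Continuous (SE d) := by
  unfold SE
  exact continuous_finsetSum _ fun i _ => continuous_norm.pow _

private theorem ev_le {d : ℕ} (u : Fin (d + 1) → ℂ) (z : ℂ) : ‖ev u z‖ ≤ ‖u‖ * SE d z := by
  unfold ev SE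
  rw [Finset.mul_sum]
  refine (norm_sum_le _ _).trans (Finset.sum_le_sum fun i _ => ?_)
  rw [norm_mul, norm_pow]
  exact mul_le_mul_of_nonneg_right (norm_le_pi_norm u i) (by positivity)

private theorem ev_sub {d : ℕ} (u v : Fin (d + 1) → ℂ) (z : ℂ) :
    ev (u - v) z = ev u z - ev v z := by
  unfold ev
  rw [← Finset.sum_sub_distrib]
  exact Finset.sum_congr rfl fun i _ => by rw [Pi.sub_apply, sub_mul]

private theorem ev_add {d : ℕ} (u v : Fin (d + 1) → ℂ) (z : ℂ) :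
    ev (u + v) z = ev u z + ev v z := by
  unfold ev
  rw [← Finset.sum_add_distrib]
  exact Finset.sum_congr rfl fun i _ => by rw [Pi.add_apply, add_mul]

private theorem ev_smul {d : ℕ} (s : ℂ) (v : Fin (d + 1) → ℂ) (z : ℂ) :
    ev (s • v) z = s * ev v z := by
  unfold ev
  rw [Finset.mul_sum]
  exact Finset.sum_congr rfl fun i _ => by rw [Pi.smul_apply, smul_eq_mul, mul_assoc]

private theorem ev_contz {d : ℕ} (v : Fin (d + 1) → ℂ) : Continuous (ev v) := by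
  unfold ev
  exact continuous_finsetSum _ fun i _ => continuous_const.mul (continuous_id.pow _)

theorem lip_K {d : ℕ} {v0 : E d} {K : Set ℂ} (hK : IsCompact K) (hden : ∀ z ∈ K, ev v0.2 z ≠ 0) :
    ∃ L η : ℝ, 0 < L ∧ 0 < η ∧ ∀ v : E d, ‖v - v0‖ ≤ η → ∀ z ∈ K, ev v.2 z ≠ 0 ∧
      ‖ev v.1 z / ev v.2 z - ev v0.1 z / ev v0.2 z‖ ≤ L * ‖v - v0‖ := by
  obtain ⟨C0, hC0⟩ := hK.exists_bound_of_continuousOn (f := fun z => (ev v0.2 z)⁻¹)
    ((ev_contz v0.2).continuousOn.inv₀ hden)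
  obtain ⟨A1, hA1⟩ := hK.exists_bound_of_continuousOn (ev_contz v0.1).continuousOn
  obtain ⟨A2, hA2⟩ := hK.exists_bound_of_continuousOn (ev_contz v0.2).continuousOn
  obtain ⟨S0, hS0⟩ := hK.exists_bound_of_continuousOn (SE_cont d).continuousOn
  set C : ℝ := max C0 1 with hC
  have hC1 : 1 ≤ C := le_max_right _ _
  have hCp : 0 < C := by linarith
  set S : ℝ := max S0 0 with hS
  have hSp : 0 ≤ S := le_max_right _ _
  set A : ℝ := max A1 0 with hA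
  have hAp : 0 ≤ A := le_max_right _ _
  set A' : ℝ := max A2 0 with hA'
  have hAp' : 0 ≤ A' := le_max_right _ _
  refine ⟨2 * C ^ 2 * S * (A + A') + 1, 1 / (2 * C * (S + 1)), by positivity, by positivity, ?_⟩
  intro v hv z hz
  have h0 := hden z hz
  have h1 : ‖(ev v0.2 z)⁻¹‖ ≤ C := (hC0 z hz).trans (le_max_left _ _)
  have h2 : ‖ev v0.1 z‖ ≤ A := (hA1 z hz).trans (le_max_left _ _)
  have h3 : ‖ev v0.2 z‖ ≤ A' := (hA2 z hz).trans (le_max_left _ _)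
  have h4 : SE d z ≤ S := (le_abs_self _).trans ((hS0 z hz).trans (le_max_left _ _))
  have hS1 := SE_nonneg d z
  have hu1 : ‖v.1 - v0.1‖ ≤ ‖v - v0‖ := norm_fst_le (v - v0)
  have hu2 : ‖v.2 - v0.2‖ ≤ ‖v - v0‖ := norm_snd_le (v - v0)
  set t : ℝ := ‖v - v0‖ with ht
  have ht0 : 0 ≤ t := norm_nonneg _
  have h5 : ‖ev (v.1 - v0.1) z‖ ≤ t * S :=
    (ev_le _ z).trans (mul_le_mul hu1 h4 hS1 ht0)
  have h6 : ‖ev (v.2 - v0.2) z‖ ≤ t * S :=
    (ev_le _ z).trans (mul_le_mul hu2 h4 hS1 ht0)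
  have h0n : 0 < ‖ev v0.2 z‖ := norm_pos_iff.2 h0
  have h7 : 1 ≤ C * ‖ev v0.2 z‖ := by
    rw [norm_inv, inv_le_iff_one_le_mul₀ h0n] at h1
    linarith
  have h8 : t * S * (2 * C) ≤ 1 := by
    rw [le_div_iff₀ (by positivity)] at hv
    have : t * S * (2 * C) ≤ t * (2 * C * (S + 1)) := by
      have h9 : 0 ≤ t * (2 * C) := by positivity
      nlinarith
    linarith
  have h9 : ev v.2 z = ev v0.2 z + ev (v.2 - v0.2) z := by rw [ev_sub]; ring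
  have h10 : 1 ≤ 2 * C * ‖ev v.2 z‖ := by
    have h11 : ‖ev v0.2 z‖ - ‖ev (v.2 - v0.2) z‖ ≤ ‖ev v.2 z‖ := by
      rw [h9]
      have := norm_sub_norm_le (ev v0.2 z) (-(ev (v.2 - v0.2) z))
      rw [norm_neg, sub_neg_eq_add] at this
      exact this
    have h12 := mul_le_mul_of_nonneg_left h11 (by positivity : (0 : ℝ) ≤ 2 * C)
    have h13 := mul_le_mul_of_nonneg_left h6 (by positivity : (0 : ℝ) ≤ 2 * C)
    nlinarith
  have h11 : ev v.2 z ≠ 0 := by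
    intro h
    rw [h, norm_zero, mul_zero] at h10
    linarith
  refine ⟨h11, ?_⟩
  have h12 : ev v.1 z / ev v.2 z - ev v0.1 z / ev v0.2 z =
      (ev (v.1 - v0.1) z * ev v0.2 z - ev v0.1 z * ev (v.2 - v0.2) z) /
        (ev v.2 z * ev v0.2 z) := by
    rw [ev_sub, ev_sub, div_sub_div _ _ h11 h0]
    congr 1
    ring
  have hvn : 0 < ‖ev v.2 z‖ := norm_pos_iff.2 h11
  rw [h12, norm_div, norm_mul, div_le_iff₀ (by positivity)]
  have h13 : ‖ev (v.1 - v0.1) z * ev v0.2 z - ev v0.1 z * ev (v.2 - v0.2) z‖ ≤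
      t * S * A' + A * (t * S) := by
    refine (norm_sub_le _ _).trans ?_
    rw [norm_mul, norm_mul]
    exact add_le_add (mul_le_mul h5 h3 (norm_nonneg _) (by positivity))
      (mul_le_mul h2 h6 (norm_nonneg _) hAp)
  have h14 : 1 ≤ (2 * C * ‖ev v.2 z‖) * (C * ‖ev v0.2 z‖) := one_le_mul_of_one_le_of_one_le h10 h7
  have h15 : 0 ≤ t * S * A' + A * (t * S) := by positivity
  calc _ ≤ t * S * A' + A * (t * S) := h13
    _ ≤ (t * S * A' + A * (t * S)) * ((2 * C * ‖ev v.2 z‖) * (C * ‖ev v0.2 z‖)) :=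
        le_mul_of_one_le_right h15 h14
    _ = (2 * C ^ 2 * S * (A + A')) * t * (‖ev v.2 z‖ * ‖ev v0.2 z‖) := by ring
    _ ≤ _ := by
        have h16 : 0 ≤ t * (‖ev v.2 z‖ * ‖ev v0.2 z‖) := by positivity
        nlinarith

theorem exp_j {d : ℕ} {v0 : E d} {z0 : ℂ} (h0 : ev v0.2 z0 ≠ 0) {ε : ℝ} (hε : 0 < ε) :
    ∃ η : ℝ, 0 < η ∧ ∀ v : E d, ‖v - v0‖ ≤ η → ∀ z : ℂ, ‖z - z0‖ ≤ η →
      ‖ev v.1 z / ev v.2 z - ev v0.1 z / ev v0.2 z - xi v0 (v - v0) z0‖ ≤ ε * ‖v - v0‖ := by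
  -- continuity of the coefficients
  have hc2 : ContinuousAt (fun y : E d × ℂ => ev y.1.2 y.2) (v0, z0) := ev2_cont.continuousAt
  have hcz2 : ContinuousAt (fun y : E d × ℂ => ev v0.2 y.2) (v0, z0) :=
    ((ev_contz v0.2).comp continuous_snd).continuousAt
  have hcz1 : ContinuousAt (fun y : E d × ℂ => ev v0.1 y.2) (v0, z0) :=
    ((ev_contz v0.1).comp continuous_snd).continuousAt
  have hzc : ∀ i : ℕ, ContinuousAt (fun y : E d × ℂ => y.2 ^ i) (v0, z0) := fun i =>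
    (continuous_snd.pow i).continuousAt
  have hα : ∀ i : Fin (d + 1), ContinuousAt (fun y : E d × ℂ => y.2 ^ (i : ℕ) / ev y.1.2 y.2)
      (v0, z0) := fun i => (hzc i).div hc2 h0
  have hβ : ∀ i : Fin (d + 1), ContinuousAt
      (fun y : E d × ℂ => ev v0.1 y.2 * y.2 ^ (i : ℕ) / (ev y.1.2 y.2 * ev v0.2 y.2))
      (v0, z0) := fun i => (hcz1.mul (hzc i)).div (hc2.mul hcz2) (mul_ne_zero h0 h0)
  set ε' : ℝ := ε / (2 * ((d : ℝ) + 1)) with hε'
  have hε'0 : 0 < ε' := by positivity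
  have e1 : ∀ᶠ y : E d × ℂ in 𝓝 (v0, z0), ∀ i : Fin (d + 1),
      ‖y.2 ^ (i : ℕ) / ev y.1.2 y.2 - z0 ^ (i : ℕ) / ev v0.2 z0‖ < ε' := by
    rw [Filter.eventually_all]
    intro i
    have := Metric.tendsto_nhds.1 (hα i) ε' hε'0
    filter_upwards [this] with y hy
    rw [dist_eq_norm] at hy
    exact hy
  have e2 : ∀ᶠ y : E d × ℂ in 𝓝 (v0, z0), ∀ i : Fin (d + 1),
      ‖ev v0.1 y.2 * y.2 ^ (i : ℕ) / (ev y.1.2 y.2 * ev v0.2 y.2) -
        ev v0.1 z0 * z0 ^ (i : ℕ) / (ev v0.2 z0 * ev v0.2 z0)‖ < ε' := by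
    rw [Filter.eventually_all]
    intro i
    have := Metric.tendsto_nhds.1 (hβ i) ε' hε'0
    filter_upwards [this] with y hy
    rw [dist_eq_norm] at hy
    exact hy
  have e3 : ∀ᶠ y : E d × ℂ in 𝓝 (v0, z0), ev y.1.2 y.2 ≠ 0 := hc2.eventually_ne h0
  have e4 : ∀ᶠ y : E d × ℂ in 𝓝 (v0, z0), ev v0.2 y.2 ≠ 0 := hcz2.eventually_ne h0
  obtain ⟨η, hη, hball⟩ := Metric.nhds_basis_closedBall.eventually_iff.1
    (e1.and (e2.and (e3.and e4)))
  refine ⟨η, hη, fun v hv z hz => ?_⟩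
  have hmem : (v, z) ∈ closedBall (v0, z0) η := by
    rw [mem_closedBall, Prod.dist_eq, dist_eq_norm, dist_eq_norm]
    exact max_le hv hz
  obtain ⟨f1, f2, f3, f4⟩ := hball hmem
  simp only at f1 f2 f3 f4
  have hu1 : ‖v.1 - v0.1‖ ≤ ‖v - v0‖ := norm_fst_le (v - v0)
  have hu2 : ‖v.2 - v0.2‖ ≤ ‖v - v0‖ := norm_snd_le (v - v0)
  set u1 : Fin (d + 1) → ℂ := v.1 - v0.1 with hu1'
  set u2 : Fin (d + 1) → ℂ := v.2 - v0.2 with hu2'
  have hid : ev v.1 z / ev v.2 z - ev v0.1 z / ev v0.2 z =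
      ∑ i, u1 i * (z ^ (i : ℕ) / ev v.2 z) -
        ∑ i, u2 i * (ev v0.1 z * z ^ (i : ℕ) / (ev v.2 z * ev v0.2 z)) := by
    have g1 : ∑ i, u1 i * (z ^ (i : ℕ) / ev v.2 z) = ev u1 z / ev v.2 z := by
      unfold ev
      rw [Finset.sum_div]
      exact Finset.sum_congr rfl fun i _ => by rw [mul_div_assoc]
    have g2 : ∑ i, u2 i * (ev v0.1 z * z ^ (i : ℕ) / (ev v.2 z * ev v0.2 z)) =
        ev v0.1 z * ev u2 z / (ev v.2 z * ev v0.2 z) := by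
      have g3 : ev u2 z = ∑ i, u2 i * z ^ (i : ℕ) := rfl
      rw [g3, Finset.mul_sum, Finset.sum_div]
      exact Finset.sum_congr rfl fun i _ => by ring
    rw [g1, g2, hu1', hu2', ev_sub, ev_sub]
    field_simp
    ring
  have hid2 : xi v0 (v - v0) z0 =
      ∑ i, u1 i * (z0 ^ (i : ℕ) / ev v0.2 z0) -
        ∑ i, u2 i * (ev v0.1 z0 * z0 ^ (i : ℕ) / (ev v0.2 z0 * ev v0.2 z0)) := by
    have g1 : ∑ i, u1 i * (z0 ^ (i : ℕ) / ev v0.2 z0) = ev u1 z0 / ev v0.2 z0 := by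
      unfold ev
      rw [Finset.sum_div]
      exact Finset.sum_congr rfl fun i _ => by rw [mul_div_assoc]
    have g2 : ∑ i, u2 i * (ev v0.1 z0 * z0 ^ (i : ℕ) / (ev v0.2 z0 * ev v0.2 z0)) =
        ev v0.1 z0 * ev u2 z0 / (ev v0.2 z0 * ev v0.2 z0) := by
      have g3 : ev u2 z0 = ∑ i, u2 i * z0 ^ (i : ℕ) := rfl
      rw [g3, Finset.mul_sum, Finset.sum_div]
      exact Finset.sum_congr rfl fun i _ => by ring
    rw [g1, g2]
    unfold xi
    have g4 : (v - v0).1 = u1 := rfl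
    have g5 : (v - v0).2 = u2 := rfl
    rw [g4, g5]
    field_simp
  have hid3 : ev v.1 z / ev v.2 z - ev v0.1 z / ev v0.2 z - xi v0 (v - v0) z0 =
      ∑ i, u1 i * (z ^ (i : ℕ) / ev v.2 z - z0 ^ (i : ℕ) / ev v0.2 z0) -
        ∑ i, u2 i * (ev v0.1 z * z ^ (i : ℕ) / (ev v.2 z * ev v0.2 z) -
          ev v0.1 z0 * z0 ^ (i : ℕ) / (ev v0.2 z0 * ev v0.2 z0)) := by
    rw [hid, hid2]
    simp only [mul_sub, Finset.sum_sub_distrib]
    ring
  rw [hid3]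
  have hsum : ∀ (w : Fin (d + 1) → ℂ) (c : Fin (d + 1) → ℂ), ‖w‖ ≤ ‖v - v0‖ →
      (∀ i, ‖c i‖ < ε') → ‖∑ i, w i * c i‖ ≤ ε / 2 * ‖v - v0‖ := by
    intro w c hw hc
    refine (norm_sum_le _ _).trans ?_
    have g1 : ∀ i ∈ (Finset.univ : Finset (Fin (d + 1))), ‖w i * c i‖ ≤ ‖v - v0‖ * ε' := by
      intro i _
      rw [norm_mul]
      exact mul_le_mul ((norm_le_pi_norm w i).trans hw) (hc i).le (norm_nonneg _) (norm_nonneg _)
    refine (Finset.sum_le_sum g1).trans ?_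
    rw [Finset.sum_const, Finset.card_univ, Fintype.card_fin, nsmul_eq_mul]
    refine le_of_eq ?_
    rw [hε']
    push_cast
    field_simp
  refine (norm_sub_le _ _).trans ?_
  have g1 := hsum u1 _ hu1 f1
  have g2 := hsum u2 _ hu2 f2
  linarith

theorem xi_lin {d : ℕ} (v0 : E d) (z : ℂ) (u w : E d) (s : ℂ) :
    xi v0 (u + w) z = xi v0 u z + xi v0 w z ∧ xi v0 (s • u) z = s * xi v0 u z := by
  unfold xi
  constructor
  · rw [Prod.fst_add, Prod.snd_add, ev_add, ev_add]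
    ring
  · rw [Prod.smul_fst, Prod.smul_snd, ev_smul, ev_smul]
    ring

end Pool.Agent.H79.MZ
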