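import Pool.Agent.H79.MZ.BLS
import Pool.Agent.H79.MZ.EXP1

/-!
# Module BP2: the later steps of the shadowing

PROOF. `c1, C2` from `bls`, `L, η'` from `lip_K` for `K`. Let `ε' = min ε (η / 128)`. Choose `J0` with `∑' k, ‖B (k + J0)‖ ≤ τ` and `‖B j‖ ≤ τ` for `j ≥ J0`, where `τ > 0` is so small that `L ρ A τ < c1 η` and `C2 A L ρ τ ≤ ε'` (tails of `cr.sm`). Let `J ≥ J0`, `η1 = η'`. Construct `w j`, `J ≤ j ≤ n`, with `w J = w`, `it v (j + 1) c = it v0 j (w j)`,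
`‖w j - w‖ ≤ C2 A L ρ (∑ k ∈ Ico (J+1) (j+1), ‖B k‖) ‖deriv g x‖ ≤ ε' ‖deriv g x‖`, so `‖w j - g x‖ ≤ (η / 128 + η / 128) ‖deriv g x‖`. Step `j → j + 1 ≤ n`: `w j ∈ g '' ball x η` (`br_ball`), so `y = it v0 j (w j) ∈ K`; `ev v.2 y ≠ 0`, `Δ = ev v.1 y / ev v.2 y - ev v0.1 y / ev v0.2 y`, `‖Δ‖ ≤ L ‖v - v0‖ ≤ L ρ ‖deriv g x‖`
`< c1 η ‖deriv g x‖ ‖trD v0 (j+1) (g x)‖` because `‖trD v0 (j+1) (g x)‖ ≥ 1 / (A ‖B (j+1)‖) ≥ 1 / (A τ)` (`br_growth`); `bls` at `j + 1`: `it v0 (j+1) (w (j+1)) = it v0 (j+1) (w j) + Δ = it v (j + 2) c`, `‖w (j+1) - w j‖ ≤ C2 L ρ ‖deriv g x‖ A ‖B (j+1)‖`. Denominators: `it v (j + 1) c = y ∈ K` for `J ≤ j < n`, i.e. all `it v i c` with `J < i ≤ n`.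
-/

set_option autoImplicit false

open Filter Topology Polynomial Metric Set

namespace Pool.Agent.H79.MZ

open Pool.Agent.H44.Fatou Pool.Agent.H32.BT Pool.Agent.H79.Eul Pool.Agent.H79.Par Pool.Agent.H61.TT

private theorem bp2_tail {B : ℕ → ℂ} (hs : Summable fun k => ‖B k‖) {τ : ℝ} (hτ : 0 < τ) :
    ∃ J0 : ℕ, ∀ J ≥ J0, (∀ m ≥ J + 1, ∑ k ∈ Finset.Ico (J + 1) m, ‖B k‖ ≤ τ) ∧
      ∀ j ≥ J + 1, ‖B j‖ ≤ τ := by
  have h1 := hs.hasSum.tendsto_sum_nat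
  have h2 : ∀ᶠ m in atTop, (∑' k, ‖B k‖) - τ < ∑ k ∈ Finset.range m, ‖B k‖ :=
    h1.eventually_const_lt (by linarith)
  obtain ⟨J0, hJ0⟩ := eventually_atTop.1 h2
  have h3 : ∀ m, ∑ k ∈ Finset.range m, ‖B k‖ ≤ ∑' k, ‖B k‖ := fun m =>
    hs.sum_le_tsum _ fun k _ => norm_nonneg _
  refine ⟨J0, fun J hJ => ⟨fun m hm => ?_, fun j hj => ?_⟩⟩
  · rw [Finset.sum_Ico_eq_sub _ hm]
    have h4 := hJ0 (J + 1) (by omega)
    have h5 := h3 m
    linarith
  · have h4 := hJ0 j (by omega)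
    have h5 := h3 (j + 1)
    rw [Finset.sum_range_succ] at h5
    linarith

theorem bp2 {d : ℕ} {v0 : E d} {p B : ℕ → ℂ} (hc : Cr v0 p B) {K : Set ℂ} (hK : IsCompact K)
    (hden : ∀ z ∈ K, ev v0.2 z ≠ 0) {η A ρ ε : ℝ} (hη : 0 < η) (hA : 1 ≤ A) (hρ : 0 < ρ)
    (hε : 0 < ε) : ∃ J0 : ℕ, ∀ J ≥ J0, ∃ η1 : ℝ, 0 < η1 ∧ ∀ n ≥ J, ∀ (x : ℂ) (g : ℂ → ℂ),
      Br v0 p K η A n x g → ∀ v : E d, ‖v - v0‖ ≤ ρ * ‖deriv g x‖ → ‖v - v0‖ ≤ η1 →
        ∀ c w : ℂ, it v (J + 1) c = it v0 J w → ‖w - g x‖ ≤ η * ‖deriv g x‖ / 128 →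
          ∃ w' : ℂ, it v (n + 1) c = it v0 n w' ∧ ‖w' - w‖ ≤ ε * ‖deriv g x‖ ∧
            ∀ j, J < j → j ≤ n → ev v.2 (it v j c) ≠ 0 := by
  obtain ⟨c1, C2, hc1, hC2, hbls⟩ := bls
  obtain ⟨L, η', hL, hη', hlip⟩ := lip_K hK hden
  have hA0 : 0 < A := by linarith
  have hC20 : 0 < C2 := by linarith
  obtain ⟨ε', hε'⟩ : ∃ ε' : ℝ, ε' = min ε (η / 128) := ⟨_, rfl⟩
  have hε'0 : 0 < ε' := by rw [hε']; positivity
  have hε'1 : ε' ≤ ε := by rw [hε']; exact min_le_left _ _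
  have hε'2 : ε' ≤ η / 128 := by rw [hε']; exact min_le_right _ _
  obtain ⟨τ, hτ⟩ : ∃ τ : ℝ, τ = min (c1 * η / (2 * (L * ρ * A))) (ε' / (C2 * A * L * ρ)) :=
    ⟨_, rfl⟩
  have hτ0 : 0 < τ := by rw [hτ]; positivity
  have hτ1 : L * ρ * A * τ < c1 * η := by
    have h1 : τ ≤ c1 * η / (2 * (L * ρ * A)) := by rw [hτ]; exact min_le_left _ _
    have h2 : L * ρ * A * τ ≤ L * ρ * A * (c1 * η / (2 * (L * ρ * A))) :=
      mul_le_mul_of_nonneg_left h1 (by positivity)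
    have h3 : L * ρ * A * (c1 * η / (2 * (L * ρ * A))) = c1 * η / 2 := by
      field_simp
    have h4 : 0 < c1 * η := by positivity
    linarith
  have hτ2 : C2 * A * L * ρ * τ ≤ ε' := by
    have h1 : τ ≤ ε' / (C2 * A * L * ρ) := by rw [hτ]; exact min_le_right _ _
    rw [le_div_iff₀ (by positivity)] at h1
    linarith
  obtain ⟨J0, hJ0⟩ := bp2_tail hc.sm hτ0
  refine ⟨J0, fun J hJ => ⟨η', hη', ?_⟩⟩
  intro n hn x g hg v hv hvη c w hcw hw
  obtain ⟨hT, hB⟩ := hJ0 J hJ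
  obtain ⟨β, hβ⟩ : ∃ β : ℝ, β = ‖deriv g x‖ := ⟨_, rfl⟩
  have hβ0 : 0 < β := by rw [hβ]; exact (br_small hc hden hη hg).1
  rw [← hβ] at hv hw ⊢
  have key : ∀ j, J ≤ j → j ≤ n → ∃ w' : ℂ, it v (j + 1) c = it v0 j w' ∧
      ‖w' - w‖ ≤ C2 * A * L * ρ * (∑ k ∈ Finset.Ico (J + 1) (j + 1), ‖B k‖) * β ∧
        ∀ i, J < i → i ≤ j → ev v.2 (it v i c) ≠ 0 := by
    intro j hj
    induction j, hj using Nat.le_induction with
    | base =>
      intro _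
      refine ⟨w, hcw, ?_, fun i h1 h2 => by omega⟩
      rw [sub_self, norm_zero, Finset.Ico_self, Finset.sum_empty, mul_zero, zero_mul]
    | succ j hj ih =>
      intro hjn
      obtain ⟨w1, hw1, hw2, hw3⟩ := ih (by omega)
      have hs1 : C2 * A * L * ρ * (∑ k ∈ Finset.Ico (J + 1) (j + 1), ‖B k‖) * β ≤ ε' * β := by
        have h1 := hT (j + 1) (by omega)
        have h2 : C2 * A * L * ρ * (∑ k ∈ Finset.Ico (J + 1) (j + 1), ‖B k‖) ≤
            C2 * A * L * ρ * τ := mul_le_mul_of_nonneg_left h1 (by positivity)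
        exact mul_le_mul_of_nonneg_right (h2.trans hτ2) hβ0.le
      have hw4 : ‖w1 - g x‖ ≤ η * β / 64 := by
        have h1 : w1 - g x = (w1 - w) + (w - g x) := by ring
        rw [h1]
        refine (norm_add_le _ _).trans ?_
        have h2 : ε' * β ≤ η / 128 * β := mul_le_mul_of_nonneg_right hε'2 hβ0.le
        have h3 : η * β / 64 = η / 128 * β + η * β / 128 := by ring
        rw [h3]
        linarith
      have hmem : w1 ∈ g '' ball x η := by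
        refine br_ball hη hg hη le_rfl ?_
        rw [mem_ball, dist_eq_norm, ← hβ]
        have h1 : 0 < η * β := by positivity
        linarith
      obtain ⟨z, hz, hzw⟩ := hmem
      obtain ⟨y, hy⟩ : ∃ y, y = it v0 j w1 := ⟨_, rfl⟩
      have hyK : y ∈ K := by
        rw [hy, ← hzw]
        exact hg.stay z hz j (by omega)
      obtain ⟨hy1, hy2⟩ := hlip v hvη y hyK
      obtain ⟨Δ, hΔ⟩ : ∃ Δ, Δ = ev v.1 y / ev v.2 y - ev v0.1 y / ev v0.2 y := ⟨_, rfl⟩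
      rw [← hΔ] at hy2
      have hΔ1 : ‖Δ‖ ≤ L * ρ * β := by
        refine hy2.trans ?_
        rw [mul_assoc]
        exact mul_le_mul_of_nonneg_left hv hL.le
      obtain ⟨D, hD⟩ : ∃ D : ℝ, D = ‖trD v0 (j + 1) (g x)‖ := ⟨_, rfl⟩
      have hgr := br_growth hc hg hjn
      rw [← hD] at hgr
      have hBj := hB (j + 1) (by omega)
      have hD0 : 0 < D := by
        have h1 : 0 ≤ D := by rw [hD]; exact norm_nonneg _
        rcases h1.eq_or_lt with h2 | h2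
        · rw [← h2, mul_zero] at hgr
          linarith
        · exact h2
      have hΔ2 : ‖Δ‖ < c1 * η * ‖deriv g x‖ * ‖trD v0 (j + 1) (g x)‖ := by
        rw [← hβ, ← hD]
        refine hΔ1.trans_lt ?_
        have h1 : 1 ≤ A * τ * D := by
          refine hgr.trans ?_
          exact mul_le_mul_of_nonneg_right (mul_le_mul_of_nonneg_left hBj hA0.le) hD0.le
        calc L * ρ * β ≤ L * ρ * β * (A * τ * D) := le_mul_of_one_le_right (by positivity) h1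
          _ = (L * ρ * A * τ) * (β * D) := by ring
          _ < (c1 * η) * (β * D) := mul_lt_mul_of_pos_right hτ1 (by positivity)
          _ = c1 * η * β * D := by ring
      obtain ⟨w', hw'1, hw'2⟩ := hbls hc hden hη hg (j + 1) hjn w1 Δ (by rw [← hβ]; exact hw4) hΔ2
      have hyc : it v (j + 1) c = y := by rw [hw1, hy]
      refine ⟨w', ?_, ?_, ?_⟩
      · have h1 : it v (j + 1 + 1) c =
            ev v.1 (it v (j + 1) c) / ev v.2 (it v (j + 1) c) := rfl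
        have h2 : it v0 (j + 1) w1 = ev v0.1 (it v0 j w1) / ev v0.2 (it v0 j w1) := rfl
        rw [h1, hyc, hw'1, h2, ← hy, hΔ]
        ring
      · have h1 : w' - w = (w' - w1) + (w1 - w) := by ring
        rw [h1, Finset.sum_Ico_succ_top (by omega : J + 1 ≤ j + 1)]
        refine (norm_add_le _ _).trans ?_
        have h2 : ‖w' - w1‖ ≤ C2 * A * L * ρ * ‖B (j + 1)‖ * β := by
          refine hw'2.trans ?_
          rw [← hD, div_le_iff₀ hD0]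
          calc C2 * ‖Δ‖ ≤ C2 * (L * ρ * β) := mul_le_mul_of_nonneg_left hΔ1 hC20.le
            _ ≤ C2 * (L * ρ * β) * (A * ‖B (j + 1)‖ * D) :=
                le_mul_of_one_le_right (by positivity) hgr
            _ = _ := by ring
        have h3 : C2 * A * L * ρ *
            (∑ k ∈ Finset.Ico (J + 1) (j + 1), ‖B k‖ + ‖B (j + 1)‖) * β =
            C2 * A * L * ρ * ‖B (j + 1)‖ * β +
              C2 * A * L * ρ * (∑ k ∈ Finset.Ico (J + 1) (j + 1), ‖B k‖) * β := by ring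
        rw [h3]
        exact add_le_add h2 hw2
      · intro i hi1 hi2
        rcases Nat.lt_or_ge i (j + 1) with h1 | h1
        · exact hw3 i hi1 (by omega)
        · have h2 : i = j + 1 := by omega
          rw [h2, hyc]
          exact hy1
  obtain ⟨w', h1, h2, h3⟩ := key n hn le_rfl
  refine ⟨w', h1, h2.trans ?_, h3⟩
  have h4 := hT (n + 1) (by omega)
  have h5 : C2 * A * L * ρ * (∑ k ∈ Finset.Ico (J + 1) (n + 1), ‖B k‖) ≤
      C2 * A * L * ρ * τ := mul_le_mul_of_nonneg_left h4 (by positivity)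
  exact mul_le_mul_of_nonneg_right ((h5.trans hτ2).trans hε'1) hβ0.le

end Pool.Agent.H79.MZ
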