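import Pool.Agent.H79.MZ.EXP1

/-!
# Module EXPC: the critical values to first order (critical points of any multiplicity)

PROOF. `W = wv v0` is (the evaluation of) a nonzero polynomial (`ww_ne`, H61/TT/Fib: `wv v0 z = (ww (pol v0.1) (pol v0.2)).eval z`, lemma `wv_pol`; the hypotheses `hd, hcop, hdeg` are for this) with `W c0 = 0`; let `f = ev v0.1 / ev v0.2`, analytic at `c0`, `f' = W / (ev v0.2) ^ 2`.
CHOICE OF ρ1: `ρ1 > 0` such that `ev v0.2 ≠ 0` and `W ≠ 0` on `closedBall c0 ρ1 \ {c0}` resp. `ev v0.2 ≠ 0` on `closedBall c0 ρ1`, and `‖f z - f c0‖ ≤ C ‖z - c0‖ ‖f' z‖` on it: `f z - f c0 = (z - c0) ^ (m + 1) * h z` with `h` analytic, `h c0 ≠ 0`, `m ≥ 1` (order of vanishing;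
`f` is not constant), so `f' z = (z - c0) ^ m ((m + 1) h z + (z - c0) h' z)`, and `‖(m + 1) h z + (z - c0) h' z‖ ≥ ‖h c0‖ / 2`, `‖h z‖ ≤ 2 ‖h c0‖` near `c0`.
(1) for every `ε` the critical points of `v` in `ball c0 ρ1` are in `ball c0 ε` for `v` near `v0`: on the compact set `ε ≤ ‖z - c0‖ ≤ ρ1` `‖wv v0 z‖ ≥ m0 > 0` and `‖wv v z - wv v0 z‖ ≤ C' ‖v - v0‖` (for `‖v - v0‖ ≤ 1`) uniformly on `closedBall c0 ρ1`.
(2) for such a `z` (`wv v z = 0`): `‖W z‖ = ‖wv v0 z - wv v z‖ ≤ C' ‖v - v0‖`, so `‖f z - f c0‖ ≤ C ‖z - c0‖ ‖W z‖ / ‖ev v0.2 z‖ ^ 2 ≤ C'' ‖z - c0‖ ‖v - v0‖ ≤ (ε / 2) ‖v - v0‖` when `‖z - c0‖` is small, which holds for `v` near `v0` by (1).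
(3) `‖ev v.1 z / ev v.2 z - f z - xi v0 (v - v0) c0‖ ≤ (ε / 2) ‖v - v0‖` by `exp_j` (H79/MZ/EXP1) at `z0 = c0`, again because `‖z - c0‖` is small. Add.
-/

set_option autoImplicit false

open Filter Topology Polynomial Metric Set

namespace Pool.Agent.H79.MZ

open Pool.Agent.H44.Fatou Pool.Agent.H32.BT Pool.Agent.H79.Eul Pool.Agent.H79.Par Pool.Agent.H61.TT

/-- bounds for `ev` and `dev` on discs -/
private theorem ev_bd (d : ℕ) (R : ℝ) : ∃ A : ℝ, 0 < A ∧ ∀ (p : Fin (d + 1) → ℂ) (z : ℂ), ‖z‖ ≤ R →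
    ‖ev p z‖ ≤ A * ‖p‖ ∧ ‖dev p z‖ ≤ A * ‖p‖ := by
  refine ⟨1 + (∑ i : Fin (d + 1), |R| ^ (i : ℕ)) +
    ∑ i : Fin (d + 1), ((i : ℕ) : ℝ) * |R| ^ ((i : ℕ) - 1), by positivity, ?_⟩
  intro p z hz
  have hzR : ‖z‖ ≤ |R| := hz.trans (le_abs_self R)
  have h1 : ‖ev p z‖ ≤ (∑ i : Fin (d + 1), |R| ^ (i : ℕ)) * ‖p‖ := by
    unfold ev
    refine (norm_sum_le _ _).trans ?_
    rw [Finset.sum_mul]
    refine Finset.sum_le_sum fun i _ => ?_
    rw [norm_mul, norm_pow, mul_comm]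
    exact mul_le_mul (pow_le_pow_left₀ (norm_nonneg _) hzR _) (norm_le_pi_norm p i)
      (norm_nonneg _) (by positivity)
  have h2 : ‖dev p z‖ ≤ (∑ i : Fin (d + 1), ((i : ℕ) : ℝ) * |R| ^ ((i : ℕ) - 1)) * ‖p‖ := by
    unfold dev
    refine (norm_sum_le _ _).trans ?_
    rw [Finset.sum_mul]
    refine Finset.sum_le_sum fun i _ => ?_
    rw [norm_mul, norm_mul, norm_pow, mul_comm, Complex.norm_natCast]
    exact mul_le_mul (mul_le_mul_of_nonneg_left (pow_le_pow_left₀ (norm_nonneg _) hzR _)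
      (Nat.cast_nonneg _)) (norm_le_pi_norm p i) (norm_nonneg _) (by positivity)
  have h3 : 0 ≤ (∑ i : Fin (d + 1), |R| ^ (i : ℕ)) * ‖p‖ := by positivity
  have h4 : 0 ≤ (∑ i : Fin (d + 1), ((i : ℕ) : ℝ) * |R| ^ ((i : ℕ) - 1)) * ‖p‖ := by positivity
  have h5 : 0 ≤ ‖p‖ := norm_nonneg p
  constructor <;> nlinarith

private theorem ev_sub' {d : ℕ} (p q : Fin (d + 1) → ℂ) (z : ℂ) : ev (p - q) z = ev p z - ev q z := by
  unfold ev
  rw [← Finset.sum_sub_distrib]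
  exact Finset.sum_congr rfl fun i _ => by rw [Pi.sub_apply]; ring

private theorem dev_sub' {d : ℕ} (p q : Fin (d + 1) → ℂ) (z : ℂ) :
    dev (p - q) z = dev p z - dev q z := by
  unfold dev
  rw [← Finset.sum_sub_distrib]
  exact Finset.sum_congr rfl fun i _ => by rw [Pi.sub_apply]; ring

/-- `wv` is Lipschitz in the coefficients, locally uniformly in `z` -/
private theorem wv_lip {d : ℕ} (v0 : E d) (R : ℝ) : ∃ C : ℝ, 0 < C ∧ ∀ v : E d, ‖v - v0‖ ≤ 1 →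
    ∀ z : ℂ, ‖z‖ ≤ R → ‖wv v z - wv v0 z‖ ≤ C * ‖v - v0‖ := by
  obtain ⟨A, hA, hb⟩ := ev_bd d R
  refine ⟨A ^ 2 * (4 * (‖v0‖ + 1)), by positivity, ?_⟩
  intro v hv z hz
  set u := v - v0 with hu
  have e : wv v z - wv v0 z = dev u.1 z * ev v.2 z + dev v0.1 z * ev u.2 z -
      ev u.1 z * dev v.2 z - ev v0.1 z * dev u.2 z := by
    have a1 : ev u.1 z = ev v.1 z - ev v0.1 z := by rw [hu, Prod.fst_sub, ev_sub']
    have a2 : ev u.2 z = ev v.2 z - ev v0.2 z := by rw [hu, Prod.snd_sub, ev_sub']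
    have a3 : dev u.1 z = dev v.1 z - dev v0.1 z := by rw [hu, Prod.fst_sub, dev_sub']
    have a4 : dev u.2 z = dev v.2 z - dev v0.2 z := by rw [hu, Prod.snd_sub, dev_sub']
    rw [a1, a2, a3, a4]
    unfold wv
    ring
  have n1 : ‖u.1‖ ≤ ‖u‖ := norm_fst_le u
  have n2 : ‖u.2‖ ≤ ‖u‖ := norm_snd_le u
  have n3 : ‖v0.1‖ ≤ ‖v0‖ + 1 := (norm_fst_le v0).trans (by linarith)
  have n4 : ‖v.2‖ ≤ ‖v0‖ + 1 := by
    have h1 : ‖v‖ ≤ ‖u‖ + ‖v0‖ := by
      have : v = u + v0 := by rw [hu]; abel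
      calc ‖v‖ = ‖u + v0‖ := by rw [← this]
        _ ≤ _ := norm_add_le _ _
    exact (norm_snd_le v).trans (by linarith)
  have hN : 0 ≤ ‖v0‖ + 1 := by positivity
  have key : ∀ x y s t : ℝ, 0 ≤ x → 0 ≤ s → x ≤ A * y → s ≤ A * t → y ≤ ‖u‖ → t ≤ ‖v0‖ + 1 →
      x * s ≤ A ^ 2 * ((‖v0‖ + 1) * ‖u‖) := by
    intro x y s t hx hs h1 h2 h3 h4
    have h5 : x ≤ A * ‖u‖ := h1.trans (mul_le_mul_of_nonneg_left h3 hA.le)
    have h6 : s ≤ A * (‖v0‖ + 1) := h2.trans (mul_le_mul_of_nonneg_left h4 hA.le)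
    calc x * s ≤ (A * ‖u‖) * (A * (‖v0‖ + 1)) := mul_le_mul h5 h6 hs (by positivity)
      _ = _ := by ring
  have t1 : ‖dev u.1 z * ev v.2 z‖ ≤ A ^ 2 * ((‖v0‖ + 1) * ‖u‖) := by
    rw [norm_mul]
    exact key _ _ _ _ (norm_nonneg _) (norm_nonneg _) (hb _ z hz).2 (hb _ z hz).1 n1 n4
  have t2 : ‖dev v0.1 z * ev u.2 z‖ ≤ A ^ 2 * ((‖v0‖ + 1) * ‖u‖) := by
    rw [norm_mul, mul_comm]
    exact key _ _ _ _ (norm_nonneg _) (norm_nonneg _) (hb _ z hz).1 (hb _ z hz).2 n2 n3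
  have t3 : ‖ev u.1 z * dev v.2 z‖ ≤ A ^ 2 * ((‖v0‖ + 1) * ‖u‖) := by
    rw [norm_mul]
    exact key _ _ _ _ (norm_nonneg _) (norm_nonneg _) (hb _ z hz).1 (hb _ z hz).2 n1 n4
  have t4 : ‖ev v0.1 z * dev u.2 z‖ ≤ A ^ 2 * ((‖v0‖ + 1) * ‖u‖) := by
    rw [norm_mul, mul_comm]
    exact key _ _ _ _ (norm_nonneg _) (norm_nonneg _) (hb _ z hz).2 (hb _ z hz).1 n2 n3
  rw [e]
  have s1 := norm_sub_le (dev u.1 z * ev v.2 z + dev v0.1 z * ev u.2 z - ev u.1 z * dev v.2 z)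
    (ev v0.1 z * dev u.2 z)
  have s2 := norm_sub_le (dev u.1 z * ev v.2 z + dev v0.1 z * ev u.2 z) (ev u.1 z * dev v.2 z)
  have s3 := norm_add_le (dev u.1 z * ev v.2 z) (dev v0.1 z * ev u.2 z)
  calc _ ≤ 4 * (A ^ 2 * ((‖v0‖ + 1) * ‖u‖)) := by linarith
    _ = _ := by ring

/-- the polynomial `b(c) a - a(c) b` is not zero -/
private theorem F_ne {a b : Polynomial ℂ} (hcop : IsCoprime a b)
    (hdeg : 2 ≤ max a.natDegree b.natDegree) {c : ℂ} (hb : b.eval c ≠ 0) :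
    C (b.eval c) * a - C (a.eval c) * b ≠ 0 := by
  intro h0
  have h1 : C (b.eval c) * a = C (a.eval c) * b := sub_eq_zero.1 h0
  have h2 : a = C (a.eval c / b.eval c) * b := by
    have h3 : C ((b.eval c)⁻¹) * (C (b.eval c) * a) = C ((b.eval c)⁻¹) * (C (a.eval c) * b) := by
      rw [h1]
    rw [← mul_assoc, ← C_mul, inv_mul_cancel₀ hb, C_1, one_mul, ← mul_assoc, ← C_mul] at h3
    rw [div_eq_inv_mul]
    exact h3
  have h3 : b ∣ a := ⟨C (a.eval c / b.eval c), by rw [mul_comm]; exact h2⟩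
  have h4 : IsUnit b := hcop.isUnit_of_dvd' h3 dvd_rfl
  have h5 : b.natDegree = 0 := natDegree_eq_zero_of_isUnit h4
  have h6 : a.natDegree ≤ b.natDegree := by
    rw [h2]
    exact natDegree_C_mul_le _ _
  omega

/-- near a point where the derivative vanishes, the increment is small compared with the derivative -/
private theorem incr {a b : Polynomial ℂ} (hcop : IsCoprime a b)
    (hdeg : 2 ≤ max a.natDegree b.natDegree) {c : ℂ} (hb : b.eval c ≠ 0) :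
    ∃ C1 : ℝ, 0 < C1 ∧ ∀ᶠ z in 𝓝 c, b.eval z ≠ 0 ∧ (z ≠ c → (ww a b).eval z ≠ 0) ∧
      ‖a.eval z / b.eval z - a.eval c / b.eval c‖ ≤ C1 * (‖z - c‖ * ‖(ww a b).eval z‖) := by
  set F : Polynomial ℂ := C (b.eval c) * a - C (a.eval c) * b with hF
  have hF0 : F ≠ 0 := F_ne hcop hdeg hb
  have hFc : F.eval c = 0 := by rw [hF]; simp; ring
  obtain ⟨G, hG, hndvd⟩ := Polynomial.exists_eq_pow_rootMultiplicity_mul_and_not_dvd F hF0 c
  have hGc : G.eval c ≠ 0 := by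
    intro h
    exact hndvd (dvd_iff_isRoot.mpr h)
  have hn : 0 < F.rootMultiplicity c := (rootMultiplicity_pos hF0).mpr hFc
  obtain ⟨m, hm⟩ : ∃ m, F.rootMultiplicity c = m + 1 := ⟨F.rootMultiplicity c - 1, by omega⟩
  rw [hm] at hG
  -- the bracket
  set H : Polynomial ℂ := C ((m : ℂ) + 1) * G * b + (X - C c) * (derivative G * b - G * derivative b)
    with hH
  have hW : C (b.eval c) * ww a b = (X - C c) ^ m * H := by
    have h1 : C (b.eval c) * ww a b = derivative F * b - F * derivative b := by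
      rw [hF]
      unfold ww
      simp only [derivative_sub, derivative_mul, derivative_C, zero_mul, zero_add]
      ring
    rw [h1, hG, hH, derivative_mul, derivative_pow_succ]
    simp only [derivative_sub, derivative_X, derivative_C, sub_zero, mul_one]
    rw [pow_succ]
    simp only [C_add, C_1, map_natCast]
    ring
  have hHc : H.eval c ≠ 0 := by
    rw [hH]
    simp only [eval_add, eval_mul, eval_C, eval_sub, eval_X, sub_self, zero_mul, add_zero]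
    refine mul_ne_zero (mul_ne_zero ?_ hGc) hb
    exact_mod_cast Nat.succ_ne_zero m
  have hbn : 0 < ‖b.eval c‖ := norm_pos_iff.mpr hb
  have hGn : 0 < ‖G.eval c‖ := norm_pos_iff.mpr hGc
  have hHn : 0 < ‖H.eval c‖ := norm_pos_iff.mpr hHc
  have cG : ∀ᶠ z in 𝓝 c, ‖G.eval z‖ < 2 * ‖G.eval c‖ :=
    (G.continuous.norm.continuousAt).eventually (gt_mem_nhds (by linarith))
  have cH : ∀ᶠ z in 𝓝 c, ‖H.eval c‖ / 2 < ‖H.eval z‖ :=
    (H.continuous.norm.continuousAt).eventually (lt_mem_nhds (by linarith))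
  have cb : ∀ᶠ z in 𝓝 c, ‖b.eval c‖ / 2 < ‖b.eval z‖ :=
    (b.continuous.norm.continuousAt).eventually (lt_mem_nhds (by linarith))
  refine ⟨8 * ‖G.eval c‖ / (‖b.eval c‖ * ‖H.eval c‖), by positivity, ?_⟩
  filter_upwards [cG, cH, cb] with z z1 z2 z3
  have hbz : b.eval z ≠ 0 := by
    intro h
    rw [h, norm_zero] at z3
    linarith
  have hWz : b.eval c * (ww a b).eval z = (z - c) ^ m * H.eval z := by
    have := congrArg (fun p => p.eval z) hW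
    simpa using this
  have hFz : a.eval z / b.eval z - a.eval c / b.eval c =
      ((z - c) ^ (m + 1) * G.eval z) / (b.eval z * b.eval c) := by
    have h1 : F.eval z = (z - c) ^ (m + 1) * G.eval z := by rw [hG]; simp
    rw [← h1, hF]
    field_simp
    simp
    ring
  refine ⟨hbz, ?_, ?_⟩
  · intro hzc h0
    rw [h0, mul_zero] at hWz
    have h1 : (z - c) ^ m ≠ 0 := pow_ne_zero _ (sub_ne_zero.mpr hzc)
    have h2 : H.eval z ≠ 0 := by
      intro h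
      rw [h, norm_zero] at z2
      linarith
    exact (mul_ne_zero h1 h2) hWz.symm
  · rw [hFz, norm_div, norm_mul, norm_mul, norm_pow]
    have hWn : ‖b.eval c‖ * ‖(ww a b).eval z‖ = ‖z - c‖ ^ m * ‖H.eval z‖ := by
      rw [← norm_mul, hWz, norm_mul, norm_pow]
    have k1 : ‖z - c‖ ^ m ≤ 2 * ‖b.eval c‖ * ‖(ww a b).eval z‖ / ‖H.eval c‖ := by
      rw [le_div_iff₀ hHn]
      have : ‖z - c‖ ^ m * (‖H.eval c‖ / 2) ≤ ‖z - c‖ ^ m * ‖H.eval z‖ :=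
        mul_le_mul_of_nonneg_left z2.le (by positivity)
      rw [← hWn] at this
      linarith
    have k2 : 0 < ‖b.eval c‖ / 2 * ‖b.eval c‖ := by positivity
    have k3 : ‖b.eval c‖ / 2 * ‖b.eval c‖ ≤ ‖b.eval z‖ * ‖b.eval c‖ :=
      mul_le_mul_of_nonneg_right z3.le hbn.le
    calc ‖z - c‖ ^ (m + 1) * ‖G.eval z‖ / (‖b.eval z‖ * ‖b.eval c‖)
        ≤ ‖z - c‖ ^ (m + 1) * ‖G.eval z‖ / (‖b.eval c‖ / 2 * ‖b.eval c‖) :=
          div_le_div_of_nonneg_left (by positivity) k2 k3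
      _ ≤ ‖z - c‖ ^ (m + 1) * (2 * ‖G.eval c‖) / (‖b.eval c‖ / 2 * ‖b.eval c‖) := by
          gcongr
      _ = ‖z - c‖ * ‖z - c‖ ^ m * (4 * ‖G.eval c‖ / ‖b.eval c‖ ^ 2) := by
          rw [pow_succ]
          field_simp
          ring
      _ ≤ ‖z - c‖ * (2 * ‖b.eval c‖ * ‖(ww a b).eval z‖ / ‖H.eval c‖) *
            (4 * ‖G.eval c‖ / ‖b.eval c‖ ^ 2) := by
          gcongr
      _ = 8 * ‖G.eval c‖ / (‖b.eval c‖ * ‖H.eval c‖) * (‖z - c‖ * ‖(ww a b).eval z‖) := by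
          field_simp
          ring

theorem exp_c {d : ℕ} {v0 : E d} (hd : 2 ≤ d) (hcop : IsCoprime (pol v0.1) (pol v0.2))
    (hdeg : max (pol v0.1).natDegree (pol v0.2).natDegree = d) {c0 : ℂ} (h0 : ev v0.2 c0 ≠ 0)
    (hw : wv v0 c0 = 0) :
    ∃ ρ1 : ℝ, 0 < ρ1 ∧ ∀ ε : ℝ, 0 < ε → ∃ η : ℝ, 0 < η ∧ ∀ v : E d, ‖v - v0‖ ≤ η →
      ∀ z ∈ ball c0 ρ1, wv v z = 0 → ‖z - c0‖ ≤ ε ∧ ev v.2 z ≠ 0 ∧
        ‖ev v.1 z / ev v.2 z - ev v0.1 c0 / ev v0.2 c0 - xi v0 (v - v0) c0‖ ≤ ε * ‖v - v0‖ := by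
  have hb : (pol v0.2).eval c0 ≠ 0 := by rw [← ev_pol]; exact h0
  obtain ⟨C1, hC1, hin⟩ := incr hcop (by omega) hb
  obtain ⟨ρ0, hρ0, hball⟩ := Metric.eventually_nhds_iff_ball.mp hin
  refine ⟨ρ0 / 2, by positivity, ?_⟩
  intro ε hε
  obtain ⟨C2, hC2, hlip⟩ := wv_lip v0 (‖c0‖ + ρ0)
  -- the smallness for z
  obtain ⟨η1, hη1, hj⟩ := exp_j h0 (show 0 < ε / 2 by positivity)
  have hev : ∀ᶠ y : E d × ℂ in 𝓝 (v0, c0), ev y.1.2 y.2 ≠ 0 := by
    have hc : Continuous (fun y : E d × ℂ => ev y.1.2 y.2) := ev2_cont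
    exact hc.continuousAt.eventually_ne h0
  obtain ⟨η2, hη2, hball2⟩ := Metric.eventually_nhds_iff_ball.mp hev
  set ε1 : ℝ := min (min ε (ε / (2 * C1 * C2))) (min η1 (η2 / 2)) with hε1
  have hε1pos : 0 < ε1 := by
    rw [hε1]
    exact lt_min (lt_min hε (by positivity)) (lt_min hη1 (by positivity))
  -- no critical points in the compact annulus
  have hK : IsCompact (closedBall c0 (ρ0 / 2) \ ball c0 ε1) :=
    (isCompact_closedBall c0 (ρ0 / 2)).diff isOpen_ball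
  have hev2 : ∀ᶠ v in 𝓝 v0, ∀ z ∈ closedBall c0 (ρ0 / 2) \ ball c0 ε1, wv v z ≠ 0 := by
    refine hK.eventually_forall_of_forall_eventually (P := fun (v : E d) (z : ℂ) => wv v z ≠ 0) ?_
    intro z hz
    have h1 : z ∈ ball c0 ρ0 := by
      have := mem_closedBall.mp hz.1
      rw [mem_ball]
      linarith
    have h2 : z ≠ c0 := by
      rintro rfl
      exact hz.2 (mem_ball_self hε1pos)
    have h3 : wv v0 z ≠ 0 := by
      rw [wv_pol]
      exact (hball z h1).2.1 h2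
    have hc : Continuous (fun y : E d × ℂ => wv y.1 y.2) := wv_cont
    exact hc.continuousAt.eventually_ne h3
  obtain ⟨η3, hη3, hball3⟩ := Metric.eventually_nhds_iff_ball.mp hev2
  refine ⟨min (min 1 η1) (min (η2 / 2) (η3 / 2)), by positivity, ?_⟩
  intro v hv z hz hwz
  have v1 : ‖v - v0‖ ≤ 1 := hv.trans ((min_le_left _ _).trans (min_le_left _ _))
  have v2 : ‖v - v0‖ ≤ η1 := hv.trans ((min_le_left _ _).trans (min_le_right _ _))
  have v3 : ‖v - v0‖ ≤ η2 / 2 := hv.trans ((min_le_right _ _).trans (min_le_left _ _))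
  have v4 : ‖v - v0‖ ≤ η3 / 2 := hv.trans ((min_le_right _ _).trans (min_le_right _ _))
  have hzε : ‖z - c0‖ < ε1 := by
    by_contra hc
    have hvb : v ∈ ball v0 η3 := by
      rw [mem_ball, dist_eq_norm]
      linarith
    refine hball3 v hvb z ⟨ball_subset_closedBall hz, ?_⟩ hwz
    intro h
    rw [mem_ball, dist_eq_norm] at h
    exact hc h
  have z1 : ‖z - c0‖ ≤ ε := hzε.le.trans ((min_le_left _ _).trans (min_le_left _ _))
  have z2 : ‖z - c0‖ ≤ ε / (2 * C1 * C2) := hzε.le.trans ((min_le_left _ _).trans (min_le_right _ _))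
  have z3 : ‖z - c0‖ ≤ η1 := hzε.le.trans ((min_le_right _ _).trans (min_le_left _ _))
  have z4 : ‖z - c0‖ ≤ η2 / 2 := hzε.le.trans ((min_le_right _ _).trans (min_le_right _ _))
  refine ⟨z1, ?_, ?_⟩
  · refine hball2 (v, z) ?_
    rw [mem_ball, dist_eq_norm, Prod.norm_def]
    refine max_lt ?_ ?_
    · show ‖v - v0‖ < η2
      linarith
    · show ‖z - c0‖ < η2
      linarith
  · have hzρ : z ∈ ball c0 ρ0 := by
      rw [mem_ball] at hz ⊢
      linarith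
    have h1 := hj v v2 z z3
    have h2 := (hball z hzρ).2.2
    rw [← ev_pol, ← ev_pol, ← ev_pol, ← ev_pol, ← wv_pol] at h2
    have h3 : ‖wv v0 z‖ ≤ C2 * ‖v - v0‖ := by
      have hzR : ‖z‖ ≤ ‖c0‖ + ρ0 := by
        rw [mem_ball, dist_eq_norm] at hzρ
        calc ‖z‖ = ‖c0 + (z - c0)‖ := by congr 1; ring
          _ ≤ ‖c0‖ + ‖z - c0‖ := norm_add_le _ _
          _ ≤ _ := by linarith
      have := hlip v v1 z hzR
      rw [hwz, zero_sub, norm_neg] at this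
      exact this
    have h4 : ‖ev v0.1 z / ev v0.2 z - ev v0.1 c0 / ev v0.2 c0‖ ≤ ε / 2 * ‖v - v0‖ := by
      calc _ ≤ C1 * (‖z - c0‖ * ‖wv v0 z‖) := h2
        _ ≤ C1 * ((ε / (2 * C1 * C2)) * (C2 * ‖v - v0‖)) := by gcongr
        _ = ε / 2 * ‖v - v0‖ := by field_simp
    calc ‖ev v.1 z / ev v.2 z - ev v0.1 c0 / ev v0.2 c0 - xi v0 (v - v0) c0‖
        = ‖(ev v.1 z / ev v.2 z - ev v0.1 z / ev v0.2 z - xi v0 (v - v0) c0) +
            (ev v0.1 z / ev v0.2 z - ev v0.1 c0 / ev v0.2 c0)‖ := by congr 1; ring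
      _ ≤ _ := norm_add_le _ _
      _ ≤ ε / 2 * ‖v - v0‖ + ε / 2 * ‖v - v0‖ := add_le_add h1 h4
      _ = ε * ‖v - v0‖ := by ring

end Pool.Agent.H79.MZ
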