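import Pool.Agent.H79.MZ.CNE
import Pool.Agent.H79.PJ.RIter
import Pool.Agent.H32.BT.Crit
import Pool.Agent.H79.Par.PerDec

/-!
# Module LM1: the iterates of a small ball at a point of the critical orbit meet every open set

PROOF. (Compare MN1, H44/RR/MN1.) Let `x = p (m + 1)`, `f = Rf v0 = rat (pol v0.1) (pol v0.2)`, `y0 ∈ D`, `ball y0 ε ⊆ D`. STEP 1: there are `N` and `z ∈ ball x r` with `f^[N] (z : OnePoint ℂ) ∈ (↑) '' ball y0 ε`. Suppose not. Fix `n`; `rat_iter` (H79/PJ/RIter): `A, C` coprime with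
`rat A C = f^[n]` on the sphere. For `z ∈ ball x r`: `A.eval z - y0 * C.eval z ≠ 0` (if `C.eval z ≠ 0` then `f^[n] z = A z / C z ≠ y0`; if `C.eval z = 0` then `A.eval z ≠ 0`, coprime). Put `G z = C.eval z / (A.eval z - y0 * C.eval z)`: differentiable on the ball, `‖G z‖ ≤ 1 / ε`
(`G z = 0` if `C z = 0`, else `G z = 1 / (A z / C z - y0)`). By the Cauchy estimate `‖deriv G x‖ ≤ 2 / (ε r)`. Near `x` (all points `p (j + 1)` are finite, `ev v0.2 (p j) ≠ 0`) `C z ≠ 0` and `A z / C z = it v0 n z`, so `G = 1 / (it v0 n - y0)` near `x`, with `it v0 n x = p (m + n + 1)` (`cr_it`)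
and `it v0 n` has at `x` the derivative `trD v0 n x = B m / B (m + n)` (from `cr_trD` and `trD v0 (m + n) (p 1) = trD v0 n (p (m + 1)) * trD v0 m (p 1)`). So `‖B m‖ / ‖B (m + n)‖ = ‖deriv G x‖ ‖p (m+n+1) - y0‖ ^ 2 ≤ (2 / (ε r)) (R + ‖y0‖) ^ 2` for all `n`, but `B (m + n) → 0` (`cr.sm`), `B m ≠ 0`: contradiction.
STEP 2: by continuity of `f^[N]` (`rat_continuous` or similar) the `z ∈ ball x r` with `f^[N] z ∈ (↑) '' ball y0 ε` form an open nonempty set `O1` of the plane; those with `f^[j] z = ∞` for some `j < N` are finitely many (`rat_iter`: zeros of the denominator of `f^[j]`), so there is `e0 ∈ O1` with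
`f^[j] e0 ≠ ∞` for all `j ≤ N`; then `f^[j] e0 = it v0 j e0` and `ev v0.2 (it v0 j e0) ≠ 0` for `j < N` (`orb_all`, H79/Par/PerDec, or by induction with `rat_coe_of_ne`, `pt`). STEP 3: `track` (H44/Fatou/Mob) with the orbit `x j = it v0 j e0` and the neighbourhood `D` of `it v0 N e0`: for `(v, z)` near `(v0, e0)` there is
`w ∈ D` with `Reach v N z w`. Choose `t > 0` with `closedBall e0 t ⊆ ball x r` and the statement for `v` near `v0`, `z ∈ closedBall e0 t` (`Filter.Eventually` in a product, `nhds_prod_eq`, `Filter.eventually_prod_iff`).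
-/

set_option autoImplicit false

open Filter Topology Polynomial Metric Set

namespace Pool.Agent.H79.MZ

open Pool.Agent.H44.Fatou Pool.Agent.H32.BT Pool.Agent.H79.Eul Pool.Agent.H79.Par Pool.Agent.H61.TT

theorem lm_ne {d : ℕ} {v0 : E d} {p B : ℕ → ℂ} (hc : Cr v0 p B) (k : ℕ) : ev v0.2 (p k) ≠ 0 := by
  obtain ⟨δ, hδ, h⟩ := hc.bb
  intro h0
  have := h k
  rw [h0, norm_zero] at this
  linarith

theorem lm_orb {d : ℕ} {v0 : E d} {p B : ℕ → ℂ} (hc : Cr v0 p B) (m n : ℕ) :
    Orb v0 (fun j => p (m + 1 + j)) n :=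
  fun j _ => ⟨lm_ne hc _, hc.orb _⟩

theorem lm_B {d : ℕ} {v0 : E d} {p B : ℕ → ℂ} (hc : Cr v0 p B) (m n : ℕ) :
    B (m + n) * trD v0 n (p (m + 1)) = B m := by
  have h1 := cr_trD hc (m + n)
  have h2 := cr_trD hc m
  rw [trD_add, cr_it hc 1 m, Nat.add_comm 1 m] at h1
  have h3 : trD v0 m (p 1) ≠ 0 := by
    intro h0
    rw [h0, mul_zero] at h2
    exact zero_ne_one h2
  apply mul_right_cancel₀ h3
  rw [h2, ← h1]
  ring

/-- STEP 1 -/
theorem lm_step1 {d : ℕ} {v0 : E d} {p B : ℕ → ℂ} (hd : 2 ≤ d) (hcop : IsCoprime (pol v0.1) (pol v0.2))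
    (hdeg : max (pol v0.1).natDegree (pol v0.2).natDegree = d) (hc : Cr v0 p B) (m : ℕ) {r : ℝ}
    (hr : 0 < r) {D : Set ℂ} (hD : IsOpen D) (hDn : D.Nonempty) :
    ∃ (N : ℕ), ∃ z ∈ ball (p (m + 1)) r, ∃ w ∈ D, (Rf v0)^[N] (z : OnePoint ℂ) = (w : OnePoint ℂ) := by
  by_contra hcon
  push Not at hcon
  obtain ⟨y, hy⟩ := hDn
  obtain ⟨ε, hε, hεD⟩ := Metric.isOpen_iff.1 hD y hy
  have hdd : 1 ≤ Pool.Agent.H44.Fatou.dg (pol v0.1) (pol v0.2) := by
    have : Pool.Agent.H44.Fatou.dg (pol v0.1) (pol v0.2) = d := hdeg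
    omega
  obtain ⟨R, hR⟩ := hc.pb
  have hR0 : 0 ≤ R := (norm_nonneg _).trans (hR 0)
  set x := p (m + 1) with hx
  have hK : ∀ n, ‖B m‖ ≤ ‖B (m + n)‖ * (1 / ε / (r / 2) * (R + ‖y‖) ^ 2) := by
    intro n
    obtain ⟨A, C, hAC, -, hit⟩ := Pool.Agent.H79.PJ.rat_iter hcop hdd n
    have key : ∀ z ∈ ball x r, A.eval z - y * C.eval z ≠ 0 ∧
        ε * ‖C.eval z‖ ≤ ‖A.eval z - y * C.eval z‖ := by
      intro z hz
      have h1 : rat A C (z : OnePoint ℂ) = (Rf v0)^[n] (z : OnePoint ℂ) := hit _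
      by_cases hC : C.eval z = 0
      · rcases coprime_eval hAC z with h2 | h2
        · rw [hC, mul_zero, sub_zero, norm_zero, mul_zero]
          exact ⟨h2, norm_nonneg _⟩
        · exact absurd hC h2
      · have h2 : rat A C (z : OnePoint ℂ) = ((A.eval z / C.eval z : ℂ) : OnePoint ℂ) :=
          rat_coe_of_ne hC
        have h3 : A.eval z / C.eval z ∉ ball y ε := by
          intro h4
          exact hcon n z hz _ (hεD h4) (h1.symm.trans h2)
        have h4 : ε ≤ ‖A.eval z / C.eval z - y‖ := by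
          rw [mem_ball, dist_eq_norm, not_lt] at h3
          exact h3
        have h5 : A.eval z - y * C.eval z = (A.eval z / C.eval z - y) * C.eval z := by
          field_simp
        have h6 : 0 < ‖C.eval z‖ := norm_pos_iff.2 hC
        have h7 : ε * ‖C.eval z‖ ≤ ‖A.eval z - y * C.eval z‖ := by
          rw [h5, norm_mul]
          gcongr
        refine ⟨?_, h7⟩
        intro h8
        rw [h8, norm_zero] at h7
        have := mul_pos hε h6
        linarith
    have hcl : closure (ball x (r / 2)) ⊆ ball x r :=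
      closure_ball_subset_closedBall.trans (closedBall_subset_ball (by linarith))
    have hdG : DifferentiableOn ℂ (fun z => C.eval z / (A.eval z - y * C.eval z))
        (ball x r) := by
      intro z hz
      refine DifferentiableAt.differentiableWithinAt ?_
      refine DifferentiableAt.div C.differentiableAt ?_ (key z hz).1
      exact A.differentiableAt.sub (C.differentiableAt.const_mul y)
    have hDC : DiffContOnCl ℂ (fun z => C.eval z / (A.eval z - y * C.eval z))
        (ball x (r / 2)) := (hdG.mono hcl).diffContOnCl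
    have hbd : ∀ z ∈ sphere x (r / 2),
        ‖C.eval z / (A.eval z - y * C.eval z)‖ ≤ 1 / ε := by
      intro z hz
      have hz' : z ∈ ball x r := sphere_subset_closedBall.trans
        (closedBall_subset_ball (by linarith)) hz
      obtain ⟨k1, k2⟩ := key z hz'
      rw [norm_div, div_le_div_iff₀ (norm_pos_iff.2 k1) hε, one_mul, mul_comm]
      exact k2
    have hC := Complex.norm_deriv_le_of_forall_mem_sphere_norm_le (half_pos hr) hDC hbd
    have ho := lm_orb hc m n
    have g1 : it v0 n x = p (m + 1 + n) := orb_it ho n le_rfl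
    have g2 : HasDerivAt (fun z => it v0 n z) (trD v0 n x) x := by
      apply tr_hasDerivAt
      intro i hi
      have h1 : it v0 i x = p (m + 1 + i) := orb_it ho i hi.le
      rw [h1]
      exact lm_ne hc _
    have g3 : ∀ᶠ z : ℂ in 𝓝 x, (Rf v0)^[n] (z : OnePoint ℂ) = ((it v0 n z : ℂ) : OnePoint ℂ) := by
      have hcz : Tendsto (fun u : ℂ => (v0, u)) (𝓝 x) (𝓝 (v0, x)) :=
        (continuous_const.prodMk continuous_id).tendsto _
      filter_upwards [hcz.eventually (orb_near ho)] with u hu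
      exact rat_it hu
    have hloc : (fun z => C.eval z / (A.eval z - y * C.eval z)) =ᶠ[𝓝 x]
        fun z => (it v0 n z - y)⁻¹ := by
      filter_upwards [g3, ball_mem_nhds x hr] with z hz hzb
      have h1 : rat A C (z : OnePoint ℂ) = ((it v0 n z : ℂ) : OnePoint ℂ) := by
        rw [hit]
        exact hz
      have hCz : C.eval z ≠ 0 := by
        intro h0
        rw [rat_coe] at h1
        unfold pt at h1
        rw [if_pos h0] at h1
        exact OnePoint.infty_ne_coe _ h1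
      rw [rat_coe_of_ne hCz] at h1
      have h2 : A.eval z / C.eval z = it v0 n z := OnePoint.coe_injective h1
      have h3 := (key z hzb).1
      rw [← h2]
      have h5 : A.eval z - y * C.eval z = (A.eval z / C.eval z - y) * C.eval z := by
        field_simp
      rw [h5]
      have h6 : A.eval z / C.eval z - y ≠ 0 := by
        intro h7
        rw [h5, h7, zero_mul] at h3
        exact h3 rfl
      field_simp
    have hne : p (m + 1 + n) - y ≠ 0 := by
      intro h0
      have h1 : rat A C (x : OnePoint ℂ) = (y : OnePoint ℂ) := by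
        rw [hit]
        refine g3.self_of_nhds.trans ?_
        rw [g1, sub_eq_zero.1 h0]
      have hCz : C.eval x ≠ 0 := by
        intro h2
        rw [rat_coe] at h1
        unfold pt at h1
        rw [if_pos h2] at h1
        exact OnePoint.infty_ne_coe _ h1
      rw [rat_coe_of_ne hCz] at h1
      have h2 : A.eval x / C.eval x = y := OnePoint.coe_injective h1
      apply (key x (mem_ball_self hr)).1
      rw [← h2]
      field_simp
      ring
    have hder : HasDerivAt (fun z => (it v0 n z - y)⁻¹)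
        (-(trD v0 n x) / (it v0 n x - y) ^ 2) x := by
      refine (g2.sub_const y).fun_inv ?_
      rw [g1]
      exact hne
    have hdeq : deriv (fun z => C.eval z / (A.eval z - y * C.eval z)) x =
        -(trD v0 n x) / (p (m + 1 + n) - y) ^ 2 := by
      rw [hloc.deriv_eq, hder.deriv, g1]
    rw [hdeq, norm_div, norm_neg, norm_pow, div_le_iff₀ (pow_pos (norm_pos_iff.2 hne) 2)] at hC
    have hB1 := congrArg norm (lm_B hc m n)
    rw [norm_mul] at hB1
    have h8 : ‖p (m + 1 + n) - y‖ ≤ R + ‖y‖ := (norm_sub_le _ _).trans (by gcongr; exact hR _)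
    calc ‖B m‖ = ‖B (m + n)‖ * ‖trD v0 n x‖ := hB1.symm
      _ ≤ ‖B (m + n)‖ * (1 / ε / (r / 2) * ‖p (m + 1 + n) - y‖ ^ 2) := by gcongr
      _ ≤ ‖B (m + n)‖ * (1 / ε / (r / 2) * (R + ‖y‖) ^ 2) := by gcongr
  have hz1 : Tendsto (fun n => ‖B (m + n)‖) atTop (𝓝 0) := by
    have h1 := hc.sm.tendsto_atTop_zero
    have h2 : Tendsto (fun n : ℕ => m + n) atTop atTop := tendsto_atTop_mono (fun n => Nat.le_add_left n m) tendsto_id
    exact h1.comp h2
  have hz := hz1.mul_const (1 / ε / (r / 2) * (R + ‖y‖) ^ 2)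
  rw [zero_mul] at hz
  have h1 := ge_of_tendsto' hz hK
  exact cr_ne hc m (norm_le_zero_iff.1 h1)

theorem lm_den {P Q : Polynomial ℂ} (hcop : IsCoprime P Q) (hdd : 1 ≤ Pool.Agent.H44.Fatou.dg P Q) (j : ℕ) :
    {z : ℂ | (rat P Q)^[j] (z : OnePoint ℂ) = OnePoint.infty}.Finite := by
  obtain ⟨A, C, hAC, hdg, hit⟩ := Pool.Agent.H79.PJ.rat_iter hcop hdd j
  have hC : C ≠ 0 := by
    rintro rfl
    have h1 : IsUnit A := isCoprime_zero_right.1 hAC
    have h2 : A.natDegree = 0 := natDegree_eq_zero_of_isUnit h1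
    have h3 : 1 ≤ Pool.Agent.H44.Fatou.dg P Q ^ j := Nat.one_le_pow _ _ hdd
    rw [← hdg] at h3
    unfold Pool.Agent.H44.Fatou.dg at h3
    rw [h2, natDegree_zero] at h3
    simp at h3
  refine (C.roots.toFinset.finite_toSet).subset ?_
  intro z hz
  have h1 : rat A C (z : OnePoint ℂ) = OnePoint.infty := by
    rw [hit]
    exact hz
  rw [Finset.mem_coe, Multiset.mem_toFinset, mem_roots hC]
  by_contra h2
  rw [rat_coe_of_ne h2] at h1
  exact OnePoint.coe_ne_infty _ h1

theorem lm1 {d : ℕ} {v0 : E d} {p B : ℕ → ℂ} (hd : 2 ≤ d) (hcop : IsCoprime (pol v0.1) (pol v0.2))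
    (hdeg : max (pol v0.1).natDegree (pol v0.2).natDegree = d) (hc : Cr v0 p B) (m : ℕ) {r : ℝ}
    (hr : 0 < r) {D : Set ℂ} (hD : IsOpen D) (hDn : D.Nonempty) :
    ∃ (N : ℕ) (e0 : ℂ) (t : ℝ), 0 < t ∧ closedBall e0 t ⊆ ball (p (m + 1)) r ∧
      ∀ᶠ v in 𝓝 v0, ∀ z ∈ closedBall e0 t, ∃ w ∈ D, Reach v N z w := by
  have hdd : 1 ≤ Pool.Agent.H44.Fatou.dg (pol v0.1) (pol v0.2) := by
    have : Pool.Agent.H44.Fatou.dg (pol v0.1) (pol v0.2) = d := hdeg
    omega
  obtain ⟨N, z1, hz1, w1, hw1, hzw⟩ := lm_step1 hd hcop hdeg hc m hr hD hDn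
  have hcont : Continuous (fun z : ℂ => (Rf v0)^[N] (z : OnePoint ℂ)) :=
    ((rat_continuous hcop).iterate N).comp OnePoint.continuous_coe
  have hO1 : IsOpen (ball (p (m + 1)) r ∩ (fun z : ℂ => (Rf v0)^[N] (z : OnePoint ℂ)) ⁻¹'
      ((fun w : ℂ => (w : OnePoint ℂ)) '' D)) :=
    isOpen_ball.inter ((OnePoint.isOpenEmbedding_coe.isOpenMap _ hD).preimage hcont)
  have hfin : (⋃ j ∈ Finset.range (N + 1), {z : ℂ | (Rf v0)^[j] (z : OnePoint ℂ) = OnePoint.infty}).Finite :=
    Set.Finite.biUnion (Finset.finite_toSet _) (fun j _ => lm_den hcop hdd j)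
  have hdense := Set.Countable.dense_compl ℂ hfin.countable
  obtain ⟨e0, he0, he0'⟩ := hdense.inter_open_nonempty _ hO1 ⟨z1, hz1, ⟨w1, hw1, hzw.symm⟩⟩
  have hfin2 : ∀ j ≤ N, (Rf v0)^[j] (e0 : OnePoint ℂ) ≠ OnePoint.infty := by
    intro j hj h
    apply he0'
    rw [Set.mem_iUnion₂]
    exact ⟨j, Finset.mem_range.2 (by omega), h⟩
  have ho := orb_of_fin hfin2
  have hmem : it v0 N e0 ∈ D := by
    obtain ⟨w, hw, hw'⟩ := he0.2
    have h1 : (Rf v0)^[N] (e0 : OnePoint ℂ) = ((it v0 N e0 : ℂ) : OnePoint ℂ) := rat_it fun i hi => (ho i hi).1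
    have h2 : w = it v0 N e0 := OnePoint.coe_injective (hw'.trans h1)
    rw [← h2]
    exact hw
  have htr := track v0 N (fun j => it v0 j e0) (fun i hi => (ho i hi).1) (fun i hi => (ho i hi).2) D
    (hD.mem_nhds hmem)
  have h0 : it v0 0 e0 = e0 := rfl
  rw [h0, nhds_prod_eq, Filter.eventually_prod_iff] at htr
  obtain ⟨pa, hpa, pb, hpb, hab⟩ := htr
  obtain ⟨t, ht, hts⟩ := Metric.nhds_basis_closedBall.mem_iff.1
    (Filter.inter_mem (isOpen_ball.mem_nhds he0.1) hpb)
  refine ⟨N, e0, t, ht, fun z hz => (hts hz).1, ?_⟩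
  filter_upwards [hpa] with v hv z hz
  exact hab hv (hts hz).2

end Pool.Agent.H79.MZ
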