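import Pool.Agent.H79.MZ.LIM
import Pool.Agent.H79.MZ.LM1
import Pool.Agent.H79.MZ.EXPC

/-!
# Module HOL: holes of the bad set

PROOF. CONSTANTS. `ρ2` (called `ρ1` in the statement of `exp_c`) from `exp_c` at `c0 = p 0` (this is the radius in the conclusion); `M` from `tf_bd` and `M'` from `xi_bd` (`k = 0`); `L0 = M' + 1`; `σ = δ / 16`; `ρ1, C3` from `trk` with this `L0`. `u1` with `TF v0 p B u1 = 1` (`u1 = (TF v1)⁻¹ • v1`, `tf_smul`).
CHOICE OF THE LIMIT POINT. The conical `n` (`h.con`) are infinitely many; the points `p (n + 1)` are in a bounded set (`cr.pb`), so there are `y : ℂ` and a strictly increasing sequence `n i` of conical integers with `p (n i + 1) → y` (`tendsto_subseq_of_bounded`,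
`Filter.extraction_of_frequently_atTop`). Let `C, N` be the constants of `koe` (H44/DN/KOE). Let `κ > 0` be small: `κ ≤ δ / 4` and `C * 2 ^ N * 2 κ * ‖u1‖ ≤ ρ1 / 4`. Choose `m` of the form `n i` with `p (m + 1) ∈ ball y (κ / 2)`; `lm1` with this `m`, `r = κ / 2`: `N1, e0, t`, `closedBall e0 t ⊆ ball (p (m + 1)) (κ / 2) ⊆ ball y κ`; we may assume `t ≤ κ`.
THE HOLE. Let `n = n i` be large, `g` with `Con v0 p K δ n g`, `q = p (n + 1)`, `‖q - y‖ < κ`: so `closedBall e0 t ⊆ ball q (2 κ) ⊆ ball q (δ / 2)`. `koe` for `g` on `ball q δ` with radius `2 κ ≤ δ / 2`, `deriv g q = B n` (`con_deriv`): `‖g e0 - p 1‖ ≤ C * 2 ^ N * ‖B n‖ * 2 κ` and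
`‖deriv g e0‖ ≥ (1/2)^N / C * ‖B n‖ =: a ‖B n‖`. `univ_cover` on `ball e0 t`: `ball (g e0) (t * a * ‖B n‖ / 16) ⊆ g '' ball e0 t`. Put `s = g e0 - p 1`, `v1 = v0 + s • u1`: `TF v0 p B (v1 - v0) = s`, `‖v1 - v0‖ ≤ ρ1 ‖B n‖ / 4`. `c0 = min (1/4) (t a / (64 (M + 1) (ρ1 + 1)))`-like, `r = ρ1 ‖B n‖` (tends to `0`, positive).
For `v ∈ closedBall v1 (c0 r)`: `‖v - v0‖ ≤ ρ1 ‖B n‖ / 2`, `‖TF (v - v0) - s‖ ≤ M c0 ρ1 ‖B n‖ ≤ t a ‖B n‖ / 64`. Let `z ∈ ball (p 0) ρ2`, `wv v z = 0`. `exp_c` with `ε = min 1 (ε' / 4)`: `ev v.2 z ≠ 0`, `‖it v 1 z - p 1 - xi v0 (v - v0) (p 0)‖ ≤ (ε' / 4) ‖v - v0‖` (and `≤ ‖v - v0‖`), so `‖it v 1 z - p 1‖ ≤ L0 ‖v - v0‖`, for `n` large. `con_cn` and `trk` (with `c = z`): `Shad`; `lim_w` with `ε' ρ1 ≤ t a / 64`: `‖w n - p 1 - TF (v - v0)‖ ≤ ε' ‖v - v0‖ ≤ t a ‖B n‖ / 64`.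
So `w n ∈ ball (g e0) (t a ‖B n‖ / 16)`, `w n = g e`, `e ∈ ball e0 t`, `it v (n + 1) z = it v0 n (w n) = e` (`Con.inv`). So `Reach v (n + 1) z e` (`Shad.den`, `Reach` unfolds along `it v j z`), and `lm1` gives `w' ∈ D` with `Reach v N1 e w'`; `Reach` is transitive: `Reach v (n + 1 + N1) z w'`.
-/

set_option autoImplicit false

open Filter Topology Polynomial Metric Set

namespace Pool.Agent.H79.MZ

open Pool.Agent.H44.Fatou Pool.Agent.H32.BT Pool.Agent.H79.Eul Pool.Agent.H79.Par Pool.Agent.H61.TT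

theorem reach_trans {d : ℕ} {v : E d} {m n : ℕ} {x y z : ℂ} (h1 : Reach v m x y)
    (h2 : Reach v n y z) : Reach v (m + n) x z := by
  induction m generalizing x with
  | zero =>
    have h3 : x = y := h1
    rw [zero_add, h3]
    exact h2
  | succ m ih =>
    have h3 : ev v.2 x ≠ 0 ∧ Reach v m (ev v.1 x / ev v.2 x) y := h1
    have e : m + 1 + n = (m + n) + 1 := by omega
    rw [e]
    exact ⟨h3.1, ih h3.2⟩

theorem reach_it {d : ℕ} {v : E d} {n : ℕ} {c : ℂ} (h : ∀ j < n, ev v.2 (it v j c) ≠ 0) :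
    Reach v n c (it v n c) := by
  induction n generalizing c with
  | zero => exact rfl
  | succ n ih =>
    have h1 : ∀ j, it v (j + 1) c = it v j (ev v.1 c / ev v.2 c) := fun j => it_comp v j 1 c
    have h2 : ev v.2 c ≠ 0 := h 0 (by omega)
    refine ⟨h2, ?_⟩
    rw [h1 n]
    refine ih (fun j hj => ?_)
    rw [← h1 j]
    exact h (j + 1) (by omega)

theorem hole {d : ℕ} {v0 : E d} {p B : ℕ → ℂ} {K : Set ℂ} {δ : ℝ} (h : Good v0 p B K δ) {v1 : E d}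
    (hT : TF v0 p B v1 ≠ 0) {D : Set ℂ} (hD : IsOpen D) (hDn : D.Nonempty) :
    ∃ c0 : ℝ, 0 < c0 ∧ ∃ ρ2 : ℝ, 0 < ρ2 ∧ ∀ R : ℝ, 0 < R → ∃ r : ℝ, 0 < r ∧ r < R ∧ ∃ v2 : E d,
      closedBall v2 (c0 * r) ⊆ closedBall v0 r ∧ ∀ v ∈ closedBall v2 (c0 * r),
        ∀ z ∈ ball (p 0) ρ2, wv v z = 0 → ∃ (n : ℕ), ∃ w ∈ D, Reach v n z w := by
  have hc := h.cr
  have hδ := h.hδ
  obtain ⟨δ', hδ'0, hδ'⟩ := hc.bb
  have hev0 : ev v0.2 (p 0) ≠ 0 := by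
    intro h0
    have := hδ' 0
    rw [h0, norm_zero] at this
    linarith
  obtain ⟨ρ2, hρ2, hexp⟩ := exp_c h.hd h.cop h.deg hev0 hc.crit
  obtain ⟨M, hM0, hM⟩ := tf_bd hc
  obtain ⟨M', hM'0, hM'⟩ := xi_bd hc
  obtain ⟨ρ1, C3, hρ1, hC3, htrk⟩ := trk hc h.cpt h.den (σ := δ / 16) (by positivity)
    (L0 := M' + 1) (by positivity)
  obtain ⟨u1, hu1⟩ : ∃ u1 : E d, TF v0 p B u1 = 1 :=
    ⟨(TF v0 p B v1)⁻¹ • v1, by rw [tf_smul hc, inv_mul_cancel₀ hT]⟩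
  obtain ⟨C, N, hC1, hkoe⟩ := Pool.Agent.H44.DN.koe
  have hC0 : 0 < C := by linarith
  -- the radius kappa
  obtain ⟨κ, hκ0, hκδ, hκρ⟩ : ∃ κ : ℝ, 0 < κ ∧ κ ≤ δ / 4 ∧
      C * 2 ^ N * (2 * κ) * ‖u1‖ ≤ ρ1 / 4 := by
    have h1 : 0 < ρ1 / (8 * C * 2 ^ N * (‖u1‖ + 1)) := by positivity
    refine ⟨min (δ / 4) (ρ1 / (8 * C * 2 ^ N * (‖u1‖ + 1))), by positivity, min_le_left _ _, ?_⟩
    have h2 : min (δ / 4) (ρ1 / (8 * C * 2 ^ N * (‖u1‖ + 1))) ≤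
        ρ1 / (8 * C * 2 ^ N * (‖u1‖ + 1)) := min_le_right _ _
    calc C * 2 ^ N * (2 * min (δ / 4) (ρ1 / (8 * C * 2 ^ N * (‖u1‖ + 1)))) * ‖u1‖ ≤
          C * 2 ^ N * (2 * (ρ1 / (8 * C * 2 ^ N * (‖u1‖ + 1)))) * (‖u1‖ + 1) := by
          have : ‖u1‖ ≤ ‖u1‖ + 1 := by linarith
          gcongr
      _ = ρ1 / 4 := by
          have : ‖u1‖ + 1 ≠ 0 := by positivity
          field_simp
          ring
  -- the limit point
  obtain ⟨φ1, hφ1, hcon1⟩ := extraction_of_frequently_atTop h.con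
  obtain ⟨Rp, hRp⟩ := hc.pb
  obtain ⟨y, -, φ2, hφ2, hy⟩ := tendsto_subseq_of_bounded
    (s := closedBall (0 : ℂ) Rp) isBounded_closedBall (x := fun i => p (φ1 i + 1))
    (fun i => by rw [mem_closedBall, dist_zero_right]; exact hRp _)
  have hni : Tendsto (fun i => φ1 (φ2 i)) atTop atTop := (hφ1.comp hφ2).tendsto_atTop
  have hy' : Tendsto (fun i => p (φ1 (φ2 i) + 1)) atTop (𝓝 y) := hy
  obtain ⟨i0, hi0'⟩ := (hy'.eventually (ball_mem_nhds y (by positivity : 0 < κ / 2))).exists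
  have hi0 : dist (p (φ1 (φ2 i0) + 1)) y < κ / 2 := hi0'
  obtain ⟨N1, e0, t0, ht0, hsub0, hreach⟩ := lm1 h.hd h.cop h.deg hc (φ1 (φ2 i0))
    (by positivity : 0 < κ / 2) hD hDn
  obtain ⟨t, ht, htt0, htκ⟩ : ∃ t : ℝ, 0 < t ∧ t ≤ t0 ∧ t ≤ κ :=
    ⟨min t0 κ, lt_min ht0 hκ0, min_le_left _ _, min_le_right _ _⟩
  have hsub : closedBall e0 t ⊆ ball y κ := by
    intro z hz
    have h1 := hsub0 (closedBall_subset_closedBall htt0 hz)
    rw [mem_ball] at h1 ⊢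
    calc dist z y ≤ dist z (p (φ1 (φ2 i0) + 1)) + dist (p (φ1 (φ2 i0) + 1)) y :=
          dist_triangle _ _ _
      _ < κ / 2 + κ / 2 := add_lt_add h1 hi0
      _ = κ := by ring
  rw [Metric.eventually_nhds_iff] at hreach
  obtain ⟨η1, hη1, hreach⟩ := hreach
  obtain ⟨a, ha⟩ : ∃ a : ℝ, a = (1 / 2) ^ N / C := ⟨_, rfl⟩
  have ha0 : 0 < a := by rw [ha]; positivity
  obtain ⟨ε', hε'⟩ : ∃ ε' : ℝ, ε' = t * a / (64 * ρ1) := ⟨_, rfl⟩
  have hε'0 : 0 < ε' := by rw [hε']; positivity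
  have hε'ρ : ε' * ρ1 = t * a / 64 := by
    rw [hε']
    field_simp
  obtain ⟨η2, hη2, hexp2⟩ := hexp (min 1 (ε' / 4)) (by positivity)
  have hlim := lim_w hc (σ := δ / 16) (C3 := C3) (ρ1 := ρ1) hC3.le hε'0
  have hB0 : Tendsto (fun n => ρ1 * ‖B n‖) atTop (𝓝 0) := by
    have := hc.sm.tendsto_atTop_zero.const_mul ρ1
    rwa [mul_zero] at this
  refine ⟨min (1 / 4) (t * a / (64 * M * ρ1)), by positivity, ρ2, hρ2, ?_⟩
  obtain ⟨c0, hc0⟩ : ∃ c0 : ℝ, c0 = min (1 / 4) (t * a / (64 * M * ρ1)) := ⟨_, rfl⟩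
  rw [← hc0]
  have hc00 : 0 < c0 := by rw [hc0]; positivity
  have hc04 : c0 ≤ 1 / 4 := by rw [hc0]; exact min_le_left _ _
  have hc0M : M * c0 * ρ1 ≤ t * a / 64 := by
    have h1 : c0 ≤ t * a / (64 * M * ρ1) := by rw [hc0]; exact min_le_right _ _
    calc M * c0 * ρ1 ≤ M * (t * a / (64 * M * ρ1)) * ρ1 := by gcongr
      _ = t * a / 64 := by field_simp
  intro R hR
  -- choose n
  have hev1 : ∀ᶠ n in atTop, ρ1 * ‖B n‖ < min R (min η1 η2) :=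
    hB0.eventually_lt_const (by positivity)
  have hev2 : ∀ᶠ i in atTop, dist (p (φ1 (φ2 i) + 1)) y < κ :=
    hy'.eventually (ball_mem_nhds y hκ0)
  obtain ⟨i, hi1, hi2, hi3⟩ := ((hni.eventually hev1).and ((hni.eventually hlim).and hev2)).exists
  obtain ⟨n, hn⟩ : ∃ n, n = φ1 (φ2 i) := ⟨_, rfl⟩
  obtain ⟨g, hg⟩ : ∃ g, Con v0 p K δ n g := by rw [hn]; exact hcon1 _
  rw [← hn] at hi1 hi2 hi3
  obtain ⟨q, hq⟩ : ∃ q, q = p (n + 1) := ⟨_, rfl⟩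
  have hBn : 0 < ‖B n‖ := norm_pos_iff.2 (cr_ne hc n)
  have hrR : ρ1 * ‖B n‖ < R := lt_of_lt_of_le hi1 (min_le_left _ _)
  have hrη1 : ρ1 * ‖B n‖ < η1 :=
    lt_of_lt_of_le hi1 ((min_le_right _ _).trans (min_le_left _ _))
  have hrη2 : ρ1 * ‖B n‖ < η2 :=
    lt_of_lt_of_le hi1 ((min_le_right _ _).trans (min_le_right _ _))
  have hsubq : closedBall e0 t ⊆ ball q (2 * κ) := by
    intro z hz
    have h1 := hsub hz
    rw [← hq] at hi3
    rw [mem_ball] at h1 ⊢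
    calc dist z q ≤ dist z y + dist y q := dist_triangle _ _ _
      _ < κ + κ := add_lt_add h1 (by rw [dist_comm]; exact hi3)
      _ = 2 * κ := by ring
  have hsubδ : ball q (2 * κ) ⊆ ball q δ := ball_subset_ball (by linarith)
  have hgd : DifferentiableOn ℂ g (ball q δ) := by rw [hq]; exact hg.diff
  have hgi : InjOn g (ball q δ) := by
    intro z hz z' hz' hzz
    rw [hq] at hz hz'
    rw [← hg.inv z hz, ← hg.inv z' hz', hzz]
  have hderiv : deriv g q = B n := by rw [hq]; exact con_deriv hc hδ hg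
  have hcen : g q = p 1 := by rw [hq]; exact hg.cen
  have he0q : e0 ∈ ball q (2 * κ) := hsubq (mem_closedBall_self ht.le)
  have hk := hkoe g q δ hδ hgd hgi (2 * κ) (by positivity) (by linarith) e0
    (ball_subset_closedBall he0q)
  rw [hderiv, hcen] at hk
  obtain ⟨-, hk2, hk3, -⟩ := hk
  have hhalf : ((1 : ℝ) / 2) ^ N ≤ (1 - 2 * κ / δ) ^ N := by
    refine pow_le_pow_left₀ (by norm_num) ?_ N
    have : 2 * κ / δ ≤ 1 / 2 := by
      rw [div_le_iff₀ hδ]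
      linarith
    linarith
  have hde : a * ‖B n‖ ≤ ‖deriv g e0‖ := by
    have h1 : ‖B n‖ * (1 / 2) ^ N ≤ C * ‖deriv g e0‖ :=
      (mul_le_mul_of_nonneg_left hhalf hBn.le).trans hk2
    rw [ha, div_mul_eq_mul_div, div_le_iff₀ hC0]
    linarith
  have hge : ‖g e0 - p 1‖ ≤ C * 2 ^ N * (2 * κ) * ‖B n‖ := by
    have h1 : ‖g e0 - p 1‖ * (1 / 2) ^ N ≤ C * (‖B n‖ * ‖e0 - q‖) :=
      (mul_le_mul_of_nonneg_left hhalf (norm_nonneg _)).trans hk3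
    have h2 : ‖e0 - q‖ ≤ 2 * κ := by
      rw [← dist_eq_norm]
      exact (mem_ball.1 he0q).le
    have h3 : C * (‖B n‖ * ‖e0 - q‖) ≤ C * (‖B n‖ * (2 * κ)) := by gcongr
    have h4 : (2 : ℝ) ^ N * (1 / 2) ^ N = 1 := by
      rw [← mul_pow]
      norm_num
    calc ‖g e0 - p 1‖ = 2 ^ N * (‖g e0 - p 1‖ * (1 / 2) ^ N) := by
          rw [mul_left_comm, h4, mul_one]
      _ ≤ 2 ^ N * (C * (‖B n‖ * (2 * κ))) :=
          mul_le_mul_of_nonneg_left (h1.trans h3) (by positivity)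
      _ = C * 2 ^ N * (2 * κ) * ‖B n‖ := by ring
  have hballsub : ball e0 t ⊆ ball q δ :=
    ball_subset_closedBall.trans (hsubq.trans hsubδ)
  have hcov := Pool.Agent.H80.AJ.univ_cover ht (hgd.mono hballsub) (hgi.mono hballsub)
  obtain ⟨s, hs⟩ : ∃ s : ℂ, s = g e0 - p 1 := ⟨_, rfl⟩
  rw [← hs] at hge
  have hv2 : ‖(v0 + s • u1) - v0‖ ≤ ρ1 * ‖B n‖ / 4 := by
    rw [add_sub_cancel_left, norm_smul]
    calc ‖s‖ * ‖u1‖ ≤ C * 2 ^ N * (2 * κ) * ‖B n‖ * ‖u1‖ :=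
          mul_le_mul_of_nonneg_right hge (norm_nonneg _)
      _ = C * 2 ^ N * (2 * κ) * ‖u1‖ * ‖B n‖ := by ring
      _ ≤ ρ1 / 4 * ‖B n‖ := mul_le_mul_of_nonneg_right hκρ hBn.le
      _ = ρ1 * ‖B n‖ / 4 := by ring
  have hTv2 : TF v0 p B ((v0 + s • u1) - v0) = s := by
    rw [add_sub_cancel_left, tf_smul hc, hu1, mul_one]
  refine ⟨ρ1 * ‖B n‖, by positivity, hrR, v0 + s • u1, ?_, ?_⟩
  · intro v hv
    rw [mem_closedBall, dist_eq_norm] at hv ⊢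
    have h1 : ‖v - v0‖ ≤ ‖v - (v0 + s • u1)‖ + ‖(v0 + s • u1) - v0‖ := by
      have : v - v0 = (v - (v0 + s • u1)) + ((v0 + s • u1) - v0) := by abel
      rw [this]
      exact norm_add_le _ _
    have h2 : c0 * (ρ1 * ‖B n‖) ≤ 1 / 4 * (ρ1 * ‖B n‖) :=
      mul_le_mul_of_nonneg_right hc04 (by positivity)
    have h3 : 0 < ρ1 * ‖B n‖ := by positivity
    linarith
  · intro v hv z hz hwz
    rw [mem_closedBall, dist_eq_norm] at hv
    have h3 : 0 < ρ1 * ‖B n‖ := by positivity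
    have hvv : v - v0 = (v - (v0 + s • u1)) + ((v0 + s • u1) - v0) := by abel
    have hvn : ‖v - v0‖ ≤ ρ1 * ‖B n‖ := by
      have h1 : ‖v - v0‖ ≤ ‖v - (v0 + s • u1)‖ + ‖(v0 + s • u1) - v0‖ := by
        rw [hvv]
        exact norm_add_le _ _
      have h2 : c0 * (ρ1 * ‖B n‖) ≤ 1 / 4 * (ρ1 * ‖B n‖) :=
        mul_le_mul_of_nonneg_right hc04 (by positivity)
      linarith
    have hTs : ‖TF v0 p B (v - v0) - s‖ ≤ t * a / 64 * ‖B n‖ := by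
      rw [hvv, tf_add hc, hTv2, add_sub_cancel_right]
      calc ‖TF v0 p B (v - (v0 + s • u1))‖ ≤ M * ‖v - (v0 + s • u1)‖ := hM _
        _ ≤ M * (c0 * (ρ1 * ‖B n‖)) := mul_le_mul_of_nonneg_left hv hM0.le
        _ = M * c0 * ρ1 * ‖B n‖ := by ring
        _ ≤ t * a / 64 * ‖B n‖ := mul_le_mul_of_nonneg_right hc0M hBn.le
    obtain ⟨-, hez, hfz⟩ := hexp2 v (hvn.trans hrη2.le) z hz hwz
    rw [hc.orb 0] at hfz
    have hit1 : it v 1 z = ev v.1 z / ev v.2 z := rfl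
    have hfz1 : ‖it v 1 z - p 1 - xi v0 (v - v0) (p 0)‖ ≤ ε' / 4 * ‖v - v0‖ := by
      rw [hit1]
      exact hfz.trans (mul_le_mul_of_nonneg_right (min_le_right _ _) (norm_nonneg _))
    have hfz2 : ‖it v 1 z - p 1‖ ≤ (M' + 1) * ‖v - v0‖ := by
      have h1 : ‖it v 1 z - p 1 - xi v0 (v - v0) (p 0)‖ ≤ 1 * ‖v - v0‖ := by
        rw [hit1]
        exact hfz.trans (mul_le_mul_of_nonneg_right (min_le_left _ _) (norm_nonneg _))
      have h2 : it v 1 z - p 1 = (it v 1 z - p 1 - xi v0 (v - v0) (p 0)) +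
          xi v0 (v - v0) (p 0) := by ring
      rw [h2]
      refine (norm_add_le _ _).trans ?_
      have h4 := hM' (v - v0) 0
      linarith
    obtain ⟨w, hw⟩ := htrk n (con_cn hc hδ hg) v hvn z hez hfz2
    have hwn := hi2 v hvn z w hw (by rw [hw.start]; exact hfz1)
    have hwn2 : ‖w n - p 1 - TF v0 p B (v - v0)‖ ≤ t * a / 64 * ‖B n‖ := by
      calc ‖w n - p 1 - TF v0 p B (v - v0)‖ ≤ ε' * ‖v - v0‖ := hwn
        _ ≤ ε' * (ρ1 * ‖B n‖) := mul_le_mul_of_nonneg_left hvn hε'0.le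
        _ = ε' * ρ1 * ‖B n‖ := by ring
        _ = t * a / 64 * ‖B n‖ := by rw [hε'ρ]
    have hmem : w n ∈ ball (g e0) (t * ‖deriv g e0‖ / 16) := by
      rw [mem_ball, dist_eq_norm]
      have h1 : w n - g e0 = (w n - p 1 - TF v0 p B (v - v0)) + (TF v0 p B (v - v0) - s) := by
        rw [hs]
        ring
      rw [h1]
      have h2 : t * (a * ‖B n‖) ≤ t * ‖deriv g e0‖ := mul_le_mul_of_nonneg_left hde ht.le
      have h4 : 0 < t * (a * ‖B n‖) := by positivity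
      refine (norm_add_le _ _).trans_lt ?_
      have h5 : t * a / 64 * ‖B n‖ = t * (a * ‖B n‖) / 64 := by ring
      rw [h5] at hTs hwn2
      linarith
    obtain ⟨e, he, hge2⟩ := hcov hmem
    have heit : it v (n + 1) z = e := by
      rw [hw.orb n le_rfl, ← hge2]
      refine hg.inv e ?_
      rw [← hq]
      exact hballsub he
    have hR1 : Reach v (n + 1) z e := by
      rw [← heit]
      exact reach_it (fun j hj => hw.den j (by omega))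
    have hdist : dist v v0 < η1 := by
      rw [dist_eq_norm]
      exact hvn.trans_lt hrη1
    obtain ⟨w', hw'D, hw'⟩ := hreach hdist e
      (closedBall_subset_closedBall htt0 (ball_subset_closedBall he))
    exact ⟨n + 1 + N1, w', hw'D, reach_trans hR1 hw'⟩

end Pool.Agent.H79.MZ
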