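import Pool.Agent.H44.DN.KOE

/-!
# Module KGB: the kernel `g' ^ 2 / (β (g - g c))` of an injective function is nearly constant on small discs

PROOF. Let `k z = deriv g z ^ 2 / (β * (g z - g c))`, `β = deriv g c ≠ 0`. Scale: `koe` (H44/DN/KOE; constants `C, N`) on `ball c δ` with radius `3 δ / 4` (all points below are in `closedBall c (3 δ / 4)`): `a ‖β‖ ≤ ‖deriv g z‖ ≤ A ‖β‖` with `A = C 4 ^ N`, `a = 1 / A`, and
`‖β‖ ‖z - c‖ / C ≤ ‖g z - g c‖ ≤ A ‖β‖ ‖z - c‖` (last two inequalities of `koe`). So for `0 < ‖x - c‖ ≤ δ / 2`: `a ^ 2 / (A ‖x - c‖) ≤ ‖k x‖ ≤ A ^ 2 C / ‖x - c‖`. OSCILLATION: let `τ = ‖x - c‖ ≤ δ / 2`, `z ∈ ball x η`, `η ≤ τ / 4`. `k` is holomorphic on `ball x (τ / 2) ⊆ ball c δ \ {c}`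
(`g` injective: `g z ≠ g c`), bounded there by `A ^ 2 C / (τ / 2)`; by the Cauchy estimate `‖deriv k‖ ≤ (2 A ^ 2 C / τ) / (τ / 4)` on `ball x (τ / 4)`, so `‖k z - k x‖ ≤ (8 A ^ 2 C / τ ^ 2) η` and `‖k z / k x - 1‖ ≤ C1 η / τ` with `C1 = 8 A ^ 3 C / a ^ 2`.
-/

set_option autoImplicit false

open MeasureTheory Metric Set Filter Topology

namespace Pool.Agent.H79.MZ

theorem kgb_aux {A : ℝ} {g : ℂ → ℂ} {c : ℂ} {δ : ℝ} (hA : 1 ≤ A)
    (hb0 : 0 < ‖deriv g c‖)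
    (h : ∀ z ∈ closedBall c (3 * δ / 4), ‖deriv g z‖ ≤ A * ‖deriv g c‖ ∧
      ‖deriv g c‖ ≤ A * ‖deriv g z‖ ∧ ‖g z - g c‖ ≤ A * (‖deriv g c‖ * ‖z - c‖) ∧
      ‖deriv g c‖ * ‖z - c‖ ≤ A * ‖g z - g c‖) {z : ℂ} (hz : z ∈ closedBall c (3 * δ / 4))
    (hzc : z ≠ c) :
    ‖deriv g z ^ 2 / (deriv g c * (g z - g c))‖ ≤ A ^ 3 / ‖z - c‖ ∧
      1 / (A ^ 3 * ‖z - c‖) ≤ ‖deriv g z ^ 2 / (deriv g c * (g z - g c))‖ := by
  obtain ⟨h1, h2, h3, h4⟩ := h z hz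
  have hA0 : 0 < A := by linarith
  have hd : 0 < ‖z - c‖ := norm_pos_iff.2 (sub_ne_zero.2 hzc)
  have hgz : 0 < ‖g z - g c‖ := by
    have : 0 < ‖deriv g c‖ * ‖z - c‖ := mul_pos hb0 hd
    by_contra hn
    have h5 : ‖g z - g c‖ = 0 := le_antisymm (not_lt.1 hn) (norm_nonneg _)
    rw [h5, mul_zero] at h4
    linarith
  have hdz : 0 < ‖deriv g z‖ := by
    by_contra hn
    have h5 : ‖deriv g z‖ = 0 := le_antisymm (not_lt.1 hn) (norm_nonneg _)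
    rw [h5, mul_zero] at h2
    linarith
  rw [norm_div, norm_pow, norm_mul]
  generalize ‖deriv g c‖ = b at *
  generalize ‖g z - g c‖ = q at *
  generalize ‖deriv g z‖ = p at *
  generalize ‖z - c‖ = d at *
  constructor
  · rw [div_le_div_iff₀ (mul_pos hb0 hgz) hd]
    calc p ^ 2 * d ≤ (A * b) ^ 2 * d :=
          mul_le_mul_of_nonneg_right (pow_le_pow_left₀ hdz.le h1 2) hd.le
      _ = A ^ 2 * b * (b * d) := by ring
      _ ≤ A ^ 2 * b * (A * q) := mul_le_mul_of_nonneg_left h4 (by positivity)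
      _ = A ^ 3 * (b * q) := by ring
  · rw [div_le_div_iff₀ (by positivity) (mul_pos hb0 hgz)]
    calc 1 * (b * q) ≤ b * (A * (b * d)) := by
          rw [one_mul]; exact mul_le_mul_of_nonneg_left h3 hb0.le
      _ = b ^ 2 * (A * d) := by ring
      _ ≤ (A * p) ^ 2 * (A * d) :=
          mul_le_mul_of_nonneg_right (pow_le_pow_left₀ hb0.le h2 2) (by positivity)
      _ = p ^ 2 * (A ^ 3 * d) := by ring

theorem kgb : ∃ C1 : ℝ, 1 ≤ C1 ∧ ∀ (g : ℂ → ℂ) (c : ℂ) (δ : ℝ), 0 < δ →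
    DifferentiableOn ℂ g (ball c δ) → InjOn g (ball c δ) → ∀ x : ℂ, x ≠ c → ‖x - c‖ ≤ δ / 2 →
      1 / (C1 * ‖x - c‖) ≤ ‖deriv g x ^ 2 / (deriv g c * (g x - g c))‖ ∧
      ∀ η : ℝ, 0 < η → η ≤ ‖x - c‖ / 4 → ∀ z ∈ ball x η,
        ‖(deriv g z ^ 2 / (deriv g c * (g z - g c))) /
          (deriv g x ^ 2 / (deriv g c * (g x - g c))) - 1‖ ≤ C1 * η / ‖x - c‖ := by
  obtain ⟨C, N, hC, hkoe⟩ := Pool.Agent.H44.DN.koe
  obtain ⟨A, hAd⟩ : ∃ A : ℝ, A = C * 4 ^ N := ⟨_, rfl⟩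
  have h4N : (1 : ℝ) ≤ 4 ^ N := one_le_pow₀ (by norm_num)
  have hA : 1 ≤ A := by rw [hAd]; nlinarith
  have hCA : C ≤ A := by rw [hAd]; nlinarith
  have hA0 : 0 < A := by linarith
  refine ⟨4 * 2 * A ^ 6, ?_, ?_⟩
  · have : 1 ≤ A ^ 6 := one_le_pow₀ hA
    linarith
  intro g c δ hδ hg hi x hxc hxδ
  have hcb : c ∈ closedBall c (δ / 2) := mem_closedBall_self (by positivity)
  have hb0 : 0 < ‖deriv g c‖ := Pool.Agent.H80.AJ.deriv_ne hδ hg hi hcb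
  have h : ∀ z ∈ closedBall c (3 * δ / 4), ‖deriv g z‖ ≤ A * ‖deriv g c‖ ∧
      ‖deriv g c‖ ≤ A * ‖deriv g z‖ ∧ ‖g z - g c‖ ≤ A * (‖deriv g c‖ * ‖z - c‖) ∧
      ‖deriv g c‖ * ‖z - c‖ ≤ A * ‖g z - g c‖ := by
    intro z hz
    obtain ⟨h1, h2, h3, h4⟩ := hkoe g c δ hδ hg hi (3 * δ / 4) (by positivity) (by linarith) z hz
    have e : (1 - 3 * δ / 4 / δ) = 1 / 4 := by field_simp; norm_num
    rw [e] at h1 h2 h3
    have e2 : ((1 : ℝ) / 4) ^ N * 4 ^ N = 1 := by rw [← mul_pow]; norm_num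
    have key : ∀ p q : ℝ, p * (1 / 4) ^ N ≤ C * q → p ≤ A * q := by
      intro p q hpq
      calc p = p * (1 / 4) ^ N * 4 ^ N := by rw [mul_assoc, e2, mul_one]
        _ ≤ C * q * 4 ^ N := mul_le_mul_of_nonneg_right hpq (by positivity)
        _ = A * q := by rw [hAd]; ring
    exact ⟨key _ _ h1, key _ _ h2, key _ _ h3,
      h4.trans (mul_le_mul_of_nonneg_right hCA (norm_nonneg _))⟩
  obtain ⟨τ, hτ⟩ : ∃ τ : ℝ, τ = ‖x - c‖ := ⟨_, rfl⟩
  have hτ0 : 0 < τ := by rw [hτ]; exact norm_pos_iff.2 (sub_ne_zero.2 hxc)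
  rw [← hτ] at hxδ ⊢
  have hx34 : x ∈ closedBall c (3 * δ / 4) := by
    rw [mem_closedBall, dist_eq_norm, ← hτ]; linarith
  obtain ⟨hx1, hx2⟩ := kgb_aux hA hb0 h hx34 hxc
  rw [← hτ] at hx1 hx2
  have hA3 : 0 < A ^ 3 := by positivity
  refine ⟨?_, ?_⟩
  · refine le_trans ?_ hx2
    refine one_div_le_one_div_of_le (by positivity) ?_
    refine mul_le_mul_of_nonneg_right ?_ hτ0.le
    have h5 : (1 : ℝ) ≤ A ^ 3 := one_le_pow₀ hA
    calc A ^ 3 = 1 * A ^ 3 := by ring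
      _ ≤ (4 * 2 * A ^ 3) * A ^ 3 := mul_le_mul_of_nonneg_right (by linarith) hA3.le
      _ = 4 * 2 * A ^ 6 := by ring
  · intro η hη hητ z hz
    rw [mem_ball] at hz
    obtain ⟨k, hk⟩ : ∃ k : ℂ → ℂ, k = fun z => deriv g z ^ 2 / (deriv g c * (g z - g c)) :=
      ⟨_, rfl⟩
    have hkz : ∀ z, deriv g z ^ 2 / (deriv g c * (g z - g c)) = k z := fun z => by rw [hk]
    rw [hkz x] at hx1 hx2 ⊢
    rw [hkz z]
    have hball : ∀ w ∈ ball x (τ / 2), w ∈ closedBall c (3 * δ / 4) ∧ τ / 2 ≤ ‖w - c‖ ∧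
        w ≠ c := by
      intro w hw
      rw [mem_ball, dist_eq_norm] at hw
      have h5 : ‖w - c‖ ≤ ‖w - x‖ + τ := by
        rw [hτ]
        calc ‖w - c‖ = ‖(w - x) + (x - c)‖ := by rw [sub_add_sub_cancel]
          _ ≤ _ := norm_add_le _ _
      have h6 : τ ≤ ‖w - x‖ + ‖w - c‖ := by
        rw [hτ, norm_sub_rev w x]
        calc ‖x - c‖ = ‖(x - w) + (w - c)‖ := by rw [sub_add_sub_cancel]
          _ ≤ _ := norm_add_le _ _
      refine ⟨?_, by linarith, ?_⟩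
      · rw [mem_closedBall, dist_eq_norm]; linarith
      · intro hwc
        rw [hwc, sub_self, norm_zero] at h6
        rw [hwc] at hw
        linarith
    have hsub : ball x (τ / 2) ⊆ ball c δ := fun w hw =>
      closedBall_subset_ball (by linarith) (hball w hw).1
    have hc0 : deriv g c ≠ 0 := norm_pos_iff.1 hb0
    have hdk : DifferentiableOn ℂ k (ball x (τ / 2)) := by
      rw [hk]
      have hdg : DifferentiableOn ℂ (deriv g) (ball x (τ / 2)) :=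
        (hg.mono hsub).deriv isOpen_ball
      refine (hdg.pow 2).div (((hg.mono hsub).sub_const _).const_mul _) ?_
      intro w hw
      refine mul_ne_zero hc0 (sub_ne_zero.2 fun hgw => (hball w hw).2.2 ?_)
      exact hi (hsub hw) (mem_ball_self hδ) hgw
    have hkb : ∀ w ∈ ball x (τ / 2), ‖k w‖ ≤ 2 * A ^ 3 / τ := by
      intro w hw
      obtain ⟨h5, h6, h7⟩ := hball w hw
      rw [← hkz w]
      refine (kgb_aux hA hb0 h h5 h7).1.trans ?_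
      rw [div_le_div_iff₀ (by linarith) hτ0]
      nlinarith
    have hmaps : MapsTo k (ball x (τ / 2)) (closedBall (k x) (4 * A ^ 3 / τ)) := by
      intro w hw
      rw [mem_closedBall, dist_eq_norm]
      refine (norm_sub_le _ _).trans ?_
      have h5 := hkb w hw
      have h6 := hkb x (mem_ball_self (by positivity))
      have h7 : 4 * A ^ 3 / τ = 2 * A ^ 3 / τ + 2 * A ^ 3 / τ := by ring
      rw [h7]
      exact add_le_add h5 h6
    have hz2 : z ∈ ball x (τ / 2) := by rw [mem_ball]; linarith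
    have hsch := Complex.dist_le_div_mul_dist_of_mapsTo_ball hdk hmaps hz2
    rw [dist_eq_norm] at hsch
    have hkx0 : 0 < ‖k x‖ := lt_of_lt_of_le (by positivity) hx2
    have hkx : k x ≠ 0 := norm_pos_iff.1 hkx0
    have e1 : k z / k x - 1 = (k z - k x) / k x := by rw [sub_div, div_self hkx]
    rw [e1, norm_div, div_le_iff₀ hkx0]
    calc ‖k z - k x‖ ≤ 4 * A ^ 3 / τ / (τ / 2) * dist z x := hsch
      _ ≤ 4 * A ^ 3 / τ / (τ / 2) * η := mul_le_mul_of_nonneg_left hz.le (by positivity)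
      _ = 4 * 2 * A ^ 6 * η / τ * (1 / (A ^ 3 * τ)) := by field_simp
      _ ≤ 4 * 2 * A ^ 6 * η / τ * ‖k x‖ := mul_le_mul_of_nonneg_left hx2 (by positivity)

end Pool.Agent.H79.MZ
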