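import Pool.Agent.H79.MZ.MDefs

/-!
# THEOREM G+ (Collet-Eckmann critical values): definitions

`Br`: an inverse branch of the `n`-th iterate whose image lies beside the critical value `p 1`, at a distance comparable with its size.
`GoodB`: for the times `n` in the infinite set `T` such branches exist on all discs which avoid at most `M` points.
-/

set_option autoImplicit false

open Filter Topology Polynomial Metric Set

namespace Pool.Agent.H79.MZ

open Pool.Agent.H44.Fatou Pool.Agent.H32.BT Pool.Agent.H79.Eul Pool.Agent.H79.Par Pool.Agent.H61.TT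

/-- the map in the plane -/
noncomputable def fm {d : ℕ} (v0 : E d) (z : ℂ) : ℂ := ev v0.1 z / ev v0.2 z

/-- its derivative -/
noncomputable def fd {d : ℕ} (v0 : E d) (z : ℂ) : ℂ := wv v0 z / ev v0.2 z ^ 2

/-- an inverse branch `g` of the `n`-th iterate on the ball of radius `η` about `x`, beside the critical value `p 1` -/
structure Br {d : ℕ} (v0 : E d) (p : ℕ → ℂ) (K : Set ℂ) (η A : ℝ) (n : ℕ) (x : ℂ) (g : ℂ → ℂ) :
    Prop where
  diff : DifferentiableOn ℂ g (ball x η)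
  stay : ∀ z ∈ ball x η, ∀ j ≤ n, it v0 j (g z) ∈ K
  inv : ∀ z ∈ ball x η, it v0 n (g z) = z
  near : ‖g x - p 1‖ ≤ A * ‖deriv g x‖
  far : ‖deriv g x‖ ≤ A * ‖g x - p 1‖
  der : ∀ j ≤ n, ‖trD v0 j (p 1)‖ ≤ A * ‖trD v0 j (g x)‖

/-- the standing assumptions in a chart, with branches beside the critical value -/
structure GoodB {d : ℕ} (v0 : E d) (p B : ℕ → ℂ) (K : Set ℂ) (δ : ℝ) (M : ℕ) (T : Set ℕ) : Prop where
  hd : 2 ≤ d
  cop : IsCoprime (pol v0.1) (pol v0.2)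
  deg : max (pol v0.1).natDegree (pol v0.2).natDegree = d
  cr : Cr v0 p B
  cpt : IsCompact K
  den : ∀ z ∈ K, ev v0.2 z ≠ 0
  hδ : 0 < δ
  reg : ∀ k, (fib (pol v0.1) (pol v0.2) (p (k + 1))).natDegree = d
  inf : T.Infinite
  br : ∀ η : ℝ, 0 < η → η ≤ δ → ∃ A : ℝ, 1 ≤ A ∧ ∀ n ∈ T, ∃ S : Finset ℂ, S.card ≤ M ∧
    ∀ x ∈ ball (p (n + 1)) δ, (∀ ζ ∈ S, η ≤ ‖x - ζ‖) → ∃ g, Br v0 p K (η / 2) A n x g

end Pool.Agent.H79.MZ
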