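import Pool.Agent.H79.MZ.BP1
import Pool.Agent.H79.MZ.BP2
import Pool.Agent.H79.MZ.HOL

/-!
# Module BHO: holes of the bad set (branches beside the critical value)

PROOF. As HOL (H79/MZ/HOL). `u1 = (TF v1)⁻¹ • v1`, `TF v0 p B u1 = 1`; `M1` from `tf_bd`; `ρ2` from `exp_c` at `p 0`. `n i ∈ T` strictly increasing, `p (n i + 1) → y` (bounded). Choose `m` of the form `n i` with `p (m + 1) ∈ ball y (δ / 8)`; `lm1` with this `m`, `r = δ / 8`: `N1, e0, t0`, `closedBall e0 t0 ⊆ ball y (δ / 4)`; we may assume `t0 ≤ δ`.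
Choose `M + 1` points `x l` in `ball e0 (t0 / 2)` and `0 < η ≤ t0 / 2`, `η ≤ δ`, with `2 η ≤ ‖x l - x l'‖` for `l ≠ l'` (for example on a segment). `h.br η`: `A`. For `n = n i` large, `‖p (n + 1) - y‖ < δ / 4`, all `x l ∈ ball (p (n + 1)) δ`, and one of them, `x`, has `η ≤ ‖x - ζ‖` for all `ζ ∈ S` (pigeonhole): `g`, `Br v0 p K (η / 2) A n x g`.
Put `β = ‖deriv g x‖` (`→ 0` with `n`, `br_small`), `s = g x - p 1`, `‖s‖ ≤ A β`, `v2 = v0 + s • u1`, `ρ = 2 A ‖u1‖ + 1`, `r = ρ β`: `‖v2 - v0‖ ≤ A ‖u1‖ β ≤ r / 2`. `c0 > 0` with `c0 ≤ 1 / 2`, `M1 c0 ρ ≤ η' / 8` where `η' = (η / 2) / 128` . Let `v ∈ closedBall v2 (c0 r)`, `z ∈ ball (p 0) ρ2`, `wv v z = 0`. `‖v - v0‖ ≤ r = ρ β`, `TF (v - v0) = s + TF (v - v2)`,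
so `‖TF (v - v0) - s‖ ≤ M1 c0 ρ β ≤ η' β / 8`. CHOICE OF J: `bp2` (for `η / 2`, `A`, `ρ`, `ε = η' / 2`): `J0`; `tf_tail` with `ε ρ ≤ η' / 8`; `J ≥ J0` with the tail estimate for `J + 1`. `bp1` for this `J` with `ε ρ ≤ η' / 8`: `η1, ε1`; `exp_c` with `ε = ε1`. For `n` large (`r` small) all smallness conditions on `‖v - v0‖` hold. `bp1` gives `w` with `it v (J+1) z = it v0 J w`,
`‖w - p 1 - TF (v - v0)‖ ≤ η' β / 4`, so `‖w - g x‖ ≤ η' β / 2 ≤ (η / 2) β / 128`. `bp2`: `w'`, `it v (n + 1) z = it v0 n w'`, `‖w' - g x‖ ≤ η' β`, `= (η/2) β / 128 < (η / 2) β / 16`: so `w' = g e` with `e ∈ ball x (η / 2) ⊆ closedBall e0 t0` (`br_ball`), `it v (n + 1) z = e` (`Br.inv`). Denominators from `bp1`, `bp2`: `Reach v (n + 1) z e` (`reach_it`), `lm1`: `Reach v N1 e w''`, `w'' ∈ D`;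
`reach_trans`.
-/

set_option autoImplicit false

open Filter Topology Polynomial Metric Set

namespace Pool.Agent.H79.MZ

open Pool.Agent.H44.Fatou Pool.Agent.H32.BT Pool.Agent.H79.Eul Pool.Agent.H79.Par Pool.Agent.H61.TT

private theorem bho_pts (e0 : ℂ) {t : ℝ} (ht : 0 < t) (M : ℕ) :
    ∃ X : Fin (M + 1) → ℂ, (∀ l, ‖X l - e0‖ < t / 2) ∧
      ∀ l l', l ≠ l' → 2 * (t / (4 * ((M : ℝ) + 1))) ≤ ‖X l - X l'‖ := by
  have hM : (0 : ℝ) < (M : ℝ) + 1 := by positivity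
  refine ⟨fun l => e0 + ((t / 2 * ((l : ℕ) / ((M : ℝ) + 1)) : ℝ) : ℂ), fun l => ?_,
    fun l l' hl => ?_⟩
  · rw [add_sub_cancel_left, Complex.norm_real, Real.norm_eq_abs, abs_of_nonneg (by positivity)]
    have h1 : ((l : ℕ) : ℝ) < (M : ℝ) + 1 := by
      have := l.2
      exact_mod_cast this
    have h2 : ((l : ℕ) : ℝ) / ((M : ℝ) + 1) < 1 := by
      rw [div_lt_one hM]
      exact h1
    calc t / 2 * (((l : ℕ) : ℝ) / ((M : ℝ) + 1)) < t / 2 * 1 :=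
          mul_lt_mul_of_pos_left h2 (by positivity)
      _ = t / 2 := mul_one _
  · have h1 : e0 + ((t / 2 * ((l : ℕ) / ((M : ℝ) + 1)) : ℝ) : ℂ) -
        (e0 + ((t / 2 * ((l' : ℕ) / ((M : ℝ) + 1)) : ℝ) : ℂ)) =
        ((t / 2 * ((((l : ℕ) : ℝ) - ((l' : ℕ) : ℝ)) / ((M : ℝ) + 1)) : ℝ) : ℂ) := by
      push_cast
      ring
    rw [h1, Complex.norm_real, Real.norm_eq_abs, abs_mul,
      abs_div (((l : ℕ) : ℝ) - ((l' : ℕ) : ℝ)) ((M : ℝ) + 1), abs_of_pos hM,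
      abs_of_pos (by positivity : 0 < t / 2)]
    have h2 : (1 : ℝ) ≤ |((l : ℕ) : ℝ) - ((l' : ℕ) : ℝ)| := by
      have h3 : ((l : ℕ) : ℤ) - ((l' : ℕ) : ℤ) ≠ 0 := by
        intro h
        apply hl
        apply Fin.ext
        omega
      have h4 := Int.one_le_abs h3
      exact_mod_cast h4
    calc 2 * (t / (4 * ((M : ℝ) + 1))) = t / 2 * (1 / ((M : ℝ) + 1)) := by
          field_simp
          norm_num
      _ ≤ t / 2 * (|((l : ℕ) : ℝ) - ((l' : ℕ) : ℝ)| / ((M : ℝ) + 1)) := by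
          gcongr

private theorem bho_pig {M : ℕ} {X : Fin (M + 1) → ℂ} {η : ℝ}
    (hX : ∀ l l', l ≠ l' → 2 * η ≤ ‖X l - X l'‖) (S : Finset ℂ) (hS : S.card ≤ M) :
    ∃ l, ∀ ζ ∈ S, η ≤ ‖X l - ζ‖ := by
  by_contra hcon
  push Not at hcon
  choose f hf hf2 using hcon
  obtain ⟨l, -, l', -, hne, heq⟩ := Finset.exists_ne_map_eq_of_card_lt_of_maps_to
    (s := (Finset.univ : Finset (Fin (M + 1)))) (t := S) (f := f)
    (by rw [Finset.card_univ, Fintype.card_fin]; omega) (fun l _ => hf l)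
  have h1 := hX l l' hne
  have h2 := hf2 l
  have h3 := hf2 l'
  rw [← heq] at h3
  have h4 : X l - X l' = (X l - f l) - (X l' - f l) := by ring
  rw [h4] at h1
  have h5 := norm_sub_le (X l - f l) (X l' - f l)
  linarith

theorem hole_b {d : ℕ} {v0 : E d} {p B : ℕ → ℂ} {K : Set ℂ} {δ : ℝ} {M : ℕ} {T : Set ℕ}
    (h : GoodB v0 p B K δ M T) {v1 : E d} (hT : TF v0 p B v1 ≠ 0) {D : Set ℂ} (hD : IsOpen D)
    (hDn : D.Nonempty) :
    ∃ c0 : ℝ, 0 < c0 ∧ ∃ ρ2 : ℝ, 0 < ρ2 ∧ ∀ R : ℝ, 0 < R → ∃ r : ℝ, 0 < r ∧ r < R ∧ ∃ v2 : E d,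
      closedBall v2 (c0 * r) ⊆ closedBall v0 r ∧ ∀ v ∈ closedBall v2 (c0 * r),
        ∀ z ∈ ball (p 0) ρ2, wv v z = 0 → ∃ (n : ℕ), ∃ w ∈ D, Reach v n z w := by
  have hc := h.cr
  have hδ := h.hδ
  obtain ⟨δ', hδ'0, hδ'⟩ := hc.bb
  have hev0 : ev v0.2 (p 0) ≠ 0 := by
    intro h0
    have := hδ' 0
    rw [h0, norm_zero] at this
    linarith
  obtain ⟨ρ2, hρ2, hexp⟩ := exp_c h.hd h.cop h.deg hev0 hc.crit
  obtain ⟨M1, hM10, hM1⟩ := tf_bd hc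
  obtain ⟨u1, hu1⟩ : ∃ u1 : E d, TF v0 p B u1 = 1 :=
    ⟨(TF v0 p B v1)⁻¹ • v1, by rw [tf_smul hc, inv_mul_cancel₀ hT]⟩
  -- the limit point
  have hfr : ∃ᶠ n in atTop, n ∈ T := Nat.frequently_atTop_iff_infinite.2 h.inf
  obtain ⟨φ1, hφ1, hT1⟩ := extraction_of_frequently_atTop hfr
  obtain ⟨Rp, hRp⟩ := hc.pb
  obtain ⟨y, -, φ2, hφ2, hy⟩ := tendsto_subseq_of_bounded
    (s := closedBall (0 : ℂ) Rp) isBounded_closedBall (x := fun i => p (φ1 i + 1))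
    (fun i => by rw [mem_closedBall, dist_zero_right]; exact hRp _)
  have hni : Tendsto (fun i => φ1 (φ2 i)) atTop atTop := (hφ1.comp hφ2).tendsto_atTop
  have hy' : Tendsto (fun i => p (φ1 (φ2 i) + 1)) atTop (𝓝 y) := hy
  obtain ⟨i0, hi0'⟩ := (hy'.eventually (ball_mem_nhds y (by positivity : 0 < δ / 8))).exists
  have hi0 : dist (p (φ1 (φ2 i0) + 1)) y < δ / 8 := hi0'
  obtain ⟨N1, e0, t0, ht0, hsub0, hreach⟩ := lm1 h.hd h.cop h.deg hc (φ1 (φ2 i0))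
    (by positivity : 0 < δ / 8) hD hDn
  obtain ⟨t, ht, htt0, htδ⟩ : ∃ t : ℝ, 0 < t ∧ t ≤ t0 ∧ t ≤ δ :=
    ⟨min t0 δ, lt_min ht0 hδ, min_le_left _ _, min_le_right _ _⟩
  have hsub : closedBall e0 t ⊆ ball y (δ / 4) := by
    intro z hz
    have h1 := hsub0 (closedBall_subset_closedBall htt0 hz)
    rw [mem_ball] at h1 ⊢
    calc dist z y ≤ dist z (p (φ1 (φ2 i0) + 1)) + dist (p (φ1 (φ2 i0) + 1)) y :=
          dist_triangle _ _ _
      _ < δ / 8 + δ / 8 := add_lt_add h1 hi0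
      _ = δ / 4 := by ring
  rw [Metric.eventually_nhds_iff] at hreach
  obtain ⟨η3, hη3, hreach⟩ := hreach
  -- the points
  obtain ⟨X, hX1, hX2⟩ := bho_pts e0 ht M
  obtain ⟨η, hη⟩ : ∃ η : ℝ, η = t / (4 * ((M : ℝ) + 1)) := ⟨_, rfl⟩
  rw [← hη] at hX2
  have hη0 : 0 < η := by rw [hη]; positivity
  have hηt : η ≤ t / 4 := by
    rw [hη]
    have hM : (1 : ℝ) ≤ (M : ℝ) + 1 := by
      have : (0 : ℝ) ≤ M := Nat.cast_nonneg M
      linarith
    exact div_le_div_of_nonneg_left ht.le (by norm_num) (by linarith)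
  obtain ⟨A, hA1, hA⟩ := h.br η hη0 (by linarith)
  have hA0 : 0 < A := by linarith
  obtain ⟨ρ, hρ⟩ : ∃ ρ : ℝ, ρ = 2 * A * ‖u1‖ + 1 := ⟨_, rfl⟩
  have hρ0 : 0 < ρ := by rw [hρ]; positivity
  obtain ⟨η', hη'⟩ : ∃ η' : ℝ, η' = η / 2 / 128 := ⟨_, rfl⟩
  have hη'0 : 0 < η' := by rw [hη']; positivity
  obtain ⟨J0, hbp2⟩ := bp2 hc h.cpt h.den (η := η / 2) (A := A) (ρ := ρ) (ε := η' / 2)
    (by positivity) hA1 hρ0 (by positivity)
  obtain ⟨ε2, hε2⟩ : ∃ ε2 : ℝ, ε2 = η' / (8 * ρ) := ⟨_, rfl⟩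
  have hε20 : 0 < ε2 := by rw [hε2]; positivity
  have hε2ρ : ε2 * ρ = η' / 8 := by
    rw [hε2]
    field_simp
  obtain ⟨J1, htail⟩ := tf_tail hc hε20
  obtain ⟨J, hJ⟩ : ∃ J, J = max J0 J1 := ⟨_, rfl⟩
  obtain ⟨η1a, hη1a, hbp2'⟩ := hbp2 J (by rw [hJ]; exact le_max_left _ _)
  obtain ⟨η1b, ε1, hη1b, hε1, hbp1⟩ := bp1 hc J hε20
  obtain ⟨η2, hη2, hexp2⟩ := hexp ε1 hε1
  have hB0 : Tendsto (fun n => ρ * (A * ‖B n‖)) atTop (𝓝 0) := by
    have := (hc.sm.tendsto_atTop_zero.const_mul A).const_mul ρ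
    rwa [mul_zero, mul_zero] at this
  obtain ⟨c0, hc0⟩ : ∃ c0 : ℝ, c0 = min (1 / 2) (η' / (8 * M1 * ρ)) := ⟨_, rfl⟩
  have hc00 : 0 < c0 := by rw [hc0]; positivity
  have hc02 : c0 ≤ 1 / 2 := by rw [hc0]; exact min_le_left _ _
  have hc0M : M1 * c0 * ρ ≤ η' / 8 := by
    have h1 : c0 ≤ η' / (8 * M1 * ρ) := by rw [hc0]; exact min_le_right _ _
    calc M1 * c0 * ρ ≤ M1 * (η' / (8 * M1 * ρ)) * ρ := by gcongr
      _ = η' / 8 := by field_simp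
  refine ⟨c0, hc00, ρ2, hρ2, ?_⟩
  intro R hR
  have hev1 : ∀ᶠ n in atTop, ρ * (A * ‖B n‖) < min R (min (min η1a η1b) (min η2 η3)) :=
    hB0.eventually_lt_const (by positivity)
  have hev2 : ∀ᶠ i in atTop, dist (p (φ1 (φ2 i) + 1)) y < δ / 4 :=
    hy'.eventually (ball_mem_nhds y (by positivity))
  obtain ⟨i, hi1, hi2, hi3⟩ :=
    ((hni.eventually hev1).and ((hni.eventually (eventually_ge_atTop J)).and hev2)).exists
  obtain ⟨n, hn⟩ : ∃ n, n = φ1 (φ2 i) := ⟨_, rfl⟩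
  have hnT : n ∈ T := by rw [hn]; exact hT1 _
  rw [← hn] at hi1 hi2 hi3
  obtain ⟨S, hS, hSx⟩ := hA n hnT
  obtain ⟨l, hl⟩ := bho_pig hX2 S hS
  obtain ⟨x, hx⟩ : ∃ x, x = X l := ⟨_, rfl⟩
  rw [← hx] at hl
  have hxe : ‖x - e0‖ < t / 2 := by rw [hx]; exact hX1 l
  have hxδ : x ∈ ball (p (n + 1)) δ := by
    have h1 : x ∈ closedBall e0 t := by
      rw [mem_closedBall, dist_eq_norm]
      linarith
    have h2 := hsub h1
    rw [mem_ball] at h2 ⊢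
    calc dist x (p (n + 1)) ≤ dist x y + dist y (p (n + 1)) := dist_triangle _ _ _
      _ < δ / 4 + δ / 4 := add_lt_add h2 (by rw [dist_comm]; exact hi3)
      _ ≤ δ := by linarith
  obtain ⟨g, hg⟩ := hSx x hxδ hl
  obtain ⟨β, hβ⟩ : ∃ β : ℝ, β = ‖deriv g x‖ := ⟨_, rfl⟩
  obtain ⟨hβ0', hβB'⟩ := br_small hc h.den (by positivity : 0 < η / 2) hg
  have hβ0 : 0 < β := by rw [hβ]; exact hβ0'
  have hβB : β ≤ A * ‖B n‖ := by rw [hβ]; exact hβB'
  have hr : ρ * β < min R (min (min η1a η1b) (min η2 η3)) :=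
    (mul_le_mul_of_nonneg_left hβB hρ0.le).trans_lt hi1
  have hrR : ρ * β < R := lt_of_lt_of_le hr (min_le_left _ _)
  have hr' : ρ * β < min (min η1a η1b) (min η2 η3) := lt_of_lt_of_le hr (min_le_right _ _)
  have hr1a : ρ * β < η1a := lt_of_lt_of_le hr' ((min_le_left _ _).trans (min_le_left _ _))
  have hr1b : ρ * β < η1b := lt_of_lt_of_le hr' ((min_le_left _ _).trans (min_le_right _ _))
  have hr2 : ρ * β < η2 := lt_of_lt_of_le hr' ((min_le_right _ _).trans (min_le_left _ _))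
  have hr3 : ρ * β < η3 := lt_of_lt_of_le hr' ((min_le_right _ _).trans (min_le_right _ _))
  obtain ⟨s, hs⟩ : ∃ s : ℂ, s = g x - p 1 := ⟨_, rfl⟩
  have hsn : ‖s‖ ≤ A * β := by rw [hs, hβ]; exact hg.near
  have hv2 : ‖(v0 + s • u1) - v0‖ ≤ ρ * β / 2 := by
    rw [add_sub_cancel_left, norm_smul]
    have h1 : ‖s‖ * ‖u1‖ ≤ A * β * ‖u1‖ := mul_le_mul_of_nonneg_right hsn (norm_nonneg _)
    have h2 : ρ * β / 2 = A * β * ‖u1‖ + β / 2 := by rw [hρ]; ring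
    rw [h2]
    linarith
  have hTv2 : TF v0 p B ((v0 + s • u1) - v0) = s := by
    rw [add_sub_cancel_left, tf_smul hc, hu1, mul_one]
  refine ⟨ρ * β, by positivity, hrR, v0 + s • u1, ?_, ?_⟩
  · intro v hv
    rw [mem_closedBall, dist_eq_norm] at hv ⊢
    have h1 : ‖v - v0‖ ≤ ‖v - (v0 + s • u1)‖ + ‖(v0 + s • u1) - v0‖ := by
      have : v - v0 = (v - (v0 + s • u1)) + ((v0 + s • u1) - v0) := by abel
      rw [this]
      exact norm_add_le _ _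
    have h2 : c0 * (ρ * β) ≤ 1 / 2 * (ρ * β) :=
      mul_le_mul_of_nonneg_right hc02 (by positivity)
    linarith
  · intro v hv z hz hwz
    rw [mem_closedBall, dist_eq_norm] at hv
    have hvv : v - v0 = (v - (v0 + s • u1)) + ((v0 + s • u1) - v0) := by abel
    have hvn : ‖v - v0‖ ≤ ρ * β := by
      have h1 : ‖v - v0‖ ≤ ‖v - (v0 + s • u1)‖ + ‖(v0 + s • u1) - v0‖ := by
        rw [hvv]
        exact norm_add_le _ _
      have h2 : c0 * (ρ * β) ≤ 1 / 2 * (ρ * β) :=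
        mul_le_mul_of_nonneg_right hc02 (by positivity)
      linarith
    have hTs : ‖TF v0 p B (v - v0) - s‖ ≤ η' / 8 * β := by
      rw [hvv, tf_add hc, hTv2, add_sub_cancel_right]
      calc ‖TF v0 p B (v - (v0 + s • u1))‖ ≤ M1 * ‖v - (v0 + s • u1)‖ := hM1 _
        _ ≤ M1 * (c0 * (ρ * β)) := mul_le_mul_of_nonneg_left hv hM10.le
        _ = M1 * c0 * ρ * β := by ring
        _ ≤ η' / 8 * β := mul_le_mul_of_nonneg_right hc0M hβ0.le
    obtain ⟨-, hez, hfz⟩ := hexp2 v (hvn.trans hr2.le) z hz hwz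
    rw [hc.orb 0] at hfz
    have hit1 : it v 1 z = ev v.1 z / ev v.2 z := rfl
    rw [← hit1] at hfz
    obtain ⟨w, hw1, hw2, hw3⟩ := hbp1 v (hvn.trans hr1b.le) z hez hfz
    have hw3' : ‖w - p 1 - ∑ k ∈ Finset.range (J + 1), B k * xi v0 (v - v0) (p k)‖ ≤
        η' / 8 * β := by
      refine hw3.trans ?_
      calc ε2 * ‖v - v0‖ ≤ ε2 * (ρ * β) := mul_le_mul_of_nonneg_left hvn hε20.le
        _ = ε2 * ρ * β := by ring
        _ = η' / 8 * β := by rw [hε2ρ]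
    have htl : ‖TF v0 p B (v - v0) - ∑ k ∈ Finset.range (J + 1), B k * xi v0 (v - v0) (p k)‖ ≤
        η' / 8 * β := by
      refine (htail (J + 1) (by rw [hJ]; exact (le_max_right _ _).trans (Nat.le_succ _))
        (v - v0)).trans ?_
      calc ε2 * ‖v - v0‖ ≤ ε2 * (ρ * β) := mul_le_mul_of_nonneg_left hvn hε20.le
        _ = ε2 * ρ * β := by ring
        _ = η' / 8 * β := by rw [hε2ρ]
    have hwg : ‖w - g x‖ ≤ 3 / 8 * (η' * β) := by
      obtain ⟨S0, hS0⟩ : ∃ S0, S0 = ∑ k ∈ Finset.range (J + 1), B k * xi v0 (v - v0) (p k) :=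
        ⟨_, rfl⟩
      rw [← hS0] at hw3' htl
      have h1 : w - g x = (w - p 1 - S0) - (TF v0 p B (v - v0) - S0) +
          (TF v0 p B (v - v0) - s) := by
        rw [hs]
        ring
      rw [h1]
      have h2 := norm_add_le ((w - p 1 - S0) - (TF v0 p B (v - v0) - S0))
        (TF v0 p B (v - v0) - s)
      have h3 := norm_sub_le (w - p 1 - S0) (TF v0 p B (v - v0) - S0)
      linarith
    have hηβ : 0 < η' * β := by positivity
    have hwg2 : ‖w - g x‖ ≤ η / 2 * ‖deriv g x‖ / 128 := by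
      rw [← hβ]
      have h1 : η / 2 * β / 128 = η' * β := by rw [hη']; ring
      rw [h1]
      linarith
    obtain ⟨w', hw'1, hw'2, hw'3⟩ := hbp2' n hi2 x g hg v (by rw [← hβ]; exact hvn)
      (hvn.trans hr1a.le) z w hw1 hwg2
    rw [← hβ] at hw'2
    have hmem : w' ∈ ball (g x) (η / 2 * ‖deriv g x‖ / 16) := by
      rw [mem_ball, dist_eq_norm, ← hβ]
      have h1 : w' - g x = (w' - w) + (w - g x) := by ring
      rw [h1]
      refine (norm_add_le _ _).trans_lt ?_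
      have h2 : η / 2 * β / 16 = 8 * (η' * β) := by rw [hη']; ring
      rw [h2]
      have h3 : η' / 2 * β = 1 / 2 * (η' * β) := by ring
      rw [h3] at hw'2
      linarith
    obtain ⟨e, he, hge⟩ := br_ball (by positivity : 0 < η / 2) hg (by positivity : 0 < η / 2)
      le_rfl hmem
    have heit : it v (n + 1) z = e := by
      rw [hw'1, ← hge]
      exact hg.inv e he
    have hR1 : Reach v (n + 1) z e := by
      rw [← heit]
      refine reach_it (fun j hj => ?_)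
      rcases Nat.lt_or_ge J j with h1 | h1
      · exact hw'3 j h1 (by omega)
      · exact hw2 j h1
    have hdist : dist v v0 < η3 := by
      rw [dist_eq_norm]
      exact hvn.trans_lt hr3
    have he0 : e ∈ closedBall e0 t := by
      rw [mem_ball, dist_eq_norm] at he
      rw [mem_closedBall, dist_eq_norm]
      have h1 : e - e0 = (e - x) + (x - e0) := by ring
      rw [h1]
      refine (norm_add_le _ _).trans ?_
      linarith
    obtain ⟨w'', hw''D, hw''⟩ := hreach hdist e (closedBall_subset_closedBall htt0 he0)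
    exact ⟨n + 1 + N1, w'', hw''D, reach_trans hR1 hw''⟩

end Pool.Agent.H79.MZ
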