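import Pool.Agent.H79.MZ.BNE
import Pool.Agent.H44.DN.KOE

/-!
# Module BLS: solving `g^j (w') = g^j (w) + Δ` beside the critical value

PROOF. As LSV (H79/MZ/LSV). Let `y = g x`, `β = ‖deriv g x‖`, `r0 = η β / 16`: `ball y r0 ⊆ g '' ball x η` (`br_ball`), so `φ = it v0 j` is injective and holomorphic on `ball y r0` (`br_it_inj`, `br_it_diff`). `koe` (H44/DN/KOE; constants `C, N`) on `ball y r0`, radius `r0 / 2`: `‖deriv φ w‖ ≥ a ‖trD v0 j y‖`,
`a = (1/2)^N / C`, for `‖w - y‖ ≤ r0 / 2`. `univ_cover` on `ball w (r0 / 4)`: `ball (φ w) ((r0 / 4) a ‖trD v0 j y‖ / 16) ⊆ φ '' ball w (r0 / 4)`: `c1 = a / 1024`. The last inequality of `koe` on `ball w (r0 / 2)`, radius `r0 / 4`: `‖deriv φ w‖ ‖w' - w‖ ≤ C ‖Δ‖`, so `‖w' - w‖ ≤ (C / a) ‖Δ‖ / ‖trD v0 j y‖`. `C2 = C / a`.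
-/

set_option autoImplicit false

open Filter Topology Polynomial Metric Set

namespace Pool.Agent.H79.MZ

open Pool.Agent.H44.Fatou Pool.Agent.H32.BT Pool.Agent.H79.Eul Pool.Agent.H79.Par Pool.Agent.H61.TT

theorem bls : ∃ c1 C2 : ℝ, 0 < c1 ∧ 1 ≤ C2 ∧ ∀ {d : ℕ} {v0 : E d} {p B : ℕ → ℂ}, Cr v0 p B →
    ∀ {K : Set ℂ}, (∀ z ∈ K, ev v0.2 z ≠ 0) → ∀ {η A : ℝ}, 0 < η → ∀ {n : ℕ} {x : ℂ} {g : ℂ → ℂ},
      Br v0 p K η A n x g → ∀ j ≤ n, ∀ w Δ : ℂ, ‖w - g x‖ ≤ η * ‖deriv g x‖ / 64 →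
        ‖Δ‖ < c1 * η * ‖deriv g x‖ * ‖trD v0 j (g x)‖ →
          ∃ w' : ℂ, it v0 j w' = it v0 j w + Δ ∧ ‖w' - w‖ ≤ C2 * ‖Δ‖ / ‖trD v0 j (g x)‖ := by
  obtain ⟨C, N, hC, hkoe⟩ := Pool.Agent.H44.DN.koe
  have hC0 : 0 < C := lt_of_lt_of_le one_pos hC
  set a : ℝ := (1 / 2 : ℝ) ^ N / C with ha
  have ha0 : 0 < a := by positivity
  have ha1 : a ≤ 1 := by
    rw [ha, div_le_one hC0]
    exact (pow_le_one₀ (by norm_num) (by norm_num)).trans hC
  refine ⟨a / 1024, C / a, by positivity, ?_, ?_⟩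
  · rw [one_le_div ha0]
    exact ha1.trans hC
  intro d v0 p B hc K hK η A hη n x g hb j hj w Δ hw hΔ
  obtain ⟨hβ, -⟩ := br_small hc hK hη hb
  have hτ : 0 < ‖trD v0 j (g x)‖ := by
    rw [norm_pos_iff]
    intro h
    have h1 := br_growth hc hb hj
    rw [h, norm_zero, mul_zero] at h1
    linarith
  set R : ℝ := η * ‖deriv g x‖ / 16 with hR
  have hR0 : 0 < R := by positivity
  have hball : ball (g x) R ⊆ g '' ball x η := br_ball hη hb hη le_rfl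
  have hinj : InjOn (it v0 j) (ball (g x) R) := (br_it_inj hb hj).mono hball
  have hdiff : DifferentiableOn ℂ (it v0 j) (ball (g x) R) := fun z hz =>
    (br_it_diff hK hb hj (hball hz)).differentiableAt.differentiableWithinAt
  have hd1 : deriv (it v0 j) (g x) = trD v0 j (g x) :=
    (br_it_diff hK hb hj (hball (mem_ball_self hR0))).deriv
  have hw4 : ‖w - g x‖ ≤ R / 4 := by
    refine hw.trans (le_of_eq ?_)
    rw [hR]
    ring
  -- the derivative at `w`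
  have hw1 : a * ‖trD v0 j (g x)‖ ≤ ‖deriv (it v0 j) w‖ := by
    have h1 := (hkoe (it v0 j) (g x) R hR0 hdiff hinj (R / 2) (by positivity) (by linarith) w
      (by rw [mem_closedBall, dist_eq_norm]; linarith)).2.1
    have h2 : 1 - R / 2 / R = (1 / 2 : ℝ) := by
      field_simp
      norm_num
    rw [h2, hd1] at h1
    rw [ha, div_mul_eq_mul_div, div_le_iff₀ hC0]
    linarith
  have hsub : ball w (R / 2) ⊆ ball (g x) R := by
    intro z hz
    rw [mem_ball, dist_eq_norm] at hz ⊢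
    calc ‖z - g x‖ = ‖(z - w) + (w - g x)‖ := by rw [sub_add_sub_cancel]
      _ ≤ ‖z - w‖ + ‖w - g x‖ := norm_add_le _ _
      _ < R := by linarith
  have hsub4 : ball w (R / 4) ⊆ ball w (R / 2) := ball_subset_ball (by linarith)
  have h5 := Pool.Agent.H80.AJ.univ_cover (by positivity : 0 < R / 4)
    (hdiff.mono (hsub4.trans hsub)) (hinj.mono (hsub4.trans hsub))
  have h6 : it v0 j w + Δ ∈ ball (it v0 j w) (R / 4 * ‖deriv (it v0 j) w‖ / 16) := by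
    rw [mem_ball, dist_eq_norm, add_sub_cancel_left]
    refine lt_of_lt_of_le hΔ ?_
    have h7 : R * (a * ‖trD v0 j (g x)‖) ≤ R * ‖deriv (it v0 j) w‖ :=
      mul_le_mul_of_nonneg_left hw1 hR0.le
    have h8 : a / 1024 * η * ‖deriv g x‖ * ‖trD v0 j (g x)‖ =
        R * (a * ‖trD v0 j (g x)‖) / 64 := by
      rw [hR]
      ring
    rw [h8]
    linarith
  obtain ⟨w', hw', hw2⟩ := h5 h6
  refine ⟨w', hw2, ?_⟩
  rw [mem_ball, dist_eq_norm] at hw'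
  have h7 := (hkoe (it v0 j) w (R / 2) (by positivity) (hdiff.mono hsub) (hinj.mono hsub) (R / 4)
    (by positivity) (by linarith) w' (by rw [mem_closedBall, dist_eq_norm]; exact hw'.le)).2.2.2
  rw [hw2, add_sub_cancel_left] at h7
  have h8 : a * ‖trD v0 j (g x)‖ * ‖w' - w‖ ≤ C * ‖Δ‖ :=
    (mul_le_mul_of_nonneg_right hw1 (norm_nonneg _)).trans h7
  have h9 : C / a * ‖Δ‖ / ‖trD v0 j (g x)‖ = C * ‖Δ‖ / (a * ‖trD v0 j (g x)‖) := by
    field_simp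
  rw [h9, le_div_iff₀ (by positivity)]
  linarith

end Pool.Agent.H79.MZ
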