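import Pool.Agent.H79.MZ.MDefs
import Pool.Agent.H44.DN.KOE
import Pool.Agent.H80.AJ.Cover

/-!
# Module CNE: from inverse branches to injectivity near the critical value

Write `v = p 1`, `c = p (n + 1)`, `D n = ∏ k < n, wv v0 (p (k+1)) / ev v0.2 (p (k+1)) ^ 2`; `it v0 n v = c` (`hG.orb`), `B n * D n = 1` (`cr.hB`, `cr.B0`), and `it v0 n` has the derivative `D n` at `v` (`tr_hasDerivAt` with `trD`, H32/BT/Trap).
PROOFS. `cr_it`: induction. `cr_trD`: `trD v0 n (p 1) = ∏ i < n, wv v0 (it v0 i (p 1)) / ev v0.2 (..) ^ 2` by definition, `it v0 i (p 1) = p (i + 1)`; `cr.hB` gives `B n * trD v0 n (p 1) = 1` by induction.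
`con_deriv`: derivative of `it v0 n (g z) = z` at `z = c`: `trD v0 n (p 1) * deriv g c = 1`. `con_cn`: `g` is injective on the ball (`inv`), so `univ_cover` (H80/AJ/Cover) gives
`ball (p 1) (δ * ‖B n‖ / 16) ⊆ g '' ball c δ`; so every `w` in it is `g z`: `stay` from `Con.stay`; if `w = g z`, `w' = g z'` have the same image under `it v0 n` then `z = z'` (`inv`), `w = w'`. `cn_inj`: `it v0 n = it v0 (n - j) ∘ it v0 j` (`it_comp`).
-/

set_option autoImplicit false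

open Filter Topology Polynomial Metric Set

namespace Pool.Agent.H79.MZ

open Pool.Agent.H44.Fatou Pool.Agent.H32.BT Pool.Agent.H79.Eul Pool.Agent.H79.Par Pool.Agent.H61.TT

variable {d : ℕ} {v0 : E d} {p B : ℕ → ℂ}

theorem it_comp (v : E d) (m n : ℕ) (z : ℂ) : it v (m + n) z = it v m (it v n z) := by
  induction m with
  | zero => rw [Nat.zero_add]; rfl
  | succ m ih =>
    rw [Nat.succ_add]
    simp only [it]
    rw [ih]

theorem cr_it (hc : Cr v0 p B) (k n : ℕ) : it v0 n (p k) = p (k + n) := by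
  induction n with
  | zero => rfl
  | succ n ih =>
    simp only [it]
    rw [ih, hc.orb]
    rfl

theorem cr_trD (hc : Cr v0 p B) (n : ℕ) : B n * trD v0 n (p 1) = 1 := by
  induction n with
  | zero =>
    simp only [trD, Finset.range_zero, Finset.prod_empty]
    rw [hc.B0, one_mul]
  | succ n ih =>
    have h1 : trD v0 (n + 1) (p 1) = trD v0 n (p 1) *
        (wv v0 (p (n + 1)) / ev v0.2 (p (n + 1)) ^ 2) := by
      unfold trD
      rw [Finset.prod_range_succ, cr_it hc, Nat.add_comm 1 n]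
    rw [h1, mul_left_comm, hc.hB, mul_comm]
    exact ih

theorem cr_ne (hc : Cr v0 p B) (n : ℕ) : B n ≠ 0 := by
  intro h
  have h1 := cr_trD hc n
  rw [h, zero_mul] at h1
  exact zero_ne_one h1

private theorem cr_den (hc : Cr v0 p B) (k : ℕ) : ev v0.2 (p k) ≠ 0 := by
  obtain ⟨δ, hδ, h⟩ := hc.bb
  exact norm_pos_iff.1 (lt_of_lt_of_le hδ (h k))

theorem con_deriv (hc : Cr v0 p B) {K : Set ℂ} {δ : ℝ} (hδ : 0 < δ) {n : ℕ} {g : ℂ → ℂ}
    (h : Con v0 p K δ n g) : deriv g (p (n + 1)) = B n := by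
  have hg : HasDerivAt g (deriv g (p (n + 1))) (p (n + 1)) :=
    (h.diff.differentiableAt (isOpen_ball.mem_nhds (mem_ball_self hδ))).hasDerivAt
  have hφ : HasDerivAt (fun z => it v0 n z) (trD v0 n (p 1)) (g (p (n + 1))) := by
    rw [h.cen]
    refine tr_hasDerivAt v0 (p 1) n fun i _ => ?_
    rw [cr_it hc]
    exact cr_den hc _
  have h1 := hφ.comp (p (n + 1)) hg
  have h2 : ((fun z => it v0 n z) ∘ g) =ᶠ[𝓝 (p (n + 1))] fun z => z := by
    filter_upwards [isOpen_ball.mem_nhds (mem_ball_self hδ)] with z hz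
    exact h.inv z hz
  have h3 : HasDerivAt (fun z : ℂ => z) (trD v0 n (p 1) * deriv g (p (n + 1))) (p (n + 1)) :=
    h1.congr_of_eventuallyEq h2.symm
  have h4 := h3.unique (hasDerivAt_id (p (n + 1)))
  calc deriv g (p (n + 1)) = (B n * trD v0 n (p 1)) * deriv g (p (n + 1)) := by
        rw [cr_trD hc, one_mul]
    _ = B n * (trD v0 n (p 1) * deriv g (p (n + 1))) := by ring
    _ = B n := by rw [h4, mul_one]

theorem con_cn (hc : Cr v0 p B) {K : Set ℂ} {δ : ℝ} (hδ : 0 < δ) {n : ℕ} {g : ℂ → ℂ}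
    (h : Con v0 p K δ n g) : Cn v0 p B K (δ / 16) n := by
  have hi : InjOn g (ball (p (n + 1)) δ) := by
    intro z hz z' hz' hzz
    rw [← h.inv z hz, ← h.inv z' hz', hzz]
  have h1 := Pool.Agent.H80.AJ.univ_cover hδ h.diff hi
  rw [con_deriv hc hδ h, h.cen] at h1
  have h2 : ball (p 1) (δ / 16 * ‖B n‖) ⊆ g '' ball (p (n + 1)) δ := by
    have h3 : δ / 16 * ‖B n‖ = δ * ‖B n‖ / 16 := by ring
    rw [h3]
    exact h1
  refine ⟨?_, ?_⟩
  · intro w hw j hj
    obtain ⟨z, hz, rfl⟩ := h2 hw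
    exact h.stay z hz j hj
  · intro w hw w' hw' hww
    obtain ⟨z, hz, rfl⟩ := h2 hw
    obtain ⟨z', hz', rfl⟩ := h2 hw'
    rw [h.inv z hz, h.inv z' hz'] at hww
    rw [hww]

theorem cn_inj {K : Set ℂ} {σ : ℝ} {n : ℕ} (h : Cn v0 p B K σ n) {j : ℕ} (hj : j ≤ n) :
    InjOn (it v0 j) (ball (p 1) (σ * ‖B n‖)) := by
  intro w hw w' hw' hww
  refine h.inj hw hw' ?_
  have h1 := it_comp v0 (n - j) j w
  have h2 := it_comp v0 (n - j) j w'
  rw [Nat.sub_add_cancel hj] at h1 h2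
  rw [h1, h2, hww]

theorem cn_diff {K : Set ℂ} (hK : ∀ z ∈ K, ev v0.2 z ≠ 0) {σ : ℝ} {n : ℕ} (h : Cn v0 p B K σ n)
    {j : ℕ} (hj : j ≤ n) {w : ℂ} (hw : w ∈ ball (p 1) (σ * ‖B n‖)) :
    HasDerivAt (it v0 j) (trD v0 j w) w :=
  tr_hasDerivAt v0 w j fun i hi => hK _ (h.stay w hw i (by omega))

end Pool.Agent.H79.MZ
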