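import Pool.Agent.H79.MZ.BDF
import Pool.Agent.H79.MZ.CNE

/-!
# Module BNE: elementary properties of the branches `Br`

PROOFS. `br_injOn`: `inv`. `br_trD`: derivative of `it v0 n (g z) = z` at `z ∈ ball x η` (`tr_hasDerivAt`, H32/BT/Trap; the denominators do not vanish on `K`). `br_small`: `der` at `j = n`: `1 / ‖B n‖ = ‖trD v0 n (p 1)‖ ≤ A / ‖deriv g x‖` (`cr_trD`, H79/MZ/CNE).
`br_growth`: `der` and `cr_trD`. `br_ball`: `univ_cover` (H80/AJ/Cover) on `ball x s`, `s ≤ η`.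
`br_it_inj`: `w = g z`, `w' = g z'` with `it v0 j w = it v0 j w'`: apply `it v0 (n - j)` (`it_comp`): `z = z'`. `br_it_diff`: `tr_hasDerivAt` with `stay`.
-/

set_option autoImplicit false

open Filter Topology Polynomial Metric Set

namespace Pool.Agent.H79.MZ

open Pool.Agent.H44.Fatou Pool.Agent.H32.BT Pool.Agent.H79.Eul Pool.Agent.H79.Par Pool.Agent.H61.TT

variable {d : ℕ} {v0 : E d} {p B : ℕ → ℂ} {K : Set ℂ} {η A : ℝ} {n : ℕ} {x : ℂ} {g : ℂ → ℂ}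

theorem br_injOn (h : Br v0 p K η A n x g) : InjOn g (ball x η) := by
  intro z hz z' hz' hzz
  rw [← h.inv z hz, ← h.inv z' hz', hzz]

theorem br_trD (hK : ∀ z ∈ K, ev v0.2 z ≠ 0) (h : Br v0 p K η A n x g) {z : ℂ}
    (hz : z ∈ ball x η) : trD v0 n (g z) * deriv g z = 1 := by
  have hg : HasDerivAt g (deriv g z) z :=
    (h.diff.differentiableAt (isOpen_ball.mem_nhds hz)).hasDerivAt
  have hφ : HasDerivAt (fun z => it v0 n z) (trD v0 n (g z)) (g z) :=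
    tr_hasDerivAt v0 (g z) n fun i hi => hK _ (h.stay z hz i hi.le)
  have h1 := hφ.comp z hg
  have h2 : ((fun z => it v0 n z) ∘ g) =ᶠ[𝓝 z] fun z => z := by
    filter_upwards [isOpen_ball.mem_nhds hz] with z' hz'
    exact h.inv z' hz'
  have h3 : HasDerivAt (fun z : ℂ => z) (trD v0 n (g z) * deriv g z) z :=
    h1.congr_of_eventuallyEq h2.symm
  exact h3.unique (hasDerivAt_id z)

theorem br_small (hc : Cr v0 p B) (hK : ∀ z ∈ K, ev v0.2 z ≠ 0) (hη : 0 < η)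
    (h : Br v0 p K η A n x g) : 0 < ‖deriv g x‖ ∧ ‖deriv g x‖ ≤ A * ‖B n‖ := by
  have h1 := congrArg norm (br_trD hK h (mem_ball_self hη))
  have h2 := congrArg norm (cr_trD hc n)
  rw [norm_mul, norm_one] at h1 h2
  have h3 := h.der n le_rfl
  have h0 : 0 < ‖deriv g x‖ := by
    rw [norm_pos_iff]
    intro h4
    rw [h4, norm_zero, mul_zero] at h1
    exact zero_ne_one h1
  refine ⟨h0, ?_⟩
  calc ‖deriv g x‖ = ‖deriv g x‖ * ‖B n‖ * ‖trD v0 n (p 1)‖ := by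
        rw [mul_assoc, h2, mul_one]
    _ ≤ ‖deriv g x‖ * ‖B n‖ * (A * ‖trD v0 n (g x)‖) :=
        mul_le_mul_of_nonneg_left h3 (by positivity)
    _ = A * ‖B n‖ * (‖trD v0 n (g x)‖ * ‖deriv g x‖) := by ring
    _ = A * ‖B n‖ := by rw [h1, mul_one]

theorem br_growth (hc : Cr v0 p B) (h : Br v0 p K η A n x g) {j : ℕ} (hj : j ≤ n) :
    1 ≤ A * ‖B j‖ * ‖trD v0 j (g x)‖ := by
  have h2 := congrArg norm (cr_trD hc j)
  rw [norm_mul, norm_one] at h2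
  calc 1 = ‖B j‖ * ‖trD v0 j (p 1)‖ := h2.symm
    _ ≤ ‖B j‖ * (A * ‖trD v0 j (g x)‖) :=
        mul_le_mul_of_nonneg_left (h.der j hj) (norm_nonneg _)
    _ = A * ‖B j‖ * ‖trD v0 j (g x)‖ := by ring

theorem br_ball (hη : 0 < η) (h : Br v0 p K η A n x g) {s : ℝ} (hs : 0 < s) (hsη : s ≤ η) :
    ball (g x) (s * ‖deriv g x‖ / 16) ⊆ g '' ball x s :=
  Pool.Agent.H80.AJ.univ_cover hs (h.diff.mono (ball_subset_ball hsη))
    ((br_injOn h).mono (ball_subset_ball hsη))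

theorem br_it_inj (h : Br v0 p K η A n x g) {j : ℕ} (hj : j ≤ n) :
    InjOn (it v0 j) (g '' ball x η) := by
  rintro w ⟨z, hz, rfl⟩ w' ⟨z', hz', rfl⟩ hww
  have h1 := it_comp v0 (n - j) j (g z)
  have h2 := it_comp v0 (n - j) j (g z')
  rw [Nat.sub_add_cancel hj, h.inv z hz] at h1
  rw [Nat.sub_add_cancel hj, h.inv z' hz'] at h2
  rw [h1, hww, ← h2]

theorem br_it_diff (hK : ∀ z ∈ K, ev v0.2 z ≠ 0) (h : Br v0 p K η A n x g) {j : ℕ} (hj : j ≤ n)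
    {w : ℂ} (hw : w ∈ g '' ball x η) : HasDerivAt (it v0 j) (trD v0 j w) w := by
  obtain ⟨z, hz, rfl⟩ := hw
  exact tr_hasDerivAt v0 (g z) j fun i hi => hK _ (h.stay z hz i (by omega))

end Pool.Agent.H79.MZ
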