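import Pool.Agent.H79.MZ.CNE
import Pool.Agent.H79.MZ.EXP1
import Pool.Agent.H79.MZ.TFB

/-!
# Module BP1: the first `J` steps of the shadowing

PROOF. Write `u = v - v0`, `f_v z = ev v.1 z / ev v.2 z`, `G j = ∑ k ∈ range (j + 1), B k * xi v0 u (p k)`. CLAIM by induction on `j ≤ J`: for every `ε' > 0` there are `η' > 0` and `ε1 > 0` such that for `‖u‖ ≤ η'` and `‖it v 1 c - p 1 - xi v0 u (p 0)‖ ≤ ε1 ‖u‖`, `ev v.2 c ≠ 0`: `‖it v (j + 1) c - p (j + 1) - G j / B j‖ ≤ ε' ‖u‖` and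
`ev v.2 (it v i c) ≠ 0` for `i ≤ j`. Step: `y = it v (j + 1) c`, `f_v y - p (j + 2) = (f_v y - f_(v0) y) + (f_(v0) y - f_(v0) (p (j+1)))`; the first bracket is `xi v0 u (p (j + 1)) + o(‖u‖)` (`exp_j`), the second is `(wv v0 (p (j+1)) / ev v0.2 (p (j+1)) ^ 2) (y - p (j+1)) + o(‖y - p (j+1)‖)` and
`‖y - p (j + 1)‖ ≤ C ‖u‖`; `G j / B j * (B j / B (j+1)) + xi (p (j+1)) = G (j+1) / B (j+1)` (`cr.hB`, `B0`). `ev v.2 y ≠ 0` for `y` near `p (j + 1)`, `v` near `v0`.
Then: `φ = it v0 J` has at `p 1` the strict derivative `1 / B J` and is a local homeomorphism (`HasStrictDerivAt.localInverse`, or `HasStrictDerivAt.map_nhds_eq` / `approximatesLinearOn`): for `y'` near `p (J + 1) = φ (p 1)` there is `w` near `p 1` with `φ w = y'`, `‖w - p 1 - B J (y' - p (J+1))‖ ≤ ε'' ‖y' - p (J + 1)‖`. Take `y' = it v (J + 1) c`: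
`‖w - p 1 - G J‖ ≤ ‖B J‖ ε' ‖u‖ + ε'' C ‖u‖`. (The hypothesis of the theorem has `ε1` existentially: choose it at the end.)
-/

set_option autoImplicit false

open Filter Topology Polynomial Metric Set

namespace Pool.Agent.H79.MZ

open Pool.Agent.H44.Fatou Pool.Agent.H32.BT Pool.Agent.H79.Eul Pool.Agent.H79.Par Pool.Agent.H61.TT

private theorem bp1_f {d : ℕ} (v : E d) (z : ℂ) (hz : ev v.2 z ≠ 0) :
    HasStrictDerivAt (fun z => ev v.1 z / ev v.2 z) (wv v z / ev v.2 z ^ 2) z := by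
  have h1 : ContDiffAt ℂ 1 (fun z => ev v.1 z / ev v.2 z) z := by
    refine ContDiffAt.div ?_ ?_ hz
    · unfold ev
      fun_prop
    · unfold ev
      fun_prop
  exact h1.hasStrictDerivAt' (tr_hasDerivAt_ev v z hz) (by norm_num)

private theorem bp1_den {d : ℕ} {v0 : E d} {p B : ℕ → ℂ} (hc : Cr v0 p B) (k : ℕ) :
    ev v0.2 (p k) ≠ 0 := by
  obtain ⟨δ, hδ, h⟩ := hc.bb
  exact norm_pos_iff.1 (lt_of_lt_of_le hδ (h k))

private theorem bp1_strict {d : ℕ} {v0 : E d} {p B : ℕ → ℂ} (hc : Cr v0 p B) (J : ℕ) :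
    HasStrictDerivAt (fun z => it v0 J z) (trD v0 J (p 1)) (p 1) := by
  induction J with
  | zero =>
    simp only [it, trD, Finset.range_zero, Finset.prod_empty]
    exact hasStrictDerivAt_id _
  | succ J ih =>
    have h0 : ev v0.2 (it v0 J (p 1)) ≠ 0 := by
      rw [cr_it hc]
      exact bp1_den hc _
    have h1 := (bp1_f v0 (it v0 J (p 1)) h0).comp (p 1) ih
    simp only [trD, Finset.prod_range_succ]
    rw [mul_comm]
    exact h1

private theorem bp1_G {d : ℕ} {v0 : E d} {p B : ℕ → ℂ} (hc : Cr v0 p B) (j : ℕ) :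
    ∃ C : ℝ, 0 ≤ C ∧ ∀ u : E d,
      ‖(∑ k ∈ Finset.range (j + 1), B k * xi v0 u (p k)) / B j‖ ≤ C * ‖u‖ := by
  obtain ⟨M, hM0, hM⟩ := xi_bd hc
  have hB : 0 < ‖B j‖ := norm_pos_iff.2 (cr_ne hc j)
  refine ⟨(∑ k ∈ Finset.range (j + 1), ‖B k‖ * M) / ‖B j‖, by positivity, fun u => ?_⟩
  rw [norm_div, div_mul_eq_mul_div, Finset.sum_mul]
  refine div_le_div_of_nonneg_right ((norm_sum_le _ _).trans (Finset.sum_le_sum fun k _ => ?_))
    hB.le
  rw [norm_mul, mul_assoc]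
  exact mul_le_mul_of_nonneg_left (hM u k) (norm_nonneg _)

private theorem bp1_claim {d : ℕ} {v0 : E d} {p B : ℕ → ℂ} (hc : Cr v0 p B) (j : ℕ) :
    ∀ ε' : ℝ, 0 < ε' → ∃ η ε1 : ℝ, 0 < η ∧ 0 < ε1 ∧ ∀ v : E d, ‖v - v0‖ ≤ η → ∀ c : ℂ,
      ev v.2 c ≠ 0 → ‖it v 1 c - p 1 - xi v0 (v - v0) (p 0)‖ ≤ ε1 * ‖v - v0‖ →
      ‖it v (j + 1) c - p (j + 1) -
        (∑ k ∈ Finset.range (j + 1), B k * xi v0 (v - v0) (p k)) / B j‖ ≤ ε' * ‖v - v0‖ ∧
      ∀ i ≤ j, ev v.2 (it v i c) ≠ 0 := by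
  induction j with
  | zero =>
    intro ε' hε'
    refine ⟨1, ε', one_pos, hε', fun v _ c hcv h => ⟨?_, fun i hi => ?_⟩⟩
    · rw [Finset.sum_range_one, hc.B0, one_mul, div_one]
      exact h
    · rw [Nat.le_zero.1 hi]
      exact hcv
  | succ j ih =>
    intro ε' hε'
    obtain ⟨C, hC0, hC⟩ := bp1_G hc j
    set a : ℂ := p (j + 1) with ha
    have ha0 : ev v0.2 a ≠ 0 := bp1_den hc _
    set L : ℂ := wv v0 a / ev v0.2 a ^ 2 with hL
    have hBL : B (j + 1) * L = B j := hc.hB j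
    have hBj : B j ≠ 0 := cr_ne hc j
    have hBj' : B (j + 1) ≠ 0 := cr_ne hc (j + 1)
    obtain ⟨ηa, hηa, hexp⟩ := exp_j ha0 (show 0 < ε' / 3 by positivity)
    have hd := (hasDerivAt_iff_isLittleO.1 (tr_hasDerivAt_ev v0 a ha0)).def
      (show 0 < ε' / (3 * (C + 1)) by positivity)
    obtain ⟨ηb, hηb, hder⟩ := Metric.eventually_nhds_iff.1 hd
    have hne : ∀ᶠ y : E d × ℂ in 𝓝 (v0, a), ev y.1.2 y.2 ≠ 0 :=
      ev2_cont.continuousAt.eventually_ne ha0
    obtain ⟨ηd, hηd, hnz⟩ := Metric.nhds_basis_closedBall.eventually_iff.1 hne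
    obtain ⟨η0, ε1, hη0, hε1, h⟩ := ih (min 1 (ε' / (3 * (‖L‖ + 1)))) (by positivity)
    set r : ℝ := min ηa (min (ηb / 2) ηd) with hr
    have hr0 : 0 < r := by positivity
    refine ⟨min η0 (min r (r / (C + 1))), ε1, by positivity, hε1, ?_⟩
    intro v hv c hcv hxi
    obtain ⟨h1, h2⟩ := h v (hv.trans (min_le_left _ _)) c hcv hxi
    have hvr : ‖v - v0‖ ≤ r := hv.trans ((min_le_right _ _).trans (min_le_left _ _))
    have hvr' : ‖v - v0‖ ≤ r / (C + 1) := hv.trans ((min_le_right _ _).trans (min_le_right _ _))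
    set u : E d := v - v0 with hu
    set y : ℂ := it v (j + 1) c with hy
    set Gj : ℂ := (∑ k ∈ Finset.range (j + 1), B k * xi v0 u (p k)) / B j with hGj
    have hu0 : 0 ≤ ‖u‖ := norm_nonneg u
    have hya : ‖y - a‖ ≤ (C + 1) * ‖u‖ := by
      have e1 : y - a = (y - a - Gj) + Gj := by ring
      rw [e1]
      refine (norm_add_le _ _).trans ?_
      have e2 : ‖y - a - Gj‖ ≤ 1 * ‖u‖ :=
        h1.trans (mul_le_mul_of_nonneg_right (min_le_left _ _) hu0)
      have e3 := hC u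
      linarith
    have hyr : ‖y - a‖ ≤ r := by
      refine hya.trans ?_
      rw [le_div_iff₀ (by positivity)] at hvr'
      linarith
    have hra : r ≤ ηa := min_le_left _ _
    have hrb : r ≤ ηb / 2 := (min_le_right _ _).trans (min_le_left _ _)
    have hrd : r ≤ ηd := (min_le_right _ _).trans (min_le_right _ _)
    have t1 := hexp v (hvr.trans hra) y (hyr.trans hra)
    have t2 := hder (y := y) (by rw [dist_eq_norm]; linarith)
    have t3 : ev v.2 y ≠ 0 := by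
      refine hnz (show (v, y) ∈ closedBall (v0, a) ηd from ?_)
      rw [mem_closedBall, Prod.dist_eq, dist_eq_norm, dist_eq_norm]
      exact max_le (hvr.trans hrd) (hyr.trans hrd)
    have horb : ev v0.1 a / ev v0.2 a = p (j + 2) := hc.orb (j + 1)
    refine ⟨?_, fun i hi => ?_⟩
    · have e1 : it v (j + 1 + 1) c = ev v.1 y / ev v.2 y := rfl
      have e2 : (∑ k ∈ Finset.range (j + 1 + 1), B k * xi v0 u (p k)) / B (j + 1) =
          xi v0 u a + L * Gj := by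
        rw [Finset.sum_range_succ, ← ha, hGj, add_div, mul_div_cancel_left₀ _ hBj',
          add_comm]
        congr 1
        rw [← hBL]
        have hL0 : L ≠ 0 := by
          intro h0
          rw [h0, mul_zero] at hBL
          exact hBj hBL.symm
        field_simp
      have e3 : it v (j + 1 + 1) c - p (j + 1 + 1) -
          (∑ k ∈ Finset.range (j + 1 + 1), B k * xi v0 u (p k)) / B (j + 1) =
          (ev v.1 y / ev v.2 y - ev v0.1 y / ev v0.2 y - xi v0 u a) +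
          (ev v0.1 y / ev v0.2 y - ev v0.1 a / ev v0.2 a - (y - a) • L) +
          L * (y - a - Gj) := by
        rw [e1, e2, horb, smul_eq_mul]
        ring
      rw [e3]
      have f2 : ‖ev v0.1 y / ev v0.2 y - ev v0.1 a / ev v0.2 a - (y - a) • L‖ ≤
          ε' / 3 * ‖u‖ := by
        refine t2.trans ?_
        have f3 := mul_le_mul_of_nonneg_left hya (show 0 ≤ ε' / (3 * (C + 1)) by positivity)
        refine f3.trans (le_of_eq ?_)
        have : C + 1 ≠ 0 := by positivity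
        field_simp
      have f3 : ‖L * (y - a - Gj)‖ ≤ ε' / 3 * ‖u‖ := by
        rw [norm_mul]
        have f4 : ‖y - a - Gj‖ ≤ ε' / (3 * (‖L‖ + 1)) * ‖u‖ :=
          h1.trans (mul_le_mul_of_nonneg_right (min_le_right _ _) hu0)
        have f5 := mul_le_mul_of_nonneg_left f4 (norm_nonneg L)
        refine f5.trans ?_
        have f6 : ‖L‖ * (ε' / (3 * (‖L‖ + 1))) ≤ ε' / 3 := by
          rw [mul_div_assoc', div_le_div_iff₀ (by positivity) (by positivity)]
          have := norm_nonneg L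
          nlinarith
        have f7 := mul_le_mul_of_nonneg_right f6 hu0
        linarith
      refine (norm_add₃_le).trans ?_
      linarith
    · rcases Nat.lt_or_ge i (j + 1) with h3 | h3
      · exact h2 i (by omega)
      · have h4 : i = j + 1 := by omega
        rw [h4]
        exact t3

theorem bp1 {d : ℕ} {v0 : E d} {p B : ℕ → ℂ} (hc : Cr v0 p B) (J : ℕ) {ε : ℝ} (hε : 0 < ε) :
    ∃ η1 ε1 : ℝ, 0 < η1 ∧ 0 < ε1 ∧ ∀ v : E d, ‖v - v0‖ ≤ η1 → ∀ c : ℂ, ev v.2 c ≠ 0 →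
      ‖it v 1 c - p 1 - xi v0 (v - v0) (p 0)‖ ≤ ε1 * ‖v - v0‖ →
        ∃ w : ℂ, it v (J + 1) c = it v0 J w ∧ (∀ j ≤ J, ev v.2 (it v j c) ≠ 0) ∧
          ‖w - p 1 - ∑ k ∈ Finset.range (J + 1), B k * xi v0 (v - v0) (p k)‖ ≤ ε * ‖v - v0‖ := by
  obtain ⟨C, hC0, hC⟩ := bp1_G hc J
  have hst := bp1_strict hc J
  have hBJ : B J ≠ 0 := cr_ne hc J
  have hBD := cr_trD hc J
  have hD : trD v0 J (p 1) ≠ 0 := by
    intro h
    rw [h, mul_zero] at hBD
    exact zero_ne_one hBD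
  have hinv : (trD v0 J (p 1))⁻¹ = B J := by
    rw [inv_eq_iff_eq_inv]
    exact eq_inv_of_mul_eq_one_right hBD
  have hval : it v0 J (p 1) = p (J + 1) := by
    rw [cr_it hc, Nat.add_comm]
  set ψ : ℂ → ℂ := hst.localInverse (fun z => it v0 J z) (trD v0 J (p 1)) (p 1) hD with hψ
  have hψd : HasStrictDerivAt ψ (B J) (p (J + 1)) := by
    have h := hst.to_localInverse hD
    rw [hinv] at h
    rw [← hval]
    exact h
  have hψ0 : ψ (p (J + 1)) = p 1 := by
    rw [← hval]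
    exact HasStrictFDerivAt.localInverse_apply_image (hst.hasStrictFDerivAt_equiv hD)
  have hright : ∀ᶠ y in 𝓝 (p (J + 1)), it v0 J (ψ y) = y := by
    rw [← hval]
    exact hst.eventually_right_inverse hD
  have hder := (hasDerivAt_iff_isLittleO.1 hψd.hasDerivAt).def
    (show 0 < ε / (2 * (C + 1)) by positivity)
  obtain ⟨ρ, hρ, hball⟩ := Metric.eventually_nhds_iff.1 (hright.and hder)
  obtain ⟨η0, ε1, hη0, hε1, h⟩ := bp1_claim hc J (min 1 (ε / (2 * (‖B J‖ + 1)))) (by positivity)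
  refine ⟨min η0 (ρ / (2 * (C + 1))), ε1, by positivity, hε1, ?_⟩
  intro v hv c hcv hxi
  obtain ⟨h1, h2⟩ := h v (hv.trans (min_le_left _ _)) c hcv hxi
  have hvr : ‖v - v0‖ ≤ ρ / (2 * (C + 1)) := hv.trans (min_le_right _ _)
  set u : E d := v - v0 with hu
  set y : ℂ := it v (J + 1) c with hy
  set a : ℂ := p (J + 1) with ha
  set GJ : ℂ := (∑ k ∈ Finset.range (J + 1), B k * xi v0 u (p k)) / B J with hGJ
  have hu0 : 0 ≤ ‖u‖ := norm_nonneg u
  have hya : ‖y - a‖ ≤ (C + 1) * ‖u‖ := by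
    have e1 : y - a = (y - a - GJ) + GJ := by ring
    rw [e1]
    refine (norm_add_le _ _).trans ?_
    have e2 : ‖y - a - GJ‖ ≤ 1 * ‖u‖ :=
      h1.trans (mul_le_mul_of_nonneg_right (min_le_left _ _) hu0)
    have e3 := hC u
    linarith
  have hyr : dist y a < ρ := by
    rw [dist_eq_norm]
    refine lt_of_le_of_lt hya ?_
    rw [le_div_iff₀ (by positivity)] at hvr
    linarith
  obtain ⟨g1, g2⟩ := hball hyr
  refine ⟨ψ y, g1.symm, h2, ?_⟩
  have e1 : ∑ k ∈ Finset.range (J + 1), B k * xi v0 u (p k) = B J * GJ := by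
    rw [hGJ]
    field_simp
  have e2 : ψ y - p 1 - B J * GJ = (ψ y - ψ a - (y - a) • B J) + B J * (y - a - GJ) := by
    rw [hψ0, smul_eq_mul]
    ring
  rw [e1, e2]
  have f1 : ‖ψ y - ψ a - (y - a) • B J‖ ≤ ε / 2 * ‖u‖ := by
    refine g2.trans ?_
    have f3 := mul_le_mul_of_nonneg_left hya (show 0 ≤ ε / (2 * (C + 1)) by positivity)
    refine f3.trans (le_of_eq ?_)
    have : C + 1 ≠ 0 := by positivity
    field_simp
  have f2 : ‖B J * (y - a - GJ)‖ ≤ ε / 2 * ‖u‖ := by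
    rw [norm_mul]
    have f4 : ‖y - a - GJ‖ ≤ ε / (2 * (‖B J‖ + 1)) * ‖u‖ :=
      h1.trans (mul_le_mul_of_nonneg_right (min_le_right _ _) hu0)
    have f5 := mul_le_mul_of_nonneg_left f4 (norm_nonneg (B J))
    refine f5.trans ?_
    have f6 : ‖B J‖ * (ε / (2 * (‖B J‖ + 1))) ≤ ε / 2 := by
      rw [mul_div_assoc', div_le_div_iff₀ (by positivity) (by positivity)]
      have := norm_nonneg (B J)
      nlinarith
    have f7 := mul_le_mul_of_nonneg_right f6 hu0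
    linarith
  refine (norm_add_le _ _).trans ?_
  linarith

end Pool.Agent.H79.MZ
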