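import Mathlib

/-!
# Module COV: change of variables for injective holomorphic functions

PROOF. `MeasureTheory.lintegral_image_eq_lintegral_abs_det_fderiv_mul volume hUmeas (hasFDerivWithinAt over ℝ) hinj F`; the real derivative of `g` at `z` is multiplication by `deriv g z`, its determinant is `‖deriv g z‖ ^ 2` (`Complex.det_..`, `LinearMap.det_restrictScalars` or
`Algebra.norm_complex_apply`; the library has this in several places: search `lintegral_image_eq_lintegral_abs_det_fderiv_mul` in Pool/Agent/H61/TT, H79/Par, H35/EX and copy).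
-/

set_option autoImplicit false

open MeasureTheory Metric Set Filter Topology

namespace Pool.Agent.H79.MZ

private theorem cov_det (c : ℂ) :
    |((ContinuousLinearMap.smulRight (1 : ℂ →L[ℂ] ℂ) c).restrictScalars ℝ).det| = ‖c‖ ^ 2 := by
  have h1 : ((ContinuousLinearMap.smulRight (1 : ℂ →L[ℂ] ℂ) c).restrictScalars ℝ).det =
      LinearMap.det (((ContinuousLinearMap.smulRight (1 : ℂ →L[ℂ] ℂ) c : ℂ →L[ℂ] ℂ) :
        ℂ →ₗ[ℂ] ℂ).restrictScalars ℝ) := rfl
  rw [h1, LinearMap.det_restrictScalars, Algebra.norm_complex_eq]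
  show |Complex.normSq _| = _
  rw [Complex.normSq_eq_norm_sq, abs_of_nonneg (by positivity)]
  congr 2
  simp

theorem cov {g : ℂ → ℂ} {U : Set ℂ} (hU : IsOpen U) (hg : DifferentiableOn ℂ g U)
    (hi : InjOn g U) (F : ℂ → ENNReal) :
    ∫⁻ y in g '' U, F y = ∫⁻ z in U, ENNReal.ofReal (‖deriv g z‖ ^ 2) * F (g z) := by
  have hd : ∀ z ∈ U, HasFDerivWithinAt g
      ((ContinuousLinearMap.smulRight (1 : ℂ →L[ℂ] ℂ) (deriv g z)).restrictScalars ℝ) U z := by
    intro z hz
    have h1 : HasDerivAt g (deriv g z) z := (hg.differentiableAt (hU.mem_nhds hz)).hasDerivAt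
    have h2 : HasFDerivAt g (ContinuousLinearMap.smulRight (1 : ℂ →L[ℂ] ℂ) (deriv g z)) z :=
      h1.hasFDerivAt
    exact (h2.restrictScalars ℝ).hasFDerivWithinAt
  rw [lintegral_image_eq_lintegral_abs_det_fderiv_mul volume hU.measurableSet hd hi F]
  refine lintegral_congr fun z => ?_
  rw [cov_det]

end Pool.Agent.H79.MZ
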