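import Pool.Agent.H79.MZ.BNE
import Pool.Agent.H79.MZ.COV
import Pool.Agent.H44.RR.ATM

/-!
# Module BSC: the blow up at the critical value, carried to a large disc (branches `Br`)

PROOF. As SCA (H79/MZ/SCA). `atm` (H44/RR/ATM) at `p 1`: `∫⁻ y in ball (p 1) s, ‖qq y - Rs / (y - p 1)‖ₑ ≤ ε' s` for `0 < s < s0(ε')`. `koe` on `ball x η`, radius `η / 2` (constants `C, N`): `g '' ball x (η / 2) ⊆ ball (g x) (C 2 ^ N ‖deriv g x‖ η) ⊆ ball (p 1) (C1 ‖deriv g x‖)` with `C1 = C 2 ^ N η + A + 1` (`near`).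
`‖deriv g x‖ ≤ A ‖B n‖ → 0` (`br_small`), so `C1 ‖deriv g x‖ < s0` for `n` large. `cov` on `U = ball x (η / 2)`: `∫⁻ z in U, ofReal (‖deriv g z‖^2) * ‖qq (g z) - Rs / (g z - p 1)‖ₑ = ∫⁻ y in g '' U, ‖..‖ₑ ≤ ε' C1 ‖deriv g x‖`; divide by `‖deriv g x‖ > 0`, `ε' C1 ≤ ε`.
-/

set_option autoImplicit false

open MeasureTheory Metric Set Polynomial Filter Topology

namespace Pool.Agent.H79.MZ

open Pool.Agent.H44.Fatou Pool.Agent.H32.BT Pool.Agent.H79.Eul Pool.Agent.H79.Par Pool.Agent.H61.TT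
open Pool.Agent.H35.EX Pool.Agent.H44.RR

theorem bsc {d : ℕ} {v0 : E d} {p B : ℕ → ℂ} (hc : Cr v0 p B) {K : Set ℂ}
    (hK : ∀ z ∈ K, ev v0.2 z ≠ 0) {η A : ℝ} (hη : 0 < η) (hA : 1 ≤ A) {ε : ℝ} (hε : 0 < ε) :
    ∀ᶠ n : ℕ in atTop, ∀ (x : ℂ) (g : ℂ → ℂ), Br v0 p K η A n x g →
      ∫⁻ z in ball x (η / 2), ‖qq p B (g z) * deriv g z ^ 2 / deriv g x -
        Rs p B (p 1) * deriv g z ^ 2 / (deriv g x * (g z - p 1))‖ₑ ≤ ENNReal.ofReal ε := by
  obtain ⟨C, N, hC, hkoe⟩ := Pool.Agent.H44.DN.koe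
  have hC0 : 0 < C := by linarith
  obtain ⟨C1, hC1⟩ : ∃ C1, C1 = C * 2 ^ N * η + A + 1 := ⟨_, rfl⟩
  have hC1p : 0 < C1 := by
    rw [hC1]
    positivity
  have hatm := atm (p := p) (B := B) hc.sm (p 1)
  have hε' : (0 : ENNReal) < ENNReal.ofReal (ε / C1) := by
    rw [ENNReal.ofReal_pos]; positivity
  have hev := hatm.eventually (gt_mem_nhds hε')
  rw [eventually_nhdsWithin_iff, Metric.eventually_nhds_iff] at hev
  obtain ⟨s0, hs0, hs⟩ := hev
  have hBt : Tendsto (fun n => C1 * (A * ‖B n‖)) atTop (𝓝 0) := by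
    have := (hc.sm.tendsto_atTop_zero.const_mul A).const_mul C1
    rwa [mul_zero, mul_zero] at this
  filter_upwards [hBt.eventually (gt_mem_nhds hs0)] with n hn
  intro x g hg
  obtain ⟨hβ0, hβ1⟩ := br_small hc hK hη hg
  have hgi : InjOn g (ball x η) := br_injOn hg
  have hsub : ball x (η / 2) ⊆ ball x η := ball_subset_ball (by linarith)
  have hlt : C1 * ‖deriv g x‖ < s0 :=
    lt_of_le_of_lt (mul_le_mul_of_nonneg_left hβ1 hC1p.le) hn
  have hpos : 0 < C1 * ‖deriv g x‖ := by positivity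
  have hn' := hs (y := C1 * ‖deriv g x‖)
    (by rw [Real.dist_eq, sub_zero, abs_of_pos hpos]; exact hlt) hpos
  have hnear := hg.near
  have himg : g '' ball x (η / 2) ⊆ ball (p 1) (C1 * ‖deriv g x‖) := by
    rintro _ ⟨z, hz, rfl⟩
    have h1 := (hkoe g x η hη hg.diff hgi (η / 2) (by positivity) (by linarith) z
      (ball_subset_closedBall hz)).2.2.1
    rw [show (1 : ℝ) - η / 2 / η = 1 / 2 by field_simp; ring] at h1
    have h2 : ‖z - x‖ < η / 2 := by rwa [mem_ball, dist_eq_norm] at hz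
    rw [mem_ball, dist_eq_norm]
    have h3 : ‖g z - g x‖ ≤ C * (‖deriv g x‖ * ‖z - x‖) * 2 ^ N := by
      have h4 : ‖g z - g x‖ = ‖g z - g x‖ * (1 / 2) ^ N * 2 ^ N := by
        rw [mul_assoc, ← mul_pow]; norm_num
      rw [h4]
      exact mul_le_mul_of_nonneg_right h1 (by positivity)
    have h5 : ‖g z - g x‖ ≤ C * (‖deriv g x‖ * (η / 2)) * 2 ^ N := h3.trans (by gcongr)
    have h6 : ‖g z - p 1‖ ≤ ‖g z - g x‖ + ‖g x - p 1‖ := by
      have h7 : g z - p 1 = (g z - g x) + (g x - p 1) := by ring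
      rw [h7]
      exact norm_add_le _ _
    have h8 : 0 < C * 2 ^ N * η * ‖deriv g x‖ := by positivity
    have h9 : C1 * ‖deriv g x‖ = C * 2 ^ N * η * ‖deriv g x‖ + A * ‖deriv g x‖ +
        ‖deriv g x‖ := by
      rw [hC1]
      ring
    have h10 : C * (‖deriv g x‖ * (η / 2)) * 2 ^ N = C * 2 ^ N * η * ‖deriv g x‖ / 2 := by ring
    rw [h9]
    rw [h10] at h5
    linarith
  have hI : (∫⁻ y in g '' ball x (η / 2), ‖qq p B y - Rs p B (p 1) / (y - p 1)‖ₑ) ≤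
      ENNReal.ofReal (ε * ‖deriv g x‖) := by
    refine (lintegral_mono_set himg).trans ?_
    have h1 : ENNReal.ofReal (C1 * ‖deriv g x‖) ≠ 0 := by
      rw [Ne, ENNReal.ofReal_eq_zero, not_le]; positivity
    have h2 := (ENNReal.div_le_iff h1 ENNReal.ofReal_ne_top).1 hn'.le
    refine h2.trans (le_of_eq ?_)
    rw [← ENNReal.ofReal_mul (by positivity)]
    congr 1
    field_simp
  rw [cov isOpen_ball (hg.diff.mono hsub) (hgi.mono hsub)] at hI
  have hpt : ∀ z : ℂ, ‖qq p B (g z) * deriv g z ^ 2 / deriv g x -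
        Rs p B (p 1) * deriv g z ^ 2 / (deriv g x * (g z - p 1))‖ₑ =
        ‖(deriv g x)⁻¹‖ₑ * (ENNReal.ofReal (‖deriv g z‖ ^ 2) *
          ‖qq p B (g z) - Rs p B (p 1) / (g z - p 1)‖ₑ) := by
    intro z
    have h1 : qq p B (g z) * deriv g z ^ 2 / deriv g x -
        Rs p B (p 1) * deriv g z ^ 2 / (deriv g x * (g z - p 1)) =
        (deriv g x)⁻¹ * (deriv g z ^ 2 * (qq p B (g z) - Rs p B (p 1) / (g z - p 1))) := by
      simp only [div_eq_mul_inv, mul_inv]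
      generalize (g z - p 1)⁻¹ = w
      ring
    rw [h1, enorm_mul, enorm_mul, ← norm_pow, ofReal_norm]
  simp_rw [hpt]
  rw [lintegral_const_mul' _ _ enorm_ne_top]
  refine (mul_le_mul_right hI _).trans (le_of_eq ?_)
  rw [← ofReal_norm, ← ENNReal.ofReal_mul (norm_nonneg _), norm_inv]
  congr 1
  field_simp

end Pool.Agent.H79.MZ
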