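import Pool.Agent.H79.MZ.BDF

/-!
# Pull backs through critical points: definitions

`Zc v0` the zeros of `wv v0` (critical points in the plane), `fm`, `fd` the map and its derivative.
`StepL`: the inverse branch of the map near `q` on a small disc about `fm v0 q` (linear case). `StepN`: a branch through the critical point `c1` (nonlinear case).
`Chn`: a chain of inverse branches.
-/

set_option autoImplicit false

open Filter Topology Polynomial Metric Set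

namespace Pool.Agent.H79.MZ

open Pool.Agent.H44.Fatou Pool.Agent.H32.BT Pool.Agent.H79.Eul Pool.Agent.H79.Par Pool.Agent.H61.TT

/-- the critical points -/
def Zc {d : ℕ} (v0 : E d) : Set ℂ := {z | wv v0 z = 0}

/-- the distance of `q` from the critical points times the derivative: the size of the disc about `fm v0 q` on which the
inverse branch is almost linear -/
noncomputable def sz {d : ℕ} (v0 : E d) (q : ℂ) : ℝ := infDist q (Zc v0) * ‖fd v0 q‖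

/-- linear step at `q` with constant `C` for discs of radius at most `R0` -/
def StepL {d : ℕ} (v0 : E d) (C R0 : ℝ) (q : ℂ) : Prop :=
  ∀ R : ℝ, 0 < R → R ≤ R0 → C * R ≤ sz v0 q → ∀ (x : ℂ) (ρ : ℝ) (h : ℂ → ℂ),
    DifferentiableOn ℂ h (ball x ρ) → (∀ z ∈ ball x ρ, ‖h z - fm v0 q‖ ≤ R) →
      ∃ h' : ℂ → ℂ, DifferentiableOn ℂ h' (ball x ρ) ∧ ∀ z ∈ ball x ρ,
        fm v0 (h' z) = h z ∧ ev v0.2 (h' z) ≠ 0 ∧
        ‖h' z - q‖ ≤ (1 + C * R / sz v0 q) * (‖h z - fm v0 q‖ / ‖fd v0 q‖) ∧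
        ‖fd v0 (h' z) / fd v0 q - 1‖ ≤ C * R / sz v0 q / 2

/-- nonlinear step at `q` through the critical point `c1`, with threshold `C` and constant `C'` -/
def StepN {d : ℕ} (v0 : E d) (C C' R0 : ℝ) (q c1 : ℂ) : Prop :=
  ∀ R : ℝ, 0 < R → R ≤ R0 → sz v0 q < C * R → ∀ (x : ℂ) (ρ : ℝ) (h : ℂ → ℂ), 0 < ρ →
    DifferentiableOn ℂ h (ball x ρ) → (∀ z ∈ ball x ρ, ‖h z - fm v0 q‖ ≤ R) →
      (∀ z ∈ ball x ρ, h z ≠ fm v0 c1) →
        ∃ h' : ℂ → ℂ, DifferentiableOn ℂ h' (ball x ρ) ∧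
          (∀ z ∈ ball x ρ, fm v0 (h' z) = h z ∧ ev v0.2 (h' z) ≠ 0 ∧
            ‖h' z - q‖ ≤ C' * R / ‖fd v0 q‖) ∧
          ‖h' x - q‖ * ‖fd v0 (h' x)‖ ≤ C' * ‖h x - fm v0 q‖ ∧
          ‖fd v0 q‖ * ‖h x - fm v0 c1‖ ≤
            C' * ‖fd v0 (h' x)‖ * (‖h x - fm v0 c1‖ + ‖h x - fm v0 q‖)

/-- a chain of inverse branches `H k` on `ball x η` along the backward orbit `P 0, P 1, ..., P n` -/
structure Chn {d : ℕ} (v0 : E d) (P : ℕ → ℂ) (n : ℕ) (x : ℂ) (η : ℝ) (H : ℕ → ℂ → ℂ)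
    (R A θ : ℕ → ℝ) : Prop where
  diff : ∀ k ≤ n, DifferentiableOn ℂ (H k) (ball x η)
  top : ∀ z ∈ ball x η, H 0 z = z
  step : ∀ k < n, ∀ z ∈ ball x η, fm v0 (H (k + 1) z) = H k z ∧ ev v0.2 (H (k + 1) z) ≠ 0
  bd : ∀ k ≤ n, ∀ z ∈ ball x η, ‖H k z - P k‖ ≤ R k
  near : ∀ k ≤ n, ‖H k x - P k‖ ≤ A k * ‖deriv (H k) x‖
  der : ∀ k < n, ‖fd v0 (P (k + 1))‖ ≤ θ (k + 1) * ‖fd v0 (H (k + 1) x)‖

end Pool.Agent.H79.MZ
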