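import Pool.Agent.H79.MZ.CDF
import Pool.Agent.H80.AJ.Cover
import Pool.Agent.H80.AJ.Distort

/-!
# Module CH1: one step of the chain

PROOFS. Common: `h'` holomorphic on `ball x η` with `fm v0 (h' z) = h z`, `ev v0.2 (h' z) ≠ 0`; so `h'` is injective (`h` is) and `fd v0 (h' x) * deriv h' x = deriv h x` (chain rule, `tr_hasDerivAt_ev`). `D = ‖fd v0 q‖`, `X = h x`, `P = fm v0 q`.
`ch1_lin` (from `StepL`; `e = C R / sz v0 q ≤ 1`): bound: `‖h' z - q‖ ≤ (1 + e) R / D`. `D (1 - e/2) ≤ ‖fd v0 (h' x)‖ ≤ D (1 + e/2)`. near: `‖h' x - q‖ ≤ (1 + e) ‖X - P‖ / D ≤ (1 + e) A ‖deriv h x‖ / D = (1 + e) A ‖deriv h' x‖ ‖fd v0 (h' x)‖ / D ≤ (1 + e) (1 + e/2) A ‖deriv h' x‖ ≤ (1 + 3 e) A ‖deriv h' x‖`.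
der: `D ≤ ‖fd v0 (h' x)‖ / (1 - e/2) ≤ (1 + e) ‖fd v0 (h' x)‖`.
`ch1_non` (from `StepN`): near: `‖h' x - q‖ ‖fd v0 (h' x)‖ ≤ C' ‖X - P‖ ≤ C' A ‖deriv h x‖ = C' A ‖deriv h' x‖ ‖fd v0 (h' x)‖`, and `fd v0 (h' x) ≠ 0` because `deriv h x ≠ 0` (`h` injective). der: `h` injective on `ball x η` and omits `V = fm v0 c1`, so `‖X - V‖ ≥ η ‖deriv h x‖ / 16` (`univ_cover`, H80/AJ/Cover)
and `‖X - P‖ ≤ A ‖deriv h x‖ ≤ (16 A / η) ‖X - V‖`; so `D ‖X - V‖ ≤ C' ‖fd v0 (h' x)‖ (1 + 16 A / η) ‖X - V‖`, divide by `‖X - V‖ > 0`.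
-/

set_option autoImplicit false

open Filter Topology Polynomial Metric Set

namespace Pool.Agent.H79.MZ

open Pool.Agent.H44.Fatou Pool.Agent.H32.BT Pool.Agent.H79.Eul Pool.Agent.H79.Par Pool.Agent.H61.TT

private theorem ch1_inj {d : ℕ} {v0 : E d} {x : ℂ} {η : ℝ} {h h' : ℂ → ℂ}
    (hin : InjOn h (ball x η)) (hf : ∀ z ∈ ball x η, fm v0 (h' z) = h z) :
    InjOn h' (ball x η) := by
  intro z hz w hw hzw
  apply hin hz hw
  rw [← hf z hz, ← hf w hw, hzw]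

private theorem ch1_der {d : ℕ} {v0 : E d} {x : ℂ} {η : ℝ} {h h' : ℂ → ℂ} (hη : 0 < η)
    (hd' : DifferentiableOn ℂ h' (ball x η))
    (hf : ∀ z ∈ ball x η, fm v0 (h' z) = h z) (he : ∀ z ∈ ball x η, ev v0.2 (h' z) ≠ 0) :
    deriv h x = fd v0 (h' x) * deriv h' x := by
  have hx : x ∈ ball x η := mem_ball_self hη
  have h1 : HasDerivAt h' (deriv h' x) x :=
    (hd'.differentiableAt (isOpen_ball.mem_nhds hx)).hasDerivAt
  have h2 : HasDerivAt (fun z => ev v0.1 z / ev v0.2 z) (wv v0 (h' x) / ev v0.2 (h' x) ^ 2)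
      (h' x) := tr_hasDerivAt_ev v0 (h' x) (he x hx)
  have h3 := h2.comp x h1
  have h4 : h =ᶠ[𝓝 x] ((fun z => ev v0.1 z / ev v0.2 z) ∘ h') := by
    filter_upwards [isOpen_ball.mem_nhds hx] with z hz
    exact (hf z hz).symm
  rw [h4.deriv_eq, h3.deriv]
  rfl

theorem ch1_lin {d : ℕ} {v0 : E d} {C R0 R A η : ℝ} {q x : ℂ} {h : ℂ → ℂ} (hC : 1 ≤ C)
    (hL : StepL v0 C R0 q) (hq : fd v0 q ≠ 0) (hR : 0 < R) (hR0 : R ≤ R0)
    (hsz : C * R ≤ sz v0 q) (hη : 0 < η) (hA : 0 ≤ A)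
    (hdf : DifferentiableOn ℂ h (ball x η)) (hin : InjOn h (ball x η))
    (hbd : ∀ z ∈ ball x η, ‖h z - fm v0 q‖ ≤ R) (hnear : ‖h x - fm v0 q‖ ≤ A * ‖deriv h x‖) :
    ∃ h' : ℂ → ℂ, DifferentiableOn ℂ h' (ball x η) ∧ InjOn h' (ball x η) ∧
      (∀ z ∈ ball x η, fm v0 (h' z) = h z ∧ ev v0.2 (h' z) ≠ 0 ∧
        ‖h' z - q‖ ≤ (1 + C * R / sz v0 q) * R / ‖fd v0 q‖) ∧
      ‖h' x - q‖ ≤ (1 + 3 * (C * R / sz v0 q)) * A * ‖deriv h' x‖ ∧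
      ‖fd v0 q‖ ≤ (1 + C * R / sz v0 q) * ‖fd v0 (h' x)‖ := by
  obtain ⟨h', hd', hh'⟩ := hL R hR hR0 hsz x η h hdf hbd
  have hx : x ∈ ball x η := mem_ball_self hη
  have hCR : 0 < C * R := by positivity
  have hs0 : 0 < sz v0 q := lt_of_lt_of_le hCR hsz
  obtain ⟨e, he⟩ : ∃ e : ℝ, e = C * R / sz v0 q := ⟨_, rfl⟩
  rw [← he]
  have he0 : 0 < e := by rw [he]; positivity
  have he1 : e ≤ 1 := by rw [he, div_le_one hs0]; exact hsz
  obtain ⟨D, hD⟩ : ∃ D : ℝ, D = ‖fd v0 q‖ := ⟨_, rfl⟩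
  have hD0 : 0 < D := by rw [hD]; exact norm_pos_iff.mpr hq
  have hder := ch1_der hη hd' (fun z hz => (hh' z hz).1) (fun z hz => (hh' z hz).2.1)
  obtain ⟨_, _, hx3, hx4⟩ := hh' x hx
  rw [← he, ← hD] at hx3
  rw [← he] at hx4
  obtain ⟨F, hF⟩ : ∃ F : ℝ, F = ‖fd v0 (h' x)‖ := ⟨_, rfl⟩
  obtain ⟨H, hH⟩ : ∃ H : ℝ, H = ‖deriv h' x‖ := ⟨_, rfl⟩
  have hH0 : 0 ≤ H := by rw [hH]; exact norm_nonneg _
  have hdn : ‖deriv h x‖ = F * H := by rw [hder, norm_mul, hF, hH]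
  have hFD : |F - D| ≤ e / 2 * D := by
    have h1 : ‖fd v0 (h' x) - fd v0 q‖ ≤ e / 2 * D := by
      have h2 : fd v0 (h' x) - fd v0 q = (fd v0 (h' x) / fd v0 q - 1) * fd v0 q := by
        rw [sub_mul, div_mul_cancel₀ _ hq, one_mul]
      rw [h2, norm_mul, ← hD]
      exact mul_le_mul_of_nonneg_right hx4 hD0.le
    have h2 := abs_norm_sub_norm_le (fd v0 (h' x)) (fd v0 q)
    rw [← hF, ← hD] at h2
    exact h2.trans h1
  rw [abs_le] at hFD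
  refine ⟨h', hd', ch1_inj hin (fun z hz => (hh' z hz).1), fun z hz => ?_, ?_, ?_⟩
  · obtain ⟨h1, h2, h3, _⟩ := hh' z hz
    refine ⟨h1, h2, h3.trans ?_⟩
    rw [← he, mul_div_assoc]
    exact mul_le_mul_of_nonneg_left (div_le_div_of_nonneg_right (hbd z hz) (norm_nonneg _))
      (by linarith)
  · rw [hdn] at hnear
    rw [← hH]
    have h1 : ‖h x - fm v0 q‖ / D ≤ A * ((1 + e / 2) * H) := by
      rw [div_le_iff₀ hD0]
      refine hnear.trans ?_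
      have h2 : F ≤ (1 + e / 2) * D := by linarith
      have h3 : F * H ≤ (1 + e / 2) * D * H := mul_le_mul_of_nonneg_right h2 hH0
      calc A * (F * H) ≤ A * ((1 + e / 2) * D * H) := mul_le_mul_of_nonneg_left h3 hA
        _ = A * ((1 + e / 2) * H) * D := by ring
    refine hx3.trans ((mul_le_mul_of_nonneg_left h1 (by linarith)).trans ?_)
    have h4 : 0 ≤ A * H := mul_nonneg hA hH0
    have h5 : (1 + e) * (1 + e / 2) ≤ 1 + 3 * e := by nlinarith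
    calc (1 + e) * (A * ((1 + e / 2) * H)) = ((1 + e) * (1 + e / 2)) * (A * H) := by ring
      _ ≤ (1 + 3 * e) * (A * H) := mul_le_mul_of_nonneg_right h5 h4
      _ = (1 + 3 * e) * A * H := by ring
  · rw [← hD, ← hF]
    have h1 : (1 - e / 2) * D ≤ F := by linarith
    have h2 : (1 + e) * ((1 - e / 2) * D) ≤ (1 + e) * F := mul_le_mul_of_nonneg_left h1 (by linarith)
    have h3 : D ≤ (1 + e) * ((1 - e / 2) * D) := by
      have h4 : 1 ≤ (1 + e) * (1 - e / 2) := by nlinarith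
      nlinarith
    linarith

theorem ch1_non {d : ℕ} {v0 : E d} {C C' R0 R A η : ℝ} {q c1 x : ℂ} {h : ℂ → ℂ} (hC : 1 ≤ C')
    (hN : StepN v0 C C' R0 q c1) (hq : fd v0 q ≠ 0) (hR : 0 < R) (hR0 : R ≤ R0)
    (hsz : sz v0 q < C * R) (hη : 0 < η) (hA : 0 ≤ A)
    (hdf : DifferentiableOn ℂ h (ball x η)) (hin : InjOn h (ball x η))
    (hbd : ∀ z ∈ ball x η, ‖h z - fm v0 q‖ ≤ R) (hnear : ‖h x - fm v0 q‖ ≤ A * ‖deriv h x‖)
    (hom : ∀ z ∈ ball x η, h z ≠ fm v0 c1) :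
    ∃ h' : ℂ → ℂ, DifferentiableOn ℂ h' (ball x η) ∧ InjOn h' (ball x η) ∧
      (∀ z ∈ ball x η, fm v0 (h' z) = h z ∧ ev v0.2 (h' z) ≠ 0 ∧
        ‖h' z - q‖ ≤ C' * R / ‖fd v0 q‖) ∧
      ‖h' x - q‖ ≤ C' * A * ‖deriv h' x‖ ∧
      ‖fd v0 q‖ ≤ C' * (1 + 16 * A / η) * ‖fd v0 (h' x)‖ := by
  obtain ⟨h', hd', hh', hn', hdr'⟩ := hN R hR hR0 hsz x η h hη hdf hbd hom
  have hx : x ∈ ball x η := mem_ball_self hη
  have hder := ch1_der hη hd' (fun z hz => (hh' z hz).1) (fun z hz => (hh' z hz).2.1)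
  have hpos : 0 < ‖deriv h x‖ := Pool.Agent.H80.AJ.deriv_ne hη hdf hin
    (mem_closedBall_self (by positivity))
  obtain ⟨F, hF⟩ : ∃ F : ℝ, F = ‖fd v0 (h' x)‖ := ⟨_, rfl⟩
  obtain ⟨H, hH⟩ : ∃ H : ℝ, H = ‖deriv h' x‖ := ⟨_, rfl⟩
  have hdn : ‖deriv h x‖ = F * H := by rw [hder, norm_mul, hF, hH]
  have hF0 : 0 < F := by
    have h1 : 0 ≤ F := by rw [hF]; exact norm_nonneg _
    rcases h1.lt_or_eq with h2 | h2
    · exact h2
    · rw [hdn, ← h2, zero_mul] at hpos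
      exact absurd hpos (lt_irrefl _)
  refine ⟨h', hd', ch1_inj hin (fun z hz => (hh' z hz).1), hh', ?_, ?_⟩
  · rw [← hH]
    rw [← hF] at hn'
    rw [hdn] at hnear
    have h1 : ‖h' x - q‖ * F ≤ (C' * A * H) * F := by
      refine hn'.trans ((mul_le_mul_of_nonneg_left hnear (by linarith)).trans (le_of_eq ?_))
      ring
    exact le_of_mul_le_mul_right h1 hF0
  · rw [← hF]
    rw [← hF] at hdr'
    obtain ⟨Y, hY⟩ : ∃ Y : ℝ, Y = ‖h x - fm v0 c1‖ := ⟨_, rfl⟩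
    rw [← hY] at hdr'
    have hY0 : 0 < Y := by
      rw [hY, norm_pos_iff, sub_ne_zero]
      exact hom x hx
    have hY1 : η * ‖deriv h x‖ / 16 ≤ Y := by
      by_contra hlt
      push Not at hlt
      have h1 := Pool.Agent.H80.AJ.univ_cover hη hdf hin
      have h2 : fm v0 c1 ∈ ball (h x) (η * ‖deriv h x‖ / 16) := by
        rw [mem_ball, dist_comm, dist_eq_norm, ← hY]
        exact hlt
      obtain ⟨z, hz, hz2⟩ := h1 h2
      exact hom z hz hz2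
    have h3 : ‖h x - fm v0 q‖ ≤ 16 * A / η * Y := by
      refine hnear.trans ?_
      have h4 : ‖deriv h x‖ ≤ 16 / η * Y := by
        rw [div_mul_eq_mul_div, le_div_iff₀ hη]
        linarith
      calc A * ‖deriv h x‖ ≤ A * (16 / η * Y) := mul_le_mul_of_nonneg_left h4 hA
        _ = 16 * A / η * Y := by ring
    have h5 : ‖fd v0 q‖ * Y ≤ (C' * (1 + 16 * A / η) * F) * Y := by
      refine hdr'.trans ?_
      have h6 : Y + ‖h x - fm v0 q‖ ≤ (1 + 16 * A / η) * Y := by linarith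
      calc C' * F * (Y + ‖h x - fm v0 q‖) ≤ C' * F * ((1 + 16 * A / η) * Y) :=
            mul_le_mul_of_nonneg_left h6 (by positivity)
        _ = (C' * (1 + 16 * A / η) * F) * Y := by ring
    exact le_of_mul_le_mul_right h5 hY0

end Pool.Agent.H79.MZ
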