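import Pool.Agent.H79.MZ.CH1
import Pool.Agent.H79.MZ.CNE

/-!
# Module CH2: the chain, with explicit sequences

`Dat`: the data of a backward orbit `P` with hyperbolic time `n` (relative to the exponent `α`): `P 0` is the last point, `fm v0 (P (k+1)) = P k`. An index `k` is captured if `sz v0 (P k) < exp (- α k / 2)`.

PROOF of `ch2`. Put `e k = 2 * C * Θ * exp α * δ * exp (- α k / 2)` (`e k ≤ 1` by `hsm`), `G k = 1 + e k` if `k` is not captured, `C'` if it is, `R k = 2 δ ∏ j ∈ Ioc 0 k, G j / ‖fd v0 (P j)‖`. By `hΘ` (`∏ G j ≤ Θ`) and `hyp`: `R k ≤ 2 δ Θ exp (- α k) ≤ min R0 rK`.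
Induction on `k ≤ n` (construct functions up to `k`, extending with `Function.update`, or by recursion on `k` with `∃`): `H 0 = id`, `R 0 = 2 δ` (`ball x η ⊆ ball (P 0) (2 δ)` as `η ≤ δ`, `‖x - P 0‖ < δ`), `A 0 = 2 δ`. Step `k → k + 1 ≤ n`, `q = P (k + 1)`, `fm v0 q = P k`, `h = H k`, `R = R k`.
If `k + 1` is not captured: `sz v0 q ≥ exp (- α (k+1) / 2)`, so `C R k ≤ 2 C δ Θ exp (- α k) ≤ e (k+1) * exp (- α (k+1) / 2) * exp (- α (k + 1) / 2 + ..)`, precisely `C R k / sz v0 q ≤ 2 C δ Θ exp (- α k + α (k + 1) / 2) = 2 C δ Θ exp α exp (- α (k + 1) / 2) .. = e (k + 1) ≤ 1` (since `- α k + α (k+1) / 2 = α - α (k+1) / 2`): `ch1_lin`;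
`A (k+1) = (1 + 3 e (k+1)) A k`, `θ (k+1) = 1 + e (k+1)`. If `k + 1` is captured: if `C R k ≤ sz v0 q`: `ch1_lin` with `C R / sz ≤ 1`: bound `2 R / ‖fd q‖ ≤ C' R / ‖fd q‖`, `A (k+1) = 4 A k`, `θ = 2`; otherwise `ch1_non` with `c1 = cc q`: `h z ≠ fm v0 (cc q)` because otherwise `z = it v0 k (H k z) = it v0 k (fm v0 (cc q)) = it v0 (k + 1) (cc q)`
(`it_comp`; `it v0 k (H k z) = z` by induction), against `hav` (`η ≤ ‖x - it v0 (k+1) (cc q)‖`, `z ∈ ball x η`); `A (k+1) = C' A k`, `θ (k+1) = C' (1 + 16 A k / η)`. In both captured cases `A (k+1) ≤ 4 C' A k` and `θ (k+1) ≤ C' (2 + 16 A k / η)`. In all cases `A k ≤ 2 δ Θ'`, where `Θ'` bounds `∏ (1 + 3 e j or 4 C')` (`hΘ'`), and `θ k ≤ 1 + e k` or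
`≤ C' (2 + 32 δ Θ' / η) = θs`. So one may take the sequences `A k := 2 δ Θ'` and `θ k := 1 + e k` or `θs` in `Chn` (monotonicity).
-/

set_option autoImplicit false

open Filter Topology Polynomial Metric Set

namespace Pool.Agent.H79.MZ

open Pool.Agent.H44.Fatou Pool.Agent.H32.BT Pool.Agent.H79.Eul Pool.Agent.H79.Par Pool.Agent.H61.TT

/-- a backward orbit with hyperbolic time `n` and at most `M` captured indices -/
structure Dat {d : ℕ} (v0 : E d) (K0 : Set ℂ) (α : ℝ) (M n : ℕ) (P : ℕ → ℂ) : Prop where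
  mem : ∀ k ≤ n, P k ∈ K0
  orb : ∀ k < n, fm v0 (P (k + 1)) = P k
  ne : ∀ k, 0 < k → k ≤ n → fd v0 (P k) ≠ 0
  hyp : ∀ k ≤ n, Real.exp (α * k) ≤ ∏ j ∈ Finset.Ioc 0 k, ‖fd v0 (P j)‖
  cap : ∃ S : Finset ℕ, S.card ≤ M ∧
    ∀ k, 0 < k → k ≤ n → sz v0 (P k) < Real.exp (-(α * k / 2)) → k ∈ S

private theorem ch2_seq {X : Type} (Inv : ℕ → X → Prop) (Rel : ℕ → X → X → Prop) (h0 : X) (H0 : Inv 0 h0) (n : ℕ) :
    (∀ k < n, ∀ h, Inv k h → ∃ h', Inv (k + 1) h' ∧ Rel k h h') →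
    ∃ H : ℕ → X, H 0 = h0 ∧ (∀ k ≤ n, Inv k (H k)) ∧ ∀ k < n, Rel k (H k) (H (k + 1)) := by
  induction n with
  | zero =>
    intro _
    refine ⟨fun _ => h0, rfl, fun k hk => ?_, fun k hk => absurd hk (by omega)⟩
    have : k = 0 := by omega
    rw [this]
    exact H0
  | succ n ih =>
    intro step
    obtain ⟨H, h1, h2, h3⟩ := ih fun k hk => step k (by omega)
    obtain ⟨h', h4, h5⟩ := step n (by omega) (H n) (h2 n le_rfl)
    refine ⟨fun k => if k ≤ n then H k else h', by simp [h1], fun k hk => ?_, fun k hk => ?_⟩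
    · beta_reduce
      by_cases hkn : k ≤ n
      · rw [if_pos hkn]; exact h2 k hkn
      · have : k = n + 1 := by omega
        rw [if_neg hkn, this]
        exact h4
    · beta_reduce
      by_cases hkn : k = n
      · rw [hkn, if_pos le_rfl, if_neg (by omega)]
        exact h5
      · rw [if_pos (by omega), if_pos (by omega)]
        exact h3 k (by omega)

private theorem ch2_prod {cap : ℕ → Prop} [DecidablePred cap] {e : ℕ → ℝ} (he : ∀ j, 0 ≤ e j)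
    (hs : ∀ k, ∑ j ∈ Finset.Ioc 0 k, e j ≤ 1) {B c : ℝ} (hB : 1 ≤ B) (hc : 0 ≤ c) {M n : ℕ}
    (S : Finset ℕ) (hS : S.card ≤ M) (hcap : ∀ k, 0 < k → k ≤ n → cap k → k ∈ S) (k : ℕ) (hk : k ≤ n) :
    ∏ j ∈ Finset.Ioc 0 k, (if cap j then B else 1 + c * e j) ≤ Real.exp c * B ^ M := by
  have h1 : ∀ j ∈ Finset.Ioc 0 k, (if cap j then B else 1 + c * e j) ≤
      Real.exp (c * e j) * (if j ∈ S then B else 1) := by
    intro j hj
    rw [Finset.mem_Ioc] at hj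
    have hce : 0 ≤ c * e j := mul_nonneg hc (he j)
    have h2 : 1 + c * e j ≤ Real.exp (c * e j) := by
      have := Real.add_one_le_exp (c * e j)
      linarith
    have h3 : (1 : ℝ) ≤ Real.exp (c * e j) := by linarith
    by_cases hcj : cap j
    · rw [if_pos hcj, if_pos (hcap j hj.1 (by omega) hcj)]
      nlinarith
    · rw [if_neg hcj]
      by_cases hjS : j ∈ S
      · rw [if_pos hjS]
        nlinarith
      · rw [if_neg hjS, mul_one]
        exact h2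
  have h0 : ∀ j ∈ Finset.Ioc 0 k, (0 : ℝ) ≤ (if cap j then B else 1 + c * e j) := by
    intro j _
    have hce : 0 ≤ c * e j := mul_nonneg hc (he j)
    split_ifs <;> linarith
  refine (Finset.prod_le_prod h0 h1).trans ?_
  rw [Finset.prod_mul_distrib, ← Real.exp_sum, ← Finset.mul_sum, Finset.prod_ite, Finset.prod_const,
    Finset.prod_const_one, mul_one]
  have h4 : ((Finset.Ioc 0 k).filter (fun j => j ∈ S)).card ≤ M := by
    refine le_trans (Finset.card_le_card ?_) hS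
    intro j hj
    exact (Finset.mem_filter.1 hj).2
  have h5 : Real.exp (c * ∑ j ∈ Finset.Ioc 0 k, e j) ≤ Real.exp c := by
    rw [Real.exp_le_exp]
    calc c * ∑ j ∈ Finset.Ioc 0 k, e j ≤ c * 1 := mul_le_mul_of_nonneg_left (hs k) hc
      _ = c := mul_one c
  have h6 : B ^ ((Finset.Ioc 0 k).filter (fun j => j ∈ S)).card ≤ B ^ M := pow_le_pow_right₀ hB h4
  exact mul_le_mul h5 h6 (by positivity) (Real.exp_pos c).le

private theorem ch2_geo {α : ℝ} (hα : 0 < α) : ∃ s0 : ℝ, 1 ≤ s0 ∧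
    ∀ k : ℕ, ∑ j ∈ Finset.Ioc 0 k, Real.exp (-(α * j / 2)) ≤ s0 := by
  set r := Real.exp (-(α / 2)) with hr
  have hr0 : 0 ≤ r := (Real.exp_pos _).le
  have hr1 : r < 1 := by
    rw [hr, Real.exp_lt_one_iff]
    linarith
  refine ⟨1 + ∑' j : ℕ, r ^ j, by
    have : 0 ≤ ∑' j : ℕ, r ^ j := tsum_nonneg fun j => pow_nonneg hr0 j
    linarith, fun k => ?_⟩
  have h1 : ∀ j : ℕ, Real.exp (-(α * j / 2)) = r ^ j := by
    intro j
    rw [hr, ← Real.exp_nat_mul]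
    congr 1
    ring
  rw [Finset.sum_congr rfl fun j _ => h1 j]
  have h2 := (summable_geometric_of_lt_one hr0 hr1).sum_le_tsum (Finset.Ioc 0 k) fun j _ => pow_nonneg hr0 j
  linarith

private theorem ch2_step {d : ℕ} {v0 : E d} {C C' R0 R A η E0 T θs : ℝ} {q c1 x : ℂ} {h : ℂ → ℂ} (hC : 1 ≤ C)
    (hC' : 3 ≤ C') (hL : StepL v0 C R0 q) (hN : StepN v0 C C' R0 q c1) (hq : fd v0 q ≠ 0) (hR : 0 < R)
    (hR0 : R ≤ R0) (hη : 0 < η) (hA : 0 < A) (hT : 0 < T) (hE0 : 0 ≤ E0) (hE1 : E0 ≤ 1)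
    (hkey : ¬ sz v0 q < T → C * R ≤ E0 * sz v0 q) (hθ1 : 2 ≤ θs) (hθ2 : C' * (1 + 16 * A / η) ≤ θs)
    (b1 : DifferentiableOn ℂ h (ball x η)) (b2 : InjOn h (ball x η))
    (b4 : ∀ z ∈ ball x η, ‖h z - fm v0 q‖ ≤ R) (b5 : ‖h x - fm v0 q‖ ≤ A * ‖deriv h x‖)
    (hav : sz v0 q < T → ∀ z ∈ ball x η, h z ≠ fm v0 c1) [Decidable (sz v0 q < T)] :
    ∃ h' : ℂ → ℂ, DifferentiableOn ℂ h' (ball x η) ∧ InjOn h' (ball x η) ∧
      (∀ z ∈ ball x η, fm v0 (h' z) = h z ∧ ev v0.2 (h' z) ≠ 0 ∧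
        ‖h' z - q‖ ≤ R * ((if sz v0 q < T then C' else 1 + 1 * E0) / ‖fd v0 q‖)) ∧
      ‖h' x - q‖ ≤ A * (if sz v0 q < T then 4 * C' else 1 + 3 * E0) * ‖deriv h' x‖ ∧
      ‖fd v0 q‖ ≤ (if sz v0 q < T then θs else 1 + 1 * E0) * ‖fd v0 (h' x)‖ := by
  have hfq : 0 < ‖fd v0 q‖ := norm_pos_iff.2 hq
  by_cases hc : sz v0 q < T
  · rw [if_pos hc, if_pos hc, if_pos hc]
    by_cases hCR : C * R ≤ sz v0 q
    · obtain ⟨h', c1, c2, c3, c4, c5⟩ := ch1_lin hC hL hq hR hR0 hCR hη hA.le b1 b2 b4 b5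
      have hszp : 0 < sz v0 q := lt_of_lt_of_le (by positivity) hCR
      have hr1 : C * R / sz v0 q ≤ 1 := by rw [div_le_one hszp]; exact hCR
      have hr0 : 0 ≤ C * R / sz v0 q := by positivity
      refine ⟨h', c1, c2, fun z hz => ⟨(c3 z hz).1, (c3 z hz).2.1, ?_⟩, ?_, ?_⟩
      · refine (c3 z hz).2.2.trans ?_
        have e1 : R * (C' / ‖fd v0 q‖) = C' * R / ‖fd v0 q‖ := by ring
        rw [e1]
        refine div_le_div_of_nonneg_right (mul_le_mul_of_nonneg_right (by linarith) hR.le) hfq.le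
      · refine c4.trans (mul_le_mul_of_nonneg_right ?_ (norm_nonneg _))
        have h1 : (1 + 3 * (C * R / sz v0 q)) * A ≤ 4 * A := mul_le_mul_of_nonneg_right (by linarith) hA.le
        nlinarith
      · refine c5.trans (mul_le_mul_of_nonneg_right (by linarith) (norm_nonneg _))
    · rw [not_le] at hCR
      obtain ⟨h', c1, c2, c3, c4, c5⟩ := ch1_non (by linarith) hN hq hR hR0 hCR hη hA.le b1 b2 b4 b5 (hav hc)
      refine ⟨h', c1, c2, fun z hz => ⟨(c3 z hz).1, (c3 z hz).2.1, ?_⟩, ?_, ?_⟩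
      · refine (c3 z hz).2.2.trans (le_of_eq (by ring))
      · refine c4.trans (mul_le_mul_of_nonneg_right ?_ (norm_nonneg _))
        nlinarith
      · refine c5.trans (mul_le_mul_of_nonneg_right hθ2 (norm_nonneg _))
  · rw [if_neg hc, if_neg hc, if_neg hc]
    have hk := hkey hc
    rw [not_lt] at hc
    have hszp : 0 < sz v0 q := lt_of_lt_of_le hT hc
    have hr : C * R / sz v0 q ≤ E0 := by rw [div_le_iff₀ hszp]; exact hk
    have hr0 : 0 ≤ C * R / sz v0 q := by positivity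
    have hCR : C * R ≤ sz v0 q := hk.trans (by nlinarith)
    obtain ⟨h', c1, c2, c3, c4, c5⟩ := ch1_lin hC hL hq hR hR0 hCR hη hA.le b1 b2 b4 b5
    refine ⟨h', c1, c2, fun z hz => ⟨(c3 z hz).1, (c3 z hz).2.1, ?_⟩, ?_, ?_⟩
    · refine (c3 z hz).2.2.trans ?_
      have e1 : R * ((1 + 1 * E0) / ‖fd v0 q‖) = (1 + E0) * R / ‖fd v0 q‖ := by ring
      rw [e1]
      refine div_le_div_of_nonneg_right (mul_le_mul_of_nonneg_right (by linarith) hR.le) hfq.le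
    · refine c4.trans (mul_le_mul_of_nonneg_right ?_ (norm_nonneg _))
      rw [mul_comm A]
      exact mul_le_mul_of_nonneg_right (by linarith) hA.le
    · refine c5.trans (mul_le_mul_of_nonneg_right (by linarith) (norm_nonneg _))

theorem ch2 {d : ℕ} {v0 : E d} {K0 : Set ℂ} {C C' R0 : ℝ} {cc : ℂ → ℂ} (hC : 1 ≤ C) (hCC : C ≤ C')
    (hC' : 3 ≤ C') (hR0 : 0 < R0)
    (hst : ∀ q ∈ K0, StepL v0 C R0 q ∧ (fd v0 q ≠ 0 → StepN v0 C C' R0 q (cc q)))
    {α : ℝ} (hα : 0 < α) (M : ℕ) {rK : ℝ} (hrK : 0 < rK) :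
    ∃ δ0 : ℝ, 0 < δ0 ∧ ∀ δ : ℝ, 0 < δ → δ ≤ δ0 → ∀ η : ℝ, 0 < η → η ≤ δ → ∃ As : ℝ, 1 ≤ As ∧
      ∀ (n : ℕ) (P : ℕ → ℂ), Dat v0 K0 α M n P → ∀ x ∈ ball (P 0) δ,
        (∀ k, 0 < k → k ≤ n → sz v0 (P k) < Real.exp (-(α * k / 2)) →
          η ≤ ‖x - it v0 k (cc (P k))‖) →
        ∃ (H : ℕ → ℂ → ℂ) (R A θ : ℕ → ℝ), Chn v0 P n x η H R A θ ∧ (∀ k ≤ n, R k ≤ rK) ∧
          (∀ k ≤ n, A k ≤ As) ∧ (∀ k, 1 ≤ θ k) ∧ ∏ k ∈ Finset.Ioc 0 n, θ k ≤ As := by
  classical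
  obtain ⟨s0, hs1, hgeo⟩ := ch2_geo hα
  have hC'0 : 0 < C' := by linarith
  obtain ⟨Θ, hΘ⟩ : ∃ Θ : ℝ, Θ = Real.exp 1 * C' ^ M := ⟨_, rfl⟩
  obtain ⟨Θ', hΘ'⟩ : ∃ Θ' : ℝ, Θ' = Real.exp 3 * (4 * C') ^ M := ⟨_, rfl⟩
  have hΘ0 : 0 < Θ := by rw [hΘ]; positivity
  have hΘ'0 : 0 < Θ' := by rw [hΘ']; positivity
  have hC0 : 0 < C := by linarith
  have hs0 : 0 < s0 := by linarith
  refine ⟨min (min (R0 / (2 * Θ)) (rK / (2 * Θ))) (1 / (2 * C * Θ * Real.exp α * s0)),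
    lt_min (lt_min (by positivity) (by positivity)) (by positivity), fun δ hδ hδδ η hη hηδ => ?_⟩
  have hR1 : 2 * δ * Θ ≤ R0 := by
    have h1 : δ ≤ R0 / (2 * Θ) := hδδ.trans ((min_le_left _ _).trans (min_le_left _ _))
    rw [le_div_iff₀ (by positivity)] at h1
    linarith
  have hR2 : 2 * δ * Θ ≤ rK := by
    have h1 : δ ≤ rK / (2 * Θ) := hδδ.trans ((min_le_left _ _).trans (min_le_right _ _))
    rw [le_div_iff₀ (by positivity)] at h1
    linarith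
  obtain ⟨E0, hE0⟩ : ∃ E0 : ℝ, E0 = 2 * C * Θ * Real.exp α * δ := ⟨_, rfl⟩
  have hE00 : 0 < E0 := by rw [hE0]; positivity
  have hE1 : E0 * s0 ≤ 1 := by
    have h1 : δ ≤ 1 / (2 * C * Θ * Real.exp α * s0) := hδδ.trans (min_le_right _ _)
    rw [le_div_iff₀ (by positivity)] at h1
    rw [hE0]
    linarith
  obtain ⟨e, he⟩ : ∃ e : ℕ → ℝ, ∀ j, e j = E0 * Real.exp (-(α * j / 2)) := ⟨_, fun _ => rfl⟩
  have he0 : ∀ j, 0 ≤ e j := fun j => by rw [he]; positivity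
  have hes : ∀ k, ∑ j ∈ Finset.Ioc 0 k, e j ≤ 1 := by
    intro k
    rw [Finset.sum_congr rfl fun j _ => he j, ← Finset.mul_sum]
    exact (mul_le_mul_of_nonneg_left (hgeo k) hE00.le).trans hE1
  have he1 : ∀ j, e j ≤ 1 := by
    intro j
    have h1 : Real.exp (-(α * j / 2)) ≤ 1 := by
      rw [Real.exp_le_one_iff]
      have : 0 ≤ α * j / 2 := by positivity
      linarith
    rw [he]
    calc E0 * Real.exp (-(α * j / 2)) ≤ E0 * 1 := mul_le_mul_of_nonneg_left h1 hE00.le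
      _ ≤ E0 * s0 := mul_le_mul_of_nonneg_left hs1 hE00.le
      _ ≤ 1 := hE1
  obtain ⟨θs, hθs⟩ : ∃ θs : ℝ, θs = C' * (2 + 16 * (2 * δ * Θ') / η) := ⟨_, rfl⟩
  have hθs2 : 2 * C' ≤ θs := by
    rw [hθs]
    have : 0 ≤ 16 * (2 * δ * Θ') / η := by positivity
    nlinarith
  have hθs1 : 1 ≤ θs := by linarith
  refine ⟨1 + 2 * δ * Θ' + Real.exp 1 * θs ^ M, by
    have : 0 < 2 * δ * Θ' := by positivity
    have : 0 < Real.exp 1 * θs ^ M := by positivity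
    linarith, fun n P hD x hx hav => ?_⟩
  obtain ⟨S, hSM, hScap⟩ := hD.cap
  obtain ⟨T, hT⟩ : ∃ T : ℕ → ℝ, ∀ k, T k = Real.exp (-(α * k / 2)) := ⟨_, fun _ => rfl⟩
  have hT0 : ∀ k, 0 < T k := fun k => by rw [hT]; exact Real.exp_pos _
  have hcapS : ∀ k, 0 < k → k ≤ n → (sz v0 (P k) < T k) → k ∈ S := fun k h1 h2 h3 =>
    hScap k h1 h2 (by rw [← hT]; exact h3)
  obtain ⟨G, hG⟩ : ∃ G : ℕ → ℝ, ∀ j, G j = if sz v0 (P j) < T j then C' else 1 + 1 * e j :=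
    ⟨_, fun _ => rfl⟩
  obtain ⟨a, ha⟩ : ∃ a : ℕ → ℝ, ∀ j, a j = if sz v0 (P j) < T j then 4 * C' else 1 + 3 * e j :=
    ⟨_, fun _ => rfl⟩
  obtain ⟨θ, hθ⟩ : ∃ θ : ℕ → ℝ, ∀ j, θ j = if sz v0 (P j) < T j then θs else 1 + 1 * e j :=
    ⟨_, fun _ => rfl⟩
  obtain ⟨R, hRdef⟩ : ∃ R : ℕ → ℝ, ∀ k, R k = 2 * δ * ∏ j ∈ Finset.Ioc 0 k, (G j / ‖fd v0 (P j)‖) :=
    ⟨_, fun _ => rfl⟩
  obtain ⟨A, hAdef⟩ : ∃ A : ℕ → ℝ, ∀ k, A k = 2 * δ * ∏ j ∈ Finset.Ioc 0 k, a j := ⟨_, fun _ => rfl⟩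
  have hGp : ∀ k ≤ n, ∏ j ∈ Finset.Ioc 0 k, G j ≤ Θ := fun k hk => by
    rw [Finset.prod_congr rfl fun j _ => hG j, hΘ]
    exact ch2_prod he0 hes (by linarith) zero_le_one S hSM hcapS k hk
  have hap : ∀ k ≤ n, ∏ j ∈ Finset.Ioc 0 k, a j ≤ Θ' := fun k hk => by
    rw [Finset.prod_congr rfl fun j _ => ha j, hΘ']
    exact ch2_prod he0 hes (by linarith) (by norm_num) S hSM hcapS k hk
  have hθp : ∀ k ≤ n, ∏ j ∈ Finset.Ioc 0 k, θ j ≤ Real.exp 1 * θs ^ M := fun k hk => by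
    rw [Finset.prod_congr rfl fun j _ => hθ j]
    exact ch2_prod he0 hes hθs1 zero_le_one S hSM hcapS k hk
  have hG1 : ∀ j, 1 ≤ G j := by
    intro j
    rw [hG]
    have := he0 j
    split_ifs <;> linarith
  have ha1 : ∀ j, 1 ≤ a j := by
    intro j
    rw [ha]
    have := he0 j
    split_ifs <;> linarith
  have hθ1 : ∀ j, 1 ≤ θ j := by
    intro j
    rw [hθ]
    have := he0 j
    split_ifs <;> linarith
  have hfp : ∀ j, 0 < j → j ≤ n → 0 < ‖fd v0 (P j)‖ := fun j h1 h2 => norm_pos_iff.2 (hD.ne j h1 h2)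
  have hRpos : ∀ k ≤ n, 0 < R k := by
    intro k hk
    rw [hRdef]
    refine mul_pos (by positivity) (Finset.prod_pos fun j hj => ?_)
    rw [Finset.mem_Ioc] at hj
    exact div_pos (by linarith [hG1 j]) (hfp j hj.1 (by omega))
  have hApos : ∀ k, 0 < A k := by
    intro k
    rw [hAdef]
    refine mul_pos (by positivity) (Finset.prod_pos fun j _ => by linarith [ha1 j])
  have hRle : ∀ k ≤ n, R k ≤ 2 * δ * Θ * Real.exp (-(α * k)) := by
    intro k hk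
    have h1 := hGp k hk
    have h2 := hD.hyp k hk
    rw [hRdef, Finset.prod_div_distrib, mul_assoc (2 * δ) Θ]
    refine mul_le_mul_of_nonneg_left ?_ (by positivity)
    rw [Real.exp_neg, ← div_eq_mul_inv]
    exact div_le_div₀ hΘ0.le h1 (Real.exp_pos _) h2
  have hRR : ∀ k ≤ n, R k ≤ 2 * δ * Θ := by
    intro k hk
    refine (hRle k hk).trans ?_
    have h1 : Real.exp (-(α * k)) ≤ 1 := by
      rw [Real.exp_le_one_iff]
      have : 0 ≤ α * k := by positivity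
      linarith
    calc 2 * δ * Θ * Real.exp (-(α * k)) ≤ 2 * δ * Θ * 1 := mul_le_mul_of_nonneg_left h1 (by positivity)
      _ = 2 * δ * Θ := mul_one _
  have hAA : ∀ k ≤ n, A k ≤ 2 * δ * Θ' := fun k hk => by
    rw [hAdef]
    exact mul_le_mul_of_nonneg_left (hap k hk) (by positivity)
  have hRs : ∀ k, R (k + 1) = R k * (G (k + 1) / ‖fd v0 (P (k + 1))‖) := by
    intro k
    rw [hRdef, hRdef, Finset.prod_Ioc_succ_top (by omega)]
    ring
  have hAs : ∀ k, A (k + 1) = A k * a (k + 1) := by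
    intro k
    rw [hAdef, hAdef, Finset.prod_Ioc_succ_top (by omega)]
    ring
  have hR00 : R 0 = 2 * δ := by
    rw [hRdef, Finset.Ioc_self, Finset.prod_empty, mul_one]
  have hA00 : A 0 = 2 * δ := by
    rw [hAdef, Finset.Ioc_self, Finset.prod_empty, mul_one]
  -- the chain
  have hbase : DifferentiableOn ℂ (fun z : ℂ => z) (ball x η) ∧ InjOn (fun z : ℂ => z) (ball x η) ∧
      (∀ z ∈ ball x η, it v0 0 z = z) ∧ (∀ z ∈ ball x η, ‖z - P 0‖ ≤ R 0) ∧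
      ‖x - P 0‖ ≤ A 0 * ‖deriv (fun z : ℂ => z) x‖ := by
    rw [mem_ball, dist_eq_norm] at hx
    refine ⟨differentiableOn_id, fun a _ b _ h => h, fun z _ => rfl, fun z hz => ?_, ?_⟩
    · rw [mem_ball, dist_eq_norm] at hz
      have e1 : z - P 0 = (z - x) + (x - P 0) := by ring
      rw [e1, hR00]
      refine (norm_add_le _ _).trans ?_
      linarith
    · rw [hA00, deriv_id'', norm_one]
      linarith
  obtain ⟨H, H0, H1, H2⟩ := ch2_seq (X := ℂ → ℂ)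
    (fun k h => DifferentiableOn ℂ h (ball x η) ∧ InjOn h (ball x η) ∧
      (∀ z ∈ ball x η, it v0 k (h z) = z) ∧ (∀ z ∈ ball x η, ‖h z - P k‖ ≤ R k) ∧
      ‖h x - P k‖ ≤ A k * ‖deriv h x‖)
    (fun k h h' => (∀ z ∈ ball x η, fm v0 (h' z) = h z ∧ ev v0.2 (h' z) ≠ 0) ∧
      ‖fd v0 (P (k + 1))‖ ≤ θ (k + 1) * ‖fd v0 (h' x)‖) (fun z => z) hbase n
    (by
      rintro k hk h ⟨b1, b2, b3, b4, b5⟩
      have hqK := hD.mem (k + 1) hk
      have hq := hD.ne (k + 1) (by omega) hk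
      have horb := hD.orb k hk
      rw [← horb] at b4 b5
      obtain ⟨hL, hN⟩ := hst _ hqK
      have hAk := hAA k (by omega)
      obtain ⟨h', c1, c2, c3, c4, c5⟩ := ch2_step (T := T (k + 1)) (E0 := e (k + 1)) (θs := θs) hC hC' hL (hN hq) hq
        (hRpos k (by omega)) ((hRR k (by omega)).trans hR1) hη (hApos k) (hT0 _) (he0 _) (he1 _)
        (by
          intro hc
          rw [not_lt, hT] at hc
          have h1 : Real.exp (-(α * k)) = Real.exp α * (Real.exp (-(α * (k + 1 : ℕ) / 2)) *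
              Real.exp (-(α * (k + 1 : ℕ) / 2))) := by
            rw [← Real.exp_add, ← Real.exp_add]
            congr 1
            push_cast
            ring
          calc C * R k ≤ C * (2 * δ * Θ * Real.exp (-(α * k))) :=
                mul_le_mul_of_nonneg_left (hRle k (by omega)) hC0.le
            _ = e (k + 1) * Real.exp (-(α * (k + 1 : ℕ) / 2)) := by
                rw [he, hE0, h1]
                ring
            _ ≤ e (k + 1) * sz v0 (P (k + 1)) := mul_le_mul_of_nonneg_left hc (he0 _))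
        (by linarith)
        (by
          rw [hθs]
          refine mul_le_mul_of_nonneg_left ?_ hC'0.le
          have h1 : 16 * A k / η ≤ 16 * (2 * δ * Θ') / η := by gcongr
          linarith)
        b1 b2 b4 b5
        (by
          intro hc z hz hzc
          have h1 : z = it v0 (k + 1) (cc (P (k + 1))) := by
            rw [it_comp]
            have : it v0 1 (cc (P (k + 1))) = fm v0 (cc (P (k + 1))) := rfl
            rw [this, ← hzc]
            exact (b3 z hz).symm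
          have h2 := hav (k + 1) (by omega) hk (by rw [← hT]; exact hc)
          rw [← h1] at h2
          rw [mem_ball, dist_eq_norm, norm_sub_rev] at hz
          linarith)
      refine ⟨h', ⟨c1, c2, fun z hz => ?_, fun z hz => ?_, ?_⟩, fun z hz => ⟨(c3 z hz).1, (c3 z hz).2.1⟩, ?_⟩
      · rw [it_comp]
        have : it v0 1 (h' z) = fm v0 (h' z) := rfl
        rw [this, (c3 z hz).1]
        exact b3 z hz
      · rw [hRs, hG]
        exact (c3 z hz).2.2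
      · rw [hAs, ha]
        exact c4
      · rw [hθ]
        exact c5)
  refine ⟨H, R, A, θ, ⟨fun k hk => (H1 k hk).1, fun z _ => by rw [H0], fun k hk => (H2 k hk).1,
    fun k hk => (H1 k hk).2.2.2.1, fun k hk => (H1 k hk).2.2.2.2, fun k hk => (H2 k hk).2⟩,
    fun k hk => (hRR k hk).trans hR2, fun k hk => ?_, hθ1, ?_⟩
  · have h1 := hAA k hk
    have : 0 < Real.exp 1 * θs ^ M := by positivity
    linarith
  · have h1 := hθp n le_rfl
    have : 0 < 2 * δ * Θ' := by positivity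
    linarith

end Pool.Agent.H79.MZ
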