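import Pool.Agent.H79.MZ.CH2

/-!
# Module CH3: from the chain to the branch `Br`

PROOF. `P k = p (n + 1 - k)` for `k ≤ n`, so `P 0 = p (n + 1)`, `P n = p 1`. `g = H n`. `it v0 j (H n z) = H (n - j) z` for `j ≤ n` (`it v0 1 = fm v0`; induction with `Chn.step`), so `it v0 n (g z) = H 0 z = z` (`inv`), and `it v0 j (g z) = H (n - j) z` is within `R (n - j) ≤ rK` of `P (n - j) = p (j + 1)`, so in `K` (`stay`, hypothesis `hK`).
near: `A n ≤ As`. far: `g` is injective on `ball x η`; `p 1 ∉ g '' ball x η`: if `g z = p 1` then `z = it v0 n (p 1) = p (n + 1)` (`cr_it`), but `η ≤ ‖x - p (n+1)‖`; `univ_cover` (H80/AJ/Cover): `ball (g x) (η ‖deriv g x‖ / 16) ⊆ g '' ball x η`, so `‖g x - p 1‖ ≥ η ‖deriv g x‖ / 16`.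
der: `trD v0 j (p 1) = ∏ i < j, fd v0 (p (i + 1))`, `trD v0 j (g x) = ∏ i < j, fd v0 (it v0 i (g x)) = ∏ i < j, fd v0 (H (n - i) x)`, and `‖fd v0 (p (i+1))‖ = ‖fd v0 (P (n - i))‖ ≤ θ (n - i) ‖fd v0 (H (n - i) x)‖` (`Chn.der` at `k + 1 = n - i ≥ 1`); `∏ i < j, θ (n - i) ≤ ∏ k ∈ Ioc 0 n, θ k ≤ As` as all `θ k ≥ 1`.
The constant is `max As (16 / η)`. The ball `ball x (η / 2) ⊆ ball x η`.
-/

set_option autoImplicit false

open Filter Topology Polynomial Metric Set

namespace Pool.Agent.H79.MZ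

open Pool.Agent.H44.Fatou Pool.Agent.H32.BT Pool.Agent.H79.Eul Pool.Agent.H79.Par Pool.Agent.H61.TT

theorem ch3 {d : ℕ} {v0 : E d} {p B : ℕ → ℂ} (hc : Cr v0 p B) {K : Set ℂ} {rK : ℝ}
    (hK : ∀ k, closedBall (p (k + 1)) rK ⊆ K) {n : ℕ} {x : ℂ} {η As : ℝ} (hη : 0 < η)
    (hAs : 1 ≤ As) {H : ℕ → ℂ → ℂ} {R A θ : ℕ → ℝ}
    (h : Chn v0 (fun k => p (n + 1 - k)) n x η H R A θ) (hR : ∀ k ≤ n, R k ≤ rK)
    (hA : ∀ k ≤ n, A k ≤ As) (hθ : ∀ k, 1 ≤ θ k) (hθp : ∏ k ∈ Finset.Ioc 0 n, θ k ≤ As)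
    (hx : η ≤ ‖x - p (n + 1)‖) : Br v0 p K (η / 2) (max As (16 / η)) n x (H n) := by
  have hit : ∀ j ≤ n, ∀ z ∈ ball x η, it v0 j (H n z) = H (n - j) z := by
    intro j
    induction j with
    | zero =>
      intro _ z _
      rfl
    | succ j ih =>
      intro hj z hz
      have h1 := ih (by omega) z hz
      have h2 := (h.step (n - (j + 1)) (by omega) z hz).1
      have h3 : n - (j + 1) + 1 = n - j := by omega
      rw [h3] at h2
      rw [← h2, ← h1]
      rfl
  have hinv : ∀ z ∈ ball x η, it v0 n (H n z) = z := by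
    intro z hz
    rw [hit n le_rfl z hz, Nat.sub_self]
    exact h.top z hz
  have hsub : ball x (η / 2) ⊆ ball x η := ball_subset_ball (by linarith)
  have hxm : x ∈ ball x η := mem_ball_self hη
  have hp1 : p (n + 1 - n) = p 1 := by
    have : n + 1 - n = 1 := by omega
    rw [this]
  have hinj : InjOn (H n) (ball x η) := by
    intro z hz z' hz' hzz
    rw [← hinv z hz, ← hinv z' hz', hzz]
  refine ⟨(h.diff n le_rfl).mono hsub, ?_, fun z hz => hinv z (hsub hz), ?_, ?_, ?_⟩
  · intro z hz j hj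
    rw [hit j hj z (hsub hz)]
    refine hK j ?_
    rw [mem_closedBall, dist_eq_norm]
    have h1 := h.bd (n - j) (by omega) z (hsub hz)
    have h2 : n + 1 - (n - j) = j + 1 := by omega
    rw [h2] at h1
    exact h1.trans (hR (n - j) (by omega))
  · have h1 := h.near n le_rfl
    rw [hp1] at h1
    refine h1.trans (mul_le_mul_of_nonneg_right ?_ (norm_nonneg _))
    exact (hA n le_rfl).trans (le_max_left _ _)
  · have h1 := Pool.Agent.H80.AJ.univ_cover hη (h.diff n le_rfl) hinj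
    have h2 : p 1 ∉ ball (H n x) (η * ‖deriv (H n) x‖ / 16) := by
      intro h3
      obtain ⟨z, hz, hz2⟩ := h1 h3
      have h4 := hinv z hz
      rw [hz2, cr_it hc, Nat.add_comm 1 n] at h4
      rw [← h4, mem_ball, dist_eq_norm, norm_sub_rev] at hz
      linarith
    rw [mem_ball, dist_eq_norm, not_lt, norm_sub_rev] at h2
    have h3 : ‖deriv (H n) x‖ ≤ 16 / η * ‖H n x - p 1‖ := by
      rw [div_mul_eq_mul_div, le_div_iff₀ hη]
      linarith
    exact h3.trans (mul_le_mul_of_nonneg_right (le_max_right _ _) (norm_nonneg _))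
  · intro j hj
    have h1 : trD v0 j (p 1) = ∏ i ∈ Finset.range j, fd v0 (p (i + 1)) := by
      unfold trD
      refine Finset.prod_congr rfl fun i _ => ?_
      rw [cr_it hc, Nat.add_comm 1 i]
      rfl
    have h2 : trD v0 j (H n x) = ∏ i ∈ Finset.range j, fd v0 (H (n - i) x) := by
      unfold trD
      refine Finset.prod_congr rfl fun i hi => ?_
      rw [Finset.mem_range] at hi
      rw [hit i (by omega) x hxm]
      rfl
    rw [h1, h2, norm_prod, norm_prod]
    have h3 : ∏ i ∈ Finset.range j, ‖fd v0 (p (i + 1))‖ ≤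
        ∏ i ∈ Finset.range j, (θ (n - i) * ‖fd v0 (H (n - i) x)‖) := by
      refine Finset.prod_le_prod (fun i _ => norm_nonneg _) fun i hi => ?_
      rw [Finset.mem_range] at hi
      have h4 := h.der (n - i - 1) (by omega)
      have h5 : n - i - 1 + 1 = n - i := by omega
      have h6 : n + 1 - (n - i) = i + 1 := by omega
      rw [h5, h6] at h4
      exact h4
    refine h3.trans ?_
    rw [Finset.prod_mul_distrib]
    refine mul_le_mul_of_nonneg_right ?_ (Finset.prod_nonneg fun i _ => norm_nonneg _)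
    refine le_trans ?_ (hθp.trans (le_max_left _ _))
    have h7 : ∏ i ∈ Finset.range j, θ (n - i) =
        ∏ k ∈ (Finset.range j).image (fun i => n - i), θ k := by
      rw [Finset.prod_image]
      intro i hi i' hi' hii
      rw [Finset.coe_range, Set.mem_Iio] at hi hi'
      have h8 : n - i = n - i' := hii
      omega
    rw [h7]
    refine Finset.prod_le_prod_of_subset_of_one_le ?_ ?_ ?_
    · intro k hk
      rw [Finset.mem_image] at hk
      obtain ⟨i, hi, rfl⟩ := hk
      rw [Finset.mem_range] at hi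
      rw [Finset.mem_Ioc]
      omega
    · intro k _
      exact zero_le_one.trans (hθ k)
    · intro k _ _
      exact hθ k

end Pool.Agent.H79.MZ
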