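import Pool.Agent.H79.MZ.SCA
import Pool.Agent.H79.MZ.KGB
import Pool.Agent.H79.MZ.APX
import Pool.Agent.H79.MZ.ALI
import Pool.Agent.H44.RR.RSN

/-!
# Module INF: transversality for an infinite critical orbit with conical value

PROOF. Notation `q = qq p B`, `a = pol v0.1`, `b = pol v0.2`, `G = gg a b`; `it v0 j z = G^[j] z` (`kn_it_gg`, H35/EX/KapNe), `ev v0.2 z = b.eval z` (`ev_pol`).
STEP 0. `k ↦ p (k + 1)` is injective: if `p (i + 1) = p (j + 1)`, `i < j`, all later points repeat and the range is finite, against `hinf`.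
STEP 1. Conical integers `n i → ∞` (strictly increasing) with `p (n i + 1) → y` (bounded, `tendsto_subseq_of_bounded`). For infinitely many `i` the point `p (n i + 1)` is different from `y` (injectivity), so choose `m` with `x = p (m + 1)`, `x ≠ y`, `τ = ‖x - y‖ < δ / 8`.
STEP 2. `apx` at `x`, `R = Rs p B x ≠ 0` (`rs_ne`), `atm` at `x`: `ε0` and, for all small `η`, the conclusion. Let `C1` be the constant of `kgb`. Fix `η > 0` small: conclusion of `apx`, `η ≤ τ / 16`, `ball x η ⊆ ball y (δ / 4)`, and `(C1 * η / (τ / 2)) * volume (ball x η) ≤ ofReal (ε0 η ^ 2 / 2)` (`volume (ball x η) = π η ^ 2`: so `2 C1 η π / τ ≤ ε0 / 2`).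
STEP 3. Let `n = n i` be large, `g` with `Con v0 p K δ n g`, `c = p (n + 1)`, `‖c - y‖ < τ / 4` and `< δ/8`: `τ / 2 ≤ ‖x - c‖ ≤ δ / 4`, `ball x η ⊆ ball c (δ / 2)`. `k z = deriv g z ^ 2 / (B n * (g z - p 1))` (`deriv g c = B n`, `con_deriv`; `g c = p 1`), `R1 = Rs p B (p 1) ≠ 0` (`rs_ne`), `k x ≠ 0`.
Let `E z = q (g z) * deriv g z ^ 2 / (B n * R1 * k x)`. Then `E z - 1 = (q (g z) deriv g z ^ 2 / B n - R1 k z) / (R1 k x) + (k z / k x - 1)`. By `sca` (with `ε` small compared with `ε0 η ^ 2 ‖R1‖ / (C1 δ)`-like constants: `‖k x‖ ≥ 1 / (C1 ‖x - c‖) ≥ 1 / (C1 δ)`) and `kgb`: `∫⁻ z in ball x η, ‖E z - 1‖ₑ ≤ ε C1 δ / ‖R1‖ + (2 C1 η / τ) π η ^ 2 ≤ ofReal (ε0 η ^ 2)`.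
STEP 4. `al_g` with `U = ball c δ`: for almost every `z ∈ ball x η`: `q (g z) deriv g z ^ 2 = ρ q z`, `ρ ≥ 0`, so `E z = (ρ / ‖B n R1 k x‖) * (ω * q z)` with `ω = ‖B n R1 k x‖ / (B n R1 k x)`, `‖ω‖ = 1`. `E` is almost everywhere measurable on `ball x η` (`q` measurable: `qq_meas`; `g`, `deriv g` continuous on the ball:
`ContinuousOn.aemeasurable`; for `q ∘ g`: `Measurable.comp_aemeasurable`). This contradicts `apx`.
-/

set_option autoImplicit false

open MeasureTheory Metric Set Polynomial Filter Topology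

namespace Pool.Agent.H79.MZ

open Pool.Agent.H44.Fatou Pool.Agent.H32.BT Pool.Agent.H79.Eul Pool.Agent.H79.Par Pool.Agent.H61.TT
open Pool.Agent.H35.EX Pool.Agent.H44.RR

private theorem inf_inj {d : ℕ} {v0 : E d} {p B : ℕ → ℂ} (hc : Cr v0 p B)
    (hinf : (Set.range fun k => p (k + 1)).Infinite) : Function.Injective fun k => p (k + 1) := by
  have key : ∀ i j, i < j → p (i + 1) ≠ p (j + 1) := by
    intro i j hij heq
    have h1 : ∀ m, p (i + 1 + m) = p (j + 1 + m) := by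
      intro m
      induction m with
      | zero => exact heq
      | succ m ih =>
        have e1 : i + 1 + (m + 1) = (i + 1 + m) + 1 := by omega
        have e2 : j + 1 + (m + 1) = (j + 1 + m) + 1 := by omega
        rw [e1, e2, ← hc.orb (i + 1 + m), ← hc.orb (j + 1 + m), ih]
    have h2 : ∀ k, ∃ l < j, p (l + 1) = p (k + 1) := by
      intro k
      induction k using Nat.strong_induction_on with
      | _ k ih =>
        by_cases hk : k < j
        · exact ⟨k, hk, rfl⟩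
        · push Not at hk
          obtain ⟨l, hl, hl2⟩ := ih (k - (j - i)) (by omega)
          refine ⟨l, hl, ?_⟩
          rw [hl2]
          have h3 := h1 (k - j)
          have e1 : i + 1 + (k - j) = k - (j - i) + 1 := by omega
          have e2 : j + 1 + (k - j) = k + 1 := by omega
          rw [e1, e2] at h3
          exact h3
    refine hinf ?_
    refine ((Set.finite_Iio j).image fun l => p (l + 1)).subset ?_
    rintro _ ⟨k, rfl⟩
    obtain ⟨l, hl, hl2⟩ := h2 k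
    exact ⟨l, hl, hl2⟩
  intro i j hij
  rcases lt_trichotomy i j with h | h | h
  · exact absurd hij (key i j h)
  · exact h
  · exact absurd hij.symm (key j i h)

private theorem inf_vol (x : ℂ) {η : ℝ} (hη : 0 < η) :
    volume (ball x η) = ENNReal.ofReal (η ^ 2 * Real.pi) := by
  rw [Complex.volume_ball, ← ENNReal.ofReal_pow hη.le, ENNReal.ofReal_mul (by positivity)]
  congr 1
  rw [← NNReal.coe_real_pi, ENNReal.ofReal_coe_nnreal]

private theorem inf_est {q g : ℂ → ℂ} {x c w β R1 : ℂ} {η δ ε C1 τ : ℝ} {k : ℂ → ℂ}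
    (hk : ∀ z, k z = deriv g z ^ 2 / (β * (g z - w))) (hβ : β ≠ 0) (hR1 : R1 ≠ 0)
    (hη : 0 < η) (hε : 0 ≤ ε) (hδ : 0 < δ) (hC1 : 1 ≤ C1) (hτ : 0 < τ)
    (hkx : 1 / (C1 * δ) ≤ ‖k x‖)
    (hosc : ∀ z ∈ ball x η, ‖k z / k x - 1‖ ≤ C1 * η / (τ / 2))
    (hsub : ball x η ⊆ ball c (δ / 2))
    (hsca : ∫⁻ z in ball c (δ / 2), ‖q (g z) * deriv g z ^ 2 / β -
        R1 * deriv g z ^ 2 / (β * (g z - w))‖ₑ ≤ ENNReal.ofReal ε) :
    ∫⁻ z in ball x η, ‖q (g z) * deriv g z ^ 2 / (β * R1 * k x) - 1‖ₑ ≤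
      ENNReal.ofReal (ε * (C1 * δ / ‖R1‖) + C1 * η / (τ / 2) * (η ^ 2 * Real.pi)) := by
  have hkx0 : 0 < ‖k x‖ := lt_of_lt_of_le (by positivity) hkx
  have hkxne : k x ≠ 0 := norm_pos_iff.1 hkx0
  have hR1n : 0 < ‖R1‖ := norm_pos_iff.2 hR1
  have h1 : ∀ z ∈ ball x η, ‖q (g z) * deriv g z ^ 2 / (β * R1 * k x) - 1‖ₑ ≤
      ‖q (g z) * deriv g z ^ 2 / β - R1 * deriv g z ^ 2 / (β * (g z - w))‖ₑ *
        ENNReal.ofReal (C1 * δ / ‖R1‖) + ENNReal.ofReal (C1 * η / (τ / 2)) := by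
    intro z hz
    have e1 : q (g z) * deriv g z ^ 2 / (β * R1 * k x) - 1 =
        (q (g z) * deriv g z ^ 2 / β - R1 * deriv g z ^ 2 / (β * (g z - w))) * (R1 * k x)⁻¹ +
          (k z / k x - 1) := by
      have e2 : R1 * deriv g z ^ 2 / (β * (g z - w)) = R1 * k z := by
        rw [hk z]
        ring
      rw [e2]
      field_simp
      ring
    rw [e1]
    refine (enorm_add_le _ _).trans (add_le_add ?_ ?_)
    · rw [enorm_mul]
      refine mul_le_mul_right ?_ _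
      rw [← ofReal_norm_eq_enorm]
      apply ENNReal.ofReal_le_ofReal
      rw [norm_inv, norm_mul, mul_inv]
      have h2 : ‖k x‖⁻¹ ≤ C1 * δ := by
        rw [inv_le_comm₀ hkx0 (by positivity)]
        rwa [one_div] at hkx
      calc ‖R1‖⁻¹ * ‖k x‖⁻¹ ≤ ‖R1‖⁻¹ * (C1 * δ) := by gcongr
        _ = C1 * δ / ‖R1‖ := by ring
    · rw [← ofReal_norm_eq_enorm]
      exact ENNReal.ofReal_le_ofReal (hosc z hz)
  calc ∫⁻ z in ball x η, ‖q (g z) * deriv g z ^ 2 / (β * R1 * k x) - 1‖ₑ ≤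
        ∫⁻ z in ball x η, (‖q (g z) * deriv g z ^ 2 / β -
          R1 * deriv g z ^ 2 / (β * (g z - w))‖ₑ *
          ENNReal.ofReal (C1 * δ / ‖R1‖) + ENNReal.ofReal (C1 * η / (τ / 2))) :=
        setLIntegral_mono' measurableSet_ball h1
    _ = (∫⁻ z in ball x η, ‖q (g z) * deriv g z ^ 2 / β -
          R1 * deriv g z ^ 2 / (β * (g z - w))‖ₑ) * ENNReal.ofReal (C1 * δ / ‖R1‖) +
          ENNReal.ofReal (C1 * η / (τ / 2)) * ENNReal.ofReal (η ^ 2 * Real.pi) := by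
        rw [lintegral_add_right _ measurable_const, lintegral_mul_const' _ _ ENNReal.ofReal_ne_top,
          setLIntegral_const, inf_vol x hη]
    _ ≤ ENNReal.ofReal ε * ENNReal.ofReal (C1 * δ / ‖R1‖) +
          ENNReal.ofReal (C1 * η / (τ / 2)) * ENNReal.ofReal (η ^ 2 * Real.pi) := by
        gcongr
        exact (lintegral_mono_set hsub).trans hsca
    _ = ENNReal.ofReal (ε * (C1 * δ / ‖R1‖) + C1 * η / (τ / 2) * (η ^ 2 * Real.pi)) := by
        rw [← ENNReal.ofReal_mul hε, ← ENNReal.ofReal_mul (by positivity),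
          ← ENNReal.ofReal_add (by positivity) (by positivity)]

theorem inf_false {d : ℕ} {v0 : E d} {p B : ℕ → ℂ} {K : Set ℂ} {δ : ℝ} (h : Good v0 p B K δ)
    (hs : Ser d (pol v0.1) (pol v0.2) p B) (hinf : (Set.range fun k => p (k + 1)).Infinite) :
    False := by
  have hc := h.cr
  have hδ := h.hδ
  have hRat : RatD d (pol v0.1) (pol v0.2) := ⟨h.hd, h.cop, h.deg⟩
  have hpinj := inf_inj hc hinf
  -- the limit point
  obtain ⟨φ1, hφ1, hcon1⟩ := extraction_of_frequently_atTop h.con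
  obtain ⟨Rp, hRp⟩ := hc.pb
  obtain ⟨y, -, φ2, hφ2, hy⟩ := tendsto_subseq_of_bounded
    (s := closedBall (0 : ℂ) Rp) isBounded_closedBall (x := fun i => p (φ1 i + 1))
    (fun i => by rw [mem_closedBall, dist_zero_right]; exact hRp _)
  have hnmono : StrictMono (fun i => φ1 (φ2 i)) := hφ1.comp hφ2
  have hni : Tendsto (fun i => φ1 (φ2 i)) atTop atTop := hnmono.tendsto_atTop
  have hy' : Tendsto (fun i => p (φ1 (φ2 i) + 1)) atTop (𝓝 y) := hy
  -- the point x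
  obtain ⟨m, hmy, hmδ⟩ : ∃ m, p (m + 1) ≠ y ∧ dist (p (m + 1)) y < δ / 8 := by
    have h1 : ∀ᶠ i in atTop, dist (p (φ1 (φ2 i) + 1)) y < δ / 8 :=
      hy'.eventually (ball_mem_nhds y (by positivity))
    rw [eventually_atTop] at h1
    obtain ⟨I, hI⟩ := h1
    by_cases h2 : p (φ1 (φ2 I) + 1) = y
    · refine ⟨φ1 (φ2 (I + 1)), ?_, hI (I + 1) (by omega)⟩
      intro h3
      have h4 : (φ1 (φ2 I)) = φ1 (φ2 (I + 1)) := hpinj (h2.trans h3.symm)
      have h5 : φ1 (φ2 I) < φ1 (φ2 (I + 1)) := hnmono (Nat.lt_succ_self I)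
      omega
    · exact ⟨φ1 (φ2 I), h2, hI I le_rfl⟩
  obtain ⟨x, hx⟩ : ∃ x, x = p (m + 1) := ⟨_, rfl⟩
  rw [← hx] at hmy hmδ
  obtain ⟨τ, hτ⟩ : ∃ τ, τ = dist x y := ⟨_, rfl⟩
  have hτ0 : 0 < τ := by rw [hτ]; exact dist_pos.2 hmy
  rw [← hτ] at hmδ
  have hRx : Rs p B x ≠ 0 := by rw [hx]; exact rs_ne hs m
  have hR1 : Rs p B (p 1) ≠ 0 := rs_ne hs 0
  have hR1n : 0 < ‖Rs p B (p 1)‖ := norm_pos_iff.2 hR1
  obtain ⟨ε0, hε0, hapx⟩ := apx hRx (qq_meas p B) (atm hs.sm x)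
  obtain ⟨C1, hC1, hkgb⟩ := kgb
  -- the radius eta
  have hC10 : 0 < C1 := by linarith
  have hev : ∀ᶠ η : ℝ in 𝓝[>] 0, η ∈ Ioo (0 : ℝ) (min (τ / 16) (ε0 * τ / (16 * C1))) :=
    Ioo_mem_nhdsGT (by positivity)
  obtain ⟨η, hη1, hηI⟩ := (hapx.and hev).exists
  have hη : 0 < η := hηI.1
  have hητ : η ≤ τ / 16 := hηI.2.le.trans (min_le_left _ _)
  have hηε : η ≤ ε0 * τ / (16 * C1) := hηI.2.le.trans (min_le_right _ _)
  obtain ⟨ε, hε⟩ : ∃ ε : ℝ, ε = ε0 * η ^ 2 * ‖Rs p B (p 1)‖ / (2 * C1 * δ) := ⟨_, rfl⟩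
  have hε00 : 0 < ε := by rw [hε]; positivity
  -- n large
  have hsca := sca hc (K := K) hδ hε00
  have hev2 : ∀ᶠ i in atTop, dist (p (φ1 (φ2 i) + 1)) y < τ / 4 :=
    hy'.eventually (ball_mem_nhds y (by positivity))
  obtain ⟨i, hi1, hi2⟩ := ((hni.eventually hsca).and hev2).exists
  obtain ⟨n, hn⟩ : ∃ n, n = φ1 (φ2 i) := ⟨_, rfl⟩
  obtain ⟨g, hg⟩ : ∃ g, Con v0 p K δ n g := by rw [hn]; exact hcon1 _
  rw [← hn] at hi1 hi2
  have hi1 := hi1 g hg
  obtain ⟨c, hcc⟩ : ∃ c, c = p (n + 1) := ⟨_, rfl⟩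
  rw [← hcc] at hi1 hi2
  have hderiv : deriv g c = B n := by rw [hcc]; exact con_deriv hc hδ hg
  have hcen : g c = p 1 := by rw [hcc]; exact hg.cen
  have hBn : B n ≠ 0 := cr_ne hc n
  have hgd : DifferentiableOn ℂ g (ball c δ) := by rw [hcc]; exact hg.diff
  have hgi : InjOn g (ball c δ) := by
    intro z hz z' hz' hzz
    rw [hcc] at hz hz'
    rw [← hg.inv z hz, ← hg.inv z' hz', hzz]
  have hxc1 : ‖x - c‖ ≤ 5 * τ / 4 := by
    rw [← dist_eq_norm]
    have := dist_triangle x y c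
    rw [dist_comm y c, ← hτ] at this
    linarith
  have hxc2 : 3 * τ / 4 ≤ ‖x - c‖ := by
    rw [← dist_eq_norm]
    have := dist_triangle x c y
    rw [← hτ] at this
    linarith
  have hxcne : x ≠ c := by
    rintro rfl
    rw [sub_self, norm_zero] at hxc2
    linarith
  obtain ⟨hk1, hk2⟩ := hkgb g c δ hδ hgd hgi x hxcne (by linarith)
  have hk2 := hk2 η hη (by linarith)
  rw [hderiv, hcen] at hk1
  simp only [hderiv, hcen] at hk2
  obtain ⟨k, hk⟩ : ∃ k : ℂ → ℂ, ∀ z, k z = deriv g z ^ 2 / (B n * (g z - p 1)) :=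
    ⟨fun z => deriv g z ^ 2 / (B n * (g z - p 1)), fun _ => rfl⟩
  simp only [← hk] at hk1 hk2
  have hsub : ball x η ⊆ ball c (δ / 2) := by
    intro z hz
    rw [mem_ball] at hz ⊢
    have h1 := dist_triangle z x c
    rw [dist_eq_norm x c] at h1
    linarith
  have hxc0 : 0 < ‖x - c‖ := by linarith
  have hkx : 1 / (C1 * δ) ≤ ‖k x‖ := by
    refine le_trans ?_ hk1
    refine one_div_le_one_div_of_le (by positivity) ?_
    exact mul_le_mul_of_nonneg_left (by linarith) hC10.le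
  have hosc : ∀ z ∈ ball x η, ‖k z / k x - 1‖ ≤ C1 * η / (τ / 2) := by
    intro z hz
    refine (hk2 z hz).trans ?_
    exact div_le_div_of_nonneg_left (by positivity) (by positivity) (by linarith)
  have hest := inf_est (q := qq p B) (g := g) (x := x) (c := c) (w := p 1) (β := B n)
    (R1 := Rs p B (p 1)) (k := k) hk hBn hR1 hη hε00.le hδ hC1 hτ0 hkx hosc hsub hi1
  have hkxne : k x ≠ 0 := norm_pos_iff.1 (lt_of_lt_of_le (by positivity) hkx)
  obtain ⟨Q, hQ⟩ : ∃ Q : ℂ, Q = B n * Rs p B (p 1) * k x := ⟨_, rfl⟩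
  have hQ0 : Q ≠ 0 := by rw [hQ]; exact mul_ne_zero (mul_ne_zero hBn hR1) hkxne
  have hQn : (‖Q‖ : ℂ) ≠ 0 := by
    have : ‖Q‖ ≠ 0 := norm_ne_zero_iff.2 hQ0
    exact_mod_cast this
  rw [← hQ] at hest
  -- alignment
  have hal := al_g hRat hs (U := ball c δ) isOpen_ball hgd (n := n)
    (by
      intro z hz j hj
      rw [hcc] at hz
      have h1 := h.den _ (hg.stay z hz j hj.le)
      rw [ev_pol, kn_it_gg] at h1
      exact h1)
    (by
      intro z hz
      rw [hcc] at hz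
      rw [← kn_it_gg]
      exact hg.inv z hz)
  have hlt := hη1 (fun z => qq p B (g z) * deriv g z ^ 2 / Q) ((‖Q‖ : ℂ) / Q)
    (by
      rw [norm_div, Complex.norm_real, norm_norm]
      exact div_self (norm_ne_zero_iff.2 hQ0))
    (by
      have hgm : AEMeasurable g (volume.restrict (ball x η)) :=
        (hgd.continuousOn.mono (hsub.trans (ball_subset_ball (by linarith)))).aemeasurable
          measurableSet_ball
      exact (((qq_meas p B).comp_aemeasurable hgm).mul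
        ((measurable_deriv g).aemeasurable.pow_const 2)).div_const Q)
    (by
      filter_upwards [hal] with z hz hzb
      obtain ⟨ρ, hρ0, hρ⟩ := hz (ball_subset_ball (by linarith) (hsub hzb))
      refine ⟨ρ / ‖Q‖, by positivity, ?_⟩
      show qq p B (g z) * deriv g z ^ 2 / Q = _
      rw [hρ]
      push_cast
      field_simp)
  refine absurd hlt (not_lt.2 (hest.trans ?_))
  apply ENNReal.ofReal_le_ofReal
  have h1 : ε * (C1 * δ / ‖Rs p B (p 1)‖) = ε0 * η ^ 2 / 2 := by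
    rw [hε]
    field_simp
  have h2 : C1 * η / (τ / 2) * (η ^ 2 * Real.pi) ≤ ε0 * η ^ 2 / 2 := by
    have h3 : C1 * η / (τ / 2) * Real.pi ≤ ε0 / 2 := by
      have h4 : C1 * η ≤ ε0 * τ / 16 := by
        calc C1 * η ≤ C1 * (ε0 * τ / (16 * C1)) := mul_le_mul_of_nonneg_left hηε hC10.le
          _ = ε0 * τ / 16 := by field_simp
      have h5 : C1 * η / (τ / 2) ≤ ε0 / 8 := by
        rw [div_le_iff₀ (by positivity)]
        linarith
      calc C1 * η / (τ / 2) * Real.pi ≤ ε0 / 8 * 4 :=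
            mul_le_mul h5 Real.pi_le_four Real.pi_pos.le (by positivity)
        _ = ε0 / 2 := by ring
    calc C1 * η / (τ / 2) * (η ^ 2 * Real.pi) = C1 * η / (τ / 2) * Real.pi * η ^ 2 := by ring
      _ ≤ ε0 / 2 * η ^ 2 := mul_le_mul_of_nonneg_right h3 (by positivity)
      _ = ε0 * η ^ 2 / 2 := by ring
  rw [h1]
  linarith

end Pool.Agent.H79.MZ
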