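import Pool.Agent.H79.MZ.LST
import Pool.Agent.H79.MZ.TFB

/-!
# Module LIM: the displacement at the critical value is the transversality functional

PROOF. Let `ε > 0`. Choose `J` with: `‖TF v0 p B u - ∑ k ∈ range (J + 1), B k * xi v0 u (p k)‖ ≤ (ε / 4) ‖u‖` for all `u` (`tf_tail`) and `C3 ∑' k, ‖B (k + J + 1)‖ ≤ ε / 4` (`cr.sm`, tails tend to `0`). For `n ≥ J` large (`lst` for `j < J` with `ε / (4 (J + 1))`; the hypothesis on `w 0`):
`w n - p 1 - TF (v - v0) = (w 0 - p 1 - B 0 xi (p 0)) + ∑ j < J, (w (j+1) - w j - B (j+1) xi (p (j+1))) + ∑ J ≤ j < n, (w (j+1) - w j) - (TF - ∑ k ≤ J)`; the third sum is at most `C3 ∑ ‖B (j+1)‖ ‖v - v0‖ ≤ (ε / 4) ‖v - v0‖` (`Shad.step`).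
-/

set_option autoImplicit false

open Filter Topology Polynomial Metric Set

namespace Pool.Agent.H79.MZ

open Pool.Agent.H44.Fatou Pool.Agent.H32.BT Pool.Agent.H79.Eul Pool.Agent.H79.Par Pool.Agent.H61.TT

theorem lim_w {d : ℕ} {v0 : E d} {p B : ℕ → ℂ} (hc : Cr v0 p B) {σ C3 ρ1 ε : ℝ}
    (hC3 : 0 ≤ C3) (hε : 0 < ε) : ∀ᶠ n : ℕ in atTop, ∀ v : E d, ‖v - v0‖ ≤ ρ1 * ‖B n‖ →
      ∀ (c : ℂ) (w : ℕ → ℂ), Shad v0 p B σ C3 n v c w →
        ‖w 0 - p 1 - xi v0 (v - v0) (p 0)‖ ≤ ε / 4 * ‖v - v0‖ →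
          ‖w n - p 1 - TF v0 p B (v - v0)‖ ≤ ε * ‖v - v0‖ := by
  have hε4 : 0 < ε / 4 := by positivity
  obtain ⟨J1, hJ1⟩ := tf_tail hc hε4
  have ht1 : Tendsto (fun n => C3 * ∑' k, ‖B (k + n)‖) atTop (𝓝 0) := by
    have := (tendsto_sum_nat_add fun k => ‖B k‖).const_mul C3
    rw [mul_zero] at this
    exact this
  obtain ⟨J2, hJ2⟩ := eventually_atTop.1 (ht1.eventually (gt_mem_nhds hε4))
  set J := max J1 J2 with hJ
  have hJJ1 : J1 ≤ J + 1 := (le_max_left J1 J2).trans (Nat.le_succ _)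
  have hJJ2 : J2 ≤ J + 1 := (le_max_right J1 J2).trans (Nat.le_succ _)
  have hε5 : 0 < ε / (4 * ((J : ℝ) + 1)) := by positivity
  have hl : ∀ᶠ n : ℕ in atTop, ∀ j ∈ Finset.range J, ∀ v : E d, ‖v - v0‖ ≤ ρ1 * ‖B n‖ →
      ∀ (c : ℂ) (w : ℕ → ℂ), Shad v0 p B σ C3 n v c w →
        ‖w (j + 1) - w j - B (j + 1) * xi v0 (v - v0) (p (j + 1))‖ ≤
          ε / (4 * ((J : ℝ) + 1)) * ‖v - v0‖ :=
    (Filter.eventually_all_finset (Finset.range J)).2 fun j _ => lst hc hC3 hε5 j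
  filter_upwards [hl, eventually_ge_atTop J] with n hn hnJ
  intro v hv c w hw h0
  set N := ‖v - v0‖ with hN
  have hN0 : 0 ≤ N := norm_nonneg _
  have a1 := hJ1 (J + 1) hJJ1 (v - v0)
  rw [← hN] at a1
  have a2 : ‖∑ j ∈ Finset.range J, (w (j + 1) - w j - B (j + 1) * xi v0 (v - v0) (p (j + 1)))‖ ≤
      ε / 4 * N := by
    have b1 : ∀ j ∈ Finset.range J,
        ‖w (j + 1) - w j - B (j + 1) * xi v0 (v - v0) (p (j + 1))‖ ≤
          ε / (4 * ((J : ℝ) + 1)) * N := fun j hj => hn j hj v hv c w hw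
    refine (norm_sum_le_of_le _ b1).trans ?_
    rw [Finset.sum_const, Finset.card_range, nsmul_eq_mul]
    have b2 : (J : ℝ) * (ε / (4 * ((J : ℝ) + 1)) * N) = (J * ε / (4 * ((J : ℝ) + 1))) * N := by
      ring
    rw [b2]
    refine mul_le_mul_of_nonneg_right ?_ hN0
    rw [div_le_div_iff₀ (by positivity) (by norm_num)]
    nlinarith
  have a3 : ‖∑ j ∈ Finset.Ico J n, (w (j + 1) - w j)‖ ≤ ε / 4 * N := by
    have b1 : ∀ j ∈ Finset.Ico J n, ‖w (j + 1) - w j‖ ≤ C3 * ‖B (j + 1)‖ * N := fun j hj =>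
      hw.step j (Finset.mem_Ico.1 hj).2
    refine (norm_sum_le_of_le _ b1).trans ?_
    have b2 : ∑ j ∈ Finset.Ico J n, C3 * ‖B (j + 1)‖ * N =
        C3 * (∑ j ∈ Finset.range (n - J), ‖B (j + (J + 1))‖) * N := by
      rw [Finset.sum_Ico_eq_sum_range, Finset.mul_sum, Finset.sum_mul]
      refine Finset.sum_congr rfl fun j _ => ?_
      have b3 : J + j + 1 = j + (J + 1) := by omega
      rw [b3]
    rw [b2]
    refine mul_le_mul_of_nonneg_right ?_ hN0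
    have b4 : ∑ j ∈ Finset.range (n - J), ‖B (j + (J + 1))‖ ≤ ∑' k, ‖B (k + (J + 1))‖ :=
      Summable.sum_le_tsum _ (fun k _ => norm_nonneg _) ((summable_nat_add_iff (J + 1)).2 hc.sm)
    exact (mul_le_mul_of_nonneg_left b4 hC3).trans (hJ2 (J + 1) hJJ2).le
  have a4 : w n - p 1 - TF v0 p B (v - v0) = (w 0 - p 1 - xi v0 (v - v0) (p 0)) +
      ∑ j ∈ Finset.range J, (w (j + 1) - w j - B (j + 1) * xi v0 (v - v0) (p (j + 1))) +
      ∑ j ∈ Finset.Ico J n, (w (j + 1) - w j) -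
      (TF v0 p B (v - v0) - ∑ k ∈ Finset.range (J + 1), B k * xi v0 (v - v0) (p k)) := by
    have b1 : ∑ j ∈ Finset.range n, (w (j + 1) - w j) = w n - w 0 := Finset.sum_range_sub w n
    have b2 := Finset.sum_range_add_sum_Ico (fun j => w (j + 1) - w j) hnJ
    rw [b1] at b2
    rw [Finset.sum_sub_distrib, Finset.sum_range_succ', hc.B0, one_mul]
    linear_combination (-1 : ℂ) * b2
  rw [a4]
  refine (norm_sub_le _ _).trans ?_
  have a5 := norm_add_le ((w 0 - p 1 - xi v0 (v - v0) (p 0)) +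
      ∑ j ∈ Finset.range J, (w (j + 1) - w j - B (j + 1) * xi v0 (v - v0) (p (j + 1))))
      (∑ j ∈ Finset.Ico J n, (w (j + 1) - w j))
  have a6 := norm_add_le (w 0 - p 1 - xi v0 (v - v0) (p 0))
      (∑ j ∈ Finset.range J, (w (j + 1) - w j - B (j + 1) * xi v0 (v - v0) (p (j + 1))))
  linarith

end Pool.Agent.H79.MZ
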