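import Pool.Agent.H79.MZ.TRK

/-!
# Module LST: each step of the shadowing to first order

PROOF. Fix `j`. `φ = it v0 (j + 1)` is differentiable in a neighbourhood of `p 1` (the finitely many denominators `ev v0.2 (p (i + 1))` do not vanish) and has at `p 1` the strict derivative `trD v0 (j+1) (p 1) = 1 / B (j + 1)` (`tr_hasDerivAt`, `cr_trD`; `HasStrictDerivAt` from analyticity, or
`(AnalyticAt ..).hasStrictDerivAt`, or `ContDiffAt.hasStrictDerivAt'`). So for `w, w'` within `η1` of `p 1`: `‖φ w' - φ w - (1 / B (j+1)) (w' - w)‖ ≤ ε1 ‖w' - w‖`. With `w = w j`, `w' = w (j+1)` (`j < n`): `φ (w (j+1)) = it v (j + 2) c = ev v.1 y / ev v.2 y` with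
`y = it v (j + 1) c = it v0 j (w j)`, and `φ (w j) = ev v0.1 y / ev v0.2 y`. `exp_j` at `z0 = p (j + 1)`: `‖φ (w (j+1)) - φ (w j) - xi v0 (v - v0) (p (j+1))‖ ≤ ε2 ‖v - v0‖` if `‖y - p (j + 1)‖` and `‖v - v0‖` are small: `it v0 j` is continuous at `p 1` with value `p (j + 1)`,
`‖w j - p 1‖ ≤ C3 ‖v - v0‖ ≤ C3 ρ1 ‖B n‖`. As `B n → 0` (`cr.sm`), for `n` large all these smallness conditions hold. So `‖(w (j+1) - w j) - B (j+1) xi v0 (v - v0) (p (j+1))‖ ≤ ‖B (j+1)‖ (ε1 ‖w (j+1) - w j‖ + ε2 ‖v - v0‖) ≤ ‖B (j+1)‖ (ε1 C3 Bm + ε2) ‖v - v0‖ ≤ ε ‖v - v0‖` by the choice of `ε1, ε2`.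
-/

set_option autoImplicit false

open Filter Topology Polynomial Metric Set

namespace Pool.Agent.H79.MZ

open Pool.Agent.H44.Fatou Pool.Agent.H32.BT Pool.Agent.H79.Eul Pool.Agent.H79.Par Pool.Agent.H61.TT

private theorem strict_ev {d : ℕ} (a : Fin (d + 1) → ℂ) (z : ℂ) :
    HasStrictDerivAt (fun z => ev a z) (dev a z) z := by
  unfold ev dev
  apply HasStrictDerivAt.fun_sum
  intro i _
  exact (hasStrictDerivAt_pow (i : ℕ) z).const_mul (a i)

private theorem it_strict {d : ℕ} (v : E d) (z : ℂ) :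
    ∀ j : ℕ, (∀ i < j, ev v.2 (it v i z) ≠ 0) → HasStrictDerivAt (fun z => it v j z) (trD v j z) z
  | 0, _ => by
    simp only [it, trD, Finset.range_zero, Finset.prod_empty]
    exact hasStrictDerivAt_id z
  | j + 1, h => by
    have ih := it_strict v z j (fun i hi => h i (by omega))
    have h1 : HasStrictDerivAt (fun z => ev v.1 z / ev v.2 z)
        (wv v (it v j z) / ev v.2 (it v j z) ^ 2) (it v j z) :=
      (strict_ev v.1 _).div (strict_ev v.2 _) (h j (by omega))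
    have h2 := h1.comp z ih
    simp only [trD, Finset.prod_range_succ]
    rw [mul_comm]
    exact h2

private theorem strict_unif {φ : ℂ → ℂ} {D x : ℂ} (h : HasStrictDerivAt φ D x) {ε1 : ℝ}
    (hε1 : 0 < ε1) : ∃ η : ℝ, 0 < η ∧ ∀ w w' : ℂ, ‖w - x‖ ≤ η → ‖w' - x‖ ≤ η →
      ‖φ w' - φ w - D * (w' - w)‖ ≤ ε1 * ‖w' - w‖ := by
  have h1 := h.hasStrictFDerivAt.isLittleO.def hε1
  rw [Metric.eventually_nhds_iff] at h1
  obtain ⟨η, hη, h2⟩ := h1
  refine ⟨η / 2, by linarith, fun w w' hw hw' => ?_⟩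
  have h3 : dist ((w', w) : ℂ × ℂ) (x, x) < η := by
    rw [Prod.dist_eq, max_lt_iff]
    simp only [dist_eq_norm]
    constructor
    · linarith
    · linarith
  have h4 := h2 h3
  simp only [ContinuousLinearMap.toSpanSingleton_apply, smul_eq_mul] at h4
  rw [mul_comm D]
  exact h4

theorem lst {d : ℕ} {v0 : E d} {p B : ℕ → ℂ} (hc : Cr v0 p B) {σ C3 ρ1 ε : ℝ} (hC3 : 0 ≤ C3)
    (hε : 0 < ε) (j : ℕ) : ∀ᶠ n : ℕ in atTop, ∀ v : E d, ‖v - v0‖ ≤ ρ1 * ‖B n‖ →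
      ∀ (c : ℂ) (w : ℕ → ℂ), Shad v0 p B σ C3 n v c w →
        ‖w (j + 1) - w j - B (j + 1) * xi v0 (v - v0) (p (j + 1))‖ ≤ ε * ‖v - v0‖ := by
  obtain ⟨δ, hδ, hb⟩ := hc.bb
  have hne : ∀ k, ev v0.2 (p k) ≠ 0 := fun k h => by
    have h1 := hb k
    rw [h, norm_zero] at h1
    linarith
  have hden : ∀ i, ev v0.2 (it v0 i (p 1)) ≠ 0 := fun i => by
    rw [cr_it hc 1 i]
    exact hne _
  have hs := it_strict v0 (p 1) (j + 1) (fun i _ => hden i)
  have hcj : ContinuousAt (fun z => it v0 j z) (p 1) :=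
    (it_strict v0 (p 1) j (fun i _ => hden i)).hasDerivAt.continuousAt
  have hD := cr_trD hc (j + 1)
  set D := trD v0 (j + 1) (p 1) with hDdef
  set b := ‖B (j + 1)‖ with hb1
  have hb0 : 0 ≤ b := norm_nonneg _
  have hε1 : 0 < ε / (2 * (b * b * C3 + 1)) := by positivity
  have hε2 : 0 < ε / (2 * (b + 1)) := by positivity
  obtain ⟨η1, hη1, h1⟩ := strict_unif hs hε1
  obtain ⟨η2, hη2, h2⟩ := exp_j (v0 := v0) (z0 := p (j + 1)) (hne _) hε2
  have hcj2 : it v0 j (p 1) = p (j + 1) := by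
    rw [cr_it hc 1 j, add_comm]
  obtain ⟨η3, hη3, h3⟩ := Metric.continuousAt_iff.1 hcj η2 hη2
  have hB0 : Tendsto (fun n => ‖B n‖) atTop (𝓝 0) := hc.sm.tendsto_atTop_zero
  have hB1 : Tendsto (fun n => C3 * (ρ1 * ‖B n‖)) atTop (𝓝 0) := by
    have := (hB0.const_mul ρ1).const_mul C3
    rw [mul_zero, mul_zero] at this
    exact this
  have hB2 : Tendsto (fun n => ρ1 * ‖B n‖) atTop (𝓝 0) := by
    have := hB0.const_mul ρ1
    rw [mul_zero] at this
    exact this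
  filter_upwards [hB1.eventually (gt_mem_nhds hη1), hB1.eventually (gt_mem_nhds hη3),
    hB2.eventually (gt_mem_nhds hη2), eventually_ge_atTop (j + 1)] with n hn1 hn3 hn2 hnj
  intro v hv c w hw
  have hvC : C3 * ‖v - v0‖ ≤ C3 * (ρ1 * ‖B n‖) := mul_le_mul_of_nonneg_left hv hC3
  have e1 : ‖w j - p 1‖ ≤ η1 := ((hw.near j (by omega)).1.trans hvC).trans hn1.le
  have e2 : ‖w (j + 1) - p 1‖ ≤ η1 := ((hw.near (j + 1) hnj).1.trans hvC).trans hn1.le
  have e3 : ‖w j - p 1‖ < η3 := lt_of_le_of_lt ((hw.near j (by omega)).1.trans hvC) hn3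
  have e4 : ‖it v0 j (w j) - p (j + 1)‖ ≤ η2 := by
    have h4 := h3 (x := w j) (by rw [dist_eq_norm]; exact e3)
    rw [dist_eq_norm, hcj2] at h4
    exact h4.le
  have e5 := h2 v (hv.trans hn2.le) (it v0 j (w j)) e4
  have e6 := h1 (w j) (w (j + 1)) e1 e2
  have e7 : it v0 (j + 1) (w (j + 1)) = ev v.1 (it v0 j (w j)) / ev v.2 (it v0 j (w j)) := by
    rw [← hw.orb (j + 1) hnj, ← hw.orb j (by omega)]
    rfl
  have e8 : it v0 (j + 1) (w j) = ev v0.1 (it v0 j (w j)) / ev v0.2 (it v0 j (w j)) := rfl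
  rw [← e7, ← e8] at e5
  have e9 := hw.step j (by omega)
  rw [← hb1] at e9
  set X := xi v0 (v - v0) (p (j + 1)) with hX
  set N := ‖v - v0‖ with hN
  have hN0 : 0 ≤ N := norm_nonneg _
  have e10 : w (j + 1) - w j - B (j + 1) * X = B (j + 1) * (D * (w (j + 1) - w j) - X) := by
    linear_combination (-(w (j + 1) - w j)) * hD
  rw [e10, norm_mul, ← hb1]
  have e11 : ‖D * (w (j + 1) - w j) - X‖ ≤
      ε / (2 * (b + 1)) * N + ε / (2 * (b * b * C3 + 1)) * (C3 * b * N) := by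
    have e12 : D * (w (j + 1) - w j) - X = (it v0 (j + 1) (w (j + 1)) - it v0 (j + 1) (w j) - X) -
      (it v0 (j + 1) (w (j + 1)) - it v0 (j + 1) (w j) - D * (w (j + 1) - w j)) := by ring
    rw [e12]
    refine (norm_sub_le _ _).trans (add_le_add e5 ?_)
    exact e6.trans (mul_le_mul_of_nonneg_left e9 hε1.le)
  have e13 : b * (ε / (2 * (b + 1))) ≤ ε / 2 := by
    rw [mul_div_assoc', div_le_div_iff₀ (by positivity) (by positivity)]
    nlinarith
  have e14 : b * (ε / (2 * (b * b * C3 + 1)) * (C3 * b)) ≤ ε / 2 := by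
    have e15 : b * (ε / (2 * (b * b * C3 + 1)) * (C3 * b)) =
        (b * b * C3) * ε / (2 * (b * b * C3 + 1)) := by ring
    rw [e15, div_le_div_iff₀ (by positivity) (by positivity)]
    nlinarith
  calc b * ‖D * (w (j + 1) - w j) - X‖
      ≤ b * (ε / (2 * (b + 1)) * N + ε / (2 * (b * b * C3 + 1)) * (C3 * b * N)) :=
        mul_le_mul_of_nonneg_left e11 hb0
    _ = (b * (ε / (2 * (b + 1))) + b * (ε / (2 * (b * b * C3 + 1)) * (C3 * b))) * N := by ring
    _ ≤ ε * N := mul_le_mul_of_nonneg_right (by linarith) hN0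

end Pool.Agent.H79.MZ
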