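import Pool.Agent.H79.MZ.CNE

/-!
# Module LSV: solving `g^j (w') = g^j (w) + Δ` near the critical value

PROOF. `φ = it v0 j` is injective and holomorphic on `ball (p 1) R`, `R = σ ‖B n‖` (`cn_inj`, `cn_diff`), `‖deriv φ (p 1)‖ = 1 / ‖B j‖` (`cr_trD`). `koe` (H44/DN/KOE; constants `C, N`) on `ball (p 1) R` with radius `R / 2`: `‖deriv φ w‖ ≥ (1/2)^N / C / ‖B j‖ =: a / ‖B j‖`
for `‖w - p 1‖ ≤ R / 2`. `φ` is injective on `ball w (R / 2)` (contained in the big ball when `‖w - p 1‖ ≤ R / 4`... use `ball w (R/2) ⊆ ball (p 1) R`), so `univ_cover` gives `ball (φ w) ((R / 4) * a / ‖B j‖ / 16) ⊆ φ '' ball w (R / 4)`: with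
`c1 = a / 64` (so `‖Δ‖ < c1 σ ‖B n‖ / ‖B j‖`) there is `w' ∈ ball w (R / 4)` with `φ w' = φ w + Δ`. The last inequality of `koe` on `ball w (R / 2)`, radius `R / 4`: `‖deriv φ w‖ ‖w' - w‖ ≤ C ‖φ w' - φ w‖ = C ‖Δ‖`, so `‖w' - w‖ ≤ (C / a) ‖B j‖ ‖Δ‖`.
-/

set_option autoImplicit false

open Filter Topology Polynomial Metric Set

namespace Pool.Agent.H79.MZ

open Pool.Agent.H44.Fatou Pool.Agent.H32.BT Pool.Agent.H79.Eul Pool.Agent.H79.Par Pool.Agent.H61.TT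

theorem lsv : ∃ c1 C2 : ℝ, 0 < c1 ∧ 1 ≤ C2 ∧ ∀ {d : ℕ} {v0 : E d} {p B : ℕ → ℂ}, Cr v0 p B →
    ∀ {K : Set ℂ}, (∀ z ∈ K, ev v0.2 z ≠ 0) → ∀ {σ : ℝ}, 0 < σ → ∀ {n : ℕ}, Cn v0 p B K σ n →
      ∀ j ≤ n, ∀ w Δ : ℂ, ‖w - p 1‖ ≤ σ * ‖B n‖ / 4 → ‖Δ‖ < c1 * σ * ‖B n‖ / ‖B j‖ →
        ∃ w' : ℂ, it v0 j w' = it v0 j w + Δ ∧ ‖w' - w‖ ≤ C2 * ‖B j‖ * ‖Δ‖ := by
  obtain ⟨C, N, hC, hkoe⟩ := Pool.Agent.H44.DN.koe
  have hC0 : 0 < C := lt_of_lt_of_le one_pos hC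
  set a : ℝ := (1 / 2 : ℝ) ^ N / C with ha
  have ha0 : 0 < a := by positivity
  have ha1 : a ≤ 1 := by
    rw [ha, div_le_one hC0]
    exact (pow_le_one₀ (by norm_num) (by norm_num)).trans hC
  refine ⟨a / 64, C / a, by positivity, ?_, ?_⟩
  · rw [one_le_div ha0]
    exact ha1.trans hC
  intro d v0 p B hc K hK σ hσ n hn j hj w Δ hw hΔ
  have hBn : 0 < ‖B n‖ := norm_pos_iff.2 (cr_ne hc n)
  have hBj : 0 < ‖B j‖ := norm_pos_iff.2 (cr_ne hc j)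
  set R : ℝ := σ * ‖B n‖ with hR
  have hR0 : 0 < R := by positivity
  have hinj := cn_inj hn hj
  have hdiff : DifferentiableOn ℂ (it v0 j) (ball (p 1) R) := fun z hz =>
    (cn_diff hK hn hj hz).differentiableAt.differentiableWithinAt
  rw [← hR] at hinj
  have hd1 : deriv (it v0 j) (p 1) = trD v0 j (p 1) :=
    (cn_diff hK hn hj (mem_ball_self hR0)).deriv
  have hd2 : ‖B j‖ * ‖deriv (it v0 j) (p 1)‖ = 1 := by
    rw [hd1, ← norm_mul, cr_trD hc, norm_one]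
  -- the derivative at `w`
  have hw1 : a ≤ ‖B j‖ * ‖deriv (it v0 j) w‖ := by
    have h1 := (hkoe (it v0 j) (p 1) R hR0 hdiff hinj (R / 2) (by positivity) (by linarith) w
      (by rw [mem_closedBall, dist_eq_norm]; linarith)).2.1
    have h2 : 1 - R / 2 / R = (1 / 2 : ℝ) := by
      field_simp
      norm_num
    rw [h2] at h1
    rw [ha, div_le_iff₀ hC0]
    have h3 := mul_le_mul_of_nonneg_left h1 hBj.le
    calc (1 / 2 : ℝ) ^ N = (‖B j‖ * ‖deriv (it v0 j) (p 1)‖) * (1 / 2) ^ N := by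
          rw [hd2, one_mul]
      _ = ‖B j‖ * (‖deriv (it v0 j) (p 1)‖ * (1 / 2) ^ N) := by ring
      _ ≤ _ := h3
      _ = _ := by ring
  have hsub : ball w (R / 2) ⊆ ball (p 1) R := by
    intro z hz
    rw [mem_ball, dist_eq_norm] at hz ⊢
    calc ‖z - p 1‖ = ‖(z - w) + (w - p 1)‖ := by rw [sub_add_sub_cancel]
      _ ≤ ‖z - w‖ + ‖w - p 1‖ := norm_add_le _ _
      _ < R := by linarith
  have hsub4 : ball w (R / 4) ⊆ ball w (R / 2) := ball_subset_ball (by linarith)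
  have h5 := Pool.Agent.H80.AJ.univ_cover (by positivity : 0 < R / 4)
    (hdiff.mono (hsub4.trans hsub)) (hinj.mono (hsub4.trans hsub))
  have h6 : it v0 j w + Δ ∈ ball (it v0 j w) (R / 4 * ‖deriv (it v0 j) w‖ / 16) := by
    rw [mem_ball, dist_eq_norm, add_sub_cancel_left]
    refine lt_of_lt_of_le hΔ ?_
    rw [div_le_iff₀ hBj]
    have h7 : a * R ≤ ‖B j‖ * ‖deriv (it v0 j) w‖ * R := mul_le_mul_of_nonneg_right hw1 hR0.le
    have h8 : a / 64 * σ * ‖B n‖ = a * R / 64 := by rw [hR]; ring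
    rw [h8]
    linarith
  obtain ⟨w', hw', hw2⟩ := h5 h6
  refine ⟨w', hw2, ?_⟩
  rw [mem_ball, dist_eq_norm] at hw'
  have h7 := (hkoe (it v0 j) w (R / 2) (by positivity) (hdiff.mono hsub) (hinj.mono hsub) (R / 4)
    (by positivity) (by linarith) w' (by rw [mem_closedBall, dist_eq_norm]; exact hw'.le)).2.2.2
  rw [hw2, add_sub_cancel_left] at h7
  have h8 : a * ‖w' - w‖ ≤ C * ‖B j‖ * ‖Δ‖ := by
    calc a * ‖w' - w‖ ≤ (‖B j‖ * ‖deriv (it v0 j) w‖) * ‖w' - w‖ :=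
          mul_le_mul_of_nonneg_right hw1 (norm_nonneg _)
      _ = ‖B j‖ * (‖deriv (it v0 j) w‖ * ‖w' - w‖) := by ring
      _ ≤ ‖B j‖ * (C * ‖Δ‖) := mul_le_mul_of_nonneg_left h7 hBj.le
      _ = _ := by ring
  have h9 : C / a * ‖B j‖ * ‖Δ‖ = C * ‖B j‖ * ‖Δ‖ / a := by ring
  rw [h9, le_div_iff₀ ha0, mul_comm]
  exact h8

end Pool.Agent.H79.MZ
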