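import Pool.Agent.H44.RR.RDef

/-!
# Critical orbits with summable and conical value: definitions

`v0 : E d` coefficient vector of the map `g = ev v0.1 / ev v0.2`, `it v0 n` its iterates in the plane, `wv v0 = a' b - a b'`
(its zeros are the critical points), `xi v0 v z` the derivative of the map at `z` in the direction `v`.
`p 0` is a critical point, `p (k + 1)` its orbit, `B k = 1 / (g^k)'(p 1)`.
-/

set_option autoImplicit false

open Filter Topology Polynomial Metric Set

namespace Pool.Agent.H79.MZ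

open Pool.Agent.H44.Fatou Pool.Agent.H32.BT Pool.Agent.H79.Eul Pool.Agent.H79.Par Pool.Agent.H61.TT

/-- a critical orbit in the plane which stays away from infinity and from the poles, with summable inverse
derivatives `B k = 1 / (g^k)'(p 1)` along the orbit of the critical value `p 1` -/
structure Cr {d : ℕ} (v0 : E d) (p B : ℕ → ℂ) : Prop where
  pb : ∃ R : ℝ, ∀ k, ‖p k‖ ≤ R
  bb : ∃ δ : ℝ, 0 < δ ∧ ∀ k, δ ≤ ‖ev v0.2 (p k)‖
  orb : ∀ k, ev v0.1 (p k) / ev v0.2 (p k) = p (k + 1)
  hB : ∀ k, B (k + 1) * (wv v0 (p (k + 1)) / ev v0.2 (p (k + 1)) ^ 2) = B k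
  crit : wv v0 (p 0) = 0
  B0 : B 0 = 1
  sm : Summable fun k => ‖B k‖

/-- the derivative of the critical orbit in the direction `v`, transported to the critical value -/
noncomputable def TF {d : ℕ} (v0 : E d) (p B : ℕ → ℂ) (v : E d) : ℂ := ∑' k, B k * xi v0 v (p k)

/-- an inverse branch `g` of the `n`-th iterate on the ball of radius `δ` about `p (n + 1)` with
`g (p (n + 1)) = p 1`, all intermediate points being in `K` -/
structure Con {d : ℕ} (v0 : E d) (p : ℕ → ℂ) (K : Set ℂ) (δ : ℝ) (n : ℕ) (g : ℂ → ℂ) : Prop where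
  diff : DifferentiableOn ℂ g (ball (p (n + 1)) δ)
  cen : g (p (n + 1)) = p 1
  stay : ∀ z ∈ ball (p (n + 1)) δ, ∀ j ≤ n, it v0 j (g z) ∈ K
  inv : ∀ z ∈ ball (p (n + 1)) δ, it v0 n (g z) = z

/-- the `n`-th iterate is injective on the ball of radius `σ ‖B n‖` about `p 1`, all intermediate points being in `K` -/
structure Cn {d : ℕ} (v0 : E d) (p B : ℕ → ℂ) (K : Set ℂ) (σ : ℝ) (n : ℕ) : Prop where
  stay : ∀ w ∈ ball (p 1) (σ * ‖B n‖), ∀ j ≤ n, it v0 j w ∈ K
  inj : InjOn (it v0 n) (ball (p 1) (σ * ‖B n‖))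

/-- the standing assumptions in a chart: a critical point (of any multiplicity) with summable and conical value, whose
orbit is bounded and does not contain the value at infinity -/
structure Good {d : ℕ} (v0 : E d) (p B : ℕ → ℂ) (K : Set ℂ) (δ : ℝ) : Prop where
  hd : 2 ≤ d
  cop : IsCoprime (pol v0.1) (pol v0.2)
  deg : max (pol v0.1).natDegree (pol v0.2).natDegree = d
  cr : Cr v0 p B
  cpt : IsCompact K
  den : ∀ z ∈ K, ev v0.2 z ≠ 0
  hδ : 0 < δ
  con : ∃ᶠ n in atTop, ∃ g, Con v0 p K δ n g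
  reg : ∀ k, (fib (pol v0.1) (pol v0.2) (p (k + 1))).natDegree = d

end Pool.Agent.H79.MZ
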