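import Pool.Agent.H79.MZ.CNE
import Pool.Agent.H79.MZ.COV
import Pool.Agent.H44.RR.ATM

/-!
# Module SCA: the blow up at the critical value, carried to a large disc

PROOF. `atm` (H44/RR/ATM) at `x = p 1`: `∫⁻ y in ball (p 1) s, ‖qq y - Rs / (y - p 1)‖ₑ ≤ ε' s` for `0 < s < s0(ε')`. Constants `C, N` of `koe` (H44/DN/KOE). For `n` conical with `g`: `deriv g (p (n+1)) = B n` (`con_deriv`); `g '' ball (p (n + 1)) (δ / 2) ⊆ ball (p 1) (C1 ‖B n‖)` with `C1 = C 2^N δ` (`koe`, radius `δ/2`). As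
`‖B n‖ → 0`, for `n` large `C1 ‖B n‖ < s0`. `cov` on `U = ball (p (n+1)) (δ / 2)` (`g` is injective by `inv`): `∫⁻ z in U, ofReal (‖deriv g z‖^2) * ‖qq (g z) - Rs / (g z - p 1)‖ₑ = ∫⁻ y in g '' U, ‖..‖ₑ ≤ ε' C1 ‖B n‖`. The integrand on the left is `‖(qq (g z) - Rs / (g z - p 1)) * deriv g z ^ 2‖ₑ`; dividing by `‖B n‖`
(constant, `lintegral_const_mul'`) gives the claim with `ε' C1 ≤ ε`.
-/

set_option autoImplicit false

open MeasureTheory Metric Set Polynomial Filter Topology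

namespace Pool.Agent.H79.MZ

open Pool.Agent.H44.Fatou Pool.Agent.H32.BT Pool.Agent.H79.Eul Pool.Agent.H79.Par Pool.Agent.H61.TT
open Pool.Agent.H35.EX Pool.Agent.H44.RR

theorem sca {d : ℕ} {v0 : E d} {p B : ℕ → ℂ} (hc : Cr v0 p B) {K : Set ℂ} {δ : ℝ} (hδ : 0 < δ)
    {ε : ℝ} (hε : 0 < ε) : ∀ᶠ n : ℕ in atTop, ∀ g : ℂ → ℂ, Con v0 p K δ n g →
      ∫⁻ z in ball (p (n + 1)) (δ / 2), ‖qq p B (g z) * deriv g z ^ 2 / B n -
        Rs p B (p 1) * deriv g z ^ 2 / (B n * (g z - p 1))‖ₑ ≤ ENNReal.ofReal ε := by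
  obtain ⟨C, N, hC, hkoe⟩ := Pool.Agent.H44.DN.koe
  have hC0 : 0 < C := by linarith
  set C1 : ℝ := C * 2 ^ N * δ with hC1
  have hC1p : 0 < C1 := by positivity
  have hatm := atm (p := p) (B := B) hc.sm (p 1)
  have hε' : (0 : ENNReal) < ENNReal.ofReal (ε / C1) := by
    rw [ENNReal.ofReal_pos]; positivity
  have hev := hatm.eventually (gt_mem_nhds hε')
  have hBt : Tendsto (fun n => C1 * ‖B n‖) atTop (𝓝[>] 0) := by
    rw [tendsto_nhdsWithin_iff]
    refine ⟨?_, Eventually.of_forall fun n => ?_⟩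
    · have := hc.sm.tendsto_atTop_zero.const_mul C1
      rwa [mul_zero] at this
    · have := norm_pos_iff.2 (cr_ne hc n)
      show 0 < C1 * ‖B n‖
      positivity
  filter_upwards [hBt.eventually hev] with n hn
  intro g hg
  have hBn := cr_ne hc n
  have hBp : 0 < ‖B n‖ := norm_pos_iff.2 hBn
  have hgi : InjOn g (ball (p (n + 1)) δ) := by
    intro z hz z' hz' h
    rw [← hg.inv z hz, ← hg.inv z' hz', h]
  have hsub : ball (p (n + 1)) (δ / 2) ⊆ ball (p (n + 1)) δ := ball_subset_ball (by linarith)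
  have himg : g '' ball (p (n + 1)) (δ / 2) ⊆ ball (p 1) (C1 * ‖B n‖) := by
    rintro _ ⟨z, hz, rfl⟩
    have h1 := (hkoe g (p (n + 1)) δ hδ hg.diff hgi (δ / 2) (by positivity) (by linarith) z
      (ball_subset_closedBall hz)).2.2.1
    rw [hg.cen, con_deriv hc hδ hg, show (1 : ℝ) - δ / 2 / δ = 1 / 2 by field_simp; ring] at h1
    have h2 : ‖z - p (n + 1)‖ < δ / 2 := by rwa [mem_ball, dist_eq_norm] at hz
    rw [mem_ball, dist_eq_norm]
    have h3 : ‖g z - p 1‖ ≤ C * (‖B n‖ * ‖z - p (n + 1)‖) * 2 ^ N := by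
      have h4 : ‖g z - p 1‖ = ‖g z - p 1‖ * (1 / 2) ^ N * 2 ^ N := by
        rw [mul_assoc, ← mul_pow]; norm_num
      rw [h4]
      exact mul_le_mul_of_nonneg_right h1 (by positivity)
    calc ‖g z - p 1‖ ≤ C * (‖B n‖ * ‖z - p (n + 1)‖) * 2 ^ N := h3
      _ ≤ C * (‖B n‖ * (δ / 2)) * 2 ^ N := by gcongr
      _ < C1 * ‖B n‖ := by
          rw [hC1]
          have : 0 < C * 2 ^ N * δ * ‖B n‖ := by positivity
          nlinarith
  have hI : (∫⁻ y in g '' ball (p (n + 1)) (δ / 2), ‖qq p B y - Rs p B (p 1) / (y - p 1)‖ₑ) ≤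
      ENNReal.ofReal (ε * ‖B n‖) := by
    refine (lintegral_mono_set himg).trans ?_
    have h1 : ENNReal.ofReal (C1 * ‖B n‖) ≠ 0 := by
      rw [Ne, ENNReal.ofReal_eq_zero, not_le]; positivity
    have h2 := (ENNReal.div_le_iff h1 ENNReal.ofReal_ne_top).1 hn.le
    refine h2.trans (le_of_eq ?_)
    rw [← ENNReal.ofReal_mul (by positivity)]
    congr 1
    field_simp
  rw [cov isOpen_ball (hg.diff.mono hsub) (hgi.mono hsub)] at hI
  have hpt : ∀ z : ℂ, ‖qq p B (g z) * deriv g z ^ 2 / B n -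
        Rs p B (p 1) * deriv g z ^ 2 / (B n * (g z - p 1))‖ₑ =
        ‖(B n)⁻¹‖ₑ * (ENNReal.ofReal (‖deriv g z‖ ^ 2) * ‖qq p B (g z) - Rs p B (p 1) / (g z - p 1)‖ₑ) := by
    intro z
    have h1 : qq p B (g z) * deriv g z ^ 2 / B n -
        Rs p B (p 1) * deriv g z ^ 2 / (B n * (g z - p 1)) =
        (B n)⁻¹ * (deriv g z ^ 2 * (qq p B (g z) - Rs p B (p 1) / (g z - p 1))) := by
      simp only [div_eq_mul_inv, mul_inv]
      generalize (g z - p 1)⁻¹ = w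
      ring
    rw [h1, enorm_mul, enorm_mul, ← norm_pow, ofReal_norm]
  simp_rw [hpt]
  rw [lintegral_const_mul' _ _ enorm_ne_top]
  refine (mul_le_mul_right hI _).trans (le_of_eq ?_)
  rw [← ofReal_norm, ← ENNReal.ofReal_mul (norm_nonneg _), norm_inv]
  congr 1
  field_simp

end Pool.Agent.H79.MZ
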