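import Pool.Agent.H79.MZ.CDF
import Pool.Agent.H80.AJ.Cover
import Pool.Agent.H44.DN.CNU
import Pool.Agent.H61.TT.Surj
import Pool.Agent.H61.TT.Fib
import Pool.Agent.H32.BT.Trap

/-!
# Module STA: the linear step, uniformly on a compact set

PROOF. Let `Z = Zc v0` (finite, nonempty: the roots of the nonzero polynomial `W = ww (pol v0.1) (pol v0.2)`, `wv_pol`, `ww_ne`), `N = natDegree W`. `r0 > 0` such that `ev v0.2 ≠ 0` on the closed `r0`-neighbourhood of `K0` (compact). (1) LOGARITHMIC DERIVATIVE: for `q ∈ K0`, `q ∉ Z`, `D0 = infDist q Z > 0`; on `ball q (min (D0/2) r0)`: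
`‖deriv W / W‖ ≤ N / (D0 / 2)` (`W' / W = ∑ 1 / (z - c_i)`) and `‖deriv (b^2) / b^2‖ ≤ C'` (compactness), and `D0 ≤ D1` on `K0` (bounded), so `‖deriv (fd) / fd‖ ≤ C3 / D0`, `C3 = 2 N + C' D1`. So `‖fd v0 z / fd v0 q - 1‖ ≤ C4 ‖z - q‖ / D0` for `‖z - q‖ ≤ κ D0`
(`κ = 1 / (4 (C3 + 1) ..)`, also `κ D1 ≤ r0`): the function `u t = fd (q + t (z - q)) / fd q` satisfies `‖u'‖ ≤ (C3 ‖z - q‖ / D0) ‖u‖`, `u 0 = 1` (Gronwall, or: `fd / fd q = exp L` with `L' = fd' / fd` on the ball: primitive of a holomorphic function on a ball, `‖L‖ ≤ C3 ‖z - q‖ / D0 ≤ 1`, `‖exp L - 1‖ ≤ 2 ‖L‖`).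
Choose `κ` with `C4 κ ≤ 1 / 2`. (2) So `fm v0` on `ball q (κ D0)` satisfies `‖fm z - fm z' - fd q (z - z')‖ ≤ (C4 κ') ‖fd q‖ ‖z - z'‖` on `ball q (κ' D0)` for all `κ' ≤ κ`: `ApproximatesLinearOn` with constant `≤ ‖fd q‖ / 2`: injective, and `fm '' (closedBall q (κ' D0)) ⊇ closedBall (fm q) (κ' D0 ‖fd q‖ / 2)`
(`ApproximatesLinearOn.surjOn_closedBall_of_nonlinearRightInverse`, or contraction). (3) Let `C R ≤ sz v0 q = D0 ‖fd q‖` with `C` large (`2 / C ≤ κ`): put `κ' = 2 R / (D0 ‖fd q‖) ≤ 2 / C`. For every `X` with `‖X - fm q‖ ≤ R` there is exactly one `y ∈ closedBall q (κ' D0)` with `fm y = X`; `h' z` = this `y` for `X = h z`; continuous and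
holomorphic (local inverse: `HasStrictDerivAt` with `fd ≠ 0`; uniqueness). `‖y - q‖ ≤ κ' D0 = 2 R / ‖fd q‖`, so `‖X - fm q - fd q (y - q)‖ ≤ C4 (2 R / sz) ‖fd q‖ ‖y - q‖` and `‖y - q‖ ≤ (‖X - fm q‖ / ‖fd q‖) / (1 - 2 C4 R / sz) ≤ (1 + 4 C4 R / sz) (..)`; `‖fd y / fd q - 1‖ ≤ C4 ‖y - q‖ / D0 ≤ 2 C4 R / sz`. `C = 4 C4 + 2 / κ + 2`. `R0 = 1` is allowed.
If `fd v0 q = 0` then `sz v0 q = 0` and the hypothesis `C * R ≤ sz v0 q` is false.
-/

set_option autoImplicit false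

open Filter Topology Polynomial Metric Set

namespace Pool.Agent.H79.MZ

open Pool.Agent.H44.Fatou Pool.Agent.H32.BT Pool.Agent.H79.Eul Pool.Agent.H79.Par Pool.Agent.H61.TT

private theorem sta_ms {q z : ℂ} {D s : ℝ} (hD : 0 < D) (hs : s = ‖z - q‖ / D) (hs1 : s ≤ 1) (m : Multiset ℂ) :
    (∀ c ∈ m, D ≤ ‖q - c‖) →
    ‖(m.map (fun c => (z - c) / (q - c))).prod - 1‖ ≤ (2 ^ (Multiset.card m) - 1) * s := by
  have hs0 : 0 ≤ s := by rw [hs]; positivity
  induction m using Multiset.induction_on with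
  | empty => intro _; simp
  | cons c m ih =>
    intro h
    have ih' := ih fun c' hc' => h c' (Multiset.mem_cons_of_mem hc')
    have hc := h c (Multiset.mem_cons_self c m)
    have hqc : q - c ≠ 0 := by
      intro h0
      rw [h0, norm_zero] at hc
      linarith
    have e1 : (z - c) / (q - c) = 1 + (z - q) / (q - c) := by
      field_simp
      ring
    have h1 : ‖(z - q) / (q - c)‖ ≤ s := by
      rw [norm_div, hs]
      exact div_le_div_of_nonneg_left (norm_nonneg _) hD hc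
    rw [Multiset.map_cons, Multiset.prod_cons, Multiset.card_cons, e1]
    set Q := (m.map (fun c => (z - c) / (q - c))).prod
    set σ := (z - q) / (q - c)
    have e2 : (1 + σ) * Q - 1 = (Q - 1) * (1 + σ) + σ := by ring
    rw [e2]
    have h2 : ‖1 + σ‖ ≤ 2 := by
      refine (norm_add_le _ _).trans ?_
      rw [norm_one]
      linarith
    have h4 : (0 : ℝ) ≤ (2 ^ (Multiset.card m) - 1) * s :=
      mul_nonneg (sub_nonneg.2 (one_le_pow₀ (by norm_num))) hs0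
    calc ‖(Q - 1) * (1 + σ) + σ‖ ≤ ‖Q - 1‖ * ‖1 + σ‖ + ‖σ‖ := by
          refine (norm_add_le _ _).trans ?_
          rw [norm_mul]
      _ ≤ ((2 ^ (Multiset.card m) - 1) * s) * 2 + s := by gcongr
      _ = (2 ^ (Multiset.card m + 1) - 1) * s := by rw [pow_succ]; ring

private theorem sta_W (W : Polynomial ℂ) {q z : ℂ} {D : ℝ} (hD : 0 < D) (hz : ‖z - q‖ ≤ D)
    (hq : ∀ c, W.eval c = 0 → D ≤ ‖q - c‖) :
    ‖W.eval z / W.eval q - 1‖ ≤ 2 ^ (Multiset.card W.roots) * (‖z - q‖ / D) := by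
  rcases eq_or_ne W 0 with rfl | hW
  · have := hq q (by simp)
    rw [sub_self, norm_zero] at this
    linarith
  have h1 : W.Splits := IsAlgClosed.splits W
  have hm : ∀ c ∈ W.roots, D ≤ ‖q - c‖ := fun c hc => hq c (by
    rw [mem_roots hW] at hc
    exact hc)
  have h2 := sta_ms hD rfl (by rw [div_le_one hD]; exact hz) W.roots hm (z := z)
  have h3 : W.eval z / W.eval q = (W.roots.map (fun c => (z - c) / (q - c))).prod := by
    rw [h1.eval_eq_prod_roots z, h1.eval_eq_prod_roots q, Multiset.prod_map_div]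
    exact mul_div_mul_left _ _ (leadingCoeff_ne_zero.2 hW)
  rw [h3]
  refine h2.trans (mul_le_mul_of_nonneg_right (by linarith) (by positivity))

private theorem sta_b (b : Polynomial ℂ) {K0 : Set ℂ} (hK0 : IsCompact K0) (hden : ∀ z ∈ K0, b.eval z ≠ 0) :
    ∃ r C : ℝ, 0 < r ∧ 0 ≤ C ∧ ∀ q ∈ K0, ∀ z, ‖z - q‖ ≤ r → b.eval z ≠ 0 ∧
      ‖b.eval q ^ 2 / b.eval z ^ 2 - 1‖ ≤ C * ‖z - q‖ := by
  have hopen : IsOpen {z : ℂ | b.eval z ≠ 0} := isOpen_ne_fun b.continuous continuous_const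
  obtain ⟨r, hr, hsub⟩ := hK0.exists_cthickening_subset_open hopen (fun z hz => hden z hz)
  have hcp : IsCompact (cthickening r K0) := hK0.cthickening
  obtain ⟨C1, hC1⟩ := hcp.exists_bound_of_continuousOn (f := fun z => (derivative (b ^ 2)).eval z)
    (Polynomial.continuous _).continuousOn
  obtain ⟨C2, hC2⟩ := hcp.exists_bound_of_continuousOn (f := fun z => (b.eval z ^ 2)⁻¹)
    (ContinuousOn.inv₀ ((b.continuous.pow 2).continuousOn) fun z hz => pow_ne_zero 2 (hsub hz))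
  refine ⟨r, |C1| * |C2|, hr, by positivity, fun q hq z hz => ?_⟩
  have hball : closedBall q r ⊆ cthickening r K0 := closedBall_subset_cthickening hq r
  have hzb : z ∈ closedBall q r := by rw [mem_closedBall, dist_eq_norm]; exact hz
  have hqb : q ∈ closedBall q r := mem_closedBall_self hr.le
  have hz0 : b.eval z ≠ 0 := hsub (hball hzb)
  refine ⟨hz0, ?_⟩
  have h1 : ‖(b ^ 2).eval q - (b ^ 2).eval z‖ ≤ |C1| * ‖q - z‖ :=
    Convex.norm_image_sub_le_of_norm_hasDerivWithin_le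
      (fun x _ => ((b ^ 2).hasDerivAt x).hasDerivWithinAt)
      (fun x hx => (hC1 x (hball hx)).trans (le_abs_self _)) (convex_closedBall q r) hzb hqb
  have h2 := (hC2 z (hball hzb)).trans (le_abs_self _)
  rw [eval_pow, eval_pow] at h1
  have e : b.eval q ^ 2 / b.eval z ^ 2 - 1 = (b.eval q ^ 2 - b.eval z ^ 2) * (b.eval z ^ 2)⁻¹ := by
    field_simp
  rw [e, norm_mul]
  calc ‖b.eval q ^ 2 - b.eval z ^ 2‖ * ‖(b.eval z ^ 2)⁻¹‖ ≤ (|C1| * ‖q - z‖) * |C2| := by gcongr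
    _ = |C1| * |C2| * ‖z - q‖ := by rw [norm_sub_rev]; ring

private theorem sta_ke {d : ℕ} {v0 : E d} (hd : 2 ≤ d) (hcop : IsCoprime (pol v0.1) (pol v0.2))
    (hdeg : max (pol v0.1).natDegree (pol v0.2).natDegree = d) {c0 : ℂ} (hc0 : wv v0 c0 = 0)
    {K0 : Set ℂ} (hK0 : IsCompact K0) (hden : ∀ z ∈ K0, ev v0.2 z ≠ 0) :
    ∃ κ C : ℝ, 0 < κ ∧ 1 ≤ C ∧ C * κ ≤ 1 / 2 ∧ ∀ q ∈ K0, wv v0 q ≠ 0 →
      0 < infDist q (Zc v0) ∧ ∀ z, ‖z - q‖ ≤ κ * infDist q (Zc v0) → ev v0.2 z ≠ 0 ∧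
        ‖fd v0 z / fd v0 q - 1‖ ≤ C * (‖z - q‖ / infDist q (Zc v0)) := by
  set W := ww (pol v0.1) (pol v0.2) with hW
  have hWne : W ≠ 0 := ww_ne ⟨hd, hcop, hdeg⟩
  have hZ : Zc v0 = {z | W.eval z = 0} := by
    ext z
    rw [Zc, mem_setOf_eq, mem_setOf_eq, wv_pol]
  have hZc : IsClosed (Zc v0) := by
    rw [hZ]
    exact isClosed_eq W.continuous continuous_const
  have hZne : (Zc v0).Nonempty := ⟨c0, hc0⟩
  obtain ⟨r, C5, hr, hC5, hb⟩ := sta_b (pol v0.2) hK0 (fun z hz => by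
    rw [← ev_pol]; exact hden z hz)
  obtain ⟨D1, hD1⟩ := hK0.exists_bound_of_continuousOn (f := fun q => infDist q (Zc v0))
    (continuous_infDist_pt _).continuousOn
  set N := Multiset.card W.roots with hN
  set C : ℝ := 2 ^ N * (1 + C5 * (|D1| + 1)) + C5 * (|D1| + 1) with hC
  have hD0 : 0 ≤ |D1| := abs_nonneg D1
  have hC1 : 1 ≤ C := by
    have h1 : (1 : ℝ) ≤ 2 ^ N := one_le_pow₀ (by norm_num)
    have h2 : 0 ≤ C5 * (|D1| + 1) := by positivity
    rw [hC]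
    nlinarith
  set κ : ℝ := min (1 / (2 * C)) (r / (|D1| + 1)) with hκ
  have hκ0 : 0 < κ := lt_min (by positivity) (by positivity)
  have hκ1 : C * κ ≤ 1 / 2 := by
    calc C * κ ≤ C * (1 / (2 * C)) := mul_le_mul_of_nonneg_left (min_le_left _ _) (by linarith)
      _ = 1 / 2 := by field_simp
  have hκle : κ ≤ 1 := by nlinarith
  refine ⟨κ, C, hκ0, hC1, hκ1, fun q hq hwq => ?_⟩
  have hD : 0 < infDist q (Zc v0) := (hZc.notMem_iff_infDist_pos hZne).1 hwq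
  refine ⟨hD, fun z hz => ?_⟩
  set D := infDist q (Zc v0) with hDdef
  have hDD : D ≤ |D1| := by
    have := hD1 q hq
    rw [Real.norm_eq_abs, abs_of_pos hD] at this
    exact this.trans (le_abs_self _)
  have hzr : ‖z - q‖ ≤ r := by
    calc ‖z - q‖ ≤ κ * D := hz
      _ ≤ (r / (|D1| + 1)) * (|D1| + 1) := by
          refine mul_le_mul (min_le_right _ _) (by linarith) hD.le (by positivity)
      _ = r := by field_simp
  have hzD : ‖z - q‖ ≤ D := hz.trans (by nlinarith)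
  obtain ⟨hb0, hb1⟩ := hb q hq z hzr
  have hbq : (pol v0.2).eval q ≠ 0 := by rw [← ev_pol]; exact hden q hq
  have hWq : W.eval q ≠ 0 := by rw [hW, ← wv_pol]; exact hwq
  have hw := sta_W W hD hzD (fun c hc => by
    have h1 : c ∈ Zc v0 := by rw [hZ]; exact hc
    have h2 := infDist_le_dist_of_mem (x := q) h1
    rwa [dist_eq_norm] at h2)
  rw [← hN] at hw
  refine ⟨by rw [ev_pol]; exact hb0, ?_⟩
  have e : fd v0 z / fd v0 q = (W.eval z / W.eval q) * ((pol v0.2).eval q ^ 2 / (pol v0.2).eval z ^ 2) := by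
    unfold fd
    rw [wv_pol, wv_pol, ev_pol, ev_pol, ← hW]
    field_simp
  rw [e]
  set u := W.eval z / W.eval q
  set v := (pol v0.2).eval q ^ 2 / (pol v0.2).eval z ^ 2
  set s := ‖z - q‖ / D with hs
  have hs0 : 0 ≤ s := by positivity
  have hs1 : s ≤ 1 := by rw [hs, div_le_one hD]; exact hzD
  have hb2 : ‖v - 1‖ ≤ C5 * (|D1| + 1) * s := by
    refine hb1.trans ?_
    have h1 : ‖z - q‖ = D * s := by rw [hs]; field_simp
    rw [h1]
    calc C5 * (D * s) = C5 * D * s := by ring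
      _ ≤ C5 * (|D1| + 1) * s := by
          refine mul_le_mul_of_nonneg_right (mul_le_mul_of_nonneg_left (by linarith) hC5) hs0
  have hv : ‖v‖ ≤ 1 + C5 * (|D1| + 1) := by
    have h1 : v = 1 + (v - 1) := by ring
    rw [h1]
    refine (norm_add_le _ _).trans ?_
    rw [norm_one]
    have h2 : C5 * (|D1| + 1) * s ≤ C5 * (|D1| + 1) * 1 := mul_le_mul_of_nonneg_left hs1 (by positivity)
    linarith
  have e2 : u * v - 1 = (u - 1) * v + (v - 1) := by ring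
  rw [e2]
  calc ‖(u - 1) * v + (v - 1)‖ ≤ ‖u - 1‖ * ‖v‖ + ‖v - 1‖ := by
        refine (norm_add_le _ _).trans ?_
        rw [norm_mul]
    _ ≤ (2 ^ N * s) * (1 + C5 * (|D1| + 1)) + C5 * (|D1| + 1) * s := by gcongr
    _ = C * s := by rw [hC]; ring

private theorem sta_mv {f F' : ℂ → ℂ} {q : ℂ} {t ε : ℝ}
    (hf : ∀ z ∈ closedBall q t, HasDerivAt f (F' z) z)
    (hF : ∀ z ∈ closedBall q t, ‖F' z - F' q‖ ≤ ε) {z w : ℂ} (hz : z ∈ closedBall q t)
    (hw : w ∈ closedBall q t) : ‖f z - f w - F' q * (z - w)‖ ≤ ε * ‖z - w‖ := by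
  have h1 : ‖(f z - F' q * z) - (f w - F' q * w)‖ ≤ ε * ‖z - w‖ :=
    Convex.norm_image_sub_le_of_norm_hasDerivWithin_le (f := fun z => f z - F' q * z)
      (f' := fun z => F' z - F' q)
      (fun x hx => ((hf x hx).sub (by
        have := (hasDerivAt_id x).const_mul (F' q)
        rwa [mul_one] at this)).hasDerivWithinAt)
      (fun x hx => hF x hx) (convex_closedBall q t) hw hz
  have e : f z - f w - F' q * (z - w) = (f z - F' q * z) - (f w - F' q * w) := by ring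
  rw [e]
  exact h1

private theorem sta_inv {f F' : ℂ → ℂ} {q : ℂ} {t : ℝ} (ht : 0 < t) (hq : F' q ≠ 0)
    (hf : ∀ z ∈ closedBall q t, HasDerivAt f (F' z) z)
    (hF : ∀ z ∈ closedBall q t, ‖F' z - F' q‖ ≤ ‖F' q‖ / 2) :
    ∃ g : ℂ → ℂ, DifferentiableOn ℂ g (ball (f q) (t * ‖F' q‖ / 16)) ∧
      ∀ X ∈ ball (f q) (t * ‖F' q‖ / 16), f (g X) = X ∧ g X ∈ ball q t := by
  have hqn : 0 < ‖F' q‖ := norm_pos_iff.2 hq
  have hinj : InjOn f (ball q t) := by
    intro z hz w hw hzw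
    have h1 := sta_mv hf hF (ball_subset_closedBall hz) (ball_subset_closedBall hw)
    rw [hzw, sub_self, zero_sub, norm_neg, norm_mul] at h1
    have h2 : ‖z - w‖ = 0 := by
      have h3 := norm_nonneg (z - w)
      nlinarith
    exact sub_eq_zero.1 (norm_eq_zero.1 h2)
  have hdf : DifferentiableOn ℂ f (ball q t) := fun z hz =>
    (hf z (ball_subset_closedBall hz)).differentiableAt.differentiableWithinAt
  have hder : ∀ z ∈ ball q t, deriv f z = F' z := fun z hz => (hf z (ball_subset_closedBall hz)).deriv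
  have hcov := Pool.Agent.H80.AJ.univ_cover ht hdf hinj
  rw [hder q (mem_ball_self ht)] at hcov
  have hmem : ∀ X ∈ ball (f q) (t * ‖F' q‖ / 16), f (Function.invFunOn f (ball q t) X) = X ∧
      Function.invFunOn f (ball q t) X ∈ ball q t := fun X hX =>
    ⟨Function.invFunOn_eq (hcov hX), Function.invFunOn_mem (hcov hX)⟩
  refine ⟨Function.invFunOn f (ball q t), ?_, hmem⟩
  intro X hX
  refine DifferentiableAt.differentiableWithinAt ?_
  obtain ⟨hX1, hX2⟩ := hmem X hX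
  set u := Function.invFunOn f (ball q t) X with hu
  have hdu : deriv f u ≠ 0 := by
    rw [hder u hX2]
    intro h0
    have := hF u (ball_subset_closedBall hX2)
    rw [h0, zero_sub, norm_neg] at this
    linarith
  obtain ⟨ψ, hψ1, hψ2, hψ3, hψ4⟩ := Pool.Agent.H44.DN.cnu_inv isOpen_ball hdf hX2 hdu
  rw [hX1] at hψ1 hψ2 hψ3
  have hψc : ContinuousAt ψ X := hψ2.self_of_nhds.continuousAt
  have h5 : ∀ᶠ y in 𝓝 X, ψ y ∈ ball q t := by
    refine hψc.eventually ?_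
    rw [hψ1]
    exact isOpen_ball.mem_nhds hX2
  have h6 : Function.invFunOn f (ball q t) =ᶠ[𝓝 X] ψ := by
    filter_upwards [hψ3, h5, isOpen_ball.mem_nhds hX] with y hy1 hy2 hy3
    obtain ⟨hy4, hy5⟩ := hmem y hy3
    exact hinj hy5 hy2 (hy4.trans hy1.symm)
  exact hψ2.self_of_nhds.congr_of_eventuallyEq h6

theorem sta {d : ℕ} {v0 : E d} (hd : 2 ≤ d) (hcop : IsCoprime (pol v0.1) (pol v0.2))
    (hdeg : max (pol v0.1).natDegree (pol v0.2).natDegree = d) {c0 : ℂ} (hc0 : wv v0 c0 = 0)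
    {K0 : Set ℂ} (hK0 : IsCompact K0) (hden : ∀ z ∈ K0, ev v0.2 z ≠ 0) :
    ∃ C : ℝ, 1 ≤ C ∧ ∀ C' ≥ C, ∀ q ∈ K0, StepL v0 C' 1 q := by
  obtain ⟨κ, C4, hκ0, hC4, hκC, hke⟩ := sta_ke hd hcop hdeg hc0 hK0 hden
  refine ⟨4 * C4 + 17 / κ + 1, by
    have : 0 < 17 / κ := by positivity
    linarith, fun C hC q hq R hR hR1 hCR x ρ h hh hhR => ?_⟩
  have hC17 : 17 / κ ≤ C := by linarith
  have hC44 : 4 * C4 ≤ C := by
    have : 0 < 17 / κ := by positivity
    linarith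
  have hC0 : 0 < C := by linarith
  have hszpos : 0 < sz v0 q := lt_of_lt_of_le (by positivity) hCR
  have hfq : fd v0 q ≠ 0 := by
    intro h0
    rw [sz, h0, norm_zero, mul_zero] at hszpos
    exact lt_irrefl _ hszpos
  have hwq : wv v0 q ≠ 0 := by
    intro h0
    apply hfq
    rw [fd, h0, zero_div]
  obtain ⟨hD, hz⟩ := hke q hq hwq
  set D := infDist q (Zc v0) with hDdef
  have hfn : 0 < ‖fd v0 q‖ := norm_pos_iff.2 hfq
  have hszD : sz v0 q = D * ‖fd v0 q‖ := rfl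
  have hdiff : ∀ z, ‖z - q‖ ≤ κ * D → HasDerivAt (fm v0) (fd v0 z) z := fun z hzz =>
    tr_hasDerivAt_ev v0 z (hz z hzz).1
  have hFe : ∀ z, ‖z - q‖ ≤ κ * D → ‖fd v0 z - fd v0 q‖ ≤ ‖fd v0 q‖ * (C4 * (‖z - q‖ / D)) := by
    intro z hzz
    have h1 := (hz z hzz).2
    have e : fd v0 z - fd v0 q = fd v0 q * (fd v0 z / fd v0 q - 1) := by field_simp
    rw [e, norm_mul]
    exact mul_le_mul_of_nonneg_left h1 hfn.le
  have hκD : 0 < κ * D := by positivity
  obtain ⟨g, hg, hgm⟩ := sta_inv (f := fm v0) (F' := fd v0) hκD hfq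
    (fun z hzb => hdiff z (by rwa [mem_closedBall, dist_eq_norm] at hzb))
    (fun z hzb => by
      rw [mem_closedBall, dist_eq_norm] at hzb
      refine (hFe z hzb).trans ?_
      have h1 : ‖z - q‖ / D ≤ κ := by rw [div_le_iff₀ hD]; exact hzb
      calc ‖fd v0 q‖ * (C4 * (‖z - q‖ / D)) ≤ ‖fd v0 q‖ * (C4 * κ) := by gcongr
        _ ≤ ‖fd v0 q‖ * (1 / 2) := mul_le_mul_of_nonneg_left hκC hfn.le
        _ = ‖fd v0 q‖ / 2 := by ring)
  have hRlt : R < κ * D * ‖fd v0 q‖ / 16 := by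
    have h1 : 17 / κ * R ≤ sz v0 q := (mul_le_mul_of_nonneg_right hC17 hR.le).trans hCR
    rw [hszD] at h1
    have h2 : 17 * R ≤ κ * (D * ‖fd v0 q‖) := by
      have h3 := mul_le_mul_of_nonneg_left h1 hκ0.le
      have e : κ * (17 / κ * R) = 17 * R := by field_simp
      rwa [e] at h3
    nlinarith
  have hhm : ∀ z ∈ ball x ρ, h z ∈ ball (fm v0 q) (κ * D * ‖fd v0 q‖ / 16) := by
    intro z hzb
    rw [mem_ball, dist_eq_norm]
    exact lt_of_le_of_lt (hhR z hzb) hRlt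
  refine ⟨fun z => g (h z), hg.comp hh hhm, fun z hzb => ?_⟩
  obtain ⟨h1, h2⟩ := hgm (h z) (hhm z hzb)
  rw [mem_ball, dist_eq_norm] at h2
  set y := g (h z) with hy
  set τ := ‖y - q‖ with hτ
  have hτ0 : 0 ≤ τ := norm_nonneg _
  have h3 := hz y h2.le
  have hsub : closedBall q τ ⊆ {z | ‖z - q‖ ≤ κ * D} := by
    intro z' hz'
    rw [mem_closedBall, dist_eq_norm] at hz'
    exact hz'.trans h2.le
  have h4 := sta_mv (f := fm v0) (F' := fd v0) (q := q) (t := τ) (ε := ‖fd v0 q‖ * (C4 * (τ / D)))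
    (fun z' hz' => hdiff z' (hsub hz')) (fun z' hz' => by
      refine (hFe z' (hsub hz')).trans ?_
      rw [mem_closedBall, dist_eq_norm] at hz'
      gcongr) (z := y) (w := q) (by rw [mem_closedBall, dist_eq_norm]) (mem_closedBall_self hτ0)
  rw [h1, ← hτ] at h4
  have h5 : ‖fd v0 q‖ * τ ≤ ‖h z - fm v0 q‖ + ‖fd v0 q‖ * (C4 * (τ / D)) * τ := by
    have e : fd v0 q * (y - q) = (h z - fm v0 q) - (h z - fm v0 q - fd v0 q * (y - q)) := by ring
    calc ‖fd v0 q‖ * τ = ‖fd v0 q * (y - q)‖ := by rw [norm_mul]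
      _ = ‖(h z - fm v0 q) - (h z - fm v0 q - fd v0 q * (y - q))‖ := by rw [← e]
      _ ≤ ‖h z - fm v0 q‖ + ‖h z - fm v0 q - fd v0 q * (y - q)‖ := norm_sub_le _ _
      _ ≤ _ := by linarith
  have hR' := hhR z hzb
  set β := ‖h z - fm v0 q‖ with hβ
  have hβ0 : 0 ≤ β := norm_nonneg _
  have h6 : C4 * (τ / D) ≤ 1 / 2 := by
    have : τ / D ≤ κ := by rw [div_le_iff₀ hD]; exact h2.le
    calc C4 * (τ / D) ≤ C4 * κ := by gcongr
      _ ≤ 1 / 2 := hκC
  have h7 : ‖fd v0 q‖ * τ ≤ 2 * β := by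
    have h8 : ‖fd v0 q‖ * (C4 * (τ / D)) * τ ≤ (‖fd v0 q‖ * τ) / 2 := by
      have : ‖fd v0 q‖ * (C4 * (τ / D)) * τ = (‖fd v0 q‖ * τ) * (C4 * (τ / D)) := by ring
      rw [this]
      have h9 : 0 ≤ ‖fd v0 q‖ * τ := by positivity
      nlinarith
    linarith
  -- the relative size
  set ε := 2 * C4 * R / sz v0 q with hε
  have hε0 : 0 ≤ ε := by positivity
  have hετ : C4 * (τ / D) ≤ ε := by
    have h8 : τ / D ≤ 2 * R / sz v0 q := by
      rw [hszD, div_le_div_iff₀ hD (by positivity)]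
      nlinarith
    calc C4 * (τ / D) ≤ C4 * (2 * R / sz v0 q) := by gcongr
      _ = ε := by rw [hε]; ring
  have hε1 : 2 * ε ≤ C * R / sz v0 q := by
    rw [hε, mul_div_assoc', div_le_div_iff_of_pos_right hszpos]
    nlinarith
  have hεh : ε ≤ 1 / 2 := by
    have : C * R / sz v0 q ≤ 1 := by rw [div_le_one hszpos]; exact hCR
    linarith
  refine ⟨h1, h3.1, ?_, ?_⟩
  · have h8 : ‖fd v0 q‖ * τ * (1 - ε) ≤ β := by
      have : ‖fd v0 q‖ * (C4 * (τ / D)) * τ ≤ (‖fd v0 q‖ * τ) * ε := by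
        have e : ‖fd v0 q‖ * (C4 * (τ / D)) * τ = (‖fd v0 q‖ * τ) * (C4 * (τ / D)) := by ring
        rw [e]
        exact mul_le_mul_of_nonneg_left hετ (by positivity)
      linarith
    have h9 : ‖fd v0 q‖ * τ ≤ (1 + 2 * ε) * β := by
      have h10 : 0 ≤ ‖fd v0 q‖ * τ := by positivity
      have h11 : 1 ≤ (1 + 2 * ε) * (1 - ε) := by nlinarith
      calc ‖fd v0 q‖ * τ = ‖fd v0 q‖ * τ * 1 := by ring
        _ ≤ ‖fd v0 q‖ * τ * ((1 + 2 * ε) * (1 - ε)) := by gcongr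
        _ = (1 + 2 * ε) * (‖fd v0 q‖ * τ * (1 - ε)) := by ring
        _ ≤ (1 + 2 * ε) * β := by gcongr
    have h12 : τ ≤ (1 + 2 * ε) * (β / ‖fd v0 q‖) := by
      rw [mul_div_assoc', le_div_iff₀ hfn]
      linarith
    refine h12.trans ?_
    gcongr
  · refine h3.2.trans ?_
    have : C4 * (‖y - q‖ / D) = C4 * (τ / D) := rfl
    linarith

end Pool.Agent.H79.MZ
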