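import Pool.Agent.H79.MZ.LSV
import Pool.Agent.H79.MZ.EXP1

/-!
# Module TRK: the perturbed critical orbit is shadowed from the critical value

PROOF. `c1, C2` from `lsv`; `L, η` from `lip_K` for `K`; the hypothesis on `c` is `ev v.2 c ≠ 0`, `‖it v 1 c - p 1‖ ≤ L0 ‖v - v0‖` (`it v 1 c = ev v.1 c / ev v.2 c`).
`Bm = ∑' ‖B k‖`, `‖B j‖ ≤ Bm`. Put `C3 = L0 + C2 L Bm`, `ρ1` so small that `C3 ρ1 ≤ σ / 4`, `L ρ1 Bm < c1 σ`, and `ρ1 Bm ≤ η` (so `‖v - v0‖ ≤ ρ1 ‖B n‖ ≤ ρ1 Bm` is small).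
Construct `w j` for `j ≤ n` by recursion: `w 0 = it v 1 c`. Given `w j` with `it v (j + 1) c = it v0 j (w j)` and `‖w j - p 1‖ ≤ (L0 + C2 L ∑ k ∈ range j, ‖B (k+1)‖) ‖v - v0‖ ≤ C3 ‖v - v0‖ ≤ σ ‖B n‖ / 4` (so `w j` is in the ball of `Cn`, for `n` with `B n ≠ 0`) and `j < n`:
`y = it v0 j (w j) ∈ K` (`stay`), `Δ = ev v.1 y / ev v.2 y - ev v0.1 y / ev v0.2 y`, `‖Δ‖ ≤ L ‖v - v0‖ ≤ L ρ1 ‖B n‖ < c1 σ ‖B n‖ / ‖B (j+1)‖`; `lsv` at `j + 1` (with `w = w j`): `w (j + 1)` with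
`it v0 (j+1) (w (j+1)) = it v0 (j+1) (w j) + Δ = ev v0.1 y / ev v0.2 y + Δ = ev v.1 y / ev v.2 y = it v (j + 2) c` and `‖w (j+1) - w j‖ ≤ C2 ‖B (j+1)‖ L ‖v - v0‖`. (Formally: prove by induction on `m ≤ n` the existence of a function `w` with the properties up to `m`, extending it with
`Function.update`.) The denominators: `ev v.2 c ≠ 0` (hypothesis), `ev v.2 (it v (j + 1) c) ≠ 0` since `it v (j + 1) c = it v0 j (w j) ∈ K` (`lip_K`). If `‖v - v0‖ = 0` nothing changes in the argument (`B n ≠ 0`: `cr_ne`).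
-/

set_option autoImplicit false

open Filter Topology Polynomial Metric Set

namespace Pool.Agent.H79.MZ

open Pool.Agent.H44.Fatou Pool.Agent.H32.BT Pool.Agent.H79.Eul Pool.Agent.H79.Par Pool.Agent.H61.TT

/-- the points `w j` near the critical value shadow the orbit of the point `c` under `v` -/
structure Shad {d : ℕ} (v0 : E d) (p B : ℕ → ℂ) (σ C3 : ℝ) (n : ℕ) (v : E d) (c : ℂ) (w : ℕ → ℂ) :
    Prop where
  start : w 0 = it v 1 c
  near : ∀ j ≤ n, ‖w j - p 1‖ ≤ C3 * ‖v - v0‖ ∧ ‖w j - p 1‖ ≤ σ * ‖B n‖ / 4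
  orb : ∀ j ≤ n, it v (j + 1) c = it v0 j (w j)
  den : ∀ j ≤ n, ev v.2 (it v j c) ≠ 0
  step : ∀ j < n, ‖w (j + 1) - w j‖ ≤ C3 * ‖B (j + 1)‖ * ‖v - v0‖

theorem trk {d : ℕ} {v0 : E d} {p B : ℕ → ℂ} (hc : Cr v0 p B) {K : Set ℂ} (hK : IsCompact K)
    (hden : ∀ z ∈ K, ev v0.2 z ≠ 0) {σ : ℝ} (hσ : 0 < σ) {L0 : ℝ} (hL0 : 0 ≤ L0) :
    ∃ ρ1 C3 : ℝ, 0 < ρ1 ∧ 0 < C3 ∧ ∀ n : ℕ, Cn v0 p B K σ n → ∀ v : E d, ‖v - v0‖ ≤ ρ1 * ‖B n‖ →
      ∀ c : ℂ, ev v.2 c ≠ 0 → ‖it v 1 c - p 1‖ ≤ L0 * ‖v - v0‖ →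
        ∃ w : ℕ → ℂ, Shad v0 p B σ C3 n v c w := by
  obtain ⟨c1, C2, hc1, hC2, hlsv⟩ := lsv
  obtain ⟨L, η, hL, hη, hlip⟩ := lip_K hK hden
  obtain ⟨Bm, hBm⟩ : ∃ Bm, Bm = ∑' k, ‖B k‖ := ⟨_, rfl⟩
  have hBk : ∀ k, ‖B k‖ ≤ Bm := fun k => by
    rw [hBm]
    exact hc.sm.le_tsum k (fun j _ => norm_nonneg _)
  have hBm1 : 1 ≤ Bm := by
    have := hBk 0
    rwa [hc.B0, norm_one] at this
  have hsum : ∀ j : ℕ, ∑ k ∈ Finset.range j, ‖B (k + 1)‖ ≤ Bm := by
    intro j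
    have h1 : ∑ k ∈ Finset.range (j + 1), ‖B k‖ ≤ Bm := by
      rw [hBm]
      exact hc.sm.sum_le_tsum _ (fun i _ => norm_nonneg _)
    rw [Finset.sum_range_succ'] at h1
    have h2 := norm_nonneg (B 0)
    linarith
  have hBm0 : 0 < Bm := by linarith
  have hC20 : 0 < C2 := by linarith
  obtain ⟨C3, hC3⟩ : ∃ C3, C3 = L0 + C2 * L * Bm := ⟨_, rfl⟩
  have hC30 : 0 < C3 := by
    rw [hC3]
    have : 0 < C2 * L * Bm := by positivity
    linarith
  have hC2L : C2 * L ≤ C3 := by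
    rw [hC3]
    have h1 : C2 * L * 1 ≤ C2 * L * Bm := mul_le_mul_of_nonneg_left hBm1 (by positivity)
    linarith
  obtain ⟨ρ1, hρ, hρa, hρb, hρc⟩ : ∃ ρ1, 0 < ρ1 ∧ C3 * ρ1 ≤ σ / 4 ∧ L * ρ1 * Bm < c1 * σ ∧
      ρ1 * Bm ≤ η := by
    refine ⟨min (σ / (4 * C3)) (min (c1 * σ / (2 * L * Bm)) (η / Bm)), ?_, ?_, ?_, ?_⟩
    · exact lt_min (by positivity) (lt_min (by positivity) (by positivity))
    · calc _ ≤ C3 * (σ / (4 * C3)) := mul_le_mul_of_nonneg_left (min_le_left _ _) hC30.le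
        _ = σ / 4 := by field_simp
    · have h1 : min (σ / (4 * C3)) (min (c1 * σ / (2 * L * Bm)) (η / Bm)) ≤
          c1 * σ / (2 * L * Bm) := (min_le_right _ _).trans (min_le_left _ _)
      calc _ = min (σ / (4 * C3)) (min (c1 * σ / (2 * L * Bm)) (η / Bm)) * (L * Bm) := by ring
        _ ≤ c1 * σ / (2 * L * Bm) * (L * Bm) := mul_le_mul_of_nonneg_right h1 (by positivity)
        _ = c1 * σ / 2 := by field_simp
        _ < c1 * σ := by
          have : 0 < c1 * σ := by positivity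
          linarith
    · have h1 : min (σ / (4 * C3)) (min (c1 * σ / (2 * L * Bm)) (η / Bm)) ≤ η / Bm :=
        (min_le_right _ _).trans (min_le_right _ _)
      calc _ ≤ η / Bm * Bm := mul_le_mul_of_nonneg_right h1 hBm0.le
        _ = η := by field_simp
  refine ⟨ρ1, C3, hρ, hC30, fun n hn v hv c hcv hit => ?_⟩
  have hBn0 : 0 < ‖B n‖ := norm_pos_iff.2 (cr_ne hc n)
  have hvη : ‖v - v0‖ ≤ η :=
    hv.trans ((mul_le_mul_of_nonneg_left (hBk n) hρ.le).trans hρc)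
  have hsmall : C3 * ‖v - v0‖ ≤ σ * ‖B n‖ / 4 := by
    calc C3 * ‖v - v0‖ ≤ C3 * (ρ1 * ‖B n‖) := mul_le_mul_of_nonneg_left hv hC30.le
      _ = C3 * ρ1 * ‖B n‖ := by ring
      _ ≤ σ / 4 * ‖B n‖ := mul_le_mul_of_nonneg_right hρa hBn0.le
      _ = _ := by ring
  have hCs : ∀ j, (L0 + C2 * L * ∑ k ∈ Finset.range j, ‖B (k + 1)‖) * ‖v - v0‖ ≤
      C3 * ‖v - v0‖ := by
    intro j
    refine mul_le_mul_of_nonneg_right ?_ (norm_nonneg _)
    rw [hC3]
    have := mul_le_mul_of_nonneg_left (hsum j) (by positivity : 0 ≤ C2 * L)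
    linarith
  have hball : ∀ z : ℂ, ‖z - p 1‖ ≤ σ * ‖B n‖ / 4 → z ∈ ball (p 1) (σ * ‖B n‖) := by
    intro z hz
    rw [mem_ball_iff_norm]
    have : 0 < σ * ‖B n‖ := by positivity
    linarith
  have key : ∀ m ≤ n, ∃ w : ℕ → ℂ, w 0 = it v 1 c ∧
      (∀ j ≤ m, it v (j + 1) c = it v0 j (w j)) ∧
      (∀ j ≤ m, ‖w j - p 1‖ ≤ (L0 + C2 * L * ∑ k ∈ Finset.range j, ‖B (k + 1)‖) * ‖v - v0‖) ∧
      ∀ j < m, ‖w (j + 1) - w j‖ ≤ C2 * L * ‖B (j + 1)‖ * ‖v - v0‖ := by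
    intro m
    induction m with
    | zero =>
      intro _
      refine ⟨fun _ => it v 1 c, rfl, ?_, ?_, ?_⟩
      · intro j hj
        have : j = 0 := by omega
        subst this
        rfl
      · intro j hj
        have : j = 0 := by omega
        subst this
        rw [Finset.range_zero, Finset.sum_empty, mul_zero, add_zero]
        exact hit
      · intro j hj
        omega
    | succ m ih =>
      intro hmn
      obtain ⟨w, hw0, hworb, hwn, hws⟩ := ih (by omega)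
      have hw4 : ‖w m - p 1‖ ≤ σ * ‖B n‖ / 4 := (hwn m le_rfl).trans ((hCs m).trans hsmall)
      obtain ⟨y, hy⟩ : ∃ y, y = it v0 m (w m) := ⟨_, rfl⟩
      have hyK : y ∈ K := by
        rw [hy]
        exact hn.stay _ (hball _ hw4) m (by omega)
      obtain ⟨hyd, hyL⟩ := hlip v hvη y hyK
      have hBm1' : 0 < ‖B (m + 1)‖ := norm_pos_iff.2 (cr_ne hc (m + 1))
      obtain ⟨w', hw', hw'n⟩ := hlsv hc hden hσ hn (m + 1) hmn (w m)
        (ev v.1 y / ev v.2 y - ev v0.1 y / ev v0.2 y) hw4 (by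
          refine hyL.trans_lt ?_
          rw [lt_div_iff₀ hBm1']
          calc L * ‖v - v0‖ * ‖B (m + 1)‖ ≤ L * (ρ1 * ‖B n‖) * Bm := by
                refine mul_le_mul (mul_le_mul_of_nonneg_left hv hL.le) (hBk _) (norm_nonneg _)
                  (by positivity)
            _ = L * ρ1 * Bm * ‖B n‖ := by ring
            _ < c1 * σ * ‖B n‖ := mul_lt_mul_of_pos_right hρb hBn0)
      have hstep : ‖w' - w m‖ ≤ C2 * L * ‖B (m + 1)‖ * ‖v - v0‖ := by
        refine hw'n.trans ?_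
        calc C2 * ‖B (m + 1)‖ * ‖ev v.1 y / ev v.2 y - ev v0.1 y / ev v0.2 y‖
            ≤ C2 * ‖B (m + 1)‖ * (L * ‖v - v0‖) :=
              mul_le_mul_of_nonneg_left hyL (by positivity)
          _ = _ := by ring
      refine ⟨Function.update w (m + 1) w', ?_, ?_, ?_, ?_⟩
      · rw [Function.update_of_ne (by omega)]
        exact hw0
      · intro j hj
        rcases Nat.lt_or_ge j (m + 1) with h | h
        · rw [Function.update_of_ne (by omega)]
          exact hworb j (by omega)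
        · have hjm : j = m + 1 := by omega
          subst hjm
          rw [Function.update_self, hw']
          have h1 : it v (m + 1 + 1) c = ev v.1 (it v (m + 1) c) / ev v.2 (it v (m + 1) c) := rfl
          have h2 : it v0 (m + 1) (w m) = ev v0.1 (it v0 m (w m)) / ev v0.2 (it v0 m (w m)) := rfl
          rw [h1, h2, hworb m le_rfl, ← hy]
          ring
      · intro j hj
        rcases Nat.lt_or_ge j (m + 1) with h | h
        · rw [Function.update_of_ne (by omega)]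
          exact hwn j (by omega)
        · have hjm : j = m + 1 := by omega
          subst hjm
          rw [Function.update_self, Finset.sum_range_succ]
          have h1 : w' - p 1 = (w' - w m) + (w m - p 1) := by ring
          rw [h1]
          refine (norm_add_le _ _).trans ?_
          have h2 := hwn m le_rfl
          linarith
      · intro j hj
        rcases Nat.lt_or_ge j m with h | h
        · rw [Function.update_of_ne (by omega), Function.update_of_ne (by omega)]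
          exact hws j h
        · have hjm : j = m := by omega
          subst hjm
          rw [Function.update_self, Function.update_of_ne (by omega)]
          exact hstep
  obtain ⟨w, hw0, hworb, hwn, hws⟩ := key n le_rfl
  refine ⟨w, hw0, fun j hj => ?_, hworb, ?_, fun j hj => ?_⟩
  · have h1 := (hwn j hj).trans (hCs j)
    exact ⟨h1, h1.trans hsmall⟩
  · intro j hj
    cases j with
    | zero => exact hcv
    | succ j =>
      rw [hworb j (by omega)]
      have h1 := (hwn j (by omega)).trans (hCs j)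
      exact (hlip v hvη _ (hn.stay _ (hball _ (h1.trans hsmall)) j (by omega))).1
  · refine (hws j hj).trans ?_
    refine mul_le_mul_of_nonneg_right ?_ (norm_nonneg _)
    exact mul_le_mul_of_nonneg_right hC2L (norm_nonneg _)

end Pool.Agent.H79.MZ
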